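import Mathlib

set_option autoImplicit false

namespace Pool.Agent.Helper97.MX

open Finset
open scoped Pointwise

/-- The data of the proof: a finite set `D` of positive integers, primes `q 0, ..., q (t-1)`
and a nonzero representative `c x` of every `x`. -/
structure Par where
  D : Finset ℕ
  t : ℕ
  q : ℕ → ℕ
  c : ℕ → ℤ

namespace Par

variable (P : Par)

/-- Valuation of `x` at the prime number `i`. -/
def v (i x : ℕ) : ℕ := x.factorization (P.q i)

/-- Assumptions on the set and the primes. -/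
structure Pos : Prop where
  ne : P.D.Nonempty
  pos : ∀ x ∈ P.D, 0 < x
  prime : ∀ i < P.t, (P.q i).Prime
  inj : ∀ i < P.t, ∀ j < P.t, P.q i = P.q j → i = j

/-- Assumptions on the representatives: elements with the same valuations at all the primes
`q i` have the same quotient by their representative. -/
structure OK : Prop where
  base : P.Pos
  c0 : ∀ x ∈ P.D, P.c x ≠ 0
  H : ∀ x ∈ P.D, ∀ y ∈ P.D, (∀ i < P.t, P.v i x = P.v i y) → (x : ℤ) * P.c y = y * P.c x

/-- Number of elements of `D`, as a real number. -/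
def n : ℝ := (#P.D : ℝ)

/-- Same valuations at the first `k` primes. -/
def past (k x y : ℕ) : Prop := ∀ i < k, P.v i x = P.v i y

open Classical in
/-- The elements of `D` with the same past as `x`. -/
noncomputable def grp (k x : ℕ) : Finset ℕ := P.D.filter (fun y => P.past k y x)

open Classical in
/-- Probability of `v k = a` in the group of `x`. -/
noncomputable def pr (k x a : ℕ) : ℝ :=
  (#((P.grp k x).filter (fun y => P.v k y = a)) : ℝ) / #(P.grp k x)

open Classical in
/-- Number of elements of `D` congruent to `a` modulo `M`. -/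
noncomputable def cnt (a M : ℕ) : ℝ := (#(P.D.filter (fun y => y ≡ a [MOD M])) : ℝ)

/-! ### Phase 1 -/

/-- The modulus for which `x` is known from `x + y` after `k` steps. -/
def mL (k x y : ℕ) : ℕ := ∏ i ∈ range k, if P.v i x < P.v i y then P.q i ^ P.v i y else 1

/-- Level `j` is an event for the number `z` (modulus `M`, prime number `k`). -/
def zev (Θ : ℝ) (k z M j : ℕ) : Prop :=
  P.cnt z (M * P.q k ^ (j + 1)) < (1 - 1 / Θ) * P.cnt z (M * P.q k ^ j)

open Classical in
/-- Number of events strictly between the levels `a` and `b`. -/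
noncomputable def zn (Θ : ℝ) (k z M a b : ℕ) : ℕ := #((Ioo a b).filter (fun j => P.zev Θ k z M j))

open Classical in
/-- Weight of a step of phase 1 when `v k x < v k y`. -/
noncomputable def half (Θ g : ℝ) (k x y : ℕ) : ℝ :=
  if P.zev Θ k (x + y) (P.mL k x y) (P.v k y) then
    1 / 8 * (g * (1 - g) ^ P.zn Θ k (x + y) (P.mL k x y) (P.v k x) (P.v k y))
  else 1 / 8 * P.pr k y (P.v k y)

open Classical in
/-- Weight of a step of phase 1. -/
noncomputable def phi1 (Θ g : ℝ) (k x y : ℕ) : ℝ :=
  if P.v k x < P.v k y then P.half Θ g k x y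
  else if P.v k y < P.v k x then P.half Θ g k y x
  else if P.v k (x + y) = P.v k x then 1 / 8
  else 1 / 8 * P.pr k x (P.v k x)

open Classical in
/-- Cost of a tie. -/
noncomputable def tie (k x y : ℕ) : ℝ :=
  if P.v k x = P.v k y then Real.log (1 / P.pr k x (P.v k x)) else 0

open Classical in
/-- Cost of a rare level. -/
noncomputable def rare (Θ : ℝ) (k x y : ℕ) : ℝ :=
  if P.v k x < P.v k y ∧ ¬ P.zev Θ k (x + y) (P.mL k x y) (P.v k y) then
    Real.log (1 / P.pr k y (P.v k y)) else 0

/-- Progress of `x` at step `k`. -/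
noncomputable def prog (k x y : ℕ) : ℝ :=
  Real.log (P.cnt x (P.mL k x y)) - Real.log (P.cnt x (P.mL (k + 1) x y))

/-! ### Phase 2 -/

/-- Exponent of the modulus for the representative: level `a` for `x`, valuation `e` of `x`,
valuation `w` of the representative. -/
def lev (a e w : ℕ) : ℕ := if a ≤ e then 0 else a - e + w

/-- Valuation of the representative. -/
def vc (i x : ℕ) : ℕ := (P.c x).natAbs.factorization (P.q i)

/-- Modulus for the representative of `x` after the steps `ℓ` (last step first). -/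
def Md (ℓ : List ℕ) (x : ℕ) : ℕ :=
  ∏ i ∈ range P.t, P.q i ^ lev (ℓ.count i) (P.v i x) (P.vc i x)

/-- Modulus for `x` after the steps `ℓ`. -/
def Nn (ℓ : List ℕ) : ℕ := ∏ i ∈ range P.t, P.q i ^ ℓ.count i

open Classical in
/-- Number of elements of `D` whose representative is congruent to the one of `x`. -/
noncomputable def W (ℓ : List ℕ) (x : ℕ) : ℝ :=
  (#(P.D.filter (fun y => P.c y ≡ P.c x [ZMOD (P.Md ℓ x : ℤ)])) : ℝ)

/-- The step `k` after `ℓ` is an event for `x`. -/
def ev (Θ : ℝ) (k : ℕ) (ℓ : List ℕ) (x : ℕ) : Prop :=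
  P.W (k :: ℓ) x < (1 - 1 / Θ) * P.W ℓ x

/-- Information content of a step. -/
noncomputable def iota (k : ℕ) (ℓ : List ℕ) (x : ℕ) : ℝ :=
  Real.log (P.W ℓ x) - Real.log (P.W (k :: ℓ) x)

/-- `(y, y')` is in the node of `(x, x')` after the steps `ℓ`. -/
def node (ℓ : List ℕ) (x x' y y' : ℕ) : Prop :=
  y ∈ P.D ∧ y' ∈ P.D ∧ y + y' = x + x' ∧ P.past P.t y x ∧ P.past P.t y' x' ∧
    y ≡ x [MOD P.Nn ℓ]

/-- The node has a pair whose first member has no event. -/
def hv1 (Θ : ℝ) (k : ℕ) (ℓ : List ℕ) (x x' : ℕ) : Prop :=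
  ∃ y y', P.node ℓ x x' y y' ∧ ¬ P.ev Θ k ℓ y

/-- The node has a pair whose second member has no event. -/
def hv2 (Θ : ℝ) (k : ℕ) (ℓ : List ℕ) (x x' : ℕ) : Prop :=
  ∃ y y', P.node ℓ x x' y y' ∧ ¬ P.ev Θ k ℓ y'

open Classical in
/-- Weight of a step of phase 2. -/
noncomputable def phi2 (Θ g : ℝ) (k : ℕ) (ℓ : List ℕ) (x x' : ℕ) : ℝ :=
  if P.ev Θ k ℓ x then
    if P.ev Θ k ℓ x' then
      if P.hv1 Θ k ℓ x x' then g * (P.W (k :: ℓ) x / P.W ℓ x)
      else if P.hv2 Θ k ℓ x x' then g * (P.W (k :: ℓ) x' / P.W ℓ x')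
      else P.W (k :: ℓ) x / P.W ℓ x
    else
      if P.hv1 Θ k ℓ x x' then (1 - g) / 2
      else 1 - g * (1 - P.W (k :: ℓ) x' / P.W ℓ x')
  else
    if P.ev Θ k ℓ x' then
      if P.hv2 Θ k ℓ x x' then (1 - g) / 2
      else 1 - g * (1 - P.W (k :: ℓ) x / P.W ℓ x)
    else 1 - g * (1 - P.W (k :: ℓ) x / P.W ℓ x)

/-- Product of the weights of phase 2. -/
noncomputable def Phi2 (Θ g : ℝ) : List ℕ → ℕ → ℕ → ℝ
  | [], _, _ => 1
  | k :: ℓ, x, x' => Phi2 Θ g ℓ x x' * P.phi2 Θ g k ℓ x x'

open Classical in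
/-- All steps are steps at primes `q i`, `i < t`, whose event has probability at most `p0`. -/
def Good (Θ p0 : ℝ) : List ℕ → Prop
  | [] => True
  | k :: ℓ => k < P.t ∧ Good Θ p0 ℓ ∧ (#(P.D.filter (fun x => P.ev Θ k ℓ x)) : ℝ) ≤ p0 * P.n

open Classical in
/-- Number of events of `x`. -/
noncomputable def nev (Θ : ℝ) : List ℕ → ℕ → ℕ
  | [], _ => 0
  | k :: ℓ, x => nev Θ ℓ x + if P.ev Θ k ℓ x then 1 else 0

open Classical in
/-- The valuation at the prime number `k` is spread: no function of the representative and of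
the previous valuations predicts it with probability more than `1 / K`. -/
def Spread (k K : ℕ) : Prop :=
  ∀ I : ℕ → ℕ, (∀ x ∈ P.D, ∀ y ∈ P.D, P.c x = P.c y → P.past k x y → I x = I y) →
    K * #(P.D.filter (fun x => P.v k x = I x)) ≤ #P.D

/-! ### Product side -/

/-- Information content of the valuation number `k`. -/
noncomputable def jota (k x : ℕ) : ℝ := Real.log (1 / P.pr k x (P.v k x))

open Classical in
/-- Weight of a step for products (`a k` is the frequent valuation at the prime number `k`). -/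
noncomputable def psi (τ t0 : ℝ) (a : ℕ → ℕ) (k x y : ℕ) : ℝ :=
  if t0 < 1 - P.pr k x (a k) then P.pr k y (P.v k y)
  else if t0 < 1 - P.pr k y (a k) then P.pr k x (P.v k x)
  else if P.v k x = a k ∧ P.v k y = a k then 1 - τ * (1 - P.pr k x (a k))
  else if P.v k x = a k ∨ P.v k y = a k then (1 - τ) / 2
  else τ * P.pr k x (P.v k x)

/-- Constant of the product theorem. -/
noncomputable def Cp (τ t0 δ : ℝ) : ℝ :=
  2 * (2 * τ + 1 / Real.log (1 / t0)) + t0 * (Real.log (1 / τ) / Real.log (1 / t0) + 1) +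
    2 * δ / t0

end Par

end Pool.Agent.Helper97.MX
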