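import Mathlib
import Pool.Agent.Helper97.MX.Defs

/-!
# MP_cc0731_co, project MX: statements of the modules

Paper proof: `/team-store/MP_cc0731-MX.md`.  Every statement `StXXX` has its complete proof in
its docstring.  All logarithms are natural.
-/

set_option autoImplicit false

namespace Pool.Agent.Helper97.MX

open Finset
open scoped Pointwise
open Classical

/-- KR (Kraft, two levels).  PROOF.  Let `T` be a set of representatives in `R` of the classes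
of `r` on `R` (for example the image of `R` under a choice function of the finsets
`R.filter (r x)`).  Then `∑_R f h = ∑_{x ∈ T} f x * ∑_{y ∈ R, r x y} h y ≤ ∑_{x ∈ T} f x ≤ 1`,
because the class `{y ∈ R : r x y}` is a set of pairwise related elements. -/
def StKR : Prop :=
  ∀ (R : Finset (ℕ × ℕ)) (r : ℕ × ℕ → ℕ × ℕ → Prop) (f h : ℕ × ℕ → ℝ), Equivalence r →
    (∀ x ∈ R, 0 ≤ f x) → (∀ x ∈ R, ∀ y ∈ R, r x y → f x = f y) →
    (∀ T ⊆ R, (∀ x ∈ T, ∀ y ∈ T, r x y → x = y) → ∑ x ∈ T, f x ≤ 1) →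
    (∀ T ⊆ R, (∀ x ∈ T, ∀ y ∈ T, r x y) → ∑ x ∈ T, h x ≤ 1) →
    ∑ x ∈ R, f x * h x ≤ 1

/-- AG (arithmetic and geometric mean).  PROOF.  `∑_R f = ∑_{z ∈ R.image s} ∑_{s p = z} f p ≤
#(R.image s)`.  By convexity of `exp` (`convexOn_exp.map_sum_le` with weights `1 / #R`) applied
to the numbers `log (f p)`: `exp ((∑ log f p) / #R) ≤ (∑ f p) / #R`. -/
def StAG : Prop :=
  ∀ (R : Finset (ℕ × ℕ)) (s : ℕ × ℕ → ℕ) (f : ℕ × ℕ → ℝ), R.Nonempty → (∀ p ∈ R, 0 < f p) →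
    (∀ z, ∑ p ∈ R.filter (fun p => s p = z), f p ≤ 1) →
    (#R : ℝ) * Real.exp (-(∑ p ∈ R, Real.log (1 / f p)) / #R) ≤ #(R.image s)

/-- MD.  PROOF.  The prime powers `q i ^ v i y` (`i ≤ k`) are pairwise coprime divisors of `y`
(`q` is injective on `i < t`, `Nat.ordProj_dvd`), so their product divides `y`
(`Finset.prod_coprime_dvd` or induction), and `mL k x y * q k ^ j` divides the product. -/
def StMD : Prop :=
  ∀ (P : Par), P.Pos →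
    (∀ k < P.t, ∀ x y j, 0 < y → j ≤ P.v k y → P.mL k x y * P.q k ^ j ∣ y) ∧
    (∀ k ≤ P.t, ∀ x y, 0 < y → P.mL k x y ∣ y)

/-- VZ (valuations of a sum).  PROOF.  `q k ^ (a + 1)` does not divide `x` (`a = v k x`), but it
divides `y`, and `q k ^ a` divides both; so `v k (x + y) = a`. -/
def StVZ : Prop :=
  ∀ (P : Par), P.Pos → ∀ k < P.t, ∀ x y, 0 < x → 0 < y → P.v k x < P.v k y →
    P.v k (x + y) = P.v k x

/-- AVG.  PROOF.  `grp k` is the class function of an equivalence relation on `D`: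
`y ∈ grp k x ↔ x ∈ grp k y` for `x, y ∈ D`, and then `grp k x = grp k y`.  Exchange the sums:
the coefficient of `F y` is `∑_{x ∈ grp k y} 1 / #(grp k x) = 1`. -/
def StAVG : Prop :=
  ∀ (P : Par) (k : ℕ) (F : ℕ → ℝ),
    ∑ x ∈ P.D, (∑ y ∈ P.grp k x, F y) / #(P.grp k x) = ∑ y ∈ P.D, F y

/-- P1H (Kraft sum of the pairs with `v k x < v k y`).  PROOF.  Let `p ∈ T`.  By VZ
`v k p.1 = v k z =: e` for all `p ∈ T`, hence `p ↦ v k p.2` is injective on `T`.  The modulus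
`M = mL k p.1 p.2` is the same for all `p ∈ T` (it is a function of the pasts), and so is the group
`G = grp k p.2`.
(a) The `p ∈ T` with an event at `v k p.2` have weight `g (1-g)^a(p) / 8`,
`a(p) = #{j ∈ (e, v k p.2) : event}`, and `a` is injective on them (if `v k p.2 < v k p'.2` then
`a(p) < a(p')`, because `v k p.2` itself is an event counted in `a(p')` and not in `a(p)`); the
sum is `≤ 1/8 * ∑_i g (1-g)^i ≤ 1/8` (geometric series: `g * ∑_{i<N} (1-g)^i = 1 - (1-g)^N`).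
(b) The others have weight `pr k p.2 (v k p.2) / 8 = #{y ∈ G : v k y = v k p.2} / (8 #G)`, with
different values `v k p.2`: the sum is `≤ 1/8`. -/
def StP1H : Prop :=
  ∀ (P : Par) (Θ g : ℝ), P.Pos → 0 < g → g < 1 → ∀ k < P.t, ∀ (z : ℕ) (T : Finset (ℕ × ℕ)),
    (∀ p ∈ T, p.1 ∈ P.D ∧ p.2 ∈ P.D ∧ p.1 + p.2 = z) →
    (∀ p ∈ T, ∀ p' ∈ T, P.past k p.1 p'.1 ∧ P.past k p.2 p'.2) →
    (∀ p ∈ T, ∀ p' ∈ T, P.v k p.1 = P.v k p'.1 → P.v k p.2 = P.v k p'.2 → p = p') →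
    (∀ p ∈ T, P.v k p.1 < P.v k p.2) →
    ∑ p ∈ T, P.half Θ g k p.1 p.2 ≤ 1 / 4

/-- P1S (Kraft sum of a step of phase 1).  PROOF.  Split `T` into `{v k p.1 < v k p.2}` (sum
`≤ 1/4` by P1H), `{v k p.2 < v k p.1}` (sum `≤ 1/4` by P1H applied to the set of the swapped
pairs) and the ties.  A tie with `v k z = v k p.1` has weight `1/8` and there is at most one (both
valuations are `v k z`).  The other ties have weight `pr k p.1 (v k p.1) / 8` with different values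
`v k p.1` in the same group `grp k p.1`: sum `≤ 1/8`.  Total `≤ 3/4`. -/
def StP1S : Prop :=
  ∀ (P : Par) (Θ g : ℝ), P.Pos → 0 < g → g < 1 → ∀ k < P.t, ∀ (z : ℕ) (T : Finset (ℕ × ℕ)),
    (∀ p ∈ T, p.1 ∈ P.D ∧ p.2 ∈ P.D ∧ p.1 + p.2 = z) →
    (∀ p ∈ T, ∀ p' ∈ T, P.past k p.1 p'.1 ∧ P.past k p.2 p'.2) →
    (∀ p ∈ T, ∀ p' ∈ T, P.v k p.1 = P.v k p'.1 → P.v k p.2 = P.v k p'.2 → p = p') →
    ∑ p ∈ T, P.phi1 Θ g k p.1 p.2 ≤ 1

/-- PO1 (the weights of phase 1 are positive).  PROOF.  `x` is in its own group, so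
`pr k x (v k x) > 0`; `g, 1 - g > 0`. -/
def StPO1 : Prop :=
  ∀ (P : Par) (Θ g : ℝ), 0 < g → g < 1 → ∀ (k x y : ℕ), x ∈ P.D → y ∈ P.D →
    0 < P.phi1 Θ g k x y

/-- P1K (Kraft sum of phase 1).  PROOF.  Induction on `k`.  `k = 0`: two elements of `T` have
the same (empty) past, so `#T ≤ 1`.  Step `k → k + 1`: KR with `R = T`,
`r p p' := past k p.1 p'.1 ∧ past k p.2 p'.2` (an equivalence), `f = ∏_{i<k} phi1 i`,
`h = phi1 k`.  `f` is constant on classes in `T`: `phi1 i p.1 p.2` (`i < k`) depends only on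
`z = p.1 + p.2`, `v i p.1`, `v i p.2`, `mL i p.1 p.2`, `grp i p.1`, `grp i p.2`.  The first
hypothesis on sums is the induction hypothesis, the second is P1S (elements of `T` with the same
`past k` and the same `v k` have the same `past (k+1)`, so they are equal).  Nonnegativity by
PO1. -/
def StP1K : Prop :=
  ∀ (P : Par) (Θ g : ℝ), P.Pos → 0 < g → g < 1 → ∀ k ≤ P.t, ∀ (z : ℕ) (T : Finset (ℕ × ℕ)),
    (∀ p ∈ T, p.1 ∈ P.D ∧ p.2 ∈ P.D ∧ p.1 + p.2 = z) →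
    (∀ p ∈ T, ∀ p' ∈ T, P.past k p.1 p'.1 → P.past k p.2 p'.2 → p = p') →
    ∑ p ∈ T, ∏ i ∈ range k, P.phi1 Θ g i p.1 p.2 ≤ 1

/-- T2A (average cost of ties).  PROOF.  Fix `y ∈ D`, `a = v k y`.  By AVG with
`F x = if v k x = a then log (1 / pr k x a) else 0`:
`∑_{x ∈ D} tie k x y = ∑_{x ∈ D} (1 / #(grp k x)) ∑_{w ∈ grp k x} F w`; for `w ∈ grp k x` one has
`pr k w a = pr k x a`, so the inner average is `u * log (1 / u)` with `u = pr k x a ∈ [0, 1]`, and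
`u * log (1 / u) ≤ 1` (`Real.log_le_sub_one_of_pos` for `1 / u`).  So the sum over `x` is
`≤ #D`. -/
def StT2A : Prop :=
  ∀ (P : Par), P.Pos → ∀ k < P.t, ∑ x ∈ P.D, ∑ y ∈ P.D, P.tie k x y ≤ P.n ^ 2

/-- PG (progress).  PROOF.  `mL k x y ∣ mL (k+1) x y`, so `cnt` decreases, and it is `≥ 1`
because `x` itself is counted (`x ∈ D`).  The sum over `k < t` telescopes
(`Finset.sum_range_sub'`): `log (cnt x (mL 0 x y)) - log (cnt x (mL t x y)) ≤ log n - 0`, with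
`mL 0 x y = 1`. -/
def StPG : Prop :=
  ∀ (P : Par), P.Pos → ∀ x ∈ P.D, ∀ y ∈ P.D,
    (∀ k, 0 ≤ P.prog k x y) ∧ ∑ k ∈ range P.t, P.prog k x y ≤ Real.log P.n

/-- ZP (number of events passed).  PROOF.  Put `M = mL k x y`, `C j = cnt x (M * q k ^ j)`,
`b = v k y`.  By MD `M * q k ^ j ∣ y` for `j ≤ b`, so `x + y ≡ x` modulo `M * q k ^ j` and
`cnt (x + y) (M * q k ^ j) = C j` for `j ≤ b`.  `C` is decreasing and `≥ 1`.  Each of the
`a = zn` events `j` with `v k x < j < b` gives `C (j+1) < (1 - 1/Θ) C j`; so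
`1 ≤ C b ≤ (1 - 1/Θ)^a * C 0`.  As `mL (k+1) x y = M * q k ^ b` (`v k x < v k y`),
`prog k x y = log (C 0) - log (C b) ≥ a * (-log (1 - 1/Θ)) ≥ a / Θ`
(`Real.log_le_sub_one_of_pos`). -/
def StZP : Prop :=
  ∀ (P : Par) (Θ : ℝ), P.Pos → 1 < Θ → ∀ k < P.t, ∀ x ∈ P.D, ∀ y ∈ P.D, P.v k x < P.v k y →
    (P.zn Θ k (x + y) (P.mL k x y) (P.v k x) (P.v k y) : ℝ) ≤ Θ * P.prog k x y

/-- P1C (cost of a step of phase 1, pointwise).  PROOF.  All terms on the right are `≥ 0` (PG;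
`pr ≤ 1`, `pr > 0` for `x, y ∈ D`; `log (1/g) ≥ 0`).  Cases of `phi1`:
`v k x < v k y` with an event at `v k y`: the cost is `log 8 + log (1/g) + a * log (1/(1-g))`,
`log (1/(1-g)) ≤ 2 g` for `g ≤ 1/2`, and `a ≤ Θ * prog k x y` (ZP).  Without an event: the cost is
`log 8 + rare Θ k x y`.  Symmetric for `v k y < v k x` (note `x + y = y + x`).  Tie: the cost is
`log 8` or `log 8 + tie k x y`. -/
def StP1C : Prop :=
  ∀ (P : Par) (Θ g : ℝ), P.Pos → 1 < Θ → 0 < g → g ≤ 1 / 2 → ∀ k < P.t, ∀ x ∈ P.D, ∀ y ∈ P.D,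
    Real.log (1 / P.phi1 Θ g k x y) ≤ Real.log 8 + Real.log (1 / g) + P.tie k x y +
      P.rare Θ k x y + P.rare Θ k y x + 2 * g * Θ * (P.prog k x y + P.prog k y x)

/-- T3A (average cost of the rare levels).  PROOF.  Fix `x ∈ D`.  By AVG (in `y`) it suffices
that for every `y0 ∈ D`, with `G = grp k y0`:
`∑_{y ∈ G} rare Θ k x y ≤ β ∑_{y ∈ G} prog k x y + 2 #G`.
For `y ∈ G` the modulus `M = mL k x y` and the group `grp k y = G` do not depend on `y`.  Put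
`C j = cnt x (M * q k ^ j)` (decreasing, `≥ 1`), `RL = {j : C (j+1) ≤ C j / Θ}`, `rk j =
#{i < j : i ∈ RL}`.  If `rare Θ k x y ≠ 0` then `j = v k y` is in `RL` and `v k x < j`: with
`z = x + y` one has `z ≡ x` modulo `M * q k ^ j` (MD), so `cnt z (M * q k ^ j) = C j`, and no event
means `cnt z (M * q k ^ (j+1)) ≥ (1 - 1/Θ) C j`; `z` and `x` are not congruent modulo
`q k ^ (j+1)` (it does not divide `y`), so the classes of `z` and `x` modulo `M * q k ^ (j+1)` are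
disjoint subsets of the class of `x` modulo `M * q k ^ j`, hence `C (j+1) ≤ C j / Θ`.
For such `y`, with `u = 1 / pr k y j` and `Y = β * rk j * log Θ`, use
`log u ≤ Y + u * exp (-Y)` (from `log (u e^{-Y}) ≤ u e^{-Y}`).
`Y ≤ β (log (C 0) - log (C j)) = β * prog k x y` (each level `i < j` of `RL` divides `C` by at
least `Θ`; `mL (k+1) x y = M * q k ^ j`); `prog ≥ 0` for the other `y` (PG).
`exp (-Y) = Θ^(-β rk j) ≤ 2^(-rk j)`, and
`∑_{y} u exp (-Y) ≤ ∑_{j} #{y ∈ G : v k y = j} * (#G / #{y ∈ G : v k y = j}) * 2^(-rk j)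
≤ #G * ∑_j 2^(-rk j) ≤ 2 #G` (sum over the different values `j ∈ RL`, on which `rk` is injective;
`Real.log`-free geometric series). -/
def StT3A : Prop :=
  ∀ (P : Par) (Θ β : ℝ), P.Pos → 1 < Θ → 0 < β → 2 ≤ Θ ^ β → ∀ k < P.t,
    ∑ x ∈ P.D, ∑ y ∈ P.D, P.rare Θ k x y ≤
      β * (∑ x ∈ P.D, ∑ y ∈ P.D, P.prog k x y) + 2 * P.n ^ 2

/-- P1T (total cost of phase 1).  PROOF.  Sum P1C over `x, y ∈ D` and `k < t`; ties: T2A;
rare: T3A twice (exchange `x, y`); progress: PG (`∑_k prog ≤ log n` for every pair). Total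
`n^2 (t (log 8 + log (1/g) + 1 + 2 + 2) + (2 * 2 g Θ + 2 β) log n)`. -/
def StP1T : Prop :=
  ∀ (P : Par) (Θ g β : ℝ), P.Pos → 1 < Θ → 0 < g → g ≤ 1 / 2 → 0 < β → 2 ≤ Θ ^ β →
    ∑ x ∈ P.D, ∑ y ∈ P.D, ∑ k ∈ range P.t, Real.log (1 / P.phi1 Θ g k x y) ≤
      P.n ^ 2 * (P.t * (Real.log 8 + Real.log (1 / g) + 5) +
        (4 * g * Θ + 2 * β) * Real.log P.n)

/-! ### Phase 2 -/

/-- CNG (congruences for `x` and for the representative).  PROOF.  `x = y` iff `c x = c y` (by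
`H`), so let `x ≠ y`.  From `x * c y = y * c x`: `(x - y) * c x = x * (c x - c y)` in `ℤ`, and
`vc i x = vc i y` for `i < t`.  So for every `i < t`, with `e = v i x`, `w = vc i x`,
`ord (x - y) + w = e + ord (c x - c y)` (`ord` = multiplicity of `q i`).  Let `a = ℓ.count i`.  If
`a ≤ e`: `q i ^ a` divides `x` and `y` (`v i y = v i x`), and `lev = 0`: both conditions hold.  If
`a > e`: `a ≤ ord (x - y)` iff `a - e + w ≤ ord (c x - c y)`, `lev = a - e + w`.  Both moduli are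
products of powers of the distinct primes `q i`, so a congruence is the conjunction of the
congruences modulo the prime powers. -/
def StCNG : Prop :=
  ∀ (P : Par), P.OK → ∀ (ℓ : List ℕ), ∀ x ∈ P.D, ∀ y ∈ P.D, P.past P.t x y →
    (x ≡ y [MOD P.Nn ℓ] ↔ P.c x ≡ P.c y [ZMOD (P.Md ℓ x : ℤ)])

/-- W1.  PROOF.  `lev` is monotone in its first argument, so `Md ℓ x ∣ Md (k :: ℓ) x`; `x` itself
is counted; `W [] x = n` because `Md [] x = 1`. -/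
def StW1 : Prop :=
  ∀ (P : Par), ∀ x ∈ P.D, ∀ (ℓ : List ℕ),
    1 ≤ P.W ℓ x ∧ P.W ℓ x ≤ P.n ∧ P.W [] x = P.n ∧ ∀ k, P.W (k :: ℓ) x ≤ P.W ℓ x

/-- W2.  PROOF.  `vc i x = vc i y` (from `x * c y = y * c x` and the equality of the valuations
of `x` and `y`), so `Md ℓ x = Md ℓ y`; by CNG `c x ≡ c y` modulo `Md ℓ x`; so the two classes
are equal. -/
def StW2 : Prop :=
  ∀ (P : Par), P.OK → ∀ (ℓ : List ℕ), ∀ x ∈ P.D, ∀ y ∈ P.D, P.past P.t x y →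
    x ≡ y [MOD P.Nn ℓ] → P.W ℓ x = P.W ℓ y

/-- W3 (children of a node).  PROOF.  For `x ∈ T` the class `{w ∈ D : c w ≡ c x mod Md (k::ℓ) x}`
is contained in `{w ∈ D : c w ≡ c x0 mod Md ℓ x0}` (`Md ℓ x0 = Md ℓ x ∣ Md (k::ℓ) x` and
`c x ≡ c x0` by CNG), and these classes are pairwise disjoint for different `x, y ∈ T`:
otherwise `c x ≡ c y` modulo `Md (k::ℓ) x = Md (k::ℓ) y`, so `x ≡ y` modulo `Nn (k::ℓ)` by CNG,
so `x = y`. -/
def StW3 : Prop :=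
  ∀ (P : Par), P.OK → ∀ (k : ℕ) (ℓ : List ℕ), ∀ x0 ∈ P.D, ∀ T ⊆ P.D,
    (∀ x ∈ T, P.past P.t x x0 ∧ x ≡ x0 [MOD P.Nn ℓ]) →
    (∀ x ∈ T, ∀ y ∈ T, x ≡ y [MOD P.Nn (k :: ℓ)] → x = y) →
    ∑ x ∈ T, P.W (k :: ℓ) x ≤ P.W ℓ x0

/-- P2S (Kraft sum of a step of phase 2).  PROOF.  `w p = W (k::ℓ) p.1 / W ℓ p.1`,
`w' p = W (k::ℓ) p.2 / W ℓ p.2`.  By W2 the denominators are constant on `T` (`p.1 + p.2 = z`, so
`p.1 ≡ p'.1` iff `p.2 ≡ p'.2`, modulo anything), and by W3 (for the first members and for the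
second members, which are different for different `p` and pairwise incongruent modulo
`Nn (k::ℓ)`) `∑_T w ≤ 1`, `∑_T w' ≤ 1`.  `hv1`, `hv2` are constant on `T`.  If `hv1` is false
then `ev k ℓ p.1` for all `p ∈ T` (take `(y, y') = p`), same for `hv2` and `p.2`.  At most one
`p ∈ T` has no event at `p.1` (two would have `w ≥ 1 - 1/Θ > 1/2`), at most one at `p.2`.
not hv1, not hv2: all weights are `w`: sum `≤ 1`.
hv1, not hv2: the exceptional `h` has weight `1 - g (1 - w h)`, the others `g * w`: sum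
`≤ 1 - g (1 - w h) + g (1 - w h) = 1`; without exceptional `h`: `≤ g ≤ 1`.
not hv1, hv2: the same with `w'`.
hv1, hv2: exceptional `h` (for `p.1`) and `h'` (for `p.2`); if `h = h'` as before; otherwise
their weights are `(1 - g)/2` each and the others `g * w`: sum `≤ 1 - g + g = 1`. -/
def StP2S : Prop :=
  ∀ (P : Par) (Θ g : ℝ), P.OK → 2 < Θ → 0 < g → g < 1 → ∀ k < P.t,
    ∀ (ℓ : List ℕ) (z : ℕ) (T : Finset (ℕ × ℕ)),
    (∀ p ∈ T, p.1 ∈ P.D ∧ p.2 ∈ P.D ∧ p.1 + p.2 = z) →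
    (∀ p ∈ T, ∀ p' ∈ T, P.past P.t p.1 p'.1 ∧ P.past P.t p.2 p'.2 ∧
      p.1 ≡ p'.1 [MOD P.Nn ℓ]) →
    (∀ p ∈ T, ∀ p' ∈ T, p.1 ≡ p'.1 [MOD P.Nn (k :: ℓ)] → p = p') →
    ∑ p ∈ T, P.phi2 Θ g k ℓ p.1 p.2 ≤ 1

/-- PO2 (the weights of phase 2 are positive).  PROOF.  `W ≥ 1` and `W (k::ℓ) x ≤ W ℓ x` by W1,
so `0 < w ≤ 1`; `0 < g < 1`. -/
def StPO2 : Prop :=
  ∀ (P : Par) (Θ g : ℝ), 0 < g → g < 1 → ∀ (ℓ : List ℕ) (x y : ℕ), x ∈ P.D → y ∈ P.D →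
    (∀ k, 0 < P.phi2 Θ g k ℓ x y) ∧ 0 < P.Phi2 Θ g ℓ x y

/-- P2K (Kraft sum of phase 2).  PROOF.  Induction on `ℓ`.  `[]`: `Nn [] = 1`, so `#T ≤ 1`.
`k :: ℓ`: KR with `R = T`, `r p p' := p.1 ≡ p'.1 [MOD Nn ℓ]`, `f = Phi2 ℓ`, `h = phi2 k ℓ`.
`f` is constant on the classes: for a suffix `k' :: ℓ'` of `ℓ` (so `Nn (k'::ℓ') ∣ Nn ℓ`) the
value `phi2 k' ℓ' p.1 p.2` depends only on `W` and `ev` at `p.1`, `p.2` for `ℓ'`, `k'::ℓ'` (W2;
`p.2 ≡ p'.2` because `p.1 + p.2 = z`) and on `hv1`, `hv2`, whose node is the same.  Prove this by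
induction too: if `p ≡ p'` modulo `Nn ℓ` then `Phi2 ℓ` is the same.  The first hypothesis on
sums is the induction hypothesis, the second is P2S. -/
def StP2K : Prop :=
  ∀ (P : Par) (Θ g : ℝ), P.OK → 2 < Θ → 0 < g → g < 1 →
    ∀ (ℓ : List ℕ), (∀ i ∈ ℓ, i < P.t) → ∀ (z : ℕ) (T : Finset (ℕ × ℕ)),
    (∀ p ∈ T, p.1 ∈ P.D ∧ p.2 ∈ P.D ∧ p.1 + p.2 = z) →
    (∀ p ∈ T, ∀ p' ∈ T, P.past P.t p.1 p'.1 ∧ P.past P.t p.2 p'.2) →
    (∀ p ∈ T, ∀ p' ∈ T, p.1 ≡ p'.1 [MOD P.Nn ℓ] → p = p') →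
    ∑ p ∈ T, P.Phi2 Θ g ℓ p.1 p.2 ≤ 1

/-- P2P (cost of a step of phase 2, pointwise).  PROOF.  `ι = iota k ℓ x = log (1/w)`, `ι' =`
the same for `y`, both `≥ 0` (W1).  Event for both: the weight is `w`, `g w` or `g w'`: cost
`≤ log (1/g) + ι + ι'`.  Event for exactly one of them, say for `y` and not for `x` (the other
case is the same): if not `hv2`: cost `-log (1 - g (1-w)) ≤ 2 g (1-w) ≤ 2 g ι` (`-log (1-u) ≤ 2u`
for `0 ≤ u ≤ 1/2`; `1 - w ≤ log (1/w)`).  If `hv2`: cost `log (2/(1-g)) ≤ 1` (`g ≤ 1/4`,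
`8/3 < e`) and `ι' ≥ log Θ`: take `(u, u')` in the node with no event at `u'`; `u' ≡ y` modulo
`Nn ℓ` (as `u + u' = x + y`, `u ≡ x`), so `W ℓ u' = W ℓ y` (W2); `u' ≢ y` modulo `Nn (k::ℓ)`
(otherwise by W2 `W (k::ℓ)` would be equal too, and the event at `y` an event at `u'`), so by W3
with `T = {y, u'}`: `W (k::ℓ) y ≤ W ℓ y - W (k::ℓ) u' ≤ W ℓ y / Θ`.  No event for both:
cost `≤ 2 g ι`. -/
def StP2P : Prop :=
  ∀ (P : Par) (Θ g : ℝ), P.OK → 2 < Θ → 0 < g → g ≤ 1 / 4 → ∀ k < P.t, ∀ (ℓ : List ℕ),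
    ∀ x ∈ P.D, ∀ y ∈ P.D,
    Real.log (1 / P.phi2 Θ g k ℓ x y) ≤
      (if P.ev Θ k ℓ x ∧ P.ev Θ k ℓ y then
        Real.log (1 / g) + P.iota k ℓ x + P.iota k ℓ y else 0) +
      (2 * g + 1 / Real.log Θ) * (P.iota k ℓ x + P.iota k ℓ y)

/-- P2B (both events, average).  PROOF.  Let `E = {x ∈ D : event}`, `#E ≤ p0 n`, and
`S = ∑_{x ∈ D} iota k ℓ x`.  The left side is `#E^2 log (1/g) + 2 #E ∑_{x ∈ E} iota`.
An event gives `iota ≥ -log (1 - 1/Θ) ≥ 1/Θ`, so `#E ≤ Θ ∑_{x ∈ E} iota ≤ Θ S` (`iota ≥ 0` by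
W1); hence the left side is `≤ p0 n (Θ log (1/g) + 2) S`. -/
def StP2B : Prop :=
  ∀ (P : Par) (Θ g p0 : ℝ), P.D.Nonempty → 1 < Θ → 0 < g → g ≤ 1 → 0 < p0 →
    ∀ (k : ℕ) (ℓ : List ℕ),
    (#(P.D.filter (fun x => P.ev Θ k ℓ x)) : ℝ) ≤ p0 * P.n →
    ∑ x ∈ P.D, ∑ y ∈ P.D, (if P.ev Θ k ℓ x ∧ P.ev Θ k ℓ y then
        Real.log (1 / g) + P.iota k ℓ x + P.iota k ℓ y else 0) ≤
      p0 * P.n * (Θ * Real.log (1 / g) + 2) * ∑ x ∈ P.D, P.iota k ℓ x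

/-- P2T (total cost of phase 2).  PROOF.  By induction on `ℓ`, with
`C = 2 (2g + 1/log Θ) + p0 (Θ log (1/g) + 2)`:
`∑_{x,y} log (1 / Phi2 ℓ x y) ≤ n C ∑_x (log n - log (W ℓ x))`.
Step: `log (1 / Phi2 (k::ℓ)) = log (1/Phi2 ℓ) + log (1/phi2 k ℓ)` (PO2), P2P, P2B and
`∑_{x,y} (iota x + iota y) = 2 n ∑_x iota x`; `iota k ℓ x = log (W ℓ x) - log (W (k::ℓ) x)`.  Base:
`W [] x = n` (W1).  At the end `log (W ℓ x) ≥ 0` and `C ≥ 0`. -/
def StP2T : Prop :=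
  ∀ (P : Par) (Θ g p0 : ℝ), P.OK → 2 < Θ → 0 < g → g ≤ 1 / 4 → 0 < p0 →
    ∀ (ℓ : List ℕ), P.Good Θ p0 ℓ →
    ∑ x ∈ P.D, ∑ y ∈ P.D, Real.log (1 / P.Phi2 Θ g ℓ x y) ≤
      P.n ^ 2 * ((2 * (2 * g + 1 / Real.log Θ) + p0 * (Θ * Real.log (1 / g) + 2)) *
        Real.log P.n)

/-- ADD (lower bound for the sumset).  PROOF.  AG with `R = D ×ˢ D`, `s p = p.1 + p.2` (image
`D + D`), `f p = (∏_{i<t} phi1 i p.1 p.2) * Phi2 ℓ p.1 p.2 > 0`.  For the fibre over `z` use KR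
with `r p p' := past t p.1 p'.1 ∧ past t p.2 p'.2`: the first factor is constant on the classes in
the fibre (see P1K), its sum over transversals is `≤ 1` by P1K (`k = t`), and the sum of
`Phi2 ℓ` over a set of pairs in the fibre with the same pasts is `≤ 1` by P2K: two such pairs with
`p.1 ≡ p'.1` modulo `Nn ℓ` have `p.1 = p'.1` because both are `< Nn ℓ`.  The cost is bounded by
P1T and P2T (`log (1/(ab)) = log (1/a) + log (1/b)`). -/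
def StADD : Prop :=
  ∀ (P : Par) (Θ g β p0 : ℝ) (ℓ : List ℕ), P.OK → 2 < Θ → 0 < g → g ≤ 1 / 4 → 0 < β →
    2 ≤ Θ ^ β → 0 < p0 → P.Good Θ p0 ℓ → (∀ x ∈ P.D, x < P.Nn ℓ) →
    P.n ^ 2 * Real.exp (-(P.t * (Real.log 8 + Real.log (1 / g) + 5) +
      (4 * g * Θ + 2 * β + (2 * (2 * g + 1 / Real.log Θ) +
        p0 * (Θ * Real.log (1 / g) + 2))) * Real.log P.n)) ≤ #(P.D + P.D)

/-! ### Choice of the steps -/

/-- EVC (number of events).  PROOF.  By induction `W ℓ x ≤ (1 - 1/Θ)^(nev ℓ x) * n` (W1).  With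
`W ℓ x ≥ 1`: `nev * (-log (1 - 1/Θ)) ≤ log n` and `-log (1 - 1/Θ) ≥ 1/Θ`. -/
def StEVC : Prop :=
  ∀ (P : Par) (Θ : ℝ), 1 < Θ → ∀ x ∈ P.D, ∀ (ℓ : List ℕ),
    (P.nev Θ ℓ x : ℝ) ≤ Θ * Real.log P.n

/-- SGL (one prime).  PROOF.  Put `ℓ_j = replicate j k ++ ℓ`; `ℓ_j.count k = j`
(`k ∉ ℓ`), `ℓ_j.count i = ℓ.count i` for `i ≠ k`, and `= 0` for `i > k`.  So
`Md ℓ_j x = B x * q k ^ lev j (v k x) (vc k x)` with
`B x = ∏_{i<k} q i ^ lev (ℓ.count i) (v i x) (vc i x)`, a function of `c x` and of the past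
(`v i x`, `i < k`).  For `j < v k x` both `lev`s are `0` and there is no event (`W > 0`).  For
`j = v k x + κ` put `m κ = if κ = 0 then 0 else κ + vc k x`; the event at `j` is the property
`Ev x κ : #{w ∈ D : c w ≡ c x mod B x * q k ^ (m (κ+1))} < (1 - 1/Θ) #{w ∈ D : c w ≡ c x mod
B x * q k ^ (m κ)}`, which depends only on `c x`, `past k`, `κ`.
The number of events of `x` among `j < J` is `Y x = #{κ < J - v k x : Ev x κ}`
(`= Nat.count (Ev x) (J - v k x)`), and `nev ℓ_J x - nev ℓ x = Y x`.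
Let `E = {x ∈ D : event at J}`, `#E > p0 n`.  If `x ∈ E` and `Y x = r < R` then `v k x ≤ J`,
`κ = J - v k x` satisfies `Ev x κ` and `Nat.nth (Ev x) r = κ` (`Nat.nth_count`), so
`v k x = I_r x := J - Nat.nth (Ev x) r`; `I_r` is a function of `c x` and the past, so by `Spread`
`K * #{x : v k x = I_r x} ≤ #D`.  Hence `#{x ∈ E : Y x < R} ≤ R #D / K ≤ p0/2 * n`, and
`∑_{x ∈ D} Y x ≥ R * #{x ∈ E : Y x ≥ R} ≥ R * (p0/2) * n`. -/
def StSGL : Prop :=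
  ∀ (P : Par) (Θ p0 : ℝ) (k K R J : ℕ) (ℓ : List ℕ), P.OK → 1 < Θ → 0 < p0 → k < P.t →
    (∀ i ∈ ℓ, i < k) → P.Spread k K → 2 * (R : ℝ) ≤ p0 * K →
    p0 * P.n < #(P.D.filter (fun x => P.ev Θ k (List.replicate J k ++ ℓ) x)) →
    (R : ℝ) * (p0 / 2) * P.n ≤
      ∑ x ∈ P.D, ((P.nev Θ (List.replicate J k ++ ℓ) x : ℝ) - P.nev Θ ℓ x)

/-- CHN (choice of the steps).  PROOF.  Suppose the conclusion is false: every good `ℓ` has
`Nn ℓ ≤ x` for some `x ∈ D`, so `Nn ℓ ≤ B := sup D`.  Claim: for every `m ≤ t` there is a good `ℓ`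
with all its elements `< m` and `#(S ∩ [0,m)) * (R * (p0/2) * n) ≤ ∑_{x ∈ D} nev ℓ x`.
`m = 0`: `ℓ = []`.  Step for `m ∉ S`: the same `ℓ`.  Step for `m ∈ S`: if
`#{x : event at (m, replicate j m ++ ℓ)} ≤ p0 n` for all `j`, then all `replicate j m ++ ℓ` are
good (`m < t`), but `Nn (replicate j m ++ ℓ) ≥ 2^j` is unbounded; contradiction.  So let `J` be
the least `j` with `p0 n < #{...}` (`Nat.find`); `replicate J m ++ ℓ` is good, and SGL gives the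
claim for `m + 1`.  With `m = t`: `#S * (R * (p0/2) * n) ≤ ∑ nev ≤ n * Θ * log n` (EVC), in
contradiction with the last hypothesis. -/
def StCHN : Prop :=
  ∀ (P : Par) (Θ p0 : ℝ) (S : Finset ℕ) (K R : ℕ), P.OK → 1 < Θ → 0 < p0 →
    S ⊆ range P.t → (∀ k ∈ S, P.Spread k K) → 2 * (R : ℝ) ≤ p0 * K →
    Θ * Real.log P.n < #S * (R * (p0 / 2)) →
    ∃ ℓ : List ℕ, P.Good Θ p0 ℓ ∧ ∀ x ∈ P.D, x < P.Nn ℓ

/-- STR (structure lemma).  PROOF.  Prove by induction on `#S` the following.  Let `D1 ⊆ D` be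
nonempty and `S ⊆ range t` such that for every `k < t`, `k ∉ S`, and `x, y ∈ D1` with `c x = c y`
and `past k x y` one has `v k x = v k y`.  Then there are `D' ⊆ D1` nonempty and `S' ⊆ S` with
the same property for `S'`, `#D1 ≤ (∏_{s ∈ Icc (#S'+1) #S} Kap s) * #D'`, and
`({P with D := D'}).Spread k (Kap #S')` for all `k ∈ S'`.  Proof: if all `k ∈ S` are spread for
`D1`, take `D' = D1`, `S' = S`.  Otherwise there are `k ∈ S` and `I`, a function of `c` and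
`past k` on `D1`, with `#D1 < Kap #S * #{x ∈ D1 : v k x = I x}`; apply the induction hypothesis to
this set (nonempty) and `S.erase k`.
Apply this with `S = range t`.  If `S' = ∅` then `x ∈ D'` is determined by `c x` (by induction on
`k` all `v k x = v k y` for `k < t` when `c x = c y`, and then `x * c y = y * c x` gives
`x = y`), so `#D' ≤ #(D.image c)` and `#D ≤ ∏_{s ∈ Icc 1 t} Kap s * #(D.image c)`, contradiction.
(`∏_{Icc (#S'+1) t} ≤ ∏_{Icc 1 t}` because `Kap s ≥ 1`.) -/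
def StSTR : Prop :=
  ∀ (P : Par), P.OK → ∀ Kap : ℕ → ℕ, (∀ s, 1 ≤ Kap s) →
    (∏ s ∈ Icc 1 P.t, Kap s) * #(P.D.image P.c) < #P.D →
    ∃ D' ⊆ P.D, ∃ S ⊆ range P.t, D'.Nonempty ∧ S.Nonempty ∧
      #P.D ≤ (∏ s ∈ Icc 1 P.t, Kap s) * #D' ∧
      ∀ k ∈ S, ({P with D := D'} : Par).Spread k (Kap #S)

/-- KAP (size of the loss).  PROOF.  `L = log N > 0`, `t ≤ c0 L`, `c0 ≤ 1`.  For `1 ≤ s ≤ t`:
`L / s ≥ 1` so `Kap s ≤ C1 (1 + L/s) ≤ 2 C1 L / s`, and `log (Kap s) ≤ 2 sqrt (2 C1 L / s)`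
(`log u = 2 log (sqrt u) ≤ 2 sqrt u`).  `∑_{s=1}^t 1 / sqrt s ≤ 2 sqrt t` (induction).  So
`∑ log (Kap s) ≤ 4 sqrt (2 C1 L t) ≤ 4 sqrt (2 C1 c0) L ≤ κ L`. -/
def StKAP : Prop :=
  ∀ (C1 κ c0 N : ℝ) (t : ℕ) (Kap : ℕ → ℕ), 1 ≤ C1 → 0 < κ → 0 < c0 → c0 ≤ 1 →
    32 * C1 * c0 ≤ κ ^ 2 → 1 < N → (t : ℝ) ≤ c0 * Real.log N → (∀ s, 1 ≤ Kap s) →
    (∀ s ∈ Icc 1 t, (Kap s : ℝ) ≤ C1 * (1 + Real.log N / s)) →
    ((∏ s ∈ Icc 1 t, Kap s : ℕ) : ℝ) ≤ N ^ κ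

/-- PAR (parameters).  PROOF.  `β = ε/40`, `Θ = 2^(1/β)` (so `Θ^β = 2`, `Θ ≥ 2^40 > 2`,
`log Θ = log 2 / β`), `g = ε / (80 Θ)`, `p0 = ε / (16 (Θ log (1/g) + 2))`.  Then
`4 g Θ = ε/20`, `2 β = ε/20`, `4 g ≤ ε/40`, `2 / log Θ = 2 β / log 2 = ε / (20 log 2) ≤ ε/13`
(`log 2 > 0.69`), `p0 (Θ log (1/g) + 2) = ε/16`; the sum is `≤ 0.3 ε`. -/
def StPAR : Prop :=
  ∀ ε : ℝ, 0 < ε → ε ≤ 1 → ∃ Θ g β p0 : ℝ, 2 < Θ ∧ 0 < g ∧ g ≤ 1 / 4 ∧ 0 < β ∧ 2 ≤ Θ ^ β ∧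
    0 < p0 ∧ p0 ≤ 1 ∧
    4 * g * Θ + 2 * β + (2 * (2 * g + 1 / Real.log Θ) +
      p0 * (Θ * Real.log (1 / g) + 2)) ≤ 3 / 10 * ε

/-- SUMA (the sum theorem for data `P`).  PROOF.  Replace `ε, η` by `min ε 1`, `min η 1`
(`n ≥ 1`).  `n = 1`: `#(D+D) ≥ 1`.  Let `n ≥ 2`.  Parameters: `Θ, g, β, p0` from PAR,
`R s = floor (2 Θ log n / (p0 s)) + 1`, `Kap s = ceil (2 R s / p0)` (`≥ 1` since `R ≥ 1`,
`p0 ≤ 1`).  Then `Kap s ≤ C1 (1 + log n / s)` for `s ≥ 1`, with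
`C1 = 4 Θ / p0^2 + 2 / p0 + 1`.  Let
`κ = min ε η / 8`, and `c0 ≤ 1` with `32 C1 c0 ≤ κ^2`,
`c0 (log 8 + log (1/g) + 5) ≤ ε/10`.  KAP with `N = n`: `∏ Kap ≤ n^κ`.  Hence
`∏ Kap * #(image c) ≤ n^(κ + 1 - η) < n` and STR gives `D'`, `S`.  For `P' = {P with D := D'}`:
OK; CHN applies with `K = Kap #S`, `R = R #S`: `2 R ≤ p0 K`, and
`Θ log n' ≤ Θ log n < #S * R * (p0/2)`.  ADD gives
`#(D+D) ≥ #(D'+D') ≥ n'^2 exp (-(t (...) + X log n'))` with `X ≤ 0.3 ε` (PAR),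
`n' ≥ n^(1-κ)`, `n' ≤ n`, `κ ≤ ε/8`: total `≥ n^(2 - ε/4 - ε/10 - 0.3 ε) ≥ n^(2-ε)`. -/
def StSUMA : Prop :=
  ∀ ε η : ℝ, 0 < ε → 0 < η → ∃ c0 : ℝ, 0 < c0 ∧ ∀ (P : Par), P.OK →
    (P.t : ℝ) ≤ c0 * Real.log P.n → (#(P.D.image P.c) : ℝ) ≤ P.n ^ (1 - η) →
    c0 * P.n ^ (2 - ε) ≤ #(P.D + P.D)

/-! ### Final theorems -/

/-- ENU (enumeration of a finite set of primes).  PROOF.  `Finset.equivFin`, or
`q i = Q.toList.getD i 0` with `Finset.nodup_toList`. -/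
def StENU : Prop :=
  ∀ (Q : Finset ℕ), ∃ q : ℕ → ℕ, (∀ i < #Q, q i ∈ Q) ∧
    (∀ i < #Q, ∀ j < #Q, q i = q j → i = j) ∧ ∀ p ∈ Q, ∃ i < #Q, q i = p

/-- SGN (sign class).  PROOF.  One of `A.filter (0 < ·)` and `A.filter (· < 0)` has at least
`#A / 2` elements (`0 ∉ A`); let `D` be its image under `Int.natAbs` (injective on it), `s = 1` or
`s = -1`, so that `s * x ∈ A` for `x ∈ D`.  `D + D` (in `ℕ`) is mapped injectively into `A + A` by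
`x ↦ s * x`, and `D * D` into `A * A` by `x ↦ x` (`(s x)(s y) = x y`). -/
def StSGN : Prop :=
  ∀ (A : Finset ℤ), (0 : ℤ) ∉ A → ∃ (D : Finset ℕ) (s : ℤ), (s = 1 ∨ s = -1) ∧ 0 ∉ D ∧
    #A ≤ 2 * #D ∧ #D ≤ #A ∧ #(D + D) ≤ #(A + A) ∧ #(D * D) ≤ #(A * A) ∧
    ∀ x ∈ D, s * (x : ℤ) ∈ A

/-- The part of `x` prime to the primes in `Q`. -/
def fr (Q : Finset ℕ) (x : ℕ) : ℕ := x / ∏ p ∈ Q, p ^ x.factorization p

/-- FRE (free part).  PROOF.  `u x = ∏_{p ∈ Q} p^(x.factorization p)` divides `x` (coprime prime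
powers) and is positive, so `x = u x * fr Q x`, `fr Q x ≠ 0`, and the valuation of `fr Q x` at a
prime `p` is `0` if `p ∈ Q` and `v_p x` otherwise.  If the valuations of `x` and `y` agree on `Q`
then `u x = u y`, so `x * fr Q y = u x * fr Q x * fr Q y = y * fr Q x`.  If they agree
outside `Q` then `fr Q x` and `fr Q y` have the same valuations everywhere, so they are equal
(`Nat.eq_of_factorization_eq`). -/
def StFRE : Prop :=
  ∀ (Q : Finset ℕ), (∀ p ∈ Q, p.Prime) → ∀ x y : ℕ, 0 < x → 0 < y →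
    fr Q x ≠ 0 ∧
    ((∀ p ∈ Q, x.factorization p = y.factorization p) → x * fr Q y = y * fr Q x) ∧
    ((∀ p : ℕ, p.Prime → p ∉ Q → x.factorization p = y.factorization p) → fr Q x = fr Q y)

/-- LRG (elements in large groups).  PROOF.  `n = P.n`, `r x = #(P.grp P.t x)`, `1 ≤ r x ≤ n` for
`x ∈ D`.  (1) `∑_{x ∈ D} log (r x) ≤ #D2 * log n + n * (η/2) * log n` (for `x ∉ D2`:
`r x < n^(η/2)`), so `η n log n < ...` gives `#D2 > (η/2) n` (`log n > 0`).  (2) Choose for every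
value `u ∈ D2.image h` an element `x_u ∈ D2` with `h x_u = u`; the groups of the `x_u` are
pairwise disjoint (if they meet, `past t x_u x_{u'}`, so `h x_u = h x_{u'}`) subsets of `D` with at
least `n^(η/2)` elements each. -/
def StLRG : Prop :=
  ∀ (P : Par) (η : ℝ) (h : ℕ → ℕ), 1 < P.n → 0 < η → η ≤ 1 →
    (∀ x ∈ P.D, ∀ y ∈ P.D, P.past P.t x y → h x = h y) →
    (η * P.n * Real.log P.n < ∑ x ∈ P.D, Real.log #(P.grp P.t x) →
      η / 2 * P.n ≤ #(P.D.filter (fun x => P.n ^ (η / 2) ≤ (#(P.grp P.t x) : ℝ)))) ∧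
    (#((P.D.filter (fun x => P.n ^ (η / 2) ≤ (#(P.grp P.t x) : ℝ))).image h) : ℝ) *
      P.n ^ (η / 2) ≤ P.n

/-- THA (few cosets of a group of rank at most `c log |A|`).  PROOF.  Replace `ε, η` by `min ε 1`,
`min η 1`.  Let `c1` be the constant of SUMA for `(ε, η/2)`.  For small `#A ≤ N0` the claim holds
with `c ≤ N0^(-2)` because `#(A+A) ≥ #A ≥ 1`.  For large `#A` take `D`, `s` from SGN.  By
`Pool.Agent.Helper18.Rank.exists_det S` there is a set `Q` of at most `#S` primes with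
`Det (pos (closure S)) Q`.  Two elements of `D` with the same `b ∈ B` are related by
`Rel (pos (closure S))` (`s x = b γ`, `s y = b γ'`, so `x / y = γ / γ'` is positive and in the
closure; see the proof in `Pool/Agent/Results/MP_cc0731_co/FewCosets.lean`).  `exists_rep` (`Helper18.Coset`) gives
`c : ℤ → ℤ` for the image of `D` in `ℤ`; let `P` have `D`, `t = #Q`, `q` an enumeration of `Q` (ENU)
and `c` restricted to `ℕ`.  `OK` holds (padicValInt and factorization agree), `#(D.image c) ≤ #B ≤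
(#A)^(1-η) ≤ (2 #D)^(1-η) ≤ (#D)^(1-η/2)` for large `#A`, `t ≤ c log #A ≤ 2 c log #D ≤ c1 log #D`.
So `#(A+A) ≥ c1 (#D)^(2-ε) ≥ c1 (#A)^(2-ε) / 4`. -/
def StTHA : Prop :=
  ∀ ε η : ℝ, 0 < ε → 0 < η → ∃ c : ℝ, 0 < c ∧ ∀ (A : Finset ℤ), A.Nonempty → (0 : ℤ) ∉ A →
    ∀ (S : Finset ℚˣ), (#S : ℝ) ≤ c * Real.log #A → ∀ (B : Finset ℚ),
    (∀ a ∈ A, ∃ b ∈ B, ∃ γ ∈ Subgroup.closure (S : Set ℚˣ), (a : ℚ) = b * ((γ : ℚˣ) : ℚ)) →
    (#B : ℝ) ≤ (#A : ℝ) ^ (1 - η) → c * (#A : ℝ) ^ (2 - ε) ≤ #(A + A)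

/-- PKS (Kraft sum of a step for products).  PROOF.  The groups `G = grp k p.1`, `G' = grp k p.2`
and so `f = 1 - pr k p.1 (a k)`, `f' = 1 - pr k p.2 (a k)` are the same for all `p ∈ T`.  All
`p ∈ T` have different `v k p.1`, and different `v k p.2` (the sum `s` is fixed).  If `t0 < f`:
`∑ pr k p.2 (v k p.2) ≤ 1`.  If `t0 < f'`: `∑ pr k p.1 (v k p.1) ≤ 1`.  Otherwise: if
`s = 2 (a k)` there is at most one `p` with `v k p.1 = a k` or `v k p.2 = a k`, it has both and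
weight `1 - τ f`, the others sum to at most `τ * ∑_{e ≠ a k} pr = τ f`.  If `s ≠ 2 (a k)` no
`p` has both, at most two have one of them (weight `(1-τ)/2`), the others sum to at most `τ`. -/
def StPKS : Prop :=
  ∀ (P : Par) (τ t0 : ℝ) (a : ℕ → ℕ), 0 < τ → τ < 1 → ∀ (k s : ℕ) (T : Finset (ℕ × ℕ)),
    (∀ p ∈ T, p.1 ∈ P.D ∧ p.2 ∈ P.D ∧ P.v k p.1 + P.v k p.2 = s) →
    (∀ p ∈ T, ∀ p' ∈ T, P.past k p.1 p'.1 ∧ P.past k p.2 p'.2) →
    (∀ p ∈ T, ∀ p' ∈ T, P.v k p.1 = P.v k p'.1 → p = p') →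
    ∑ p ∈ T, P.psi τ t0 a k p.1 p.2 ≤ 1

/-- PO3 (positive weights).  PROOF.  `pr k x (v k x) > 0` for `x ∈ D`; `1 - pr ∈ [0,1]`, so
`1 - τ (1 - pr) ≥ 1 - τ > 0`. -/
def StPO3 : Prop :=
  ∀ (P : Par) (τ t0 : ℝ) (a : ℕ → ℕ), 0 < τ → τ < 1 → ∀ (k x y : ℕ), x ∈ P.D → y ∈ P.D →
    0 < P.psi τ t0 a k x y

/-- PKK (Kraft sum for products).  PROOF.  Induction on `k` with KR as in P1K:
`r p p' := past k p.1 p'.1 ∧ past k p.2 p'.2`; `psi i` depends only on the pasts and on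
`v i p.1`, `v i p.2`; if `p.1 * p.2 = z` then `v i p.1 + v i p.2 = v i z`
(`Nat.factorization_mul`), and PKS. -/
def StPKK : Prop :=
  ∀ (P : Par) (τ t0 : ℝ) (a : ℕ → ℕ), P.Pos → 0 < τ → τ < 1 → ∀ (k z : ℕ)
    (T : Finset (ℕ × ℕ)),
    (∀ p ∈ T, p.1 ∈ P.D ∧ p.2 ∈ P.D ∧ p.1 * p.2 = z) →
    (∀ p ∈ T, ∀ p' ∈ T, P.past k p.1 p'.1 → P.past k p.2 p'.2 → p = p') →
    ∑ p ∈ T, ∏ i ∈ range k, P.psi τ t0 a i p.1 p.2 ≤ 1

/-- PCP (cost of a step for products, pointwise).  PROOF.  `ι = jota k x = log (1/μ)`,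
`μ = pr k x (v k x)`, `ι' = jota k y`, both `≥ 0`; `f = 1 - pr k x (a k)`, `f'` same for `y`;
`l = log (1/t0) > 0`.  `t0 < f`: cost `ι'`.  `f ≤ t0 < f'`: cost `ι`.  Otherwise:
both equal to `a k`: cost `-log (1 - τ f) ≤ 2 τ f ≤ 2 τ ι` (`τ f ≤ 1/2`;
`f = 1 - μ ≤ log (1/μ)`).  Exactly one, say `v k x = a k ≠ v k y`: cost `log (2/(1-τ)) ≤ 1`
(`τ ≤ 1/4`) and `μ' ≤ f' ≤ t0` so `ι' ≥ l`; cost `≤ ι' / l`.  None: cost `log (1/τ) + ι`. -/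
def StPCP : Prop :=
  ∀ (P : Par) (τ t0 : ℝ) (a : ℕ → ℕ), 0 < τ → τ ≤ 1 / 4 → 0 < t0 → t0 < 1 →
    ∀ (k x y : ℕ), x ∈ P.D → y ∈ P.D →
    Real.log (1 / P.psi τ t0 a k x y) ≤
      (2 * τ + 1 / Real.log (1 / t0)) * (P.jota k x + P.jota k y) +
      (if P.v k x ≠ a k ∧ P.v k y ≠ a k ∧ 1 - P.pr k x (a k) ≤ t0 ∧
        1 - P.pr k y (a k) ≤ t0 then Real.log (1 / τ) + P.jota k x else 0) +
      (if t0 < 1 - P.pr k x (a k) then P.jota k y else 0) +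
      (if t0 < 1 - P.pr k y (a k) then P.jota k x else 0)

/-- PA1 (large deviations are rare).  PROOF.  By AVG with `F x = if v k x ≠ a k then 1 else 0`:
`#{x ∈ D : v k x ≠ a k} = ∑_{x ∈ D} (1 - pr k x (a k)) ≥ t0 * #{x ∈ D : t0 < 1 - pr k x (a k)}`. -/
def StPA1 : Prop :=
  ∀ (P : Par) (t0 δ : ℝ) (a : ℕ → ℕ) (k : ℕ), 0 < t0 →
    (#(P.D.filter (fun x => P.v k x ≠ a k)) : ℝ) ≤ δ * P.n →
    (#(P.D.filter (fun x => t0 < 1 - P.pr k x (a k))) : ℝ) ≤ δ / t0 * P.n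

/-- PA2 (both deviate, average).  PROOF.  Let `E = {x ∈ D : v k x ≠ a k, 1 - pr k x (a k) ≤ t0}`.
The left side is `#E * ∑_{x ∈ E} (log (1/τ) + jota k x)`.  By AVG with the indicator of `E`:
`#E = ∑_{x ∈ D} [f x ≤ t0] f x ≤ t0 n` (`f x = 1 - pr k x (a k)` is constant on groups).  For
`x ∈ E`: `pr k x (v k x) ≤ f x ≤ t0`, so `jota k x ≥ log (1/t0)` and
`log (1/τ) + jota k x ≤ (log (1/τ) / log (1/t0) + 1) * jota k x`; `jota ≥ 0` on `D`. -/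
def StPA2 : Prop :=
  ∀ (P : Par) (τ t0 : ℝ) (a : ℕ → ℕ) (k : ℕ), 0 < τ → τ ≤ 1 / 4 → 0 < t0 → t0 < 1 →
    ∑ x ∈ P.D, ∑ y ∈ P.D, (if P.v k x ≠ a k ∧ P.v k y ≠ a k ∧ 1 - P.pr k x (a k) ≤ t0 ∧
        1 - P.pr k y (a k) ≤ t0 then Real.log (1 / τ) + P.jota k x else 0) ≤
      t0 * P.n * (Real.log (1 / τ) / Real.log (1 / t0) + 1) * ∑ x ∈ P.D, P.jota k x

/-- PTL (chain rule).  PROOF.  `{y ∈ grp k x : v k y = v k x} = grp (k+1) x`, so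
`jota k x = log #(grp k x) - log #(grp (k+1) x)`; telescope; `grp 0 x = D`. -/
def StPTL : Prop :=
  ∀ (P : Par), ∀ x ∈ P.D, (∀ k, 0 ≤ P.jota k x) ∧
    ∀ m, ∑ k ∈ range m, P.jota k x = Real.log P.n - Real.log #(P.grp m x)

/-- PRD (lower bound for the product set).  PROOF.  AG with `R = D ×ˢ D`, `s p = p.1 * p.2` (image
`D * D`), `f p = (∏_{i<t} psi i p.1 p.2) * (1 / (#(grp t p.1) * #(grp t p.2)))`.  Fibres: KR with
`r p p' := past t p.1 p'.1 ∧ past t p.2 p'.2`, PKK, and the sum of the second factor over a set of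
related pairs is at most `#G * #G' / (#G * #G') = 1`.  The cost is
`∑ log (1/psi) + log #(grp t x) + log #(grp t y)`; by PCP, PA1, PA2, PO3 and PTL
`∑_{x,y} ∑_k log (1/psi) ≤ ∑_k (2 n (2τ + 1/log (1/t0)) + t0 n (...) + 2 (δ/t0) n) ∑_x jota k x
= n * Cp * ∑_x ∑_k jota k x ≤ Cp n^2 log n` (for the sum over `x, y` of
`[t0 < f x] jota k y` use PA1: `≤ (δ/t0) n ∑_y jota k y`). -/
def StPRD : Prop :=
  ∀ (P : Par) (τ t0 δ : ℝ) (a : ℕ → ℕ), P.Pos → 0 < τ → τ ≤ 1 / 4 → 0 < t0 → t0 < 1 → 0 ≤ δ →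
    (∀ k < P.t, (#(P.D.filter (fun x => P.v k x ≠ a k)) : ℝ) ≤ δ * P.n) →
    P.n ^ 2 * Real.exp (-(Par.Cp τ t0 δ * Real.log P.n +
      2 / P.n * ∑ x ∈ P.D, Real.log #(P.grp P.t x))) ≤ #(P.D * P.D)

/-- CPE (parameters of the product theorem).  PROOF.  Let `ε ≤ 1` (otherwise replace `ε` by `1`).
`τ = ε/64`, `l = 64/ε`, `t0 = exp (-l)` (so `log (1/t0) = l`), `δ = ε t0 / 8`.  Then
`log (1/τ) = log l ≤ l`, so `t0 (log (1/τ) / l + 1) ≤ 2 exp (-l) ≤ 2/l = ε/32`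
(`exp l ≥ l`), and the sum is `≤ 4 τ + 2/l + ε/32 + ε/4 = ε (1/16 + 1/32 + 1/32 + 1/4) ≤ ε`. -/
def StCPE : Prop :=
  ∀ ε : ℝ, 0 < ε → ∃ τ t0 δ : ℝ, 0 < τ ∧ τ ≤ 1 / 4 ∧ 0 < t0 ∧ t0 < 1 ∧ 0 < δ ∧ δ < 1 ∧
    Par.Cp τ t0 δ ≤ ε

/-- THN (mixed primes, sets of positive integers).  PROOF.  Let `ε ≤ 1`, `η = ε/8`; CPE with `ε/4`
gives `τ, t0, δ`.  Let `c1` be the constant of SUMA for `(ε/2, η/4)`.  Small `#A` as in THA.
Let `q` enumerate (ENU) the primes `p ∉ M` which divide an element of `A` (`t` of them,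
`P.c = 0`, `a k` the frequent valuation), `r x = #(P.grp P.t x)`.  PRD: if `∑_x log (r x) ≤ η n log n` then
`#(A * A) ≥ n^(2 - ε/4 - 2η) = n^(2 - ε/2)`.  Otherwise let `D2 = {x ∈ A : n^(η/2) ≤ r x}`; by
LRG with `h = fr M` (FRE: `fr M x = fr M y` if `past t x y`, because then `x` and `y` have the
same valuations at all primes outside `M`) `#D2 ≥ (η/2) n` and the number of values of `fr M` on
`D2` is `≤ n^(1-η/2) ≤ (2/η * #D2)^(1-η/2) ≤ (#D2)^(1-η/4)` for large `n`.  SUMA for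
`P2 = (D2, #M, enumeration of M, fr M)` (`OK` by FRE; `#M ≤ c log n ≤ c1 log #D2`) gives
`#(A+A) ≥ #(D2+D2) ≥ c1 ((η/2) n)^(2 - ε/2)`. -/
def StTHN : Prop :=
  ∀ ε : ℝ, 0 < ε → ∃ δ c : ℝ, 0 < δ ∧ δ < 1 ∧ 0 < c ∧ ∀ (A : Finset ℕ), A.Nonempty → 0 ∉ A →
    ∀ (M : Finset ℕ), (∀ p ∈ M, p.Prime) →
    (∀ p : ℕ, p.Prime → p ∉ M →
      ∃ i, (#(A.filter (fun x => x.factorization p ≠ i)) : ℝ) ≤ δ * #A) →
    (#M : ℝ) ≤ c * Real.log #A →
    c * (#A : ℝ) ^ (2 - ε) ≤ max (#(A + A) : ℝ) (#(A * A) : ℝ)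

/-- THB (mixed primes).  PROOF.  Let `δ1, c1` be the constants of THN for `min ε 1`, `δ = δ1 / 2`.
Take `D`, `s` from SGN.  For a prime `p ∉ M` and the
`i` of the hypothesis `#{a ∈ A : v_p a ≠ i} ≤ δ #A`, so `#{x ∈ D : v_p x ≠ i} ≤ 2 δ #D = δ1 #D`.
`#M ≤ c log #A ≤ 2 c log #D` for `#A ≥ 4`; small `#A` are handled by the constant.  (Primes in `M`:
replace `M` by `M.filter Nat.Prime`.) -/
def StTHB : Prop :=
  ∀ ε : ℝ, 0 < ε → ∃ δ c : ℝ, 0 < δ ∧ δ < 1 ∧ 0 < c ∧ ∀ (A : Finset ℤ), A.Nonempty →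
    (0 : ℤ) ∉ A → ∀ (M : Finset ℕ),
    (∀ p : ℕ, p.Prime → p ∉ M →
      ∃ i, (1 - δ) * (#A : ℝ) ≤ #(A.filter (fun x => padicValInt p x = i))) →
    (#M : ℝ) ≤ c * Real.log #A →
    c * (#A : ℝ) ^ (2 - ε) ≤ max (#(A + A) : ℝ) (#(A * A) : ℝ)

/-! ### The final theorem in terms of homomorphisms (contains THB) -/

/-- The nonzero rational number attached to a nonzero integer. -/
noncomputable def un (x : ℤ) : ℚˣ := if h : (x : ℚ) ≠ 0 then Units.mk0 (x : ℚ) h else 1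

/-- The homomorphism `φ` takes some value on at least `(1 - δ) |A|` elements of `A`. -/
def Frozen (δ : ℝ) (A : Finset ℤ) (φ : ℚˣ →* Multiplicative ℤ) : Prop :=
  ∃ i : Multiplicative ℤ, (1 - δ) * (#A : ℝ) ≤ #(A.filter (fun a => φ (un a) = i))

/-- EMB (homomorphisms become valuations).  PROOF.  Let `q 0 < q 1 < ...` be primes larger than
all elements of `D` (`Nat.exists_infinite_primes`), `N` at least all `|φ i (un x)|`
(`i < m`, `x ∈ D`), and `g x = x * ∏_{i<m} q i ^ (φ i (un x) + N).toNat`.  The valuation of `g x` at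
`q i` is `φ i (un x) + N` (`x` is not divisible by `q i`).  `g` is injective on `D`: the
valuations at the primes `< q 0` of `g x` are those of `x` (or: `x` is the part of `g x` prime to
the `q i`).  For `x, y ∈ D`: `g x * g y = x y * ∏ q i ^ (φ i (un (x y)) + 2 N)` is a function of
`x * y` (`un (x y) = un x * un y`), so `#(g(D) * g(D)) ≤ #(D * D)`. -/
def StEMB : Prop :=
  ∀ (D : Finset ℕ) (m : ℕ) (φ : ℕ → (ℚˣ →* Multiplicative ℤ)), 0 ∉ D →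
    ∃ (q : ℕ → ℕ) (N : ℤ) (g : ℕ → ℕ), (∀ i < m, (q i).Prime) ∧
      (∀ i < m, ∀ j < m, q i = q j → i = j) ∧
      (∀ x ∈ D, ∀ y ∈ D, g x = g y → x = y) ∧ (∀ x ∈ D, 0 < g x) ∧
      (∀ x ∈ D, ∀ i < m, ((g x).factorization (q i) : ℤ) =
        Multiplicative.toAdd (φ i (un (x : ℤ))) + N) ∧
      #((D.image g) * (D.image g)) ≤ #(D * D)

/-- THC (final theorem).  PROOF.  Let `ε ≤ 1` (otherwise replace it by `1`), `η = ε/8`; CPE with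
`ε/4` gives `τ, t0, δ1`; `δ = δ1 / 2`.  Let `c1` be the constant of THA for `(ε/2, η/4)`.  Small
`#A` as in THA.  Take `D`, `s` from SGN, `n = #D ≥ #A / 2`.  (`φ (un (s x)) = φ (un x)`, because
`φ (-1) ^ 2 = 1` and `ℤ` has no torsion.)  For every pair `x, y ∈ D` such that
`un x / un y` is not in `± closure S` choose a frozen `φ` with `φ (un x) ≠ φ (un y)`
(`φ (un x / un y) ≠ 1`); let `φ 0, ..., φ (m-1)` be the chosen ones (if there is none, `m = 0`).  So: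
(*) if `φ i (un x) = φ i (un y)` for all `i < m` then `un x / un y ∈ ± closure S`.
EMB gives `q`, `N`, `g`.  Let `P = (D := D.image g, t := m, q, c := 0)` (`Pos` holds),
`a i = ` the frozen value of `φ i`, plus `N` (as a natural number, if it is taken):
`#{y ∈ P.D : v i y ≠ a i} = #{x ∈ D : φ i (un x) ≠ frozen value} ≤ δ #A ≤ δ1 n` (if `n` is large the
frozen value is taken, since `δ1 < 1`).  PRD: if `∑_{y ∈ P.D} log #(grp m y) ≤ η n log n` then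
`#(A * A) ≥ #(D * D) ≥ #(P.D * P.D) ≥ n^(2 - ε/4 - 2η) = n^(2-ε/2)`.  Otherwise apply LRG with
`h y =` a representative `x0 ∈ D` of the class of `y` (`h (g x) = h (g x')` if all `φ i` agree
at `x, x'`; for example the least element of `D` with the same `φ i`): the set
`D2 = {x ∈ D : n^(η/2) ≤ #(grp m (g x))}` has `#D2 ≥ (η/2) n` and the set `B0` of the
representatives of its elements has `#B0 ≤ n^(1-η/2)`.  By (*) every `x ∈ D2` is `b γ` or `-b γ`,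
`b ∈ B0`, `γ ∈ closure S`, so `B = B0 ∪ -B0` (in `ℚ`) works in THA for the set `D2` in `ℤ`:
`#B ≤ 2 n^(1-η/2) ≤ 2 (2/η * #D2)^(1-η/2) ≤ (#D2)^(1-η/4)` for large `n`,
`#S ≤ c log #A ≤ c1 log #D2`.  So `#(A+A) ≥ #(D+D) ≥ #(D2+D2) ≥ c1 (#D2)^(2-ε/2)
≥ c1 ((η/4) #A)^(2-ε/2)`. -/
def StTHC : Prop :=
  ∀ ε : ℝ, 0 < ε → ∃ δ c : ℝ, 0 < δ ∧ δ < 1 ∧ 0 < c ∧ ∀ (A : Finset ℤ), A.Nonempty →
    (0 : ℤ) ∉ A → ∀ (S : Finset ℚˣ), (#S : ℝ) ≤ c * Real.log #A →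
    (∀ u : ℚˣ, (∀ φ : ℚˣ →* Multiplicative ℤ, Frozen δ A φ → φ u = 1) →
      u ∈ Subgroup.closure (S : Set ℚˣ) ∨ -u ∈ Subgroup.closure (S : Set ℚˣ)) →
    c * (#A : ℝ) ^ (2 - ε) ≤ max (#(A + A) : ℝ) (#(A * A) : ℝ)

end Pool.Agent.Helper97.MX
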