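import Mathlib
import Pool.Agent.Helper97.MX.St

set_option autoImplicit false

namespace Pool.Agent.Helper97.MX

open Finset Classical
open scoped Pointwise

private lemma past_symm_ADD (P : Par) {k x y : ℕ} (h : P.past k x y) : P.past k y x :=
  fun i hi => (h i hi).symm

private lemma past_trans_ADD (P : Par) {k x y z : ℕ} (h : P.past k x y) (h' : P.past k y z) :
    P.past k x z := fun i hi => (h i hi).trans (h' i hi)

private lemma past_mono_ADD (P : Par) {k l x y : ℕ} (hkl : k ≤ l) (h : P.past l x y) :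
    P.past k x y := fun i hi => h i (lt_of_lt_of_le hi hkl)

private lemma mL_congr_ADD (P : Par) {k x y x' y' : ℕ} (h1 : P.past k x x')
    (h2 : P.past k y y') : P.mL k x y = P.mL k x' y' := by
  unfold Par.mL
  refine prod_congr rfl ?_
  intro i hi
  rw [h1 i (mem_range.1 hi), h2 i (mem_range.1 hi)]

private lemma grp_congr_ADD (P : Par) {k x x' : ℕ} (h : P.past k x x') :
    P.grp k x = P.grp k x' := by
  unfold Par.grp
  refine filter_congr ?_
  intro y _
  exact ⟨fun h' => past_trans_ADD P h' h, fun h' => past_trans_ADD P h' (past_symm_ADD P h)⟩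

private lemma pr_congr_ADD (P : Par) {k x x' : ℕ} (h : P.past k x x') (a : ℕ) :
    P.pr k x a = P.pr k x' a := by
  unfold Par.pr
  rw [grp_congr_ADD P h]

private lemma half_congr_ADD (P : Par) (Θ g : ℝ) {k x y x' y' : ℕ} (hz : x + y = x' + y')
    (h1 : P.past (k + 1) x x') (h2 : P.past (k + 1) y y') :
    P.half Θ g k x y = P.half Θ g k x' y' := by
  have e1 : P.v k x = P.v k x' := h1 k (Nat.lt_succ_self k)
  have e2 : P.v k y = P.v k y' := h2 k (Nat.lt_succ_self k)
  have h1' := past_mono_ADD P (Nat.le_succ k) h1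
  have h2' := past_mono_ADD P (Nat.le_succ k) h2
  unfold Par.half
  rw [hz, e1, e2, mL_congr_ADD P h1' h2', pr_congr_ADD P h2']

private lemma phi1_congr_ADD (P : Par) (Θ g : ℝ) {k x y x' y' : ℕ} (hz : x + y = x' + y')
    (h1 : P.past (k + 1) x x') (h2 : P.past (k + 1) y y') :
    P.phi1 Θ g k x y = P.phi1 Θ g k x' y' := by
  have e1 : P.v k x = P.v k x' := h1 k (Nat.lt_succ_self k)
  have e2 : P.v k y = P.v k y' := h2 k (Nat.lt_succ_self k)
  have h1' := past_mono_ADD P (Nat.le_succ k) h1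
  have hz' : y + x = y' + x' := by omega
  unfold Par.phi1
  rw [half_congr_ADD P Θ g hz h1 h2, half_congr_ADD P Θ g hz' h2 h1, hz, e1, e2,
    pr_congr_ADD P h1']

private lemma good_lt_ADD (P : Par) (Θ p0 : ℝ) : ∀ ℓ : List ℕ, P.Good Θ p0 ℓ →
    ∀ i ∈ ℓ, i < P.t := by
  intro ℓ
  induction ℓ with
  | nil => intro _ i hi; simp at hi
  | cons k ℓ ih =>
    intro h i hi
    obtain ⟨h1, h2, _⟩ := h
    rcases List.mem_cons.1 hi with rfl | hi
    · exact h1
    · exact ih h2 i hi

/-- Lower bound for the sumset. -/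
theorem hADD (hAG : StAG) (hKR : StKR) (hP1K : StP1K) (hPO1 : StPO1) (hP1T : StP1T)
    (hP2K : StP2K) (hPO2 : StPO2) (hP2T : StP2T) : StADD := by
  intro P Θ g β p0 ℓ hOK hΘ hg0 hg4 hβ hΘβ hp0 hGood hlt
  have hg1 : g < 1 := by linarith
  have hg2 : g ≤ 1 / 2 := by linarith
  have hPos := hOK.base
  have hne : P.D.Nonempty := hPos.ne
  have hn : (0 : ℝ) < P.n := by
    unfold Par.n
    exact_mod_cast hne.card_pos
  set E : ℝ := P.t * (Real.log 8 + Real.log (1 / g) + 5) +
      (4 * g * Θ + 2 * β + (2 * (2 * g + 1 / Real.log Θ) +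
        p0 * (Θ * Real.log (1 / g) + 2))) * Real.log P.n with hE
  set f1 : ℕ × ℕ → ℝ := fun p => ∏ i ∈ range P.t, P.phi1 Θ g i p.1 p.2 with hf1
  set f2 : ℕ × ℕ → ℝ := fun p => P.Phi2 Θ g ℓ p.1 p.2 with hf2
  have hf1pos : ∀ p ∈ P.D ×ˢ P.D, 0 < f1 p := by
    intro p hp
    rw [mem_product] at hp
    exact prod_pos fun i _ => hPO1 P Θ g hg0 hg1 i p.1 p.2 hp.1 hp.2
  have hf2pos : ∀ p ∈ P.D ×ˢ P.D, 0 < f2 p := by
    intro p hp
    rw [mem_product] at hp
    exact (hPO2 P Θ g hg0 hg1 ℓ p.1 p.2 hp.1 hp.2).2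
  have key := hAG (P.D ×ˢ P.D) (fun p => p.1 + p.2) (fun p => f1 p * f2 p)
    (hne.product hne) (fun p hp => mul_pos (hf1pos p hp) (hf2pos p hp)) ?_
  · -- conclusion
    have hcard : (#(P.D ×ˢ P.D) : ℝ) = P.n ^ 2 := by
      unfold Par.n
      rw [card_product]
      push_cast
      ring
    have himg : (P.D ×ˢ P.D).image (fun p => p.1 + p.2) = P.D + P.D := by
      rw [Finset.add_def]
    rw [himg, hcard] at key
    refine le_trans ?_ key
    have hcost : ∑ p ∈ P.D ×ˢ P.D, Real.log (1 / (f1 p * f2 p)) ≤ P.n ^ 2 * E := by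
      have h1 : ∀ p ∈ P.D ×ˢ P.D, Real.log (1 / (f1 p * f2 p)) =
          ∑ k ∈ range P.t, Real.log (1 / P.phi1 Θ g k p.1 p.2) +
            Real.log (1 / P.Phi2 Θ g ℓ p.1 p.2) := by
        intro p hp
        have a1 := hf1pos p hp
        have a2 := hf2pos p hp
        rw [one_div, Real.log_inv, Real.log_mul a1.ne' a2.ne']
        have a3 : Real.log (f1 p) = ∑ k ∈ range P.t, Real.log (P.phi1 Θ g k p.1 p.2) := by
          rw [hf1]
          refine Real.log_prod (fun i _ => ?_)
          rw [mem_product] at hp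
          exact (hPO1 P Θ g hg0 hg1 i p.1 p.2 hp.1 hp.2).ne'
        have a4 : ∑ k ∈ range P.t, Real.log (1 / P.phi1 Θ g k p.1 p.2) =
            -∑ k ∈ range P.t, Real.log (P.phi1 Θ g k p.1 p.2) := by
          rw [← sum_neg_distrib]
          refine sum_congr rfl fun i _ => ?_
          rw [one_div, Real.log_inv]
        rw [a3, a4, one_div, Real.log_inv]
        ring
      rw [sum_congr rfl h1, sum_add_distrib, sum_product, sum_product]
      have b1 := hP1T P Θ g β hPos (by linarith) hg0 hg2 hβ hΘβ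
      have b2 := hP2T P Θ g p0 hOK hΘ hg0 hg4 hp0 ℓ hGood
      refine le_trans (add_le_add b1 b2) (le_of_eq ?_)
      rw [hE]
      ring
    have hn2 : (0 : ℝ) < P.n ^ 2 := by positivity
    refine mul_le_mul_of_nonneg_left ?_ hn2.le
    refine Real.exp_le_exp.2 ?_
    rw [neg_div, neg_le_neg_iff, div_le_iff₀ hn2]
    linarith [hcost]
  · -- fibres
    intro z
    refine hKR ((P.D ×ˢ P.D).filter (fun p => p.1 + p.2 = z))
      (fun p p' => P.past P.t p.1 p'.1 ∧ P.past P.t p.2 p'.2) f1 f2 ?_ ?_ ?_ ?_ ?_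
    · exact ⟨fun p => ⟨fun _ _ => rfl, fun _ _ => rfl⟩,
        fun h => ⟨past_symm_ADD P h.1, past_symm_ADD P h.2⟩,
        fun h h' => ⟨past_trans_ADD P h.1 h'.1, past_trans_ADD P h.2 h'.2⟩⟩
    · intro p hp
      exact (hf1pos p (mem_filter.1 hp).1).le
    · intro p hp p' hp' hr
      have e1 : p.1 + p.2 = p'.1 + p'.2 := by
        rw [(mem_filter.1 hp).2, (mem_filter.1 hp').2]
      refine prod_congr rfl fun i hi => ?_
      have hi' := mem_range.1 hi
      exact phi1_congr_ADD P Θ g e1 (past_mono_ADD P hi' hr.1) (past_mono_ADD P hi' hr.2)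
    · intro T hT hinj
      refine hP1K P Θ g hPos hg0 hg1 P.t le_rfl z T ?_ ?_
      · intro p hp
        have := mem_filter.1 (hT hp)
        have h2 := mem_product.1 this.1
        exact ⟨h2.1, h2.2, this.2⟩
      · intro p hp p' hp' h1 h2
        exact hinj p hp p' hp' ⟨h1, h2⟩
    · intro T hT hrel
      refine hP2K P Θ g hOK hΘ hg0 hg1 ℓ (good_lt_ADD P Θ p0 ℓ hGood) z T ?_ hrel ?_
      · intro p hp
        have := mem_filter.1 (hT hp)
        have h2 := mem_product.1 this.1
        exact ⟨h2.1, h2.2, this.2⟩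
      · intro p hp p' hp' hmod
        have h1 := mem_filter.1 (hT hp)
        have h1' := mem_filter.1 (hT hp')
        have h2 := mem_product.1 h1.1
        have h2' := mem_product.1 h1'.1
        have e : p.1 = p'.1 :=
          Nat.ModEq.eq_of_lt_of_lt hmod (hlt _ h2.1) (hlt _ h2'.1)
        have e2 : p.2 = p'.2 := by
          have := h1.2
          have := h1'.2
          omega
        exact Prod.ext e e2

end Pool.Agent.Helper97.MX
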