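import Mathlib
import Pool.Agent.Helper97.MX.St

/-! # Project MX (MP_cc0731_co), module AG: arithmetic and geometric mean. -/

set_option autoImplicit false

namespace Pool.Agent.Helper97.MX

open Finset Classical
open scoped Pointwise

theorem hAG : StAG := by
  intro R s f hR hf hz
  have hcard : (0 : ℝ) < (#R : ℝ) := by exact_mod_cast hR.card_pos
  have hsum : ∑ p ∈ R, f p ≤ (#(R.image s) : ℝ) := by
    rw [← Finset.sum_fiberwise_of_maps_to (s := R) (t := R.image s) (g := s)
      (fun p hp => Finset.mem_image_of_mem s hp) f]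
    calc ∑ z ∈ R.image s, ∑ p ∈ R with s p = z, f p ≤ ∑ z ∈ R.image s, (1 : ℝ) :=
          Finset.sum_le_sum (fun z _ => hz z)
      _ = (#(R.image s) : ℝ) := by simp
  have hj := convexOn_exp.map_sum_le (t := R) (w := fun _ => (1 : ℝ) / #R)
    (p := fun p => Real.log (f p)) (fun _ _ => by positivity)
    (by rw [Finset.sum_const, nsmul_eq_mul]; field_simp) (fun _ _ => Set.mem_univ _)
  have h1 : -(∑ p ∈ R, Real.log (1 / f p)) / #R = ∑ p ∈ R, ((1 : ℝ) / #R) • Real.log (f p) := by
    simp only [smul_eq_mul]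
    rw [← Finset.mul_sum]
    have h2 : ∑ p ∈ R, Real.log (1 / f p) = - ∑ p ∈ R, Real.log (f p) := by
      rw [← Finset.sum_neg_distrib]
      apply Finset.sum_congr rfl
      intro p _
      rw [one_div, Real.log_inv]
    rw [h2]
    ring
  rw [h1]
  have h3 : ∑ p ∈ R, ((1 : ℝ) / #R) • Real.exp (Real.log (f p)) = (∑ p ∈ R, f p) / #R := by
    simp only [smul_eq_mul]
    rw [← Finset.mul_sum]
    have h4 : ∑ p ∈ R, Real.exp (Real.log (f p)) = ∑ p ∈ R, f p :=
      Finset.sum_congr rfl (fun p hp => Real.exp_log (hf p hp))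
    rw [h4]
    ring
  rw [h3] at hj
  calc (#R : ℝ) * Real.exp (∑ p ∈ R, ((1 : ℝ) / #R) • Real.log (f p))
      ≤ (#R : ℝ) * ((∑ p ∈ R, f p) / #R) := by
        exact mul_le_mul_of_nonneg_left hj hcard.le
    _ = ∑ p ∈ R, f p := by field_simp
    _ ≤ _ := hsum

end Pool.Agent.Helper97.MX
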