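import Mathlib
import Pool.Agent.Helper97.MX.St

set_option autoImplicit false

namespace Pool.Agent.Helper97.MX

open Finset Classical
open scoped Pointwise

private theorem grp_eq_AVG (P : Par) (k x y : ℕ) (h : P.past k y x) : P.grp k x = P.grp k y := by
  ext z
  simp only [Par.grp, Finset.mem_filter, Par.past] at h ⊢
  constructor
  · rintro ⟨hz, hp⟩
    exact ⟨hz, fun i hi => (hp i hi).trans (h i hi).symm⟩
  · rintro ⟨hz, hp⟩
    exact ⟨hz, fun i hi => (hp i hi).trans (h i hi)⟩

theorem hAVG : StAVG := by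
  intro P k F
  have h1 : ∀ x ∈ P.D, (∑ y ∈ P.grp k x, F y) / (#(P.grp k x) : ℝ)
      = ∑ y ∈ P.D, if P.past k y x then F y / (#(P.grp k x) : ℝ) else 0 := by
    intro x _
    rw [Par.grp, Finset.sum_div, Finset.sum_filter]
  rw [Finset.sum_congr rfl h1, Finset.sum_comm]
  refine Finset.sum_congr rfl fun y hy => ?_
  have h2 : ∀ x ∈ P.D, (if P.past k y x then F y / (#(P.grp k x) : ℝ) else 0)
      = if P.past k x y then F y / (#(P.grp k y) : ℝ) else 0 := by
    intro x _
    by_cases h : P.past k y x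
    · have h' : P.past k x y := fun i hi => (h i hi).symm
      rw [if_pos h, if_pos h', grp_eq_AVG P k x y h]
    · have h' : ¬ P.past k x y := fun h'' => h fun i hi => (h'' i hi).symm
      rw [if_neg h, if_neg h']
  rw [Finset.sum_congr rfl h2, ← Finset.sum_filter, Finset.sum_const, nsmul_eq_mul]
  have h3 : P.D.filter (fun x => P.past k x y) = P.grp k y := rfl
  rw [h3]
  have h4 : (#(P.grp k y) : ℝ) ≠ 0 := by
    have : y ∈ P.grp k y := by
      simp only [Par.grp, Finset.mem_filter]
      exact ⟨hy, fun i _ => rfl⟩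
    exact_mod_cast (Finset.card_pos.mpr ⟨y, this⟩).ne'
  field_simp

end Pool.Agent.Helper97.MX
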