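import Mathlib
import Pool.Agent.Helper97.MX.St

set_option autoImplicit false

namespace Pool.Agent.Helper97.MX

open Finset Classical
open scoped Pointwise

private lemma two_pow_le_CHN (P : Par) (hP : P.Pos) {m : ℕ} (hm : m < P.t) (ℓ : List ℕ) :
    2 ^ (ℓ.count m) ≤ P.Nn ℓ := by
  unfold Par.Nn
  have h1 : P.q m ^ ℓ.count m ∣ ∏ i ∈ range P.t, P.q i ^ ℓ.count i :=
    Finset.dvd_prod_of_mem _ (Finset.mem_range.2 hm)
  have h2 : 0 < ∏ i ∈ range P.t, P.q i ^ ℓ.count i := by
    apply Finset.prod_pos
    intro i hi
    exact pow_pos (hP.prime i (Finset.mem_range.1 hi)).pos _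
  exact (Nat.pow_le_pow_left (hP.prime m hm).two_le _).trans (Nat.le_of_dvd h2 h1)

private lemma good_rep_CHN (P : Par) (Θ p0 : ℝ) {m : ℕ} (hm : m < P.t) (ℓ : List ℕ)
    (hg : P.Good Θ p0 ℓ) (J : ℕ)
    (h : ∀ j < J, (#(P.D.filter (fun x => P.ev Θ m (List.replicate j m ++ ℓ) x)) : ℝ) ≤
      p0 * P.n) :
    P.Good Θ p0 (List.replicate J m ++ ℓ) := by
  induction J with
  | zero => simpa using hg
  | succ J ih =>
    have h1 := ih (fun j hj => h j (by omega))
    have h2 : List.replicate (J + 1) m ++ ℓ = m :: (List.replicate J m ++ ℓ) := by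
      rw [List.replicate_succ, List.cons_append]
    rw [h2]
    exact ⟨hm, h1, h J (by omega)⟩

theorem hCHN (hSGL : StSGL) (hEVC : StEVC) : StCHN := by
  intro P Θ p0 S K R hP hΘ hp0 hS hSp hRK hlt
  by_contra hcon
  push Not at hcon
  have hn : 0 < P.n := by
    have : 0 < #P.D := Finset.card_pos.2 hP.base.ne
    unfold Par.n
    exact_mod_cast this
  have claim : ∀ m ≤ P.t, ∃ ℓ : List ℕ, P.Good Θ p0 ℓ ∧ (∀ i ∈ ℓ, i < m) ∧
      (#(S.filter (fun i => i < m)) : ℝ) * (R * (p0 / 2) * P.n) ≤
        ∑ x ∈ P.D, (P.nev Θ ℓ x : ℝ) := by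
    intro m
    induction m with
    | zero =>
      intro _
      refine ⟨[], trivial, by simp, ?_⟩
      simp
    | succ m ih =>
      intro hm
      obtain ⟨ℓ, hg, hlt', hsum⟩ := ih (by omega)
      by_cases hmS : m ∈ S
      · have hmt : m < P.t := by omega
        have hex : ∃ j, p0 * P.n <
            (#(P.D.filter (fun x => P.ev Θ m (List.replicate j m ++ ℓ) x)) : ℝ) := by
          by_contra hno
          push Not at hno
          have hgood := good_rep_CHN P Θ p0 hmt ℓ hg (P.D.sup id) (fun j _ => hno j)
          obtain ⟨x, hx, hxN⟩ := hcon _ hgood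
          have h1 := two_pow_le_CHN P hP.base hmt (List.replicate (P.D.sup id) m ++ ℓ)
          have h2 : P.D.sup id ≤ (List.replicate (P.D.sup id) m ++ ℓ).count m := by
            rw [List.count_append, List.count_replicate_self]
            omega
          have h3 : x ≤ P.D.sup id := Finset.le_sup (f := id) hx
          have h4 : 2 ^ (P.D.sup id) ≤ 2 ^ ((List.replicate (P.D.sup id) m ++ ℓ).count m) :=
            Nat.pow_le_pow_right (by norm_num) h2
          have h5 : P.D.sup id < 2 ^ (P.D.sup id) := Nat.lt_two_pow_self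
          omega
        set J := Nat.find hex with hJ
        have hJ1 := Nat.find_spec hex
        rw [← hJ] at hJ1
        have hJ2 : ∀ j < J, (#(P.D.filter
            (fun x => P.ev Θ m (List.replicate j m ++ ℓ) x)) : ℝ) ≤ p0 * P.n := by
          intro j hj
          exact not_lt.1 (Nat.find_min hex hj)
        have hgood := good_rep_CHN P Θ p0 hmt ℓ hg J hJ2
        refine ⟨_, hgood, ?_, ?_⟩
        · intro i hi
          rw [List.mem_append] at hi
          rcases hi with hi | hi
          · have := List.eq_of_mem_replicate hi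
            omega
          · have := hlt' i hi
            omega
        · have h6 := hSGL P Θ p0 m K R J ℓ hP hΘ hp0 hmt hlt' (hSp m hmS) hRK hJ1
          rw [Finset.sum_sub_distrib] at h6
          have h7 : S.filter (fun i => i < m + 1) = insert m (S.filter (fun i => i < m)) := by
            ext i
            simp only [Finset.mem_filter, Finset.mem_insert]
            constructor
            · rintro ⟨h8, h9⟩
              by_cases h10 : i = m
              · exact Or.inl h10
              · exact Or.inr ⟨h8, by omega⟩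
            · rintro (h8 | h8)
              · subst h8; exact ⟨hmS, by omega⟩
              · exact ⟨h8.1, by omega⟩
          rw [h7, Finset.card_insert_of_notMem (by simp)]
          push_cast
          linarith
      · refine ⟨ℓ, hg, fun i hi => by have := hlt' i hi; omega, ?_⟩
        have h7 : S.filter (fun i => i < m + 1) = S.filter (fun i => i < m) := by
          ext i
          simp only [Finset.mem_filter]
          constructor
          · rintro ⟨h8, h9⟩
            refine ⟨h8, ?_⟩
            have : i ≠ m := fun h => hmS (h ▸ h8)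
            omega
          · rintro ⟨h8, h9⟩
            exact ⟨h8, by omega⟩
        rw [h7]
        exact hsum
  obtain ⟨ℓ, _, _, hsum⟩ := claim P.t le_rfl
  have h1 : S.filter (fun i => i < P.t) = S := by
    rw [Finset.filter_eq_self]
    intro i hi
    exact Finset.mem_range.1 (hS hi)
  rw [h1] at hsum
  have h2 : ∑ x ∈ P.D, (P.nev Θ ℓ x : ℝ) ≤ P.n * (Θ * Real.log P.n) := by
    have h3 := Finset.sum_le_card_nsmul P.D (fun x => (P.nev Θ ℓ x : ℝ)) (Θ * Real.log P.n)
      (fun x hx => hEVC P Θ hΘ x hx ℓ)
    rw [nsmul_eq_mul] at h3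
    exact h3
  have h4 : (#S * (R * (p0 / 2))) * P.n ≤ (Θ * Real.log P.n) * P.n := by
    nlinarith
  have h5 := le_of_mul_le_mul_right h4 hn
  linarith

end Pool.Agent.Helper97.MX
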