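import Mathlib
import Pool.Agent.Helper97.MX.St

set_option autoImplicit false

namespace Pool.Agent.Helper97.MX

open Finset Classical
open scoped Pointwise

private lemma cop_mul_CNG (q : ℕ) (hq : q.Prime) (k : ℕ) (u z : ℤ) (hu : ¬ (q : ℤ) ∣ u) :
    (q : ℤ) ^ k ∣ z * u ↔ (q : ℤ) ^ k ∣ z := by
  constructor
  · intro h
    have hc : IsCoprime ((q : ℤ) ^ k) u := by
      apply IsCoprime.pow_left
      exact (Prime.coprime_iff_not_dvd (Nat.prime_iff_prime_int.mp hq)).mpr hu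
    exact hc.dvd_of_dvd_mul_right h
  · intro h
    exact Dvd.dvd.mul_right h u

private lemma pow_split_CNG (q : ℕ) (hq : q.Prime) (z : ℤ) (hz : z ≠ 0) :
    ∃ u : ℤ, ¬ (q : ℤ) ∣ u ∧ z = (q : ℤ) ^ (z.natAbs.factorization q) * u := by
  have hn : z.natAbs ≠ 0 := Int.natAbs_ne_zero.mpr hz
  have h1 : ¬ q ∣ z.natAbs / q ^ z.natAbs.factorization q := Nat.not_dvd_ordCompl hq hn
  have h2 : q ^ z.natAbs.factorization q * (z.natAbs / q ^ z.natAbs.factorization q)
      = z.natAbs := Nat.ordProj_mul_ordCompl_eq_self z.natAbs q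
  refine ⟨z.sign * ((z.natAbs / q ^ z.natAbs.factorization q : ℕ) : ℤ), ?_, ?_⟩
  · intro hd
    apply h1
    have h3 := Int.natAbs_dvd_natAbs.mpr hd
    rw [Int.natAbs_mul, Int.natAbs_sign_of_ne_zero hz, one_mul, Int.natAbs_natCast,
      Int.natAbs_natCast] at h3
    exact h3
  · have h3 : ((z.natAbs : ℕ) : ℤ) = (q : ℤ) ^ z.natAbs.factorization q *
        ((z.natAbs / q ^ z.natAbs.factorization q : ℕ) : ℤ) := by
      exact_mod_cast h2.symm
    calc z = z.sign * (z.natAbs : ℤ) := (Int.sign_mul_natAbs z).symm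
      _ = z.sign * ((q : ℤ) ^ z.natAbs.factorization q *
        ((z.natAbs / q ^ z.natAbs.factorization q : ℕ) : ℤ)) := by rw [← h3]
      _ = _ := by ring

private lemma loc_CNG (q : ℕ) (hq : q.Prime) (x y : ℤ) (cx cy : ℤ) (hx : x ≠ 0)
    (hcx : cx ≠ 0) (hy : y ≠ 0) (hxy : x.natAbs.factorization q = y.natAbs.factorization q)
    (H : x * cy = y * cx) (a : ℕ) :
    (q : ℤ) ^ a ∣ y - x ↔
      (q : ℤ) ^ (Par.lev a (x.natAbs.factorization q) (cx.natAbs.factorization q)) ∣ cy - cx := by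
  obtain ⟨x', hx', ex⟩ := pow_split_CNG q hq x hx
  obtain ⟨y', hy', ey⟩ := pow_split_CNG q hq y hy
  obtain ⟨c', hc', ec⟩ := pow_split_CNG q hq cx hcx
  rw [← hxy] at ey
  set e := x.natAbs.factorization q with he
  set w := cx.natAbs.factorization q with hw
  unfold Par.lev
  split_ifs with hae
  · simp only [pow_zero, one_dvd, iff_true]
    have h1 : (q : ℤ) ^ a ∣ (q : ℤ) ^ e := pow_dvd_pow _ hae
    apply dvd_sub
    · rw [ey]; exact Dvd.dvd.mul_right h1 _
    · rw [ex]; exact Dvd.dvd.mul_right h1 _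
  · have hlt : e < a := not_le.mp hae
    have hq0 : (q : ℤ) ≠ 0 := by exact_mod_cast hq.ne_zero
    have key : (q : ℤ) ^ w * ((y - x) * c') = (q : ℤ) ^ e * ((cy - cx) * x') := by
      have h1 : (y - x) * cx = (cy - cx) * x := by linear_combination (-1 : ℤ) * H
      calc (q : ℤ) ^ w * ((y - x) * c') = (y - x) * ((q : ℤ) ^ w * c') := by ring
        _ = (y - x) * cx := by rw [← ec]
        _ = (cy - cx) * x := h1
        _ = (cy - cx) * ((q : ℤ) ^ e * x') := by rw [← ex]
        _ = _ := by ring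
    have s1 : (q : ℤ) ^ a ∣ y - x ↔ (q : ℤ) ^ (w + a) ∣ (q : ℤ) ^ w * ((y - x) * c') := by
      rw [pow_add, mul_dvd_mul_iff_left (pow_ne_zero w hq0), cop_mul_CNG q hq a c' (y - x) hc']
    have s2 : (q : ℤ) ^ (a - e + w) ∣ cy - cx ↔
        (q : ℤ) ^ (e + (a - e + w)) ∣ (q : ℤ) ^ e * ((cy - cx) * x') := by
      rw [pow_add _ e, mul_dvd_mul_iff_left (pow_ne_zero e hq0),
        cop_mul_CNG q hq (a - e + w) x' (cy - cx) hx']
    rw [s1, s2, key]
    have : w + a = e + (a - e + w) := by omega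
    rw [this]

private lemma prod_dvd_iff_CNG (P : Par) (hP : P.Pos) (f : ℕ → ℕ) (z : ℤ) :
    (((∏ i ∈ range P.t, P.q i ^ f i : ℕ) : ℤ) ∣ z) ↔
      ∀ i < P.t, (P.q i : ℤ) ^ f i ∣ z := by
  constructor
  · intro h i hi
    have h1 : P.q i ^ f i ∣ ∏ i ∈ range P.t, P.q i ^ f i :=
      Finset.dvd_prod_of_mem (fun i => P.q i ^ f i) (mem_range.mpr hi)
    have h2 : ((P.q i ^ f i : ℕ) : ℤ) ∣ ((∏ i ∈ range P.t, P.q i ^ f i : ℕ) : ℤ) := by
      exact_mod_cast h1
    rw [Nat.cast_pow] at h2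
    exact h2.trans h
  · intro h
    rw [Nat.cast_prod]
    apply Finset.prod_dvd_of_coprime
    · intro i hi j hj hij
      have hi' : i < P.t := by simpa using hi
      have hj' : j < P.t := by simpa using hj
      have hne : P.q i ≠ P.q j := fun h' => hij (hP.inj i hi' j hj' h')
      have hc : Nat.Coprime (P.q i ^ f i) (P.q j ^ f j) :=
        Nat.Coprime.pow _ _ ((Nat.coprime_primes (hP.prime i hi') (hP.prime j hj')).mpr hne)
      exact Nat.isCoprime_iff_coprime.mpr hc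
    · intro i hi
      rw [Nat.cast_pow]
      exact h i (mem_range.mp hi)

/-- CNG (congruences for `x` and for the representative). -/
theorem hCNG : StCNG := by
  intro P hP ℓ x hx y hy hpast
  have hxp := hP.base.pos x hx
  have hyp := hP.base.pos y hy
  have hcx := hP.c0 x hx
  have H := hP.H x hx y hy hpast
  rw [Nat.modEq_iff_dvd, Int.modEq_iff_dvd]
  unfold Par.Nn Par.Md
  rw [prod_dvd_iff_CNG P hP.base, prod_dvd_iff_CNG P hP.base]
  refine forall_congr' fun i => forall_congr' fun hi => ?_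
  have h1 : (x : ℤ).natAbs.factorization (P.q i) = (y : ℤ).natAbs.factorization (P.q i) := by
    rw [Int.natAbs_natCast, Int.natAbs_natCast]
    exact hpast i hi
  have h2 := loc_CNG (P.q i) (hP.base.prime i hi) (x : ℤ) (y : ℤ) (P.c x) (P.c y)
    (by exact_mod_cast hxp.ne') hcx (by exact_mod_cast hyp.ne') h1 H (ℓ.count i)
  rw [Int.natAbs_natCast] at h2
  exact h2

end Pool.Agent.Helper97.MX
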