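import Mathlib
import Pool.Agent.Helper97.MX.St

set_option autoImplicit false

namespace Pool.Agent.Helper97.MX

open Finset Classical
open scoped Pointwise

theorem hCPE : StCPE := by
  intro ε hε
  obtain ⟨e, he0, he1, hee⟩ : ∃ e : ℝ, 0 < e ∧ e ≤ 1 ∧ e ≤ ε :=
    ⟨min ε 1, lt_min hε one_pos, min_le_right _ _, min_le_left _ _⟩
  have ht : 0 < Real.exp (-(64 / e)) := Real.exp_pos _
  have hl : 0 < 64 / e := by positivity
  have ht1 : Real.exp (-(64 / e)) < 1 := by
    rw [Real.exp_lt_one_iff]
    linarith
  refine ⟨e / 64, Real.exp (-(64 / e)), e * Real.exp (-(64 / e)) / 8, by positivity, by linarith,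
    ht, ht1, by positivity, ?_, ?_⟩
  · have : e * Real.exp (-(64 / e)) ≤ 1 * 1 :=
      mul_le_mul he1 ht1.le ht.le zero_le_one
    linarith
  · unfold Par.Cp
    have e1 : Real.log (1 / Real.exp (-(64 / e))) = 64 / e := by
      rw [one_div, ← Real.exp_neg, neg_neg, Real.log_exp]
    have e2 : 1 / (e / 64) = 64 / e := by
      field_simp
    have e3 : 1 / (64 / e) = e / 64 := by
      field_simp
    rw [e1, e2, e3]
    have h1 : Real.log (64 / e) ≤ 64 / e := by
      have := Real.log_le_sub_one_of_pos hl
      linarith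
    have h2 : Real.log (64 / e) / (64 / e) ≤ 1 := by
      rw [div_le_one hl]
      exact h1
    have h3 : Real.exp (-(64 / e)) ≤ e / 64 := by
      rw [Real.exp_neg, ← e3, one_div]
      refine inv_anti₀ hl ?_
      have := Real.add_one_le_exp (64 / e)
      linarith
    have h4 : Real.exp (-(64 / e)) * (Real.log (64 / e) / (64 / e) + 1) ≤
        e / 64 * 2 := by
      refine mul_le_mul h3 (by linarith) ?_ (by positivity)
      have : 0 ≤ Real.log (64 / e) := by
        apply Real.log_nonneg
        rw [le_div_iff₀ he0]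
        linarith
      positivity
    have h5 : 2 * (e * Real.exp (-(64 / e)) / 8) / Real.exp (-(64 / e)) = e / 4 := by
      field_simp
      norm_num
    rw [h5]
    linarith

end Pool.Agent.Helper97.MX
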