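import Mathlib
import Pool.Agent.Helper97.MX.St

/-! # Project MX (MP_cc0731_co), module EMB: homomorphisms become valuations. -/

set_option autoImplicit false

namespace Pool.Agent.Helper97.MX

open Finset Classical
open scoped Pointwise

private theorem un_mul_EMB (x y : ℤ) (hx : x ≠ 0) (hy : y ≠ 0) : un (x * y) = un x * un y := by
  have hx' : (x : ℚ) ≠ 0 := by exact_mod_cast hx
  have hy' : (y : ℚ) ≠ 0 := by exact_mod_cast hy
  have hxy : ((x * y : ℤ) : ℚ) ≠ 0 := by push_cast; exact mul_ne_zero hx' hy'
  unfold un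
  rw [dif_pos hx', dif_pos hy', dif_pos hxy]
  ext
  push_cast
  rfl

theorem hEMB : StEMB := by
  intro D m φ h0
  set B : ℕ := D.sup id with hB
  set q : ℕ → ℕ := fun i => Nat.nth Nat.Prime (B + i) with hq
  have hqp : ∀ i, (q i).Prime := fun i => Nat.prime_nth_prime _
  have hqi : ∀ i j, q i = q j → i = j := by
    intro i j h
    have := (Nat.nth_strictMono Nat.infinite_setOf_prime).injective h
    omega
  have hqB : ∀ i, ∀ x ∈ D, x < q i := by
    intro i x hx
    have h1 : x ≤ B := Finset.le_sup (f := id) hx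
    have h2 : (B + i) + 2 ≤ q i := Nat.add_two_le_nth_prime _
    omega
  set N : ℤ := ∑ i ∈ range m, ∑ x ∈ D, |Multiplicative.toAdd (φ i (un (x : ℤ)))| with hN
  have hNle : ∀ i < m, ∀ x ∈ D, 0 ≤ Multiplicative.toAdd (φ i (un (x : ℤ))) + N := by
    intro i hi x hx
    have h1 : |Multiplicative.toAdd (φ i (un (x : ℤ)))| ≤
        ∑ x ∈ D, |Multiplicative.toAdd (φ i (un (x : ℤ)))| :=
      Finset.single_le_sum (f := fun x : ℕ => |Multiplicative.toAdd (φ i (un (x : ℤ)))|)
        (fun _ _ => abs_nonneg _) hx
    have h2 : ∑ x ∈ D, |Multiplicative.toAdd (φ i (un (x : ℤ)))| ≤ N :=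
      Finset.single_le_sum
        (f := fun i : ℕ => ∑ x ∈ D, |Multiplicative.toAdd (φ i (un (x : ℤ)))|)
        (fun _ _ => Finset.sum_nonneg (fun _ _ => abs_nonneg _)) (Finset.mem_range.mpr hi)
    have h3 := neg_abs_le (Multiplicative.toAdd (φ i (un (x : ℤ))))
    linarith
  set e : ℕ → ℕ → ℕ := fun x i => (Multiplicative.toAdd (φ i (un (x : ℤ))) + N).toNat with he
  set g : ℕ → ℕ := fun x => x * ∏ i ∈ range m, q i ^ e x i with hg
  have hDne : ∀ x ∈ D, x ≠ 0 := fun x hx h => h0 (h ▸ hx)
  have hprodne : ∀ x, ∏ i ∈ range m, q i ^ e x i ≠ 0 := fun x =>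
    Finset.prod_ne_zero_iff.mpr (fun i _ => pow_ne_zero _ (hqp i).ne_zero)
  have hfac : ∀ x ∈ D, ∀ p : ℕ, (g x).factorization p =
      x.factorization p + ∑ i ∈ range m, e x i * (q i).factorization p := by
    intro x hx p
    simp only [hg]
    rw [Nat.factorization_mul (hDne x hx) (hprodne x), Finsupp.add_apply,
      Nat.factorization_prod (fun i _ => pow_ne_zero _ (hqp i).ne_zero), Finset.sum_apply']
    congr 1
    apply Finset.sum_congr rfl
    intro i _
    rw [Nat.factorization_pow]
    simp
  have hfq : ∀ x ∈ D, ∀ i < m, (g x).factorization (q i) = e x i := by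
    intro x hx i hi
    rw [hfac x hx, Nat.factorization_eq_zero_of_lt (hqB i x hx), zero_add,
      Finset.sum_eq_single i]
    · rw [(hqp i).factorization_self, mul_one]
    · intro j _ hj
      rw [(hqp j).factorization, Finsupp.single_apply, if_neg, mul_zero]
      intro h
      exact hj (hqi _ _ h)
    · intro h
      exact absurd (Finset.mem_range.mpr hi) h
  refine ⟨q, N, g, fun i _ => hqp i, fun i _ j _ => hqi i j, ?_, ?_, ?_, ?_⟩
  · intro x hx y hy hxy
    apply Nat.eq_of_factorization_eq (hDne x hx) (hDne y hy)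
    intro p
    by_cases hp : ∃ i < m, q i = p
    · obtain ⟨i, _, rfl⟩ := hp
      rw [Nat.factorization_eq_zero_of_lt (hqB i x hx),
        Nat.factorization_eq_zero_of_lt (hqB i y hy)]
    · push Not at hp
      have h1 : ∀ z ∈ D, (g z).factorization p = z.factorization p := by
        intro z hz
        rw [hfac z hz, Finset.sum_eq_zero, add_zero]
        intro i hi
        rw [(hqp i).factorization, Finsupp.single_apply,
          if_neg (hp i (Finset.mem_range.mp hi)), mul_zero]
      rw [← h1 x hx, ← h1 y hy, hxy]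
  · intro x hx
    exact Nat.mul_pos (Nat.pos_of_ne_zero (hDne x hx)) (Nat.pos_of_ne_zero (hprodne x))
  · intro x hx i hi
    rw [hfq x hx i hi]
    simp only [he]
    rw [Int.toNat_of_nonneg (hNle i hi x hx)]
  · set G : ℕ → ℕ := fun z => z * ∏ i ∈ range m,
      q i ^ (Multiplicative.toAdd (φ i (un (z : ℤ))) + 2 * N).toNat with hG
    have hsub : (D.image g) * (D.image g) ⊆ (D * D).image G := by
      intro z hz
      rw [Finset.mem_mul] at hz
      obtain ⟨a, ha, b, hb, rfl⟩ := hz
      rw [Finset.mem_image] at ha hb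
      obtain ⟨x, hx, rfl⟩ := ha
      obtain ⟨y, hy, rfl⟩ := hb
      rw [Finset.mem_image]
      refine ⟨x * y, Finset.mul_mem_mul hx hy, ?_⟩
      simp only [hG, hg]
      have h1 : ∏ i ∈ range m,
          q i ^ (Multiplicative.toAdd (φ i (un ((x * y : ℕ) : ℤ))) + 2 * N).toNat =
          (∏ i ∈ range m, q i ^ e x i) * ∏ i ∈ range m, q i ^ e y i := by
        rw [← Finset.prod_mul_distrib]
        apply Finset.prod_congr rfl
        intro i hi
        rw [← pow_add]
        congr 1
        have hi' := Finset.mem_range.mp hi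
        have h2 : un ((x * y : ℕ) : ℤ) = un (x : ℤ) * un (y : ℤ) := by
          push_cast
          exact un_mul_EMB _ _ (by exact_mod_cast hDne x hx) (by exact_mod_cast hDne y hy)
        rw [h2, map_mul, toAdd_mul]
        simp only [he]
        have h3 := hNle i hi' x hx
        have h4 := hNle i hi' y hy
        rw [← Int.toNat_add h3 h4]
        congr 1
        ring
      rw [h1]
      ring
    exact (Finset.card_le_card hsub).trans Finset.card_image_le

end Pool.Agent.Helper97.MX
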