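import Mathlib
import Pool.Agent.Helper97.MX.St

set_option autoImplicit false

namespace Pool.Agent.Helper97.MX

open Finset Classical
open scoped Pointwise

theorem hENU : StENU := by
  intro Q
  let e := Q.equivFin
  refine ⟨fun i => if h : i < #Q then ((e.symm ⟨i, h⟩ : Q) : ℕ) else 0, ?_, ?_, ?_⟩
  · intro i hi
    simp only [hi, dif_pos]
    exact (e.symm ⟨i, hi⟩).2
  · intro i hi j hj h
    simp only [hi, hj, dif_pos] at h
    have h1 := e.symm.injective (Subtype.ext h)
    simpa using h1
  · intro p hp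
    refine ⟨(e ⟨p, hp⟩ : Fin #Q), (e ⟨p, hp⟩).2, ?_⟩
    simp

end Pool.Agent.Helper97.MX
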