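import Mathlib
import Pool.Agent.Helper97.MX.St

set_option autoImplicit false

namespace Pool.Agent.Helper97.MX

open Finset Classical
open scoped Pointwise

private theorem nev_le_EVC (hW1 : StW1) (P : Par) (Θ : ℝ) (hΘ : 1 < Θ) (x : ℕ) (hx : x ∈ P.D)
    (ℓ : List ℕ) : (P.nev Θ ℓ x : ℝ) ≤ Θ * (Real.log P.n - Real.log (P.W ℓ x)) := by
  induction ℓ with
  | nil =>
    have h := (hW1 P x hx []).2.2.1
    simp [Par.nev, h]
  | cons k ℓ ih =>
    have h1 := hW1 P x hx ℓ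
    have h2 := hW1 P x hx (k :: ℓ)
    have hmono : P.W (k :: ℓ) x ≤ P.W ℓ x := h1.2.2.2 k
    have hpos : 0 < P.W (k :: ℓ) x := lt_of_lt_of_le one_pos h2.1
    have hposl : 0 < P.W ℓ x := lt_of_lt_of_le one_pos h1.1
    have hΘ0 : 0 < Θ := by linarith
    simp only [Par.nev]
    by_cases hev : P.ev Θ k ℓ x
    · rw [if_pos hev]
      have hlt : P.W (k :: ℓ) x < (1 - 1 / Θ) * P.W ℓ x := hev
      have h0 : 0 < 1 - 1 / Θ := by
        have : 1 / Θ < 1 := by rw [div_lt_one hΘ0]; exact hΘ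
        linarith
      have hlog : Real.log (P.W (k :: ℓ) x) ≤ Real.log (1 - 1 / Θ) + Real.log (P.W ℓ x) := by
        rw [← Real.log_mul h0.ne' hposl.ne']
        exact Real.log_le_log hpos hlt.le
      have hl2 : Real.log (1 - 1 / Θ) ≤ -(1 / Θ) := by
        have := Real.log_le_sub_one_of_pos h0
        linarith
      have h3 : 1 / Θ ≤ Real.log (P.W ℓ x) - Real.log (P.W (k :: ℓ) x) := by linarith
      have h4 : Θ * (1 / Θ) ≤ Θ * (Real.log (P.W ℓ x) - Real.log (P.W (k :: ℓ) x)) :=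
        mul_le_mul_of_nonneg_left h3 hΘ0.le
      rw [mul_one_div_cancel hΘ0.ne'] at h4
      push_cast
      nlinarith [ih, h4]
    · rw [if_neg hev]
      have hlog : Real.log (P.W (k :: ℓ) x) ≤ Real.log (P.W ℓ x) := Real.log_le_log hpos hmono
      have h4 : 0 ≤ Θ * (Real.log (P.W ℓ x) - Real.log (P.W (k :: ℓ) x)) :=
        mul_nonneg hΘ0.le (by linarith)
      push_cast
      nlinarith [ih, h4]

theorem hEVC (hW1 : StW1) : StEVC := by
  intro P Θ hΘ x hx ℓ
  have h1 := nev_le_EVC hW1 P Θ hΘ x hx ℓ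
  have h2 : 0 ≤ Real.log (P.W ℓ x) := Real.log_nonneg (hW1 P x hx ℓ).1
  have h3 : 0 ≤ Θ * Real.log (P.W ℓ x) := mul_nonneg (by linarith) h2
  nlinarith [h1, h3]

end Pool.Agent.Helper97.MX
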