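import Mathlib
import Pool.Agent.Helper97.MX.St

set_option autoImplicit false

namespace Pool.Agent.Helper97.MX

open Finset Classical
open scoped Pointwise

private theorem log_le_sqrt_KAP {u : ℝ} (hu : 1 ≤ u) : Real.log u ≤ 2 * √u := by
  have h0 : 0 < √u := Real.sqrt_pos.2 (by linarith)
  have h1 : Real.log (√u) = Real.log u / 2 := Real.log_sqrt (by linarith)
  have h2 : Real.log (√u) ≤ √u - 1 := Real.log_le_sub_one_of_pos h0
  linarith

private theorem sum_inv_sqrt_KAP (t : ℕ) : ∑ s ∈ Icc 1 t, 1 / √(s : ℝ) ≤ 2 * √(t : ℝ) := by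
  induction t with
  | zero => simp
  | succ t ih =>
    rw [Finset.sum_Icc_succ_top (by omega)]
    have h1 : 0 < √((t : ℝ) + 1) := Real.sqrt_pos.2 (by positivity)
    have h2 : 0 ≤ √(t : ℝ) := Real.sqrt_nonneg _
    have h3 : √((t : ℝ) + 1) * √((t : ℝ) + 1) = t + 1 := Real.mul_self_sqrt (by positivity)
    have h4 : √(t : ℝ) * √(t : ℝ) = t := Real.mul_self_sqrt (by positivity)
    have h5 : 1 / √((t : ℝ) + 1) ≤ 2 * (√((t : ℝ) + 1) - √(t : ℝ)) := by
      rw [div_le_iff₀ h1]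
      nlinarith [sq_nonneg (√((t : ℝ) + 1) - √(t : ℝ))]
    push_cast
    linarith

theorem hKAP : StKAP := by
  intro C1 κ c0 N t Kap hC1 hκ hc0 hc01 h32 hN ht hK1 hK
  set L : ℝ := Real.log N with hL
  have hL0 : 0 < L := Real.log_pos hN
  have htL : (t : ℝ) ≤ L := ht.trans (by nlinarith)
  have hpos : ∀ s, (0 : ℝ) < (Kap s : ℝ) := fun s => by exact_mod_cast (hK1 s)
  have hprod : ((∏ s ∈ Icc 1 t, Kap s : ℕ) : ℝ) = Real.exp (∑ s ∈ Icc 1 t, Real.log (Kap s : ℝ)) := by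
    rw [Real.exp_sum, Nat.cast_prod]
    exact Finset.prod_congr rfl fun s _ => (Real.exp_log (hpos s)).symm
  have hterm : ∀ s ∈ Icc 1 t, Real.log (Kap s : ℝ) ≤ 2 * √(2 * C1 * L) * (1 / √(s : ℝ)) := by
    intro s hs
    rw [Finset.mem_Icc] at hs
    have hs1 : (1 : ℝ) ≤ s := by exact_mod_cast hs.1
    have hst : (s : ℝ) ≤ t := by exact_mod_cast hs.2
    have h1 : (1 : ℝ) ≤ L / s := by
      rw [le_div_iff₀ (by linarith)]
      linarith
    have h2 : (Kap s : ℝ) ≤ 2 * C1 * L / s := by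
      refine (hK s (Finset.mem_Icc.2 hs)).trans ?_
      have : C1 * (1 + L / s) ≤ C1 * (L / s + L / s) :=
        mul_le_mul_of_nonneg_left (by linarith) (by linarith)
      calc C1 * (1 + L / s) ≤ C1 * (L / s + L / s) := this
        _ = 2 * C1 * L / s := by ring
    have h3 : (1 : ℝ) ≤ Kap s := by exact_mod_cast (hK1 s)
    have h4 := log_le_sqrt_KAP h3
    have h5 : √(Kap s : ℝ) ≤ √(2 * C1 * L / s) := Real.sqrt_le_sqrt h2
    have h6 : √(2 * C1 * L / s) = √(2 * C1 * L) / √(s : ℝ) := Real.sqrt_div (by positivity) _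
    rw [h6] at h5
    calc Real.log (Kap s : ℝ) ≤ 2 * √(Kap s : ℝ) := h4
      _ ≤ 2 * (√(2 * C1 * L) / √(s : ℝ)) := by linarith
      _ = 2 * √(2 * C1 * L) * (1 / √(s : ℝ)) := by ring
  have hsum : ∑ s ∈ Icc 1 t, Real.log (Kap s : ℝ) ≤ κ * L := by
    refine (Finset.sum_le_sum hterm).trans ?_
    rw [← Finset.mul_sum]
    have h1 := sum_inv_sqrt_KAP t
    have h2 : 0 ≤ 2 * √(2 * C1 * L) := by positivity
    have h3 := mul_le_mul_of_nonneg_left h1 h2
    refine h3.trans ?_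
    have h4 : 2 * √(2 * C1 * L) * (2 * √(t : ℝ)) = √(32 * C1 * L * t) := by
      have h5 : √((4 : ℝ) ^ 2 * ((2 * C1 * L) * t)) = 4 * (√(2 * C1 * L) * √(t : ℝ)) := by
        rw [Real.sqrt_mul (by positivity : (0 : ℝ) ≤ 4 ^ 2), Real.sqrt_sq (by norm_num),
          Real.sqrt_mul (by positivity : (0 : ℝ) ≤ 2 * C1 * L)]
      rw [show 32 * C1 * L * t = 4 ^ 2 * ((2 * C1 * L) * t) by ring, h5]
      ring
    rw [h4]
    apply Real.sqrt_le_iff.2
    refine ⟨by positivity, ?_⟩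
    calc 32 * C1 * L * t ≤ 32 * C1 * L * (c0 * L) := mul_le_mul_of_nonneg_left ht (by positivity)
      _ = (32 * C1 * c0) * L ^ 2 := by ring
      _ ≤ κ ^ 2 * L ^ 2 := mul_le_mul_of_nonneg_right h32 (by positivity)
      _ = (κ * L) ^ 2 := by ring
  rw [hprod, Real.rpow_def_of_pos (by linarith), ← hL, mul_comm L κ]
  exact Real.exp_le_exp.2 hsum

end Pool.Agent.Helper97.MX
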