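import Mathlib
import Pool.Agent.Helper97.MX.St

set_option autoImplicit false

namespace Pool.Agent.Helper97.MX

open Finset Classical
open scoped Pointwise

theorem hKR : StKR := by
  intro R r f h hr hf0 hfc hT hh
  let s : Setoid (ℕ × ℕ) := ⟨r, hr⟩
  let q : ℕ × ℕ → Quotient s := Quotient.mk s
  have hq : ∀ x y, q x = q y ↔ r x y := fun x y => by
    constructor
    · intro hxy
      exact Quotient.exact hxy
    · intro hxy
      exact Quotient.sound hxy
  have hex : ∀ c : Quotient s, ∃ x, c ∈ R.image q → x ∈ R ∧ q x = c := by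
    intro c
    by_cases hc : c ∈ R.image q
    · obtain ⟨x, hx, hxc⟩ := Finset.mem_image.1 hc
      exact ⟨x, fun _ => ⟨hx, hxc⟩⟩
    · exact ⟨(0, 0), fun h => absurd h hc⟩
  choose g hg using hex
  have hginj : Set.InjOn g (R.image q : Finset (Quotient s)) := by
    intro c hc c' hc' hcc
    rw [← (hg c hc).2, ← (hg c' hc').2, hcc]
  have hsum : ∑ x ∈ R, f x * h x =
      ∑ c ∈ R.image q, ∑ x ∈ R.filter (fun x => q x = c), f x * h x :=
    (Finset.sum_fiberwise_of_maps_to (fun x hx => Finset.mem_image_of_mem q hx) _).symm
  rw [hsum]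
  calc ∑ c ∈ R.image q, ∑ x ∈ R.filter (fun x => q x = c), f x * h x
      ≤ ∑ c ∈ R.image q, f (g c) := by
        apply Finset.sum_le_sum
        intro c hc
        have h1 : ∑ x ∈ R.filter (fun x => q x = c), f x * h x =
            f (g c) * ∑ x ∈ R.filter (fun x => q x = c), h x := by
          rw [Finset.mul_sum]
          apply Finset.sum_congr rfl
          intro x hx
          rw [Finset.mem_filter] at hx
          rw [hfc x hx.1 (g c) (hg c hc).1 ((hq _ _).1 (hx.2.trans (hg c hc).2.symm))]
        rw [h1]
        have h2 : ∑ x ∈ R.filter (fun x => q x = c), h x ≤ 1 := by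
          apply hh _ (Finset.filter_subset _ _)
          intro x hx y hy
          rw [Finset.mem_filter] at hx hy
          exact (hq _ _).1 (hx.2.trans hy.2.symm)
        exact mul_le_of_le_one_right (hf0 _ (hg c hc).1) h2
    _ = ∑ x ∈ (R.image q).image g, f x := (Finset.sum_image hginj).symm
    _ ≤ 1 := by
        apply hT
        · intro x hx
          obtain ⟨c, hc, rfl⟩ := Finset.mem_image.1 hx
          exact (hg c hc).1
        · intro x hx y hy hxy
          obtain ⟨c, hc, rfl⟩ := Finset.mem_image.1 hx
          obtain ⟨c', hc', rfl⟩ := Finset.mem_image.1 hy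
          have : c = c' := by
            rw [← (hg c hc).2, ← (hg c' hc').2]
            exact (hq _ _).2 hxy
          rw [this]

end Pool.Agent.Helper97.MX
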