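import Mathlib
import Pool.Agent.Helper97.MX.St

set_option autoImplicit false

namespace Pool.Agent.Helper97.MX

open Finset Classical
open scoped Pointwise

private lemma mem_grp_LRG (P : Par) {k x : ℕ} (hx : x ∈ P.D) : x ∈ P.grp k x := by
  unfold Par.grp
  rw [Finset.mem_filter]
  exact ⟨hx, fun i _ => rfl⟩

theorem hLRG : StLRG := by
  intro P η h hn hη hη1 hh
  have hnD : P.n = (#P.D : ℝ) := rfl
  have hlog : 0 < Real.log P.n := Real.log_pos hn
  have hn0 : 0 < P.n := by linarith
  set D2 := P.D.filter (fun x => P.n ^ (η / 2) ≤ (#(P.grp P.t x) : ℝ)) with hD2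
  have hgle : ∀ x, (#(P.grp P.t x) : ℝ) ≤ P.n := by
    intro x
    rw [hnD]
    exact_mod_cast Finset.card_le_card (Finset.filter_subset _ _)
  have hgpos : ∀ x ∈ P.D, (0:ℝ) < #(P.grp P.t x) := by
    intro x hx
    exact_mod_cast Finset.card_pos.2 ⟨x, mem_grp_LRG P hx⟩
  constructor
  · intro hlt
    have h1 : ∑ x ∈ P.D, Real.log #(P.grp P.t x) ≤
        #D2 * Real.log P.n + P.n * (η / 2 * Real.log P.n) := by
      have h2 : ∀ x ∈ P.D, Real.log #(P.grp P.t x) ≤
          (if P.n ^ (η / 2) ≤ (#(P.grp P.t x) : ℝ) then Real.log P.n else 0) +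
            η / 2 * Real.log P.n := by
        intro x hx
        split_ifs with hc
        · have := Real.log_le_log (hgpos x hx) (hgle x)
          have h3 : 0 ≤ η / 2 * Real.log P.n := by positivity
          linarith
        · push Not at hc
          have h3 := Real.log_le_log (hgpos x hx) hc.le
          rw [Real.log_rpow hn0] at h3
          linarith
      refine (Finset.sum_le_sum h2).trans ?_
      rw [Finset.sum_add_distrib, Finset.sum_const, ← Finset.sum_filter, Finset.sum_const,
        nsmul_eq_mul, nsmul_eq_mul]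
      exact le_of_eq (by rw [hD2, hnD])
    have h3 : η * P.n * Real.log P.n < (#D2 + P.n * (η / 2)) * Real.log P.n := by
      nlinarith
    have h4 : η * P.n < #D2 + P.n * (η / 2) := lt_of_mul_lt_mul_right h3 hlog.le
    linarith
  · -- count of classes
    have hex : ∀ u ∈ D2.image h, ∃ x, x ∈ D2 ∧ h x = u := by
      intro u hu
      rw [Finset.mem_image] at hu
      obtain ⟨x, hx, hxu⟩ := hu
      exact ⟨x, hx, hxu⟩
    choose! f hf1 hf2 using hex
    have hdisj : ∀ u ∈ D2.image h, ∀ w ∈ D2.image h, u ≠ w →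
        Disjoint (P.grp P.t (f u)) (P.grp P.t (f w)) := by
      intro u hu w hw huw
      rw [Finset.disjoint_left]
      intro y hy1 hy2
      unfold Par.grp at hy1 hy2
      rw [Finset.mem_filter] at hy1 hy2
      have hfu : f u ∈ P.D := (Finset.mem_filter.1 (hf1 u hu)).1
      have hfw : f w ∈ P.D := (Finset.mem_filter.1 (hf1 w hw)).1
      have e1 := hh y hy1.1 (f u) hfu hy1.2
      have e2 := hh y hy2.1 (f w) hfw hy2.2
      apply huw
      rw [← hf2 u hu, ← hf2 w hw, ← e1, ← e2]
    have hcard : (#((D2.image h).biUnion (fun u => P.grp P.t (f u))) : ℝ) ≤ P.n := by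
      rw [hnD]
      have : (D2.image h).biUnion (fun u => P.grp P.t (f u)) ⊆ P.D := by
        intro y hy
        rw [Finset.mem_biUnion] at hy
        obtain ⟨u, _, hy⟩ := hy
        exact (Finset.mem_filter.1 hy).1
      exact_mod_cast Finset.card_le_card this
    rw [Finset.card_biUnion hdisj] at hcard
    push_cast at hcard
    refine le_trans ?_ hcard
    have h5 : ∀ u ∈ D2.image h, P.n ^ (η / 2) ≤ (#(P.grp P.t (f u)) : ℝ) := by
      intro u hu
      exact (Finset.mem_filter.1 (hf1 u hu)).2
    have h6 := Finset.card_nsmul_le_sum (D2.image h) (fun u => (#(P.grp P.t (f u)) : ℝ))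
      (P.n ^ (η / 2)) h5
    rw [nsmul_eq_mul] at h6
    exact h6

end Pool.Agent.Helper97.MX
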