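import Mathlib
import Pool.Agent.Helper97.MX.St

set_option autoImplicit false

namespace Pool.Agent.Helper97.MX

open Finset Classical
open scoped Pointwise

private theorem aux_MD (P : Par) (hP : P.Pos) : ∀ (k : ℕ), k ≤ P.t → ∀ (e : ℕ → ℕ) (y : ℕ),
    (∀ i < k, P.q i ^ e i ∣ y) → ∏ i ∈ range k, P.q i ^ e i ∣ y := by
  intro k
  induction k with
  | zero => intro _ e y _; simp
  | succ k ih =>
    intro hk e y h
    rw [Finset.prod_range_succ]
    apply Nat.Coprime.mul_dvd_of_dvd_of_dvd
    · apply Nat.Coprime.prod_left
      intro i hi
      rw [mem_range] at hi
      apply Nat.Coprime.pow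
      rw [Nat.coprime_primes (hP.prime i (by omega)) (hP.prime k (by omega))]
      intro heq
      have := hP.inj i (by omega) k (by omega) heq
      omega
    · exact ih (by omega) e y (fun i hi => h i (by omega))
    · exact h k (by omega)

theorem hMD : StMD := by
  intro P hP
  have key : ∀ (i x y : ℕ), (if P.v i x < P.v i y then P.q i ^ P.v i y else 1) ∣ y := by
    intro i x y
    split_ifs
    · exact Nat.ordProj_dvd y (P.q i)
    · exact one_dvd _
  have key2 : ∀ (i x y : ℕ), (if P.v i x < P.v i y then P.q i ^ P.v i y else 1)
      = P.q i ^ (if P.v i x < P.v i y then P.v i y else 0) := by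
    intro i x y
    split_ifs
    · rfl
    · simp
  constructor
  · intro k hk x y j hy hj
    have h := aux_MD P hP (k + 1) (by omega)
      (fun i => if i = k then j else (if P.v i x < P.v i y then P.v i y else 0)) y (by
        intro i hi
        by_cases hik : i = k
        · subst hik
          simp only [if_true]
          exact (pow_dvd_pow _ hj).trans (Nat.ordProj_dvd y (P.q i))
        · simp only [hik, if_false]
          rw [← key2]
          exact key i x y)
    rw [Finset.prod_range_succ] at h
    simp only [if_true] at h
    convert h using 2
    unfold Par.mL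
    apply Finset.prod_congr rfl
    intro i hi
    rw [mem_range] at hi
    have : i ≠ k := by omega
    simp only [this, if_false]
    exact key2 i x y
  · intro k hk x y hy
    unfold Par.mL
    have h := aux_MD P hP k hk (fun i => if P.v i x < P.v i y then P.v i y else 0) y (by
        intro i hi
        rw [← key2]
        exact key i x y)
    convert h using 2
    exact key2 _ _ _

end Pool.Agent.Helper97.MX
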