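import Mathlib
import Pool.Agent.Helper97.MX.St

set_option autoImplicit false

namespace Pool.Agent.Helper97.MX

open Finset Classical
open scoped Pointwise

private lemma prpos_P1C (P : Par) (k x : ℕ) (hx : x ∈ P.D) : 0 < P.pr k x (P.v k x) := by
  have hx1 : x ∈ P.grp k x := by
    simp only [Par.grp, mem_filter]
    exact ⟨hx, fun i _ => rfl⟩
  have hx2 : x ∈ (P.grp k x).filter (fun y => P.v k y = P.v k x) := by
    simp only [mem_filter]
    exact ⟨hx1, trivial⟩
  unfold Par.pr
  apply div_pos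
  · exact_mod_cast Finset.card_pos.mpr ⟨x, hx2⟩
  · exact_mod_cast Finset.card_pos.mpr ⟨x, hx1⟩

private lemma prle_P1C (P : Par) (k x a : ℕ) : P.pr k x a ≤ 1 := by
  unfold Par.pr
  apply div_le_one_of_le₀
  · exact_mod_cast Finset.card_filter_le _ _
  · positivity

private lemma logpr_P1C (P : Par) (k x : ℕ) (hx : x ∈ P.D) :
    0 ≤ Real.log (1 / P.pr k x (P.v k x)) := by
  apply Real.log_nonneg
  rw [le_div_iff₀ (prpos_P1C P k x hx), one_mul]
  exact prle_P1C P k x _

private lemma rare_nonneg_P1C (P : Par) (Θ : ℝ) (k x y : ℕ) (hy : y ∈ P.D) :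
    0 ≤ P.rare Θ k x y := by
  unfold Par.rare
  split_ifs
  · exact logpr_P1C P k y hy
  · exact le_refl _

private lemma tie_nonneg_P1C (P : Par) (k x y : ℕ) (hx : x ∈ P.D) :
    0 ≤ P.tie k x y := by
  unfold Par.tie
  split_ifs
  · exact logpr_P1C P k x hx
  · exact le_refl _

private lemma log_one_sub_P1C (g : ℝ) (hg : 0 < g) (hg2 : g ≤ 1 / 2) :
    Real.log (1 / (1 - g)) ≤ 2 * g := by
  have h1 : (0 : ℝ) < 1 - g := by linarith
  have h2 : Real.log (1 / (1 - g)) ≤ 1 / (1 - g) - 1 :=
    Real.log_le_sub_one_of_pos (by positivity)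
  have h3 : 1 / (1 - g) - 1 ≤ 2 * g := by
    have h4 : 1 / (1 - g) ≤ 1 + 2 * g := by
      rw [div_le_iff₀ h1]
      nlinarith
    linarith
  linarith

private lemma half_P1C (hZP : StZP) (P : Par) (Θ g : ℝ) (hP : P.Pos) (hΘ : 1 < Θ) (hg : 0 < g)
    (hg2 : g ≤ 1 / 2) (k : ℕ) (hk : k < P.t) (x : ℕ) (hx : x ∈ P.D) (y : ℕ) (hy : y ∈ P.D)
    (hxy : P.v k x < P.v k y) :
    Real.log (1 / P.half Θ g k x y) ≤ Real.log 8 + Real.log (1 / g) + P.rare Θ k x y +
      2 * g * Θ * P.prog k x y := by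
  have hz := hZP P Θ hP hΘ k hk x hx y hy hxy
  have hg1 : (0 : ℝ) < 1 - g := by linarith
  have hprog : 0 ≤ P.prog k x y := by
    have h0 : (0 : ℝ) ≤ Θ * P.prog k x y := le_trans (Nat.cast_nonneg _) hz
    exact nonneg_of_mul_nonneg_right h0 (by linarith)
  have hlg : 0 ≤ Real.log (1 / g) := by
    apply Real.log_nonneg
    rw [le_div_iff₀ hg]
    linarith
  have hr := rare_nonneg_P1C P Θ k x y hy
  by_cases he : P.zev Θ k (x + y) (P.mL k x y) (P.v k y)
  · have h1 : P.half Θ g k x y = 1 / 8 * (g * (1 - g) ^ P.zn Θ k (x + y) (P.mL k x y)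
        (P.v k x) (P.v k y)) := by
      unfold Par.half
      rw [if_pos he]
    rw [h1]
    set a := P.zn Θ k (x + y) (P.mL k x y) (P.v k x) (P.v k y) with ha
    have h2 : (1 : ℝ) / (1 / 8 * (g * (1 - g) ^ a)) = 8 * ((1 / g) * (1 / (1 - g)) ^ a) := by
      rw [one_div_pow]
      field_simp
    rw [h2, Real.log_mul (by norm_num) (by positivity), Real.log_mul (by positivity)
      (by positivity), Real.log_pow]
    have h3 : (a : ℝ) * Real.log (1 / (1 - g)) ≤ (Θ * P.prog k x y) * (2 * g) := by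
      apply mul_le_mul hz (log_one_sub_P1C g hg hg2)
      · apply Real.log_nonneg
        rw [le_div_iff₀ hg1]
        linarith
      · exact le_trans (Nat.cast_nonneg _) hz
    nlinarith
  · have h1 : P.half Θ g k x y = 1 / 8 * P.pr k y (P.v k y) := by
      unfold Par.half
      rw [if_neg he]
    have hp := prpos_P1C P k y hy
    rw [h1]
    have h2 : (1 : ℝ) / (1 / 8 * P.pr k y (P.v k y)) = 8 * (1 / P.pr k y (P.v k y)) := by
      field_simp
    rw [h2, Real.log_mul (by norm_num) (by positivity)]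
    have h3 : P.rare Θ k x y = Real.log (1 / P.pr k y (P.v k y)) := by
      unfold Par.rare
      rw [if_pos ⟨hxy, he⟩]
    rw [h3]
    have h4 : 0 ≤ 2 * g * Θ * P.prog k x y := by
      have : 0 < Θ := by linarith
      positivity
    linarith

theorem hP1C (hPG : StPG) (hZP : StZP) : StP1C := by
  intro P Θ g hP hΘ hg hg2 k hk x hx y hy
  have hΘ0 : 0 < Θ := by linarith
  have hpxy := (hPG P hP x hx y hy).1 k
  have hpyx := (hPG P hP y hy x hx).1 k
  have hr1 := rare_nonneg_P1C P Θ k x y hy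
  have hr2 := rare_nonneg_P1C P Θ k y x hx
  have ht := tie_nonneg_P1C P k x y hx
  have hlg : 0 ≤ Real.log (1 / g) := by
    apply Real.log_nonneg
    rw [le_div_iff₀ hg]
    linarith
  have hc1 : 0 ≤ 2 * g * Θ * P.prog k x y := by positivity
  have hc2 : 0 ≤ 2 * g * Θ * P.prog k y x := by positivity
  rcases lt_trichotomy (P.v k x) (P.v k y) with h | h | h
  · have h1 : P.phi1 Θ g k x y = P.half Θ g k x y := by
      unfold Par.phi1
      rw [if_pos h]
    rw [h1]
    have := half_P1C hZP P Θ g hP hΘ hg hg2 k hk x hx y hy h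
    nlinarith
  · have htie : P.tie k x y = Real.log (1 / P.pr k x (P.v k x)) := by
      unfold Par.tie
      rw [if_pos h]
    by_cases hs : P.v k (x + y) = P.v k x
    · have h1 : P.phi1 Θ g k x y = 1 / 8 := by
        unfold Par.phi1
        rw [if_neg (by omega), if_neg (by omega), if_pos hs]
      rw [h1]
      have h2 : (1 : ℝ) / (1 / 8) = 8 := by norm_num
      rw [h2]
      nlinarith
    · have h1 : P.phi1 Θ g k x y = 1 / 8 * P.pr k x (P.v k x) := by
        unfold Par.phi1
        rw [if_neg (by omega), if_neg (by omega), if_neg hs]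
      have hp := prpos_P1C P k x hx
      rw [h1]
      have h2 : (1 : ℝ) / (1 / 8 * P.pr k x (P.v k x)) = 8 * (1 / P.pr k x (P.v k x)) := by
        field_simp
      rw [h2, Real.log_mul (by norm_num) (by positivity), ← htie]
      nlinarith
  · have h1 : P.phi1 Θ g k x y = P.half Θ g k y x := by
      unfold Par.phi1
      rw [if_neg (by omega), if_pos h]
    rw [h1]
    have := half_P1C hZP P Θ g hP hΘ hg hg2 k hk y hy x hx h
    nlinarith

end Pool.Agent.Helper97.MX
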