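import Mathlib
import Pool.Agent.Helper97.MX.St

set_option autoImplicit false

namespace Pool.Agent.Helper97.MX

open Finset Classical
open scoped Pointwise

private lemma geo_P1H (g : ℝ) (h0 : 0 < g) (h1 : g < 1) (S : Finset ℕ) :
    ∑ i ∈ S, g * (1 - g) ^ i ≤ 1 := by
  have hs : Summable (fun i : ℕ => (1 - g) ^ i) :=
    summable_geometric_of_lt_one (by linarith) (by linarith)
  have h2 : ∑ i ∈ S, (1 - g) ^ i ≤ ∑' i : ℕ, (1 - g) ^ i :=
    hs.sum_le_tsum S (fun i _ => pow_nonneg (by linarith) i)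
  rw [tsum_geometric_of_lt_one (by linarith) (by linarith)] at h2
  rw [← Finset.mul_sum]
  have h3 : (1 - (1 - g))⁻¹ = g⁻¹ := by ring_nf
  rw [h3] at h2
  calc g * ∑ i ∈ S, (1 - g) ^ i ≤ g * g⁻¹ := mul_le_mul_of_nonneg_left h2 h0.le
    _ = 1 := mul_inv_cancel₀ h0.ne'

private lemma fib_P1H (G : Finset ℕ) (f : ℕ → ℕ) (S : Finset ℕ) :
    ∑ a ∈ S, ((#(G.filter (fun y => f y = a)) : ℝ) / #G) ≤ 1 := by
  rw [← Finset.sum_div]
  have h1 : ∑ a ∈ S, #(G.filter (fun y => f y = a)) ≤ #G := by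
    have h2 : #(G.filter (fun y => f y ∈ S)) =
        ∑ a ∈ S, #((G.filter (fun y => f y ∈ S)).filter (fun y => f y = a)) :=
      Finset.card_eq_sum_card_fiberwise (fun y hy => by
        have := (Finset.mem_filter.mp hy).2
        exact this)
    have h3 : ∑ a ∈ S, #((G.filter (fun y => f y ∈ S)).filter (fun y => f y = a)) =
        ∑ a ∈ S, #(G.filter (fun y => f y = a)) := by
      refine Finset.sum_congr rfl (fun a ha => ?_)
      congr 1
      ext y
      simp only [Finset.mem_filter]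
      constructor
      · rintro ⟨⟨h, _⟩, h'⟩; exact ⟨h, h'⟩
      · rintro ⟨h, h'⟩; exact ⟨⟨h, h' ▸ ha⟩, h'⟩
    rw [← h3, ← h2]
    exact Finset.card_filter_le _ _
  have h4 : (∑ a ∈ S, (#(G.filter (fun y => f y = a)) : ℝ)) ≤ #G := by exact_mod_cast h1
  exact div_le_one_of_le₀ h4 (by positivity)

theorem hP1H (hVZ : StVZ) : StP1H := by
  intro P Θ g hP h0 h1 k hk z T hT hpast hinj hlt
  rcases T.eq_empty_or_nonempty with rfl | ⟨p0, hp0⟩
  · simp
  set M := P.mL k p0.1 p0.2 with hM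
  have hmL : ∀ p ∈ T, P.mL k p.1 p.2 = M := by
    intro p hp
    have hh := hpast p hp p0 hp0
    unfold Par.mL at hM ⊢
    rw [hM]
    refine Finset.prod_congr rfl (fun i hi => ?_)
    rw [hh.1 i (Finset.mem_range.mp hi), hh.2 i (Finset.mem_range.mp hi)]
  have hgrp : ∀ p ∈ T, P.grp k p.2 = P.grp k p0.2 := by
    intro p hp
    have hh := (hpast p hp p0 hp0).2
    unfold Par.grp
    refine Finset.filter_congr (fun y _ => ?_)
    constructor
    · intro h i hi; exact (h i hi).trans (hh i hi)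
    · intro h i hi; exact (h i hi).trans (hh i hi).symm
  have hpos : ∀ p ∈ T, P.v k p.1 = P.v k z := by
    intro p hp
    have := hVZ P hP k hk p.1 p.2 (hP.pos _ (hT p hp).1) (hP.pos _ (hT p hp).2.1) (hlt p hp)
    rw [(hT p hp).2.2] at this
    exact this.symm
  have hinj2 : ∀ p ∈ T, ∀ p' ∈ T, P.v k p.2 = P.v k p'.2 → p = p' := by
    intro p hp p' hp' h
    exact hinj p hp p' hp' ((hpos p hp).trans (hpos p' hp').symm) h
  have hhalf : ∀ p ∈ T, P.half Θ g k p.1 p.2 =
      if P.zev Θ k z M (P.v k p.2) then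
        1 / 8 * (g * (1 - g) ^ P.zn Θ k z M (P.v k z) (P.v k p.2))
      else 1 / 8 * ((#((P.grp k p0.2).filter (fun y => P.v k y = P.v k p.2)) : ℝ) /
        #(P.grp k p0.2)) := by
    intro p hp
    unfold Par.half
    rw [hmL p hp, (hT p hp).2.2, hpos p hp]
    unfold Par.pr
    rw [hgrp p hp]
  rw [Finset.sum_congr rfl hhalf, Finset.sum_ite]
  have ha : ∑ p ∈ T.filter (fun p => P.zev Θ k z M (P.v k p.2)),
      (1 / 8 * (g * (1 - g) ^ P.zn Θ k z M (P.v k z) (P.v k p.2)) : ℝ) ≤ 1 / 8 := by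
    rw [← Finset.mul_sum]
    have hinja : ∀ p ∈ T.filter (fun p => P.zev Θ k z M (P.v k p.2)),
        ∀ p' ∈ T.filter (fun p => P.zev Θ k z M (P.v k p.2)),
        P.zn Θ k z M (P.v k z) (P.v k p.2) = P.zn Θ k z M (P.v k z) (P.v k p'.2) → p = p' := by
      have key : ∀ p ∈ T.filter (fun p => P.zev Θ k z M (P.v k p.2)),
          ∀ p' ∈ T.filter (fun p => P.zev Θ k z M (P.v k p.2)),
          P.v k p.2 < P.v k p'.2 →
          P.zn Θ k z M (P.v k z) (P.v k p.2) < P.zn Θ k z M (P.v k z) (P.v k p'.2) := by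
        intro p hp p' hp' hlt'
        have hpT := (Finset.mem_filter.mp hp).1
        have hpe := (Finset.mem_filter.mp hp).2
        unfold Par.zn
        apply Finset.card_lt_card
        refine (Finset.ssubset_iff_of_subset ?_).mpr ?_
        · intro j hj
          rw [Finset.mem_filter, Finset.mem_Ioo] at hj ⊢
          exact ⟨⟨hj.1.1, hj.1.2.trans hlt'⟩, hj.2⟩
        · refine ⟨P.v k p.2, ?_, ?_⟩
          · rw [Finset.mem_filter, Finset.mem_Ioo]
            refine ⟨⟨?_, hlt'⟩, hpe⟩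
            rw [← hpos p hpT]; exact hlt p hpT
          · rw [Finset.mem_filter, Finset.mem_Ioo]
            rintro ⟨⟨_, h⟩, _⟩
            exact lt_irrefl _ h
      intro p hp p' hp' h
      rcases lt_trichotomy (P.v k p.2) (P.v k p'.2) with h' | h' | h'
      · exact absurd h (key p hp p' hp' h').ne
      · exact hinj2 p (Finset.mem_filter.mp hp).1 p' (Finset.mem_filter.mp hp').1 h'
      · exact absurd h (key p' hp' p hp h').ne'
    have h2 : ∑ p ∈ T.filter (fun p => P.zev Θ k z M (P.v k p.2)),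
        (g * (1 - g) ^ P.zn Θ k z M (P.v k z) (P.v k p.2)) =
        ∑ i ∈ (T.filter (fun p => P.zev Θ k z M (P.v k p.2))).image
          (fun p => P.zn Θ k z M (P.v k z) (P.v k p.2)), g * (1 - g) ^ i := by
      rw [Finset.sum_image]
      intro p hp p' hp' h
      exact hinja p hp p' hp' h
    rw [h2]
    have := geo_P1H g h0 h1 ((T.filter (fun p => P.zev Θ k z M (P.v k p.2))).image
          (fun p => P.zn Θ k z M (P.v k z) (P.v k p.2)))
    linarith
  have hb : ∑ p ∈ T.filter (fun p => ¬ P.zev Θ k z M (P.v k p.2)),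
      (1 / 8 * ((#((P.grp k p0.2).filter (fun y => P.v k y = P.v k p.2)) : ℝ) /
        #(P.grp k p0.2))) ≤ 1 / 8 := by
    rw [← Finset.mul_sum]
    have h2 : ∑ p ∈ T.filter (fun p => ¬ P.zev Θ k z M (P.v k p.2)),
        ((#((P.grp k p0.2).filter (fun y => P.v k y = P.v k p.2)) : ℝ) /
        #(P.grp k p0.2)) =
        ∑ a ∈ (T.filter (fun p => ¬ P.zev Θ k z M (P.v k p.2))).image
          (fun p => P.v k p.2), ((#((P.grp k p0.2).filter (fun y => P.v k y = a)) : ℝ) /
        #(P.grp k p0.2)) := by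
      rw [Finset.sum_image]
      intro p hp p' hp' h
      exact hinj2 p (Finset.mem_filter.mp hp).1 p' (Finset.mem_filter.mp hp').1 h
    rw [h2]
    have := fib_P1H (P.grp k p0.2) (P.v k) ((T.filter (fun p => ¬ P.zev Θ k z M (P.v k p.2))).image
          (fun p => P.v k p.2))
    linarith
  linarith

end Pool.Agent.Helper97.MX
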