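import Mathlib
import Pool.Agent.Helper97.MX.St

set_option autoImplicit false

namespace Pool.Agent.Helper97.MX

open Finset Classical
open scoped Pointwise

theorem past_symm_P1K {P : Par} {k x y : ℕ} (h : P.past k x y) : P.past k y x :=
  fun i hi => (h i hi).symm

theorem past_trans_P1K {P : Par} {k x y z : ℕ} (h : P.past k x y) (h' : P.past k y z) :
    P.past k x z :=
  fun i hi => (h i hi).trans (h' i hi)

theorem past_mono_P1K {P : Par} {k j x y : ℕ} (hj : j ≤ k) (h : P.past k x y) : P.past j x y :=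
  fun i hi => h i (lt_of_lt_of_le hi hj)

theorem grp_congr_P1K {P : Par} {k x y : ℕ} (h : P.past k x y) : P.grp k x = P.grp k y := by
  unfold Par.grp
  apply Finset.filter_congr
  intro w _
  exact ⟨fun hw => past_trans_P1K hw h, fun hw => past_trans_P1K hw (past_symm_P1K h)⟩

theorem pr_congr_P1K {P : Par} {k x y : ℕ} (a : ℕ) (h : P.past k x y) :
    P.pr k x a = P.pr k y a := by
  unfold Par.pr
  rw [grp_congr_P1K h]

theorem mL_congr_P1K {P : Par} {k x y x' y' : ℕ} (h : P.past k x x') (h' : P.past k y y') :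
    P.mL k x y = P.mL k x' y' := by
  unfold Par.mL
  apply Finset.prod_congr rfl
  intro i hi
  rw [h i (Finset.mem_range.mp hi), h' i (Finset.mem_range.mp hi)]

theorem half_congr_P1K {P : Par} {Θ g : ℝ} {k x y x' y' : ℕ} (h : P.past (k + 1) x x')
    (h' : P.past (k + 1) y y') (hz : x + y = x' + y') :
    P.half Θ g k x y = P.half Θ g k x' y' := by
  unfold Par.half
  rw [hz, mL_congr_P1K (past_mono_P1K (Nat.le_succ k) h) (past_mono_P1K (Nat.le_succ k) h'),
    h k (Nat.lt_succ_self k), h' k (Nat.lt_succ_self k),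
    pr_congr_P1K _ (past_mono_P1K (Nat.le_succ k) h')]

theorem phi1_congr_P1K {P : Par} {Θ g : ℝ} {k x y x' y' : ℕ} (h : P.past (k + 1) x x')
    (h' : P.past (k + 1) y y') (hz : x + y = x' + y') :
    P.phi1 Θ g k x y = P.phi1 Θ g k x' y' := by
  unfold Par.phi1
  rw [half_congr_P1K h h' hz, half_congr_P1K h' h (by omega), hz,
    h k (Nat.lt_succ_self k), h' k (Nat.lt_succ_self k),
    pr_congr_P1K _ (past_mono_P1K (Nat.le_succ k) h)]

theorem hP1K (hKR : StKR) (hP1S : StP1S) (hPO1 : StPO1) : StP1K := by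
  intro P Θ g hP hg hg1 k
  induction k with
  | zero =>
    intro _ z T hT hinj
    have hcard : #T ≤ 1 := by
      rw [Finset.card_le_one]
      intro a ha b hb
      exact hinj a ha b hb (fun i hi => absurd hi (Nat.not_lt_zero i))
        (fun i hi => absurd hi (Nat.not_lt_zero i))
    have h1 : ∑ p ∈ T, ∏ i ∈ range 0, P.phi1 Θ g i p.1 p.2 = (#T : ℝ) := by
      simp
    rw [h1]
    exact_mod_cast hcard
  | succ k ih =>
    intro hk z T hT hinj
    have hkt : k < P.t := hk
    have key := hKR T (fun p p' => P.past k p.1 p'.1 ∧ P.past k p.2 p'.2)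
      (fun p => ∏ i ∈ range k, P.phi1 Θ g i p.1 p.2) (fun p => P.phi1 Θ g k p.1 p.2)
      ⟨fun p => ⟨fun i _ => rfl, fun i _ => rfl⟩,
        fun h => ⟨past_symm_P1K h.1, past_symm_P1K h.2⟩,
        fun h h' => ⟨past_trans_P1K h.1 h'.1, past_trans_P1K h.2 h'.2⟩⟩
      (fun p hp => Finset.prod_nonneg (fun i _ =>
        (hPO1 P Θ g hg hg1 i p.1 p.2 (hT p hp).1 (hT p hp).2.1).le))
      (by
        intro p hp p' hp' hr
        apply Finset.prod_congr rfl
        intro i hi
        have hi' : i + 1 ≤ k := Finset.mem_range.mp hi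
        apply phi1_congr_P1K (past_mono_P1K hi' hr.1) (past_mono_P1K hi' hr.2)
        rw [(hT p hp).2.2, (hT p' hp').2.2])
      (by
        intro T' hT' hr
        apply ih (by omega) z T' (fun p hp => hT p (hT' hp))
        intro p hp p' hp' h1 h2
        exact hr p hp p' hp' ⟨h1, h2⟩)
      (by
        intro T' hT' hr
        apply hP1S P Θ g hP hg hg1 k hkt z T' (fun p hp => hT p (hT' hp)) hr
        intro p hp p' hp' h1 h2
        apply hinj p (hT' hp) p' (hT' hp')
        · intro i hi
          rcases Nat.lt_succ_iff_lt_or_eq.mp hi with hi | hi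
          · exact (hr p hp p' hp').1 i hi
          · rw [hi]; exact h1
        · intro i hi
          rcases Nat.lt_succ_iff_lt_or_eq.mp hi with hi | hi
          · exact (hr p hp p' hp').2 i hi
          · rw [hi]; exact h2)
    simp only [Finset.prod_range_succ]
    exact key

end Pool.Agent.Helper97.MX
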