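import Mathlib
import Pool.Agent.Helper97.MX.St

/-!
# MP_cc0731_co, project MX: module P1S (Kraft sum of a step of phase 1)
-/

set_option autoImplicit false

namespace Pool.Agent.Helper97.MX

open Finset Classical
open scoped Pointwise

private theorem grp_eq_P1S (P : Par) (k x y : ℕ) (h : P.past k x y) : P.grp k x = P.grp k y := by
  unfold Par.grp
  refine filter_congr fun w _ => ?_
  constructor
  · intro hw i hi; rw [hw i hi, h i hi]
  · intro hw i hi; rw [hw i hi, h i hi]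

private theorem ties_P1S (P : Par) (k : ℕ) (T : Finset (ℕ × ℕ))
    (hpast : ∀ p ∈ T, ∀ p' ∈ T, P.past k p.1 p'.1)
    (hinj : ∀ p ∈ T, ∀ p' ∈ T, P.v k p.1 = P.v k p'.1 → p = p') :
    ∑ p ∈ T, P.pr k p.1 (P.v k p.1) ≤ 1 := by
  rcases T.eq_empty_or_nonempty with rfl | ⟨p0, hp0⟩
  · simp
  set G := P.grp k p0.1 with hG
  have e1 : ∀ p ∈ T, P.pr k p.1 (P.v k p.1) =
      (#(G.filter (fun y => P.v k y = P.v k p.1)) : ℝ) / #G := by
    intro p hp
    unfold Par.pr
    rw [grp_eq_P1S P k p.1 p0.1 (hpast p hp p0 hp0)]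
  rw [sum_congr rfl e1, ← sum_div]
  refine div_le_one_of_le₀ ?_ (Nat.cast_nonneg _)
  have h2 : ∑ p ∈ T, #(G.filter (fun y => P.v k y = P.v k p.1)) ≤ #G := by
    rw [← card_biUnion]
    · refine card_le_card ?_
      intro y hy
      rw [mem_biUnion] at hy
      obtain ⟨p, _, hy⟩ := hy
      exact (mem_filter.mp hy).1
    · intro p hp p' hp' hne
      rw [Function.onFun, disjoint_left]
      intro y hy hy'
      rw [mem_filter] at hy hy'
      exact hne (hinj p hp p' hp' (hy.2.symm.trans hy'.2))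
  exact_mod_cast h2

theorem hP1S (hP1H : StP1H) : StP1S := by
  intro P Θ g hP hg hg1 k hk z T hT hpast hinj
  set T1 := T.filter (fun p => P.v k p.1 < P.v k p.2) with hT1
  set R := T.filter (fun p => ¬ P.v k p.1 < P.v k p.2) with hR
  set T2 := R.filter (fun p => P.v k p.2 < P.v k p.1) with hT2
  set S := R.filter (fun p => ¬ P.v k p.2 < P.v k p.1) with hS
  set Sa := S.filter (fun p => P.v k (p.1 + p.2) = P.v k p.1) with hSa
  set Sb := S.filter (fun p => ¬ P.v k (p.1 + p.2) = P.v k p.1) with hSb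
  have hsum : ∑ p ∈ T, P.phi1 Θ g k p.1 p.2 = ∑ p ∈ T1, P.phi1 Θ g k p.1 p.2 +
      (∑ p ∈ T2, P.phi1 Θ g k p.1 p.2 +
        (∑ p ∈ Sa, P.phi1 Θ g k p.1 p.2 + ∑ p ∈ Sb, P.phi1 Θ g k p.1 p.2)) := by
    rw [hSa, hSb, sum_filter_add_sum_filter_not, hT2, hS, sum_filter_add_sum_filter_not, hT1, hR,
      sum_filter_add_sum_filter_not]
  have b1 : ∑ p ∈ T1, P.phi1 Θ g k p.1 p.2 ≤ 1 / 4 := by
    have e : ∀ p ∈ T1, P.phi1 Θ g k p.1 p.2 = P.half Θ g k p.1 p.2 := by
      intro p hp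
      unfold Par.phi1
      rw [if_pos (mem_filter.mp hp).2]
    rw [sum_congr rfl e]
    refine hP1H P Θ g hP hg hg1 k hk z T1 (fun p hp => hT p (mem_filter.mp hp).1)
      (fun p hp p' hp' => hpast p (mem_filter.mp hp).1 p' (mem_filter.mp hp').1)
      (fun p hp p' hp' => hinj p (mem_filter.mp hp).1 p' (mem_filter.mp hp').1)
      (fun p hp => (mem_filter.mp hp).2)
  have mT2 : ∀ p ∈ T2, p ∈ T ∧ P.v k p.2 < P.v k p.1 := fun p hp =>
    ⟨(mem_filter.mp (mem_filter.mp hp).1).1, (mem_filter.mp hp).2⟩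
  have mS : ∀ p ∈ S, p ∈ T ∧ P.v k p.1 = P.v k p.2 := fun p hp => by
    have h1 := mem_filter.mp hp
    have h2 := mem_filter.mp h1.1
    exact ⟨h2.1, le_antisymm (not_lt.mp h1.2) (not_lt.mp h2.2)⟩
  have b2 : ∑ p ∈ T2, P.phi1 Θ g k p.1 p.2 ≤ 1 / 4 := by
    have e : ∀ p ∈ T2, P.phi1 Θ g k p.1 p.2 = P.half Θ g k p.swap.1 p.swap.2 := by
      intro p hp
      unfold Par.phi1
      rw [if_neg (not_lt.mpr (mT2 p hp).2.le), if_pos (mT2 p hp).2]
      rfl
    rw [sum_congr rfl e]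
    have hsw : ∑ p ∈ T2, P.half Θ g k p.swap.1 p.swap.2 =
        ∑ p ∈ T2.image Prod.swap, P.half Θ g k p.1 p.2 :=
      (sum_image (f := fun p : ℕ × ℕ => P.half Θ g k p.1 p.2)
        (Prod.swap_injective.injOn)).symm
    rw [hsw]
    refine hP1H P Θ g hP hg hg1 k hk z (T2.image Prod.swap) ?_ ?_ ?_ ?_
    · intro p hp
      rw [mem_image] at hp
      obtain ⟨q, hq, rfl⟩ := hp
      have := hT q (mT2 q hq).1
      exact ⟨this.2.1, this.1, by rw [Prod.fst_swap, Prod.snd_swap, add_comm]; exact this.2.2⟩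
    · intro p hp p' hp'
      rw [mem_image] at hp hp'
      obtain ⟨q, hq, rfl⟩ := hp
      obtain ⟨q', hq', rfl⟩ := hp'
      have := hpast q (mT2 q hq).1 q' (mT2 q' hq').1
      exact ⟨this.2, this.1⟩
    · intro p hp p' hp' h1 h2
      rw [mem_image] at hp hp'
      obtain ⟨q, hq, rfl⟩ := hp
      obtain ⟨q', hq', rfl⟩ := hp'
      rw [hinj q (mT2 q hq).1 q' (mT2 q' hq').1 h2 h1]
    · intro p hp
      rw [mem_image] at hp
      obtain ⟨q, hq, rfl⟩ := hp
      exact (mT2 q hq).2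
  have b3 : ∑ p ∈ Sa, P.phi1 Θ g k p.1 p.2 ≤ 1 / 8 := by
    have e : ∀ p ∈ Sa, P.phi1 Θ g k p.1 p.2 = 1 / 8 := by
      intro p hp
      have h1 := mem_filter.mp hp
      have h2 := (mS p h1.1).2
      unfold Par.phi1
      rw [if_neg (by rw [h2]; exact lt_irrefl _), if_neg (by rw [h2]; exact lt_irrefl _),
        if_pos h1.2]
    rw [sum_congr rfl e, sum_const, nsmul_eq_mul]
    have hc : #Sa ≤ 1 := by
      rw [card_le_one]
      intro p hp p' hp'
      have h1 := mem_filter.mp hp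
      have h1' := mem_filter.mp hp'
      have h2 := mS p h1.1
      have h2' := mS p' h1'.1
      have hz : P.v k p.1 = P.v k p'.1 := by
        rw [← h1.2, ← h1'.2, (hT p h2.1).2.2, (hT p' h2'.1).2.2]
      exact hinj p h2.1 p' h2'.1 hz (by rw [← h2.2, ← h2'.2, hz])
    have : (#Sa : ℝ) ≤ 1 := by exact_mod_cast hc
    linarith
  have b4 : ∑ p ∈ Sb, P.phi1 Θ g k p.1 p.2 ≤ 1 / 8 := by
    have e : ∀ p ∈ Sb, P.phi1 Θ g k p.1 p.2 = 1 / 8 * P.pr k p.1 (P.v k p.1) := by
      intro p hp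
      have h1 := mem_filter.mp hp
      have h2 := (mS p h1.1).2
      unfold Par.phi1
      rw [if_neg (by rw [h2]; exact lt_irrefl _), if_neg (by rw [h2]; exact lt_irrefl _),
        if_neg h1.2]
    rw [sum_congr rfl e, ← mul_sum]
    have := ties_P1S P k Sb
      (fun p hp p' hp' => (hpast p (mS p (mem_filter.mp hp).1).1 p'
        (mS p' (mem_filter.mp hp').1).1).1)
      (fun p hp p' hp' h => by
        have h2 := mS p (mem_filter.mp hp).1
        have h2' := mS p' (mem_filter.mp hp').1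
        exact hinj p h2.1 p' h2'.1 h (by rw [← h2.2, ← h2'.2, h]))
    linarith
  rw [hsum]
  linarith

end Pool.Agent.Helper97.MX
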