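import Mathlib
import Pool.Agent.Helper97.MX.St

set_option autoImplicit false

namespace Pool.Agent.Helper97.MX

open Finset Classical
open scoped Pointwise

private lemma sum_comm3_P1T (D : Finset ℕ) (t : ℕ) (f : ℕ → ℕ → ℕ → ℝ) :
    ∑ x ∈ D, ∑ y ∈ D, ∑ k ∈ range t, f k x y = ∑ k ∈ range t, ∑ x ∈ D, ∑ y ∈ D, f k x y := by
  have h1 : ∀ x ∈ D, ∑ y ∈ D, ∑ k ∈ range t, f k x y = ∑ k ∈ range t, ∑ y ∈ D, f k x y :=
    fun x _ => Finset.sum_comm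
  rw [Finset.sum_congr rfl h1, Finset.sum_comm]

theorem hP1T (hP1C : StP1C) (hT2A : StT2A) (hT3A : StT3A) (hPG : StPG) : StP1T := by
  intro P Θ g β hP hΘ hg hg2 hβ hΘβ
  set n : ℝ := P.n with hn
  have hn0 : 0 ≤ n := by rw [hn]; unfold Par.n; positivity
  have hnn : (#P.D : ℝ) = n := rfl
  -- total progress
  set PR : ℝ := ∑ k ∈ range P.t, ∑ x ∈ P.D, ∑ y ∈ P.D, P.prog k x y with hPR
  have hPR1 : PR ≤ n ^ 2 * Real.log n := by
    rw [hPR, ← sum_comm3_P1T]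
    calc ∑ x ∈ P.D, ∑ y ∈ P.D, ∑ k ∈ range P.t, P.prog k x y
        ≤ ∑ x ∈ P.D, ∑ y ∈ P.D, Real.log n :=
          Finset.sum_le_sum fun x hx => Finset.sum_le_sum fun y hy => (hPG P hP x hx y hy).2
      _ = n ^ 2 * Real.log n := by
          simp only [Finset.sum_const, nsmul_eq_mul, hnn]; ring
  have hcomm : ∀ k, ∑ x ∈ P.D, ∑ y ∈ P.D, P.prog k y x = ∑ x ∈ P.D, ∑ y ∈ P.D, P.prog k x y :=
    fun k => Finset.sum_comm
  have hcommr : ∀ k, ∑ x ∈ P.D, ∑ y ∈ P.D, P.rare Θ k y x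
      = ∑ x ∈ P.D, ∑ y ∈ P.D, P.rare Θ k x y := fun k => Finset.sum_comm
  -- per step
  have hk : ∀ k ∈ range P.t, ∑ x ∈ P.D, ∑ y ∈ P.D, Real.log (1 / P.phi1 Θ g k x y) ≤
      n ^ 2 * (Real.log 8 + Real.log (1 / g) + 5) +
        (4 * g * Θ + 2 * β) * ∑ x ∈ P.D, ∑ y ∈ P.D, P.prog k x y := by
    intro k hk
    have hkt : k < P.t := Finset.mem_range.1 hk
    have h1 : ∑ x ∈ P.D, ∑ y ∈ P.D, Real.log (1 / P.phi1 Θ g k x y) ≤
        ∑ x ∈ P.D, ∑ y ∈ P.D, (Real.log 8 + Real.log (1 / g) + P.tie k x y +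
          P.rare Θ k x y + P.rare Θ k y x + 2 * g * Θ * (P.prog k x y + P.prog k y x)) :=
      Finset.sum_le_sum fun x hx => Finset.sum_le_sum fun y hy =>
        hP1C P Θ g hP hΘ hg hg2 k hkt x hx y hy
    have h2 : ∑ x ∈ P.D, ∑ y ∈ P.D, (Real.log 8 + Real.log (1 / g) + P.tie k x y +
          P.rare Θ k x y + P.rare Θ k y x + 2 * g * Θ * (P.prog k x y + P.prog k y x)) =
        n ^ 2 * (Real.log 8 + Real.log (1 / g)) + ∑ x ∈ P.D, ∑ y ∈ P.D, P.tie k x y +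
          ∑ x ∈ P.D, ∑ y ∈ P.D, P.rare Θ k x y + ∑ x ∈ P.D, ∑ y ∈ P.D, P.rare Θ k y x +
          2 * g * Θ * (∑ x ∈ P.D, ∑ y ∈ P.D, P.prog k x y + ∑ x ∈ P.D, ∑ y ∈ P.D, P.prog k y x) := by
      simp only [Finset.sum_add_distrib, Finset.sum_const, nsmul_eq_mul, hnn, ← Finset.mul_sum]
      ring
    have h3 := hT2A P hP k hkt
    have h4 := hT3A P Θ β hP hΘ hβ hΘβ k hkt
    rw [h2, hcomm k, hcommr k] at h1
    have h5 : P.n = n := rfl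
    rw [h5] at h3 h4
    nlinarith [h1, h3, h4]
  rw [sum_comm3_P1T]
  calc ∑ k ∈ range P.t, ∑ x ∈ P.D, ∑ y ∈ P.D, Real.log (1 / P.phi1 Θ g k x y)
      ≤ ∑ k ∈ range P.t, (n ^ 2 * (Real.log 8 + Real.log (1 / g) + 5) +
        (4 * g * Θ + 2 * β) * ∑ x ∈ P.D, ∑ y ∈ P.D, P.prog k x y) := Finset.sum_le_sum hk
    _ = P.t * (n ^ 2 * (Real.log 8 + Real.log (1 / g) + 5)) + (4 * g * Θ + 2 * β) * PR := by
        rw [Finset.sum_add_distrib, Finset.sum_const, Finset.card_range, nsmul_eq_mul, hPR,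
          ← Finset.mul_sum]
    _ ≤ P.t * (n ^ 2 * (Real.log 8 + Real.log (1 / g) + 5)) +
        (4 * g * Θ + 2 * β) * (n ^ 2 * Real.log n) := by
        have : 0 ≤ 4 * g * Θ + 2 * β := by positivity
        gcongr
    _ = n ^ 2 * (P.t * (Real.log 8 + Real.log (1 / g) + 5) +
        (4 * g * Θ + 2 * β) * Real.log n) := by ring

end Pool.Agent.Helper97.MX
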