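import Mathlib
import Pool.Agent.Helper97.MX.St

set_option autoImplicit false

namespace Pool.Agent.Helper97.MX

open Finset Classical
open scoped Pointwise

/-- an event has information content at least `1 / Θ` -/
private lemma iota_ev_P2B (P : Par) (hW1 : StW1) (Θ : ℝ) (hΘ : 1 < Θ) (k : ℕ) (ℓ : List ℕ)
    (x : ℕ) (hx : x ∈ P.D) (he : P.ev Θ k ℓ x) : 1 ≤ Θ * P.iota k ℓ x := by
  obtain ⟨h1, -, -, -⟩ := hW1 P x hx ℓ
  obtain ⟨h2, -, -, -⟩ := hW1 P x hx (k :: ℓ)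
  have hΘ0 : 0 < Θ := by linarith only [hΘ]
  have hW : 0 < P.W ℓ x := by linarith only [h1]
  have hW' : 0 < P.W (k :: ℓ) x := by linarith only [h2]
  have hq : P.W (k :: ℓ) x / P.W ℓ x < 1 - 1 / Θ := by
    rw [div_lt_iff₀ hW]
    exact he
  have hq0 : 0 < P.W (k :: ℓ) x / P.W ℓ x := div_pos hW' hW
  have hlog : Real.log (P.W (k :: ℓ) x / P.W ℓ x) ≤ P.W (k :: ℓ) x / P.W ℓ x - 1 :=
    Real.log_le_sub_one_of_pos hq0
  have hio : P.iota k ℓ x = - Real.log (P.W (k :: ℓ) x / P.W ℓ x) := by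
    rw [Real.log_div hW'.ne' hW.ne']
    unfold Par.iota
    ring
  have h3 : 1 / Θ ≤ P.iota k ℓ x := by
    rw [hio]
    linarith only [hlog, hq]
  calc (1 : ℝ) = Θ * (1 / Θ) := by field_simp
    _ ≤ Θ * P.iota k ℓ x := mul_le_mul_of_nonneg_left h3 hΘ0.le

private lemma iota_nonneg_P2B (P : Par) (hW1 : StW1) (k : ℕ) (ℓ : List ℕ)
    (x : ℕ) (hx : x ∈ P.D) : 0 ≤ P.iota k ℓ x := by
  obtain ⟨-, -, -, h1⟩ := hW1 P x hx ℓ
  obtain ⟨h2, -, -, -⟩ := hW1 P x hx (k :: ℓ)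
  have hW' : 0 < P.W (k :: ℓ) x := by linarith only [h2]
  unfold Par.iota
  exact sub_nonneg.mpr (Real.log_le_log hW' (h1 k))

theorem hP2B (hW1 : StW1) : StP2B := by
  intro P Θ g p0 _hne hΘ hg hg1 hp0 k ℓ hE
  have hΘ0 : 0 < Θ := by linarith only [hΘ]
  set E : Finset ℕ := P.D.filter (fun x => P.ev Θ k ℓ x) with hEdef
  set L : ℝ := Real.log (1 / g) with hL
  have hL0 : 0 ≤ L := by
    rw [hL]
    apply Real.log_nonneg
    rw [le_div_iff₀ hg]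
    linarith only [hg1]
  have hdouble : ∑ x ∈ P.D, ∑ y ∈ P.D, (if P.ev Θ k ℓ x ∧ P.ev Θ k ℓ y then
        L + P.iota k ℓ x + P.iota k ℓ y else 0) =
      ∑ x ∈ E, ∑ y ∈ E, (L + P.iota k ℓ x + P.iota k ℓ y) := by
    rw [hEdef, Finset.sum_filter]
    apply Finset.sum_congr rfl
    intro x _
    by_cases hx : P.ev Θ k ℓ x
    · rw [if_pos hx, Finset.sum_filter]
      apply Finset.sum_congr rfl
      intro y _
      by_cases hy : P.ev Θ k ℓ y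
      · rw [if_pos ⟨hx, hy⟩, if_pos hy]
      · rw [if_neg (fun h => hy h.2), if_neg hy]
    · rw [if_neg hx]
      apply Finset.sum_eq_zero
      intro y _
      rw [if_neg (fun h => hx h.1)]
  have hinner : ∑ x ∈ E, ∑ y ∈ E, (L + P.iota k ℓ x + P.iota k ℓ y) =
      (#E : ℝ) * ((#E : ℝ) * L) + 2 * ((#E : ℝ) * ∑ x ∈ E, P.iota k ℓ x) := by
    simp only [Finset.sum_add_distrib, Finset.sum_const, nsmul_eq_mul]
    rw [← Finset.mul_sum]
    ring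
  have hSE : ∑ x ∈ E, P.iota k ℓ x ≤ ∑ x ∈ P.D, P.iota k ℓ x := by
    apply Finset.sum_le_sum_of_subset_of_nonneg (Finset.filter_subset _ _)
    intro x hx _
    exact iota_nonneg_P2B P hW1 k ℓ x hx
  have hS0 : 0 ≤ ∑ x ∈ E, P.iota k ℓ x := by
    apply Finset.sum_nonneg
    intro x hx
    exact iota_nonneg_P2B P hW1 k ℓ x (Finset.mem_filter.mp hx).1
  have hcard : (#E : ℝ) ≤ Θ * ∑ x ∈ E, P.iota k ℓ x := by
    have h : ∑ x ∈ E, (1 : ℝ) ≤ ∑ x ∈ E, Θ * P.iota k ℓ x := by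
      apply Finset.sum_le_sum
      intro x hx
      obtain ⟨hx1, hx2⟩ := Finset.mem_filter.mp hx
      exact iota_ev_P2B P hW1 Θ hΘ k ℓ x hx1 hx2
    rw [Finset.sum_const, nsmul_eq_mul, mul_one, ← Finset.mul_sum] at h
    exact h
  have hE0 : (0 : ℝ) ≤ (#E : ℝ) := Nat.cast_nonneg _
  have hpn : 0 ≤ p0 * P.n := le_trans hE0 hE
  rw [hdouble, hinner]
  set SE : ℝ := ∑ x ∈ E, P.iota k ℓ x with hSEdef
  set S : ℝ := ∑ x ∈ P.D, P.iota k ℓ x with hSdef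
  have hS : 0 ≤ S := le_trans hS0 hSE
  have h1 : (#E : ℝ) * ((#E : ℝ) * L) ≤ (p0 * P.n) * ((Θ * S) * L) := by
    apply mul_le_mul hE _ (mul_nonneg hE0 hL0) hpn
    apply mul_le_mul_of_nonneg_right _ hL0
    exact le_trans hcard (mul_le_mul_of_nonneg_left hSE hΘ0.le)
  have h2 : (#E : ℝ) * SE ≤ (p0 * P.n) * S := mul_le_mul hE hSE hS0 hpn
  calc (#E : ℝ) * ((#E : ℝ) * L) + 2 * ((#E : ℝ) * SE)
      ≤ (p0 * P.n) * ((Θ * S) * L) + 2 * ((p0 * P.n) * S) := by linarith only [h1, h2]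
    _ = p0 * P.n * (Θ * L + 2) * S := by ring

end Pool.Agent.Helper97.MX
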