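import Mathlib
import Pool.Agent.Helper97.MX.St

/-!
# Project MX, module P2K: Kraft sum of phase 2 (helper52)
-/

set_option autoImplicit false

namespace Pool.Agent.Helper97.MX

open Finset Classical
open scoped Pointwise

private theorem Nn_dvd_P2K (P : Par) (k : ℕ) (ℓ : List ℕ) : P.Nn ℓ ∣ P.Nn (k :: ℓ) := by
  unfold Par.Nn
  refine Finset.prod_dvd_prod_of_dvd _ _ (fun i _ => pow_dvd_pow _ ?_)
  rw [List.count_cons]
  exact Nat.le_add_right _ _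

private theorem snd_P2K {x x' y y' m : ℕ} (hs : x + x' = y + y') (h : x ≡ y [MOD m]) :
    x' ≡ y' [MOD m] :=
  Nat.ModEq.add_left_cancel h (by rw [hs])

private theorem node_P2K (P : Par) (ℓ : List ℕ) (x x' y y' : ℕ)
    (h1 : P.past P.t x y) (h2 : P.past P.t x' y') (hs : x + x' = y + y')
    (h : x ≡ y [MOD P.Nn ℓ]) (u u' : ℕ) : P.node ℓ x x' u u' ↔ P.node ℓ y y' u u' := by
  unfold Par.node
  constructor
  · rintro ⟨a, b, c, d, e, f⟩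
    exact ⟨a, b, c.trans hs, fun i hi => (d i hi).trans (h1 i hi),
      fun i hi => (e i hi).trans (h2 i hi), f.trans h⟩
  · rintro ⟨a, b, c, d, e, f⟩
    exact ⟨a, b, c.trans hs.symm, fun i hi => (d i hi).trans (h1 i hi).symm,
      fun i hi => (e i hi).trans (h2 i hi).symm, f.trans h.symm⟩

private theorem phi_P2K (hW2 : StW2) (P : Par) (Θ g : ℝ) (hP : P.OK) (k : ℕ) (ℓ : List ℕ)
    (x x' y y' : ℕ) (hx : x ∈ P.D) (hx' : x' ∈ P.D) (hy : y ∈ P.D) (hy' : y' ∈ P.D)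
    (h1 : P.past P.t x y) (h2 : P.past P.t x' y') (hs : x + x' = y + y')
    (h : x ≡ y [MOD P.Nn (k :: ℓ)]) : P.phi2 Θ g k ℓ x x' = P.phi2 Θ g k ℓ y y' := by
  have hl : x ≡ y [MOD P.Nn ℓ] := h.of_dvd (Nn_dvd_P2K P k ℓ)
  have h' := snd_P2K hs h
  have hl' := snd_P2K hs hl
  have e1 := hW2 P hP (k :: ℓ) x hx y hy h1 h
  have e2 := hW2 P hP ℓ x hx y hy h1 hl
  have e3 := hW2 P hP (k :: ℓ) x' hx' y' hy' h2 h'
  have e4 := hW2 P hP ℓ x' hx' y' hy' h2 hl'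
  have v1 : P.ev Θ k ℓ x ↔ P.ev Θ k ℓ y := by unfold Par.ev; rw [e1, e2]
  have v2 : P.ev Θ k ℓ x' ↔ P.ev Θ k ℓ y' := by unfold Par.ev; rw [e3, e4]
  have n1 : P.hv1 Θ k ℓ x x' ↔ P.hv1 Θ k ℓ y y' := by
    unfold Par.hv1
    exact exists_congr (fun u => exists_congr (fun u' =>
      and_congr_left' (node_P2K P ℓ x x' y y' h1 h2 hs hl u u')))
  have n2 : P.hv2 Θ k ℓ x x' ↔ P.hv2 Θ k ℓ y y' := by
    unfold Par.hv2
    exact exists_congr (fun u => exists_congr (fun u' =>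
      and_congr_left' (node_P2K P ℓ x x' y y' h1 h2 hs hl u u')))
  unfold Par.phi2
  simp only [v1, v2, n1, n2, e1, e2, e3, e4]

private theorem Phi_P2K (hW2 : StW2) (P : Par) (Θ g : ℝ) (hP : P.OK) (ℓ : List ℕ)
    (x x' y y' : ℕ) (hx : x ∈ P.D) (hx' : x' ∈ P.D) (hy : y ∈ P.D) (hy' : y' ∈ P.D)
    (h1 : P.past P.t x y) (h2 : P.past P.t x' y') (hs : x + x' = y + y')
    (h : x ≡ y [MOD P.Nn ℓ]) : P.Phi2 Θ g ℓ x x' = P.Phi2 Θ g ℓ y y' := by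
  induction ℓ with
  | nil => rfl
  | cons k ℓ ih =>
    unfold Par.Phi2
    rw [ih (h.of_dvd (Nn_dvd_P2K P k ℓ)),
      phi_P2K hW2 P Θ g hP k ℓ x x' y y' hx hx' hy hy' h1 h2 hs h]

theorem hP2K (hKR : StKR) (hW2 : StW2) (hP2S : StP2S) (hPO2 : StPO2) : StP2K := by
  intro P Θ g hP hΘ hg hg1 ℓ
  induction ℓ with
  | nil =>
    intro _ z T _ _ h3
    have hN : P.Nn [] = 1 := by simp [Par.Nn]
    have hc : #T ≤ 1 := by
      rw [Finset.card_le_one]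
      intro p hp p' hp'
      exact h3 p hp p' hp' (by rw [hN]; exact Nat.modEq_one)
    have : ∑ p ∈ T, P.Phi2 Θ g [] p.1 p.2 = (#T : ℝ) := by simp [Par.Phi2]
    rw [this]
    exact_mod_cast hc
  | cons k ℓ ih =>
    intro hℓ z T h1 h2 h3
    have hk : k < P.t := hℓ k (by simp)
    have hℓ' : ∀ i ∈ ℓ, i < P.t := fun i hi => hℓ i (by simp [hi])
    have hr : Equivalence (fun p p' : ℕ × ℕ => p.1 ≡ p'.1 [MOD P.Nn ℓ]) :=
      ⟨fun _ => Nat.ModEq.refl _, fun h => h.symm, fun h h' => h.trans h'⟩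
    have key := hKR T (fun p p' => p.1 ≡ p'.1 [MOD P.Nn ℓ]) (fun p => P.Phi2 Θ g ℓ p.1 p.2)
      (fun p => P.phi2 Θ g k ℓ p.1 p.2) hr
      (fun p hp => (hPO2 P Θ g hg hg1 ℓ p.1 p.2 (h1 p hp).1 (h1 p hp).2.1).2.le)
      (fun p hp p' hp' h => Phi_P2K hW2 P Θ g hP ℓ p.1 p.2 p'.1 p'.2 (h1 p hp).1 (h1 p hp).2.1
        (h1 p' hp').1 (h1 p' hp').2.1 (h2 p hp p' hp').1 (h2 p hp p' hp').2
        ((h1 p hp).2.2.trans (h1 p' hp').2.2.symm) h)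
      (fun S hS hd => ih hℓ' z S (fun p hp => h1 p (hS hp))
        (fun p hp p' hp' => h2 p (hS hp) p' (hS hp')) hd)
      (fun S hS hd => hP2S P Θ g hP hΘ hg hg1 k hk ℓ z S (fun p hp => h1 p (hS hp))
        (fun p hp p' hp' => ⟨(h2 p (hS hp) p' (hS hp')).1, (h2 p (hS hp) p' (hS hp')).2,
          hd p hp p' hp'⟩)
        (fun p hp p' hp' h => h3 p (hS hp) p' (hS hp') h))
    exact key

end Pool.Agent.Helper97.MX
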