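import Mathlib
import Pool.Agent.Helper97.MX.St

/-! Project MX, module P2P: pointwise cost of a step of phase 2. -/

set_option autoImplicit false

namespace Pool.Agent.Helper97.MX

open Finset Classical
open scoped Pointwise

private lemma iota_nonneg_P2P (hW1 : StW1) (P : Par) (k : ℕ) (ℓ : List ℕ) (x : ℕ)
    (hx : x ∈ P.D) : 0 ≤ P.iota k ℓ x := by
  have h1 := (hW1 P x hx (k :: ℓ)).1
  have h2 := (hW1 P x hx ℓ).2.2.2 k
  exact sub_nonneg.mpr (Real.log_le_log (by linarith) h2)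

private lemma iota_ge_P2P (hW1 : StW1) (hW2 : StW2) (hW3 : StW3) (P : Par) (Θ : ℝ) (hP : P.OK)
    (hΘ : 2 < Θ) (k : ℕ) (ℓ : List ℕ) (x u : ℕ) (hx : x ∈ P.D) (hu : u ∈ P.D)
    (hp : P.past P.t u x) (hc : u ≡ x [MOD P.Nn ℓ]) (hex : P.ev Θ k ℓ x)
    (heu : ¬ P.ev Θ k ℓ u) : Real.log Θ ≤ P.iota k ℓ x := by
  have hWu : P.W ℓ u = P.W ℓ x := hW2 P hP ℓ u hu x hx hp hc
  have hne : ¬ u ≡ x [MOD P.Nn (k :: ℓ)] := by
    intro h
    have h2 := hW2 P hP (k :: ℓ) u hu x hx hp h
    apply heu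
    unfold Par.ev at hex ⊢
    rw [h2, hWu]
    exact hex
  have hxu : x ≠ u := by
    rintro rfl
    exact hne (Nat.ModEq.refl _)
  have h3 := hW3 P hP k ℓ x hx {x, u} (by
      intro a ha
      rw [Finset.mem_insert, Finset.mem_singleton] at ha
      rcases ha with rfl | rfl
      · exact hx
      · exact hu) (by
      intro a ha
      rw [Finset.mem_insert, Finset.mem_singleton] at ha
      rcases ha with rfl | rfl
      · exact ⟨fun _ _ => rfl, Nat.ModEq.refl _⟩
      · exact ⟨hp, hc⟩) (by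
      intro a ha b hb hab
      rw [Finset.mem_insert, Finset.mem_singleton] at ha hb
      rcases ha with rfl | rfl <;> rcases hb with rfl | rfl
      · rfl
      · exact absurd hab.symm hne
      · exact absurd hab hne
      · rfl)
  rw [Finset.sum_pair hxu] at h3
  have h4 : (1 - 1 / Θ) * P.W ℓ u ≤ P.W (k :: ℓ) u := by
    unfold Par.ev at heu
    exact not_lt.mp heu
  rw [hWu] at h4
  have h5 := (hW1 P x hx (k :: ℓ)).1
  have hΘ0 : 0 < Θ := by linarith
  have h6 : P.W (k :: ℓ) x ≤ P.W ℓ x / Θ := by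
    have : (1 - 1 / Θ) * P.W ℓ x = P.W ℓ x - P.W ℓ x / Θ := by ring
    linarith
  have h7 : Θ * P.W (k :: ℓ) x ≤ P.W ℓ x := by
    rw [le_div_iff₀ hΘ0] at h6
    linarith
  have h8 : Real.log (Θ * P.W (k :: ℓ) x) ≤ Real.log (P.W ℓ x) :=
    Real.log_le_log (by positivity) h7
  rw [Real.log_mul (by linarith) (by linarith)] at h8
  unfold Par.iota
  linarith

/-- `log (1 / (1 - g (1 - w))) ≤ 2 g log (1 / w)` -/
private lemma small_P2P (a b g : ℝ) (ha : 1 ≤ a) (hab : a ≤ b) (hg : 0 < g) (hg' : g ≤ 1 / 4) :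
    Real.log (1 / (1 - g * (1 - a / b))) ≤ 2 * g * (Real.log b - Real.log a) := by
  have hb : 0 < b := by linarith
  have hw0 : 0 < a / b := by positivity
  have hw1 : a / b ≤ 1 := (div_le_one hb).mpr hab
  set w := a / b with hw
  have hlog : Real.log b - Real.log a = - Real.log w := by
    rw [hw, Real.log_div (by linarith) (by linarith)]
    ring
  have h1 : Real.log w ≤ w - 1 := Real.log_le_sub_one_of_pos hw0
  have hu0 : 0 ≤ g * (1 - w) := mul_nonneg hg.le (by linarith)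
  have hu1 : g * (1 - w) ≤ 1 / 2 := by nlinarith
  set u := g * (1 - w) with hu
  have h2 : 0 < 1 - u := by linarith
  have h3 : Real.log (1 / (1 - u)) ≤ 1 / (1 - u) - 1 :=
    Real.log_le_sub_one_of_pos (by positivity)
  have h4 : 1 / (1 - u) - 1 ≤ 2 * u := by
    rw [sub_le_iff_le_add, div_le_iff₀ h2]
    nlinarith
  rw [hlog]
  have h5 : 2 * u ≤ 2 * g * (-Real.log w) := by
    have : 2 * g * (1 - w) ≤ 2 * g * (-Real.log w) :=
      mul_le_mul_of_nonneg_left (by linarith) (by positivity)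
    rw [hu]
    linarith
  linarith

private lemma half_P2P (g : ℝ) (hg : 0 < g) (hg' : g ≤ 1 / 4) :
    Real.log (1 / ((1 - g) / 2)) ≤ 1 := by
  have h1 : 1 / ((1 - g) / 2) ≤ Real.exp 1 := by
    have h2 := Real.exp_one_gt_d9
    have h3 : 1 / ((1 - g) / 2) ≤ 8 / 3 := by
      rw [div_le_iff₀ (by linarith)]
      linarith
    linarith
  have h4 : (0 : ℝ) < 1 / ((1 - g) / 2) := by
    have : 0 < (1 - g) / 2 := by linarith
    positivity
  calc Real.log (1 / ((1 - g) / 2)) ≤ Real.log (Real.exp 1) := Real.log_le_log h4 h1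
    _ = 1 := Real.log_exp 1

private lemma gw_P2P (a b g : ℝ) (ha : 1 ≤ a) (hab : a ≤ b) (hg : 0 < g) :
    Real.log (1 / (g * (a / b))) = Real.log (1 / g) + (Real.log b - Real.log a) := by
  have hb : 0 < b := by linarith
  have ha0 : 0 < a := by linarith
  rw [one_div, one_div, Real.log_inv, Real.log_inv, Real.log_mul hg.ne' (by positivity),
    Real.log_div ha0.ne' hb.ne']
  ring

theorem hP2P (hW1 : StW1) (hW2 : StW2) (hW3 : StW3) : StP2P := by
  intro P Θ g hP hΘ hg hg' k hk ℓ x hx y hy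
  have hix := iota_nonneg_P2P hW1 P k ℓ x hx
  have hiy := iota_nonneg_P2P hW1 P k ℓ y hy
  have hlΘ : 0 < Real.log Θ := Real.log_pos (by linarith)
  have hl1 : 0 < 1 / Real.log Θ := by positivity
  have hlg : 0 ≤ Real.log (1 / g) := by
    apply Real.log_nonneg
    rw [le_div_iff₀ hg]
    linarith
  have hx1 := (hW1 P x hx (k :: ℓ)).1
  have hx2 := (hW1 P x hx ℓ).2.2.2 k
  have hy1 := (hW1 P y hy (k :: ℓ)).1
  have hy2 := (hW1 P y hy ℓ).2.2.2 k
  have hcst : 0 ≤ (2 * g + 1 / Real.log Θ) * (P.iota k ℓ x + P.iota k ℓ y) := by positivity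
  have hsx : 2 * g * P.iota k ℓ x ≤ (2 * g + 1 / Real.log Θ) * (P.iota k ℓ x + P.iota k ℓ y) := by
    have h1 : 0 ≤ 2 * g * P.iota k ℓ y := by positivity
    have h2 : 0 ≤ 1 / Real.log Θ * (P.iota k ℓ x + P.iota k ℓ y) := by positivity
    nlinarith
  have hsy : 2 * g * P.iota k ℓ y ≤ (2 * g + 1 / Real.log Θ) * (P.iota k ℓ x + P.iota k ℓ y) := by
    have h1 : 0 ≤ 2 * g * P.iota k ℓ x := by positivity
    have h2 : 0 ≤ 1 / Real.log Θ * (P.iota k ℓ x + P.iota k ℓ y) := by positivity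
    nlinarith
  have hbig : ∀ i : ℝ, Real.log Θ ≤ i → 1 ≤ 1 / Real.log Θ * i := by
    intro i hi
    rw [one_div, inv_mul_eq_div, le_div_iff₀ hlΘ]
    linarith
  have hbx : Real.log Θ ≤ P.iota k ℓ x →
      1 ≤ (2 * g + 1 / Real.log Θ) * (P.iota k ℓ x + P.iota k ℓ y) := by
    intro h
    have h0 := hbig _ h
    have h1 : 0 ≤ 2 * g * (P.iota k ℓ x + P.iota k ℓ y) := by positivity
    have h2 : 0 ≤ 1 / Real.log Θ * P.iota k ℓ y := by positivity
    nlinarith
  have hby : Real.log Θ ≤ P.iota k ℓ y →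
      1 ≤ (2 * g + 1 / Real.log Θ) * (P.iota k ℓ x + P.iota k ℓ y) := by
    intro h
    have h0 := hbig _ h
    have h1 : 0 ≤ 2 * g * (P.iota k ℓ x + P.iota k ℓ y) := by positivity
    have h2 : 0 ≤ 1 / Real.log Θ * P.iota k ℓ x := by positivity
    nlinarith
  by_cases hex : P.ev Θ k ℓ x
  · by_cases hey : P.ev Θ k ℓ y
    · rw [if_pos ⟨hex, hey⟩]
      unfold Par.phi2
      rw [if_pos hex, if_pos hey]
      by_cases h1 : P.hv1 Θ k ℓ x y
      · rw [if_pos h1, gw_P2P _ _ g hx1 hx2 hg]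
        have : P.iota k ℓ x = Real.log (P.W ℓ x) - Real.log (P.W (k :: ℓ) x) := rfl
        linarith
      · rw [if_neg h1]
        by_cases h2 : P.hv2 Θ k ℓ x y
        · rw [if_pos h2, gw_P2P _ _ g hy1 hy2 hg]
          have : P.iota k ℓ y = Real.log (P.W ℓ y) - Real.log (P.W (k :: ℓ) y) := rfl
          linarith
        · rw [if_neg h2]
          have h3 := gw_P2P _ _ 1 hx1 hx2 one_pos
          rw [one_mul, div_one, Real.log_one, zero_add] at h3
          rw [h3]
          have : P.iota k ℓ x = Real.log (P.W ℓ x) - Real.log (P.W (k :: ℓ) x) := rfl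
          linarith
    · rw [if_neg (fun h => hey h.2), zero_add]
      unfold Par.phi2
      rw [if_pos hex, if_neg hey]
      by_cases h1 : P.hv1 Θ k ℓ x y
      · rw [if_pos h1]
        obtain ⟨u, u', ⟨hu, hu', hsum, hpu, hpu', hcu⟩, hev⟩ := h1
        exact (half_P2P g hg hg').trans
          (hbx (iota_ge_P2P hW1 hW2 hW3 P Θ hP hΘ k ℓ x u hx hu hpu hcu hex hev))
      · rw [if_neg h1]
        exact (small_P2P _ _ g hy1 hy2 hg hg').trans hsy
  · by_cases hey : P.ev Θ k ℓ y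
    · rw [if_neg (fun h => hex h.1), zero_add]
      unfold Par.phi2
      rw [if_neg hex, if_pos hey]
      by_cases h2 : P.hv2 Θ k ℓ x y
      · rw [if_pos h2]
        obtain ⟨u, u', ⟨hu, hu', hsum, hpu, hpu', hcu⟩, hev⟩ := h2
        have hcu' : u' ≡ y [MOD P.Nn ℓ] := by
          apply Nat.ModEq.add_left_cancel hcu
          rw [hsum]
        exact (half_P2P g hg hg').trans
          (hby (iota_ge_P2P hW1 hW2 hW3 P Θ hP hΘ k ℓ y u' hy hu' hpu' hcu' hey hev))
      · rw [if_neg h2]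
        exact (small_P2P _ _ g hx1 hx2 hg hg').trans hsx
    · rw [if_neg (fun h => hex h.1), zero_add]
      unfold Par.phi2
      rw [if_neg hex, if_neg hey]
      exact (small_P2P _ _ g hx1 hx2 hg hg').trans hsx

end Pool.Agent.Helper97.MX
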