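import Mathlib
import Pool.Agent.Helper97.MX.St

set_option autoImplicit false

namespace Pool.Agent.Helper97.MX

open Finset Classical
open scoped Pointwise

private theorem one_P2S (w : ℕ × ℕ → ℝ) (T : Finset (ℕ × ℕ)) (E : ℕ × ℕ → Prop) (Θ : ℝ)
    (hΘ : 2 < Θ) (hw : ∀ p ∈ T, 0 ≤ w p) (hs : ∑ p ∈ T, w p ≤ 1)
    (hE : ∀ p ∈ T, ¬ E p → 1 - 1 / Θ ≤ w p) :
    ∑ p ∈ T, (if E p then (0 : ℝ) else 1) ≤ 1 := by
  have h1 : (T.filter (fun p => ¬ E p)).card ≤ 1 := by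
    rw [Finset.card_le_one]
    intro a ha b hb
    rw [mem_filter] at ha hb
    by_contra hne
    have h2 : w a + w b ≤ ∑ p ∈ T, w p := by
      have h3 : ∑ p ∈ ({a, b} : Finset (ℕ × ℕ)), w p ≤ ∑ p ∈ T, w p := by
        refine sum_le_sum_of_subset_of_nonneg ?_ (fun p hp _ => hw p hp)
        intro p hp
        rw [mem_insert, mem_singleton] at hp
        rcases hp with rfl | rfl
        · exact ha.1
        · exact hb.1
      rwa [sum_pair hne] at h3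
    have h4 := hE a ha.1 ha.2
    have h5 := hE b hb.1 hb.2
    have h6 : 1 / Θ < 1 / 2 := one_div_lt_one_div_of_lt (by norm_num) hΘ
    linarith
  have h2 : ∑ p ∈ T, (if E p then (0 : ℝ) else 1) = ((T.filter (fun p => ¬ E p)).card : ℝ) := by
    rw [card_filter]
    push_cast
    refine sum_congr rfl fun p _ => ?_
    by_cases h : E p
    · rw [if_pos h, if_neg (not_not.2 h)]
    · rw [if_neg h, if_pos h]
  rw [h2]
  exact_mod_cast h1

theorem hP2S (hW1 : StW1) (hW2 : StW2) (hW3 : StW3) : StP2S := by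
  intro P Θ g hOK hΘ hg0 hg1 k hk ℓ z T hT hTn hTi
  rcases T.eq_empty_or_nonempty with rfl | ⟨p₀, hp₀⟩
  · simp
  have hsnd : ∀ p ∈ T, ∀ p' ∈ T, ∀ M : ℕ, p.1 ≡ p'.1 [MOD M] ↔ p.2 ≡ p'.2 [MOD M] := by
    intro p hp p' hp' M
    have h1 := (hT p hp).2.2
    have h2 := (hT p' hp').2.2
    constructor
    · intro h
      have h3 : p.1 + p.2 ≡ p'.1 + p'.2 [MOD M] := by rw [h1, h2]
      exact Nat.ModEq.add_left_cancel h h3
    · intro h
      have h3 : p.1 + p.2 ≡ p'.1 + p'.2 [MOD M] := by rw [h1, h2]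
      exact Nat.ModEq.add_right_cancel h h3
  have hD1 : ∀ p ∈ T, p.1 ∈ P.D := fun p hp => (hT p hp).1
  have hD2 : ∀ p ∈ T, p.2 ∈ P.D := fun p hp => (hT p hp).2.1
  have hWp1 : ∀ p ∈ T, P.W ℓ p.1 = P.W ℓ p₀.1 := fun p hp =>
    hW2 P hOK ℓ p.1 (hD1 p hp) p₀.1 (hD1 p₀ hp₀) (hTn p hp p₀ hp₀).1 (hTn p hp p₀ hp₀).2.2
  have hWp2 : ∀ p ∈ T, P.W ℓ p.2 = P.W ℓ p₀.2 := fun p hp =>
    hW2 P hOK ℓ p.2 (hD2 p hp) p₀.2 (hD2 p₀ hp₀) (hTn p hp p₀ hp₀).2.1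
      ((hsnd p hp p₀ hp₀ _).1 (hTn p hp p₀ hp₀).2.2)
  have hA1 : 0 < P.W ℓ p₀.1 := lt_of_lt_of_le one_pos (hW1 P p₀.1 (hD1 p₀ hp₀) ℓ).1
  have hA2 : 0 < P.W ℓ p₀.2 := lt_of_lt_of_le one_pos (hW1 P p₀.2 (hD2 p₀ hp₀) ℓ).1
  have hpos1 : ∀ p ∈ T, 0 ≤ P.W (k :: ℓ) p.1 / P.W ℓ p.1 := by
    intro p hp
    have h1 := (hW1 P p.1 (hD1 p hp) (k :: ℓ)).1
    have h2 := (hW1 P p.1 (hD1 p hp) ℓ).1
    exact div_nonneg (by linarith) (by linarith)
  have hpos2 : ∀ p ∈ T, 0 ≤ P.W (k :: ℓ) p.2 / P.W ℓ p.2 := by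
    intro p hp
    have h1 := (hW1 P p.2 (hD2 p hp) (k :: ℓ)).1
    have h2 := (hW1 P p.2 (hD2 p hp) ℓ).1
    exact div_nonneg (by linarith) (by linarith)
  have hinj1 : Set.InjOn (Prod.fst : ℕ × ℕ → ℕ) (T : Set (ℕ × ℕ)) := by
    intro p hp p' hp' h
    refine hTi p hp p' hp' ?_
    rw [h]
  have hinj2 : Set.InjOn (Prod.snd : ℕ × ℕ → ℕ) (T : Set (ℕ × ℕ)) := by
    intro p hp p' hp' h
    refine hTi p hp p' hp' ((hsnd p hp p' hp' _).2 ?_)
    rw [h]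
  have hs1 : ∑ p ∈ T, P.W (k :: ℓ) p.1 / P.W ℓ p.1 ≤ 1 := by
    have h1 := hW3 P hOK k ℓ p₀.1 (hD1 p₀ hp₀) (T.image Prod.fst)
      (by
        intro x hx
        rw [mem_image] at hx
        obtain ⟨p, hp, rfl⟩ := hx
        exact hD1 p hp)
      (by
        intro x hx
        rw [mem_image] at hx
        obtain ⟨p, hp, rfl⟩ := hx
        exact ⟨(hTn p hp p₀ hp₀).1, (hTn p hp p₀ hp₀).2.2⟩)
      (by
        intro x hx y hy hxy
        rw [mem_image] at hx hy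
        obtain ⟨p, hp, rfl⟩ := hx
        obtain ⟨p', hp', rfl⟩ := hy
        rw [hTi p hp p' hp' hxy])
    rw [sum_image hinj1] at h1
    rw [sum_congr rfl fun p hp => by rw [hWp1 p hp], ← sum_div]
    rw [div_le_one hA1]
    exact h1
  have hs2 : ∑ p ∈ T, P.W (k :: ℓ) p.2 / P.W ℓ p.2 ≤ 1 := by
    have h1 := hW3 P hOK k ℓ p₀.2 (hD2 p₀ hp₀) (T.image Prod.snd)
      (by
        intro x hx
        rw [mem_image] at hx
        obtain ⟨p, hp, rfl⟩ := hx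
        exact hD2 p hp)
      (by
        intro x hx
        rw [mem_image] at hx
        obtain ⟨p, hp, rfl⟩ := hx
        exact ⟨(hTn p hp p₀ hp₀).2.1, (hsnd p hp p₀ hp₀ _).1 (hTn p hp p₀ hp₀).2.2⟩)
      (by
        intro x hx y hy hxy
        rw [mem_image] at hx hy
        obtain ⟨p, hp, rfl⟩ := hx
        obtain ⟨p', hp', rfl⟩ := hy
        rw [hTi p hp p' hp' ((hsnd p hp p' hp' _).2 hxy)])
    rw [sum_image hinj2] at h1
    rw [sum_congr rfl fun p hp => by rw [hWp2 p hp], ← sum_div]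
    rw [div_le_one hA2]
    exact h1
  have hnode : ∀ p ∈ T, ∀ y y', P.node ℓ p.1 p.2 y y' ↔ P.node ℓ p₀.1 p₀.2 y y' := by
    intro p hp y y'
    have e1 : p.1 + p.2 = p₀.1 + p₀.2 := by rw [(hT p hp).2.2, (hT p₀ hp₀).2.2]
    have e2 := (hTn p hp p₀ hp₀).1
    have e3 := (hTn p hp p₀ hp₀).2.1
    have e4 := (hTn p hp p₀ hp₀).2.2
    constructor
    · rintro ⟨a1, a2, a3, a4, a5, a6⟩
      exact ⟨a1, a2, a3.trans e1, fun i hi => (a4 i hi).trans (e2 i hi),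
        fun i hi => (a5 i hi).trans (e3 i hi), a6.trans e4⟩
    · rintro ⟨a1, a2, a3, a4, a5, a6⟩
      exact ⟨a1, a2, a3.trans e1.symm, fun i hi => (a4 i hi).trans (e2 i hi).symm,
        fun i hi => (a5 i hi).trans (e3 i hi).symm, a6.trans e4.symm⟩
  have hself : ∀ p ∈ T, P.node ℓ p.1 p.2 p.1 p.2 := fun p hp =>
    ⟨hD1 p hp, hD2 p hp, rfl, fun _ _ => rfl, fun _ _ => rfl, rfl⟩
  have hc1 : ∀ p ∈ T, (P.hv1 Θ k ℓ p.1 p.2 ↔ P.hv1 Θ k ℓ p₀.1 p₀.2) := by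
    intro p hp
    unfold Par.hv1
    simp only [hnode p hp]
  have hc2 : ∀ p ∈ T, (P.hv2 Θ k ℓ p.1 p.2 ↔ P.hv2 Θ k ℓ p₀.1 p₀.2) := by
    intro p hp
    unfold Par.hv2
    simp only [hnode p hp]
  have hev1 : ¬ P.hv1 Θ k ℓ p₀.1 p₀.2 → ∀ p ∈ T, P.ev Θ k ℓ p.1 := by
    intro h p hp
    by_contra hne
    exact h ((hc1 p hp).1 ⟨p.1, p.2, hself p hp, hne⟩)
  have hev2 : ¬ P.hv2 Θ k ℓ p₀.1 p₀.2 → ∀ p ∈ T, P.ev Θ k ℓ p.2 := by
    intro h p hp
    by_contra hne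
    exact h ((hc2 p hp).1 ⟨p.1, p.2, hself p hp, hne⟩)
  have hi1 : ∑ p ∈ T, (if P.ev Θ k ℓ p.1 then (0 : ℝ) else 1) ≤ 1 := by
    refine one_P2S (fun p => P.W (k :: ℓ) p.1 / P.W ℓ p.1) T (fun p => P.ev Θ k ℓ p.1) Θ hΘ
      hpos1 hs1 ?_
    intro p hp hne
    have h1 : (1 - 1 / Θ) * P.W ℓ p.1 ≤ P.W (k :: ℓ) p.1 := not_lt.1 hne
    have h2 : 0 < P.W ℓ p.1 := lt_of_lt_of_le one_pos (hW1 P p.1 (hD1 p hp) ℓ).1
    show 1 - 1 / Θ ≤ P.W (k :: ℓ) p.1 / P.W ℓ p.1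
    rw [le_div_iff₀ h2]
    exact h1
  have hi2 : ∑ p ∈ T, (if P.ev Θ k ℓ p.2 then (0 : ℝ) else 1) ≤ 1 := by
    refine one_P2S (fun p => P.W (k :: ℓ) p.2 / P.W ℓ p.2) T (fun p => P.ev Θ k ℓ p.2) Θ hΘ
      hpos2 hs2 ?_
    intro p hp hne
    have h1 : (1 - 1 / Θ) * P.W ℓ p.2 ≤ P.W (k :: ℓ) p.2 := not_lt.1 hne
    have h2 : 0 < P.W ℓ p.2 := lt_of_lt_of_le one_pos (hW1 P p.2 (hD2 p hp) ℓ).1
    show 1 - 1 / Θ ≤ P.W (k :: ℓ) p.2 / P.W ℓ p.2
    rw [le_div_iff₀ h2]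
    exact h1
  by_cases H1 : P.hv1 Θ k ℓ p₀.1 p₀.2
  · by_cases H2 : P.hv2 Θ k ℓ p₀.1 p₀.2
    · -- both
      have hb : ∀ p ∈ T, P.phi2 Θ g k ℓ p.1 p.2 ≤ g * (P.W (k :: ℓ) p.1 / P.W ℓ p.1) +
          (1 - g) / 2 * (if P.ev Θ k ℓ p.1 then (0 : ℝ) else 1) +
          (1 - g) / 2 * (if P.ev Θ k ℓ p.2 then (0 : ℝ) else 1) := by
        intro p hp
        have q1 := (hc1 p hp).2 H1
        have q2 := (hc2 p hp).2 H2
        have q3 := hpos1 p hp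
        have q4 : 0 ≤ g * (P.W (k :: ℓ) p.1 / P.W ℓ p.1) := mul_nonneg hg0.le q3
        unfold Par.phi2
        by_cases h1 : P.ev Θ k ℓ p.1
        · by_cases h2 : P.ev Θ k ℓ p.2
          · simp only [if_pos h1, if_pos h2, if_pos q1]
            linarith
          · simp only [if_pos h1, if_neg h2, if_pos q1]
            linarith
        · by_cases h2 : P.ev Θ k ℓ p.2
          · simp only [if_neg h1, if_pos h2, if_pos q2]
            linarith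
          · simp only [if_neg h1, if_neg h2]
            linarith
      refine (sum_le_sum hb).trans ?_
      rw [sum_add_distrib, sum_add_distrib, ← mul_sum, ← mul_sum, ← mul_sum]
      have e1 := mul_le_mul_of_nonneg_left hs1 hg0.le
      have e2 := mul_le_mul_of_nonneg_left hi1 (show 0 ≤ (1 - g) / 2 by linarith)
      have e3 := mul_le_mul_of_nonneg_left hi2 (show 0 ≤ (1 - g) / 2 by linarith)
      linarith
    · -- hv1 only
      have hb : ∀ p ∈ T, P.phi2 Θ g k ℓ p.1 p.2 ≤ g * (P.W (k :: ℓ) p.1 / P.W ℓ p.1) +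
          (1 - g) * (if P.ev Θ k ℓ p.1 then (0 : ℝ) else 1) := by
        intro p hp
        have q1 := (hc1 p hp).2 H1
        have q2 : ¬ P.hv2 Θ k ℓ p.1 p.2 := fun h => H2 ((hc2 p hp).1 h)
        have h2 := hev2 H2 p hp
        unfold Par.phi2
        by_cases h1 : P.ev Θ k ℓ p.1
        · simp only [if_pos h1, if_pos h2, if_pos q1]
          linarith
        · simp only [if_neg h1, if_pos h2, if_neg q2]
          linarith
      refine (sum_le_sum hb).trans ?_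
      rw [sum_add_distrib, ← mul_sum, ← mul_sum]
      have e1 := mul_le_mul_of_nonneg_left hs1 hg0.le
      have e2 := mul_le_mul_of_nonneg_left hi1 (show 0 ≤ (1 - g) by linarith)
      linarith
  · by_cases H2 : P.hv2 Θ k ℓ p₀.1 p₀.2
    · -- hv2 only
      have hb : ∀ p ∈ T, P.phi2 Θ g k ℓ p.1 p.2 ≤ g * (P.W (k :: ℓ) p.2 / P.W ℓ p.2) +
          (1 - g) * (if P.ev Θ k ℓ p.2 then (0 : ℝ) else 1) := by
        intro p hp
        have q1 : ¬ P.hv1 Θ k ℓ p.1 p.2 := fun h => H1 ((hc1 p hp).1 h)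
        have q2 := (hc2 p hp).2 H2
        have h1 := hev1 H1 p hp
        unfold Par.phi2
        by_cases h2 : P.ev Θ k ℓ p.2
        · simp only [if_pos h1, if_pos h2, if_neg q1, if_pos q2]
          linarith
        · simp only [if_pos h1, if_neg h2, if_neg q1]
          linarith
      refine (sum_le_sum hb).trans ?_
      rw [sum_add_distrib, ← mul_sum, ← mul_sum]
      have e1 := mul_le_mul_of_nonneg_left hs2 hg0.le
      have e2 := mul_le_mul_of_nonneg_left hi2 (show 0 ≤ (1 - g) by linarith)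
      linarith
    · -- none
      have hb : ∀ p ∈ T, P.phi2 Θ g k ℓ p.1 p.2 ≤ P.W (k :: ℓ) p.1 / P.W ℓ p.1 := by
        intro p hp
        have q1 : ¬ P.hv1 Θ k ℓ p.1 p.2 := fun h => H1 ((hc1 p hp).1 h)
        have q2 : ¬ P.hv2 Θ k ℓ p.1 p.2 := fun h => H2 ((hc2 p hp).1 h)
        have h1 := hev1 H1 p hp
        have h2 := hev2 H2 p hp
        unfold Par.phi2
        simp only [if_pos h1, if_pos h2, if_neg q1, if_neg q2]
        exact le_rfl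
      exact (sum_le_sum hb).trans hs1

end Pool.Agent.Helper97.MX
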