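import Mathlib
import Pool.Agent.Helper97.MX.St

set_option autoImplicit false

namespace Pool.Agent.Helper97.MX

open Finset Classical
open scoped Pointwise

private theorem aux_PA1 (P : Par) (k c x : ℕ) (hx : x ∈ P.D) :
    (∑ y ∈ P.grp k x, (if P.v k y ≠ c then (1 : ℝ) else 0)) / #(P.grp k x) = 1 - P.pr k x c ∧
      P.pr k x c ≤ 1 := by
  have hmem : x ∈ P.grp k x := by
    unfold Par.grp
    rw [Finset.mem_filter]
    exact ⟨hx, fun i _ => rfl⟩
  have hpos : (0 : ℝ) < #(P.grp k x) := by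
    exact_mod_cast Finset.card_pos.2 ⟨x, hmem⟩
  have h1 : (∑ y ∈ P.grp k x, (if P.v k y ≠ c then (1 : ℝ) else 0)) =
      #(P.grp k x) - #((P.grp k x).filter (fun y => P.v k y = c)) := by
    have h2 := Finset.card_filter_add_card_filter_not (s := P.grp k x) (fun y => P.v k y = c)
    rw [Finset.sum_boole]
    rw [← h2]
    push_cast
    ring
  constructor
  · rw [h1]
    unfold Par.pr
    rw [sub_div, div_self hpos.ne']
  · unfold Par.pr
    rw [div_le_one hpos]
    exact_mod_cast Finset.card_le_card (Finset.filter_subset _ _)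

theorem hPA1 (hAVG : StAVG) : StPA1 := by
  intro P t0 δ a k ht0 hδ
  have h1 := hAVG P k (fun y => if P.v k y ≠ a k then (1 : ℝ) else 0)
  have h2 : ∑ x ∈ P.D, (1 - P.pr k x (a k)) = (#(P.D.filter (fun x => P.v k x ≠ a k)) : ℝ) := by
    rw [← Finset.sum_boole, ← h1]
    exact Finset.sum_congr rfl fun x hx => ((aux_PA1 P k (a k) x hx).1).symm
  have h3 : t0 * (#(P.D.filter (fun x => t0 < 1 - P.pr k x (a k))) : ℝ) ≤
      ∑ x ∈ P.D, (1 - P.pr k x (a k)) := by
    calc t0 * (#(P.D.filter (fun x => t0 < 1 - P.pr k x (a k))) : ℝ) =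
        ∑ x ∈ P.D.filter (fun x => t0 < 1 - P.pr k x (a k)), t0 := by
          rw [Finset.sum_const, nsmul_eq_mul, mul_comm]
      _ ≤ ∑ x ∈ P.D.filter (fun x => t0 < 1 - P.pr k x (a k)), (1 - P.pr k x (a k)) :=
          Finset.sum_le_sum fun x hx => (Finset.mem_filter.1 hx).2.le
      _ ≤ ∑ x ∈ P.D, (1 - P.pr k x (a k)) :=
          Finset.sum_le_sum_of_subset_of_nonneg (Finset.filter_subset _ _) fun x hx _ =>
            sub_nonneg.2 (aux_PA1 P k (a k) x hx).2
  rw [h2] at h3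
  rw [div_mul_eq_mul_div, le_div_iff₀ ht0]
  linarith

end Pool.Agent.Helper97.MX
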