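import Mathlib
import Pool.Agent.Helper97.MX.St

set_option autoImplicit false

namespace Pool.Agent.Helper97.MX

open Finset Classical
open scoped Pointwise

private theorem grp_PA2 (P : Par) (k x y : ℕ) (h : y ∈ P.grp k x) : P.grp k y = P.grp k x := by
  unfold Par.grp at h ⊢
  have h' := (Finset.mem_filter.1 h).2
  refine Finset.filter_congr fun z _ => ?_
  constructor
  · intro hz i hi
    exact (hz i hi).trans (h' i hi)
  · intro hz i hi
    exact (hz i hi).trans (h' i hi).symm

private theorem self_PA2 (P : Par) (k x : ℕ) (hx : x ∈ P.D) : x ∈ P.grp k x :=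
  Finset.mem_filter.2 ⟨hx, fun _ _ => rfl⟩

private theorem two_PA2 (P : Par) (k x a b : ℕ) (hab : a ≠ b) :
    P.pr k x a + P.pr k x b ≤ 1 := by
  unfold Par.pr
  rw [← add_div]
  refine div_le_one_of_le₀ ?_ (by positivity)
  have h : #((P.grp k x).filter (fun y => P.v k y = a)) +
      #((P.grp k x).filter (fun y => P.v k y = b)) ≤ #(P.grp k x) := by
    rw [← Finset.card_union_of_disjoint]
    · exact Finset.card_le_card (Finset.union_subset (Finset.filter_subset _ _)
        (Finset.filter_subset _ _))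
    · rw [Finset.disjoint_left]
      intro y hy hy'
      exact hab ((Finset.mem_filter.1 hy).2.symm.trans (Finset.mem_filter.1 hy').2)
  exact_mod_cast h

private theorem pos_PA2 (P : Par) (k x : ℕ) (hx : x ∈ P.D) :
    0 < P.pr k x (P.v k x) ∧ P.pr k x (P.v k x) ≤ 1 := by
  unfold Par.pr
  have h1 : 0 < #((P.grp k x).filter (fun y => P.v k y = P.v k x)) :=
    Finset.card_pos.2 ⟨x, Finset.mem_filter.2 ⟨self_PA2 P k x hx, rfl⟩⟩
  have h2 : #((P.grp k x).filter (fun y => P.v k y = P.v k x)) ≤ #(P.grp k x) :=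
    Finset.card_le_card (Finset.filter_subset _ _)
  have h3 : 0 < #(P.grp k x) := h1.trans_le h2
  constructor
  · have h1' : (0 : ℝ) < #((P.grp k x).filter (fun y => P.v k y = P.v k x)) := by exact_mod_cast h1
    have h3' : (0 : ℝ) < #(P.grp k x) := by exact_mod_cast h3
    positivity
  · exact div_le_one_of_le₀ (by exact_mod_cast h2) (by positivity)

theorem hPA2 (hAVG : StAVG) : StPA2 := by
  intro P τ t0 a k hτ hτ4 ht0 ht1
  set E : Finset ℕ := P.D.filter (fun x => P.v k x ≠ a k ∧ 1 - P.pr k x (a k) ≤ t0) with hE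
  set c1 : ℝ := Real.log (1 / τ) with hc1
  have hc1p : 0 ≤ c1 := by
    rw [hc1]
    refine Real.log_nonneg ?_
    rw [le_div_iff₀ hτ]
    linarith
  have hlt : 0 < Real.log (1 / t0) := by
    refine Real.log_pos ?_
    rw [lt_div_iff₀ ht0]
    linarith
  have hj0 : ∀ x ∈ P.D, 0 ≤ P.jota k x := by
    intro x hx
    obtain ⟨h1, h2⟩ := pos_PA2 P k x hx
    unfold Par.jota
    refine Real.log_nonneg ?_
    rw [le_div_iff₀ h1]
    linarith
  -- the size of `E`
  have hEc : (#E : ℝ) ≤ t0 * P.n := by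
    have h := hAVG P k (fun y => if P.v k y ≠ a k ∧ 1 - P.pr k y (a k) ≤ t0 then 1 else 0)
    have h1 : ∑ y ∈ P.D, (if P.v k y ≠ a k ∧ 1 - P.pr k y (a k) ≤ t0 then (1 : ℝ) else 0) = #E := by
      rw [← Finset.sum_filter, Finset.sum_const, nsmul_eq_mul, mul_one]
    rw [h1] at h
    rw [← h, Par.n]
    calc ∑ x ∈ P.D, (∑ y ∈ P.grp k x,
          (if P.v k y ≠ a k ∧ 1 - P.pr k y (a k) ≤ t0 then (1 : ℝ) else 0)) / #(P.grp k x)
        ≤ ∑ x ∈ P.D, t0 := by
          refine Finset.sum_le_sum fun x hx => ?_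
          have hcard : (0 : ℝ) < #(P.grp k x) := by
            exact_mod_cast Finset.card_pos.2 ⟨x, self_PA2 P k x hx⟩
          have hpr : ∀ y ∈ P.grp k x, P.pr k y (a k) = P.pr k x (a k) := by
            intro y hy
            unfold Par.pr
            rw [grp_PA2 P k x y hy]
          by_cases h2 : 1 - P.pr k x (a k) ≤ t0
          · have h3 : ∑ y ∈ P.grp k x,
                (if P.v k y ≠ a k ∧ 1 - P.pr k y (a k) ≤ t0 then (1 : ℝ) else 0) =
                #(P.grp k x) - #((P.grp k x).filter (fun y => P.v k y = a k)) := by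
              have h4 : ∀ y ∈ P.grp k x,
                  (if P.v k y ≠ a k ∧ 1 - P.pr k y (a k) ≤ t0 then (1 : ℝ) else 0) =
                  1 - (if P.v k y = a k then 1 else 0) := by
                intro y hy
                rw [hpr y hy]
                by_cases h5 : P.v k y = a k
                · rw [if_neg (fun h => h.1 h5), if_pos h5, sub_self]
                · rw [if_pos ⟨h5, h2⟩, if_neg h5, sub_zero]
              rw [Finset.sum_congr rfl h4, Finset.sum_sub_distrib, ← Finset.sum_filter,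
                Finset.sum_const, Finset.sum_const, nsmul_eq_mul, nsmul_eq_mul, mul_one, mul_one]
            rw [h3, sub_div, div_self hcard.ne']
            exact h2
          · have h3 : ∑ y ∈ P.grp k x,
                (if P.v k y ≠ a k ∧ 1 - P.pr k y (a k) ≤ t0 then (1 : ℝ) else 0) = 0 := by
              refine Finset.sum_eq_zero fun y hy => ?_
              rw [hpr y hy]
              exact if_neg fun h => h2 h.2
            rw [h3, zero_div]
            exact ht0.le
      _ = t0 * #P.D := by rw [Finset.sum_const, nsmul_eq_mul, mul_comm]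
  -- the left side
  have hL : ∑ x ∈ P.D, ∑ y ∈ P.D, (if P.v k x ≠ a k ∧ P.v k y ≠ a k ∧ 1 - P.pr k x (a k) ≤ t0 ∧
        1 - P.pr k y (a k) ≤ t0 then Real.log (1 / τ) + P.jota k x else 0) =
      ∑ x ∈ E, (#E : ℝ) * (c1 + P.jota k x) := by
    rw [hE, Finset.sum_filter]
    refine Finset.sum_congr rfl fun x _ => ?_
    by_cases hx : P.v k x ≠ a k ∧ 1 - P.pr k x (a k) ≤ t0
    · rw [if_pos hx, ← nsmul_eq_mul, ← Finset.sum_const, Finset.sum_filter]
      refine Finset.sum_congr rfl fun y _ => ?_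
      refine if_congr ?_ rfl rfl
      tauto
    · rw [if_neg hx]
      refine Finset.sum_eq_zero fun y _ => ?_
      refine if_neg ?_
      tauto
  rw [hL]
  have hEj : ∀ x ∈ E, c1 + P.jota k x ≤ (c1 / Real.log (1 / t0) + 1) * P.jota k x := by
    intro x hx
    obtain ⟨hxD, hx1, hx2⟩ := Finset.mem_filter.1 hx
    obtain ⟨h1, h2⟩ := pos_PA2 P k x hxD
    have h3 := two_PA2 P k x _ _ hx1
    have h4 : P.pr k x (P.v k x) ≤ t0 := by linarith
    have h5 : Real.log (1 / t0) ≤ P.jota k x := by
      unfold Par.jota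
      exact Real.log_le_log (by positivity) (one_div_le_one_div_of_le h1 h4)
    have h6 : c1 ≤ c1 / Real.log (1 / t0) * P.jota k x := by
      rw [div_mul_eq_mul_div, le_div_iff₀ hlt]
      exact mul_le_mul_of_nonneg_left h5 hc1p
    linarith
  have hK : 0 ≤ c1 / Real.log (1 / t0) + 1 := by positivity
  calc ∑ x ∈ E, (#E : ℝ) * (c1 + P.jota k x)
      ≤ ∑ x ∈ E, (#E : ℝ) * ((c1 / Real.log (1 / t0) + 1) * P.jota k x) :=
        Finset.sum_le_sum fun x hx => mul_le_mul_of_nonneg_left (hEj x hx) (Nat.cast_nonneg _)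
    _ = (#E : ℝ) * ((c1 / Real.log (1 / t0) + 1) * ∑ x ∈ E, P.jota k x) := by
        rw [Finset.mul_sum, Finset.mul_sum]
    _ ≤ (t0 * P.n) * ((c1 / Real.log (1 / t0) + 1) * ∑ x ∈ P.D, P.jota k x) := by
        have h7 : ∑ x ∈ E, P.jota k x ≤ ∑ x ∈ P.D, P.jota k x :=
          Finset.sum_le_sum_of_subset_of_nonneg (Finset.filter_subset _ _)
            fun x hx _ => hj0 x hx
        have h8 : 0 ≤ ∑ x ∈ E, P.jota k x :=
          Finset.sum_nonneg fun x hx => hj0 x (Finset.mem_filter.1 hx).1
        refine mul_le_mul hEc (mul_le_mul_of_nonneg_left h7 hK) (mul_nonneg hK h8) ?_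
        exact (Nat.cast_nonneg _).trans hEc
    _ = _ := by ring

end Pool.Agent.Helper97.MX
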