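import Mathlib
import Pool.Agent.Helper97.MX.St

set_option autoImplicit false

/-! Project MX, module PAR: parameters. -/

namespace Pool.Agent.Helper97.MX

open Finset Classical
open scoped Pointwise

theorem hPAR : StPAR := by
  intro ε h0 h1
  obtain ⟨β, hβ⟩ : ∃ β : ℝ, β = ε / 40 := ⟨_, rfl⟩
  have hβ0 : 0 < β := by rw [hβ]; positivity
  have hβ1 : β < 1 := by rw [hβ]; linarith
  obtain ⟨Θ, hΘ⟩ : ∃ Θ : ℝ, Θ = (2 : ℝ) ^ (1 / β) := ⟨_, rfl⟩
  have hΘ2 : 2 < Θ := by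
    rw [hΘ]
    calc (2 : ℝ) = 2 ^ (1 : ℝ) := (Real.rpow_one 2).symm
      _ < 2 ^ (1 / β) := by
          refine Real.rpow_lt_rpow_of_exponent_lt (by norm_num) ?_
          rw [lt_div_iff₀ hβ0]
          linarith
  have hΘβ : Θ ^ β = 2 := by
    rw [hΘ, ← Real.rpow_mul (by norm_num), one_div, inv_mul_cancel₀ hβ0.ne', Real.rpow_one]
  have hlogΘ : Real.log Θ = 1 / β * Real.log 2 := by
    rw [hΘ, Real.log_rpow (by norm_num)]
  obtain ⟨g, hg⟩ : ∃ g : ℝ, g = ε / (80 * Θ) := ⟨_, rfl⟩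
  have hΘ0 : 0 < Θ := by linarith
  have hg0 : 0 < g := by rw [hg]; positivity
  have hgΘ : g * Θ = ε / 80 := by
    rw [hg]
    field_simp
  have hg4 : 4 * g ≤ ε / 40 := by nlinarith
  obtain ⟨E, hE⟩ : ∃ E : ℝ, E = Θ * Real.log (1 / g) + 2 := ⟨_, rfl⟩
  have hlg : 0 ≤ Real.log (1 / g) := by
    refine Real.log_nonneg ?_
    rw [le_div_iff₀ hg0]
    linarith
  have hE2 : 2 ≤ E := by
    rw [hE]
    have := mul_nonneg hΘ0.le hlg
    linarith
  have hE0 : 0 < E := by linarith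
  refine ⟨Θ, g, β, ε / (16 * E), hΘ2, hg0, by linarith, hβ0, hΘβ.ge, by positivity, ?_, ?_⟩
  · rw [div_le_one (by positivity)]
    linarith
  · rw [← hE]
    have e1 : ε / (16 * E) * E = ε / 16 := by
      field_simp
    have hl2 : 0.69 < Real.log 2 := by
      have := Real.log_two_gt_d9
      linarith
    have e2 : 1 / Real.log Θ = β / Real.log 2 := by
      rw [hlogΘ]
      field_simp
    have e3 : β / Real.log 2 ≤ ε / 26 := by
      rw [div_le_iff₀ (by linarith), hβ]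
      nlinarith
    rw [e1, e2]
    have e4 : 4 * g * Θ = ε / 20 := by
      rw [mul_assoc, hgΘ]
      ring
    rw [e4, hβ] at *
    linarith

end Pool.Agent.Helper97.MX
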