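import Mathlib
import Pool.Agent.Helper97.MX.St

set_option autoImplicit false

namespace Pool.Agent.Helper97.MX

open Finset Classical
open scoped Pointwise

private lemma mem_grp_PCP (P : Par) {k x : ℕ} (hx : x ∈ P.D) : x ∈ P.grp k x := by
  unfold Par.grp
  rw [Finset.mem_filter]
  exact ⟨hx, fun i _ => rfl⟩

private lemma grp_pos_PCP (P : Par) {k x : ℕ} (hx : x ∈ P.D) : (0:ℝ) < #(P.grp k x) := by
  exact_mod_cast Finset.card_pos.2 ⟨x, mem_grp_PCP P hx⟩

private lemma pr_nonneg_PCP (P : Par) (k x a : ℕ) : 0 ≤ P.pr k x a := by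
  unfold Par.pr; positivity

private lemma pr_le_one_PCP (P : Par) (k x a : ℕ) : P.pr k x a ≤ 1 := by
  unfold Par.pr
  apply div_le_one_of_le₀ _ (by positivity)
  exact_mod_cast Finset.card_le_card (Finset.filter_subset _ _)

private lemma pr_pos_PCP (P : Par) {k x : ℕ} (hx : x ∈ P.D) : 0 < P.pr k x (P.v k x) := by
  unfold Par.pr
  apply div_pos _ (grp_pos_PCP P hx)
  have : x ∈ (P.grp k x).filter (fun y => P.v k y = P.v k x) := by
    rw [Finset.mem_filter]; exact ⟨mem_grp_PCP P hx, rfl⟩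
  exact_mod_cast Finset.card_pos.2 ⟨x, this⟩

private lemma pr_add_le_PCP (P : Par) {k x a b : ℕ} (hab : a ≠ b) :
    P.pr k x a + P.pr k x b ≤ 1 := by
  unfold Par.pr
  rw [← add_div]
  apply div_le_one_of_le₀ _ (by positivity)
  have h1 : Disjoint ((P.grp k x).filter (fun y => P.v k y = a))
      ((P.grp k x).filter (fun y => P.v k y = b)) := by
    rw [Finset.disjoint_filter]
    intro y _ h1 h2
    exact hab (h1.symm.trans h2)
  have h2 := Finset.card_union_of_disjoint h1
  have h3 : #((P.grp k x).filter (fun y => P.v k y = a) ∪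
      (P.grp k x).filter (fun y => P.v k y = b)) ≤ #(P.grp k x) :=
    Finset.card_le_card (Finset.union_subset (Finset.filter_subset _ _) (Finset.filter_subset _ _))
  rw [h2] at h3
  exact_mod_cast h3

theorem hPCP : StPCP := by
  intro P τ t0 a hτ hτ4 ht0 ht1 k x y hx hy
  have hμ := pr_pos_PCP P (k := k) hx
  have hμ' := pr_pos_PCP P (k := k) hy
  have hμ1 := pr_le_one_PCP P k x (P.v k x)
  have hμ1' := pr_le_one_PCP P k y (P.v k y)
  have hl : 0 < Real.log (1 / t0) := Real.log_pos (by rw [lt_div_iff₀ ht0]; linarith)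
  have hι : 0 ≤ P.jota k x := Real.log_nonneg (by rw [le_div_iff₀ hμ]; linarith)
  have hι' : 0 ≤ P.jota k y := Real.log_nonneg (by rw [le_div_iff₀ hμ']; linarith)
  have hτl : 0 ≤ Real.log (1 / τ) := Real.log_nonneg (by rw [le_div_iff₀ hτ]; linarith)
  have hc : 0 ≤ (2 * τ + 1 / Real.log (1 / t0)) * (P.jota k x + P.jota k y) := by positivity
  have hT2 : 0 ≤ (if P.v k x ≠ a k ∧ P.v k y ≠ a k ∧ 1 - P.pr k x (a k) ≤ t0 ∧
        1 - P.pr k y (a k) ≤ t0 then Real.log (1 / τ) + P.jota k x else 0) := by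
    split_ifs <;> positivity
  have hT3 : 0 ≤ (if t0 < 1 - P.pr k x (a k) then P.jota k y else 0) := by
    split_ifs <;> positivity
  have hT4 : 0 ≤ (if t0 < 1 - P.pr k y (a k) then P.jota k x else 0) := by
    split_ifs <;> positivity
  unfold Par.psi
  by_cases h1 : t0 < 1 - P.pr k x (a k)
  · rw [if_pos h1]
    rw [if_pos h1] at hT3 ⊢
    have : Real.log (1 / P.pr k y (P.v k y)) = P.jota k y := rfl
    rw [this]
    linarith
  rw [if_neg h1]
  by_cases h2 : t0 < 1 - P.pr k y (a k)
  · rw [if_pos h2]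
    rw [if_pos h2] at hT4 ⊢
    have : Real.log (1 / P.pr k x (P.v k x)) = P.jota k x := rfl
    rw [this]
    linarith
  rw [if_neg h2]
  -- exactly one different: bound
  have key : ∀ z : ℕ, z ∈ P.D → P.v k z ≠ a k → ¬ (t0 < 1 - P.pr k z (a k)) →
      Real.log (1 / t0) ≤ P.jota k z := by
    intro z hz hne hnt
    have h3 := pr_add_le_PCP P (k := k) (x := z) hne
    have h4 := pr_pos_PCP P (k := k) hz
    unfold Par.jota
    apply Real.log_le_log (by positivity)
    apply one_div_le_one_div_of_le h4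
    linarith
  have h2log : Real.log (1 / ((1 - τ) / 2)) ≤ 1 := by
    have h5 : (0:ℝ) < 1 / ((1 - τ) / 2) := by
      have : 0 < (1 - τ) / 2 := by linarith
      positivity
    rw [Real.log_le_iff_le_exp h5]
    have h6 : 1 / ((1 - τ) / 2) ≤ 8 / 3 := by
      rw [div_le_div_iff₀ (by linarith) (by norm_num)]
      linarith
    have h7 := Real.exp_one_gt_d9
    linarith
  by_cases h3 : P.v k x = a k ∧ P.v k y = a k
  · rw [if_pos h3]
    set f := 1 - P.pr k x (a k) with hf
    have hf0 : 0 ≤ f := by have := pr_le_one_PCP P k x (a k); linarith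
    have hf1 : f ≤ 1 := by have := pr_nonneg_PCP P k x (a k); linarith
    have hfι : f ≤ P.jota k x := by
      unfold Par.jota
      rw [h3.1]
      have hpp : 0 < P.pr k x (a k) := by rw [← h3.1]; exact hμ
      rw [one_div, Real.log_inv]
      have := Real.log_le_sub_one_of_pos hpp
      linarith
    have hu : τ * f ≤ 1 / 4 := by nlinarith
    have hu0 : 0 ≤ τ * f := by positivity
    have hlog : Real.log (1 / (1 - τ * f)) ≤ 2 * (τ * f) := by
      have h8 : (0:ℝ) < 1 / (1 - τ * f) := by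
        have : 0 < 1 - τ * f := by linarith
        positivity
      have h9 := Real.log_le_sub_one_of_pos h8
      have h10 : 1 / (1 - τ * f) - 1 ≤ 2 * (τ * f) := by
        have h11 : 0 < 1 - τ * f := by linarith
        rw [sub_le_iff_le_add, div_le_iff₀ h11]
        nlinarith
      linarith
    have h12 : 2 * (τ * f) ≤ (2 * τ + 1 / Real.log (1 / t0)) * (P.jota k x + P.jota k y) := by
      have h13 : 0 ≤ 1 / Real.log (1 / t0) := by positivity
      have h14 : 2 * (τ * f) ≤ 2 * τ * P.jota k x := by nlinarith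
      nlinarith [mul_nonneg h13 hι, mul_nonneg h13 hι', mul_nonneg hτ.le hι']
    linarith
  rw [if_neg h3]
  by_cases h4 : P.v k x = a k ∨ P.v k y = a k
  · rw [if_pos h4]
    have hone : 1 ≤ 1 / Real.log (1 / t0) * (P.jota k x + P.jota k y) := by
      rw [div_mul_eq_mul_div, le_div_iff₀ hl, one_mul, one_mul]
      rcases h4 with h4 | h4
      · have h5 : P.v k y ≠ a k := fun h => h3 ⟨h4, h⟩
        have := key y hy h5 h2
        linarith
      · have h5 : P.v k x ≠ a k := fun h => h3 ⟨h, h4⟩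
        have := key x hx h5 h1
        linarith
    have : 0 ≤ 2 * τ * (P.jota k x + P.jota k y) := by positivity
    nlinarith
  rw [if_neg h4]
  push Not at h4
  have h5 : P.v k x ≠ a k ∧ P.v k y ≠ a k ∧ 1 - P.pr k x (a k) ≤ t0 ∧
        1 - P.pr k y (a k) ≤ t0 := ⟨h4.1, h4.2, not_lt.1 h1, not_lt.1 h2⟩
  rw [if_pos h5]
  have h6 : Real.log (1 / (τ * P.pr k x (P.v k x))) = Real.log (1 / τ) + P.jota k x := by
    unfold Par.jota
    rw [one_div, one_div, one_div, Real.log_inv, Real.log_inv, Real.log_inv,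
      Real.log_mul hτ.ne' hμ.ne']
    ring
  rw [h6]
  linarith

end Pool.Agent.Helper97.MX
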