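import Mathlib
import Pool.Agent.Helper97.MX.St

set_option autoImplicit false

namespace Pool.Agent.Helper97.MX

open Finset Classical
open scoped Pointwise

private theorem mL_dvd_PG (P : Par) (k x y : ℕ) : P.mL k x y ∣ P.mL (k + 1) x y := by
  unfold Par.mL
  rw [Finset.prod_range_succ]
  exact dvd_mul_right _ _

private theorem cnt_pos_PG (P : Par) {x : ℕ} (hx : x ∈ P.D) (M : ℕ) : 1 ≤ P.cnt x M := by
  unfold Par.cnt
  have : 0 < #(P.D.filter (fun y => y ≡ x [MOD M])) :=
    Finset.card_pos.2 ⟨x, Finset.mem_filter.2 ⟨hx, Nat.ModEq.refl x⟩⟩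
  exact_mod_cast this

private theorem cnt_anti_PG (P : Par) (x : ℕ) {M N : ℕ} (h : M ∣ N) : P.cnt x N ≤ P.cnt x M := by
  unfold Par.cnt
  have : #(P.D.filter (fun y => y ≡ x [MOD N])) ≤ #(P.D.filter (fun y => y ≡ x [MOD M])) := by
    apply Finset.card_le_card
    intro y hy
    rw [Finset.mem_filter] at hy ⊢
    exact ⟨hy.1, hy.2.of_dvd h⟩
  exact_mod_cast this

/-- PG -/
theorem hPG : StPG := by
  intro P _ x hx y _
  refine ⟨fun k => ?_, ?_⟩
  · unfold Par.prog
    have h1 := cnt_pos_PG P hx (P.mL (k + 1) x y)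
    have h2 := cnt_anti_PG P x (mL_dvd_PG P k x y)
    have := Real.log_le_log (by linarith) h2
    linarith
  · have h : ∑ k ∈ range P.t, P.prog k x y =
        Real.log (P.cnt x (P.mL 0 x y)) - Real.log (P.cnt x (P.mL P.t x y)) :=
      Finset.sum_range_sub' (fun k => Real.log (P.cnt x (P.mL k x y))) P.t
    rw [h]
    have h0 : P.mL 0 x y = 1 := by
      unfold Par.mL
      simp
    have h1 : P.cnt x 1 = P.n := by
      unfold Par.cnt Par.n
      congr 1
      congr 1
      apply Finset.filter_true_of_mem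
      intro z _
      exact Nat.modEq_one
    rw [h0, h1]
    have h2 := Real.log_nonneg (cnt_pos_PG P hx (P.mL P.t x y))
    linarith

end Pool.Agent.Helper97.MX
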