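import Mathlib
import Pool.Agent.Helper97.MX.St

set_option autoImplicit false

namespace Pool.Agent.Helper97.MX

open Finset Classical
open scoped Pointwise

private lemma grp_eq_PKK (P : Par) {k x x' : ℕ} (h : P.past k x x') : P.grp k x = P.grp k x' := by
  unfold Par.grp
  refine Finset.filter_congr fun y _ => ?_
  constructor
  · intro hy i hi
    exact (hy i hi).trans (h i hi)
  · intro hy i hi
    exact (hy i hi).trans (h i hi).symm

private lemma psi_eq_PKK (P : Par) (τ t0 : ℝ) (a : ℕ → ℕ) {k i x x' y y' : ℕ} (hi : i < k)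
    (h : P.past k x x') (h' : P.past k y y') :
    P.psi τ t0 a i x y = P.psi τ t0 a i x' y' := by
  have e1 : P.grp i x = P.grp i x' := grp_eq_PKK P fun j hj => h j (hj.trans hi)
  have e2 : P.grp i y = P.grp i y' := grp_eq_PKK P fun j hj => h' j (hj.trans hi)
  have e3 : P.v i x = P.v i x' := h i hi
  have e4 : P.v i y = P.v i y' := h' i hi
  unfold Par.psi Par.pr
  rw [e1, e2, e3, e4]

/-- Module PKK. -/
theorem hPKK (hKR : StKR) (hPKS : StPKS) (hPO3 : StPO3) : StPKK := by
  intro P τ t0 a hP h0 h1 k
  induction k with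
  | zero =>
    intro z T hT hT2
    simp only [range_zero, prod_empty, sum_const, nsmul_eq_mul, mul_one]
    have : T.card ≤ 1 := Finset.card_le_one.2 fun p hp p' hp' =>
      hT2 p hp p' hp' (fun i hi => absurd hi (Nat.not_lt_zero i))
        (fun i hi => absurd hi (Nat.not_lt_zero i))
    exact_mod_cast this
  | succ k ih =>
    intro z T hT hT2
    have key := hKR T (fun p p' => P.past k p.1 p'.1 ∧ P.past k p.2 p'.2)
      (fun p => ∏ i ∈ range k, P.psi τ t0 a i p.1 p.2) (fun p => P.psi τ t0 a k p.1 p.2)
      ⟨fun p => ⟨fun i _ => rfl, fun i _ => rfl⟩,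
        fun h => ⟨fun i hi => (h.1 i hi).symm, fun i hi => (h.2 i hi).symm⟩,
        fun h h' => ⟨fun i hi => (h.1 i hi).trans (h'.1 i hi),
          fun i hi => (h.2 i hi).trans (h'.2 i hi)⟩⟩
      (fun p hp => Finset.prod_nonneg fun i _ =>
        (hPO3 P τ t0 a h0 h1 i p.1 p.2 (hT p hp).1 (hT p hp).2.1).le)
      (fun p _ p' _ hr => Finset.prod_congr rfl fun i hi =>
        psi_eq_PKK P τ t0 a (Finset.mem_range.1 hi) hr.1 hr.2)
      (fun T' hT' hr => ih z T' (fun p hp => hT p (hT' hp))
        fun p hp p' hp' hh hh' => hr p hp p' hp' ⟨hh, hh'⟩)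
      (fun T' hT' hr => by
        have hv : ∀ p ∈ T', P.v k p.1 + P.v k p.2 = P.v k z := by
          intro p hp
          obtain ⟨m1, m2, m3⟩ := hT p (hT' hp)
          unfold Par.v
          rw [← m3, Nat.factorization_mul (hP.pos _ m1).ne' (hP.pos _ m2).ne']
          rfl
        refine hPKS P τ t0 a h0 h1 k (P.v k z) T' (fun p hp => ?_) (fun p hp p' hp' => ?_)
          (fun p hp p' hp' hh => ?_)
        · exact ⟨(hT p (hT' hp)).1, (hT p (hT' hp)).2.1, hv p hp⟩
        · exact hr p hp p' hp'
        · have hh2 : P.v k p.2 = P.v k p'.2 := by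
            have := hv p hp
            have := hv p' hp'
            omega
          refine hT2 p (hT' hp) p' (hT' hp') (fun i hi => ?_) (fun i hi => ?_)
          · rcases Nat.lt_succ_iff_lt_or_eq.1 hi with h | h
            · exact (hr p hp p' hp').1 i h
            · rw [h]; exact hh
          · rcases Nat.lt_succ_iff_lt_or_eq.1 hi with h | h
            · exact (hr p hp p' hp').2 i h
            · rw [h]; exact hh2)
    simp only [Finset.prod_range_succ]
    exact key

end Pool.Agent.Helper97.MX
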