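import Mathlib
import Pool.Agent.Helper97.MX.St

set_option autoImplicit false

/-! Project MX, module PO1: the weights of phase 1 are positive. -/

namespace Pool.Agent.Helper97.MX

open Finset Classical
open scoped Pointwise

private theorem pr_pos_PO1 (P : Par) (k x : ℕ) (hx : x ∈ P.D) : 0 < P.pr k x (P.v k x) := by
  unfold Par.pr
  have hg : x ∈ P.grp k x := by
    unfold Par.grp
    rw [mem_filter]
    exact ⟨hx, fun i _ => rfl⟩
  have h1 : x ∈ (P.grp k x).filter (fun y => P.v k y = P.v k x) := by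
    rw [mem_filter]
    exact ⟨hg, rfl⟩
  have e1 : (0 : ℝ) < #((P.grp k x).filter (fun y => P.v k y = P.v k x)) := by
    exact_mod_cast card_pos.2 ⟨x, h1⟩
  have e2 : (0 : ℝ) < #(P.grp k x) := by
    exact_mod_cast card_pos.2 ⟨x, hg⟩
  exact div_pos e1 e2

private theorem half_pos_PO1 (P : Par) (Θ g : ℝ) (h0 : 0 < g) (h1 : g < 1) (k x y : ℕ)
    (hy : y ∈ P.D) : 0 < P.half Θ g k x y := by
  unfold Par.half
  have hp := pr_pos_PO1 P k y hy
  have h2 : 0 < 1 - g := by linarith
  split_ifs
  · positivity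
  · positivity

theorem hPO1 : StPO1 := by
  intro P Θ g h0 h1 k x y hx hy
  unfold Par.phi1
  have hp := pr_pos_PO1 P k x hx
  split_ifs
  · exact half_pos_PO1 P Θ g h0 h1 k x y hy
  · exact half_pos_PO1 P Θ g h0 h1 k y x hx
  · norm_num
  · positivity

end Pool.Agent.Helper97.MX
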