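import Mathlib
import Pool.Agent.Helper97.MX.St

/-!
# Project MX, module PO2: the weights of phase 2 are positive
-/

set_option autoImplicit false

namespace Pool.Agent.Helper97.MX

open Finset Classical
open scoped Pointwise

private theorem mix_PO2 (g w : ℝ) (hg : 0 < g) (hg1 : g < 1) (hw : 0 < w) :
    0 < 1 - g * (1 - w) := by
  nlinarith [mul_pos hg hw]

theorem hPO2 (hW1 : StW1) : StPO2 := by
  intro P Θ g hg hg1 ℓ
  have hstep : ∀ (ℓ : List ℕ) (x y : ℕ), x ∈ P.D → y ∈ P.D → ∀ k, 0 < P.phi2 Θ g k ℓ x y := by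
    intro ℓ x y hx hy k
    have hw : ∀ z ∈ P.D, 0 < P.W (k :: ℓ) z / P.W ℓ z := by
      intro z hz
      have h1 := (hW1 P z hz (k :: ℓ)).1
      have h2 := (hW1 P z hz ℓ).1
      exact div_pos (by linarith) (by linarith)
    have hx' := hw x hx
    have hy' := hw y hy
    have hg2 : 0 < (1 - g) / 2 := by linarith
    have m1 := mix_PO2 g _ hg hg1 hx'
    have m2 := mix_PO2 g _ hg hg1 hy'
    unfold Par.phi2
    split_ifs <;> first | assumption | exact mul_pos hg hx' | exact mul_pos hg hy'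
  intro x y hx hy
  refine ⟨hstep ℓ x y hx hy, ?_⟩
  induction ℓ with
  | nil => simp [Par.Phi2]
  | cons k ℓ ih =>
    unfold Par.Phi2
    exact mul_pos ih (hstep ℓ x y hx hy k)

end Pool.Agent.Helper97.MX

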