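import Mathlib
import Pool.Agent.Helper97.MX.St

set_option autoImplicit false

namespace Pool.Agent.Helper97.MX

open Finset Classical
open scoped Pointwise

private lemma grp_self_PO3 (P : Par) {x : ℕ} (k : ℕ) (hx : x ∈ P.D) : x ∈ P.grp k x := by
  unfold Par.grp
  simp only [mem_filter]
  exact ⟨hx, fun i _ => rfl⟩

private lemma pr_pos_PO3 (P : Par) {x : ℕ} (k : ℕ) (hx : x ∈ P.D) : 0 < P.pr k x (P.v k x) := by
  unfold Par.pr
  have h1 : x ∈ (P.grp k x).filter (fun y => P.v k y = P.v k x) := by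
    simp only [mem_filter]
    exact ⟨grp_self_PO3 P k hx, trivial⟩
  have h2 : 0 < #((P.grp k x).filter (fun y => P.v k y = P.v k x)) := card_pos.mpr ⟨x, h1⟩
  have h3 : 0 < #(P.grp k x) := card_pos.mpr ⟨x, grp_self_PO3 P k hx⟩
  positivity

private lemma pr_nonneg_PO3 (P : Par) (k x a : ℕ) : 0 ≤ P.pr k x a := by
  unfold Par.pr
  positivity

theorem hPO3 : StPO3 := by
  intro P τ t0 a h0 h1 k x y hx hy
  unfold Par.psi
  have hpx := pr_pos_PO3 P k hx
  have hpy := pr_pos_PO3 P k hy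
  have hax := pr_nonneg_PO3 P k x (a k)
  split_ifs
  · exact hpy
  · exact hpx
  · nlinarith
  · linarith
  · positivity

end Pool.Agent.Helper97.MX
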