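import Mathlib
import Pool.Agent.Helper97.MX.St

set_option autoImplicit false

namespace Pool.Agent.Helper97.MX

open Finset Classical
open scoped Pointwise

private lemma past_symm_PRD (P : Par) {k x y : ℕ} (h : P.past k x y) : P.past k y x :=
  fun i hi => (h i hi).symm

private lemma past_trans_PRD (P : Par) {k x y z : ℕ} (h : P.past k x y) (h' : P.past k y z) :
    P.past k x z := fun i hi => (h i hi).trans (h' i hi)

private lemma past_mono_PRD (P : Par) {k i x y : ℕ} (h : P.past k x y) (hi : i ≤ k) :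
    P.past i x y := fun j hj => h j (by omega)

private lemma grp_eq_PRD (P : Par) {k x y : ℕ} (h : P.past k x y) : P.grp k x = P.grp k y := by
  unfold Par.grp
  ext w
  simp only [Finset.mem_filter]
  exact ⟨fun hw => ⟨hw.1, past_trans_PRD P hw.2 h⟩,
    fun hw => ⟨hw.1, past_trans_PRD P hw.2 (past_symm_PRD P h)⟩⟩

private lemma mem_grp_PRD (P : Par) {k x : ℕ} (hx : x ∈ P.D) : x ∈ P.grp k x := by
  unfold Par.grp
  rw [Finset.mem_filter]
  exact ⟨hx, fun i _ => rfl⟩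

private lemma grp_pos_PRD (P : Par) {k x : ℕ} (hx : x ∈ P.D) : (0:ℝ) < #(P.grp k x) := by
  exact_mod_cast Finset.card_pos.2 ⟨x, mem_grp_PRD P hx⟩

private lemma grp_one_PRD (P : Par) {k x : ℕ} (hx : x ∈ P.D) : (1:ℝ) ≤ #(P.grp k x) := by
  exact_mod_cast Finset.card_pos.2 ⟨x, mem_grp_PRD P hx⟩

private lemma psi_eq_PRD (P : Par) (τ t0 : ℝ) (a : ℕ → ℕ) {k x x' y y' : ℕ}
    (h1 : P.past (k + 1) x x') (h2 : P.past (k + 1) y y') :
    P.psi τ t0 a k x y = P.psi τ t0 a k x' y' := by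
  have e1 := grp_eq_PRD P (past_mono_PRD P h1 (Nat.le_succ k))
  have e2 := grp_eq_PRD P (past_mono_PRD P h2 (Nat.le_succ k))
  have e3 : P.v k x = P.v k x' := h1 k (by omega)
  have e4 : P.v k y = P.v k y' := h2 k (by omega)
  unfold Par.psi Par.pr
  rw [e1, e2, e3, e4]

private lemma fibre_PRD (hKR : StKR) (hPKK : StPKK) (hPO3 : StPO3) (P : Par) (τ t0 : ℝ)
    (a : ℕ → ℕ) (hP : P.Pos) (hτ : 0 < τ) (hτ1 : τ < 1) (z : ℕ) :
    ∑ p ∈ (P.D ×ˢ P.D).filter (fun p => p.1 * p.2 = z),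
      (∏ i ∈ range P.t, P.psi τ t0 a i p.1 p.2) *
        (1 / ((#(P.grp P.t p.1) : ℝ) * #(P.grp P.t p.2))) ≤ 1 := by
  have hmem : ∀ p ∈ (P.D ×ˢ P.D).filter (fun p => p.1 * p.2 = z),
      p.1 ∈ P.D ∧ p.2 ∈ P.D ∧ p.1 * p.2 = z := by
    intro p hp
    rw [Finset.mem_filter, Finset.mem_product] at hp
    exact ⟨hp.1.1, hp.1.2, hp.2⟩
  refine hKR _ (fun p p' => P.past P.t p.1 p'.1 ∧ P.past P.t p.2 p'.2) _ _ ?_ ?_ ?_ ?_ ?_
  · exact ⟨fun p => ⟨fun _ _ => rfl, fun _ _ => rfl⟩,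
      fun h => ⟨past_symm_PRD P h.1, past_symm_PRD P h.2⟩,
      fun h h' => ⟨past_trans_PRD P h.1 h'.1, past_trans_PRD P h.2 h'.2⟩⟩
  · intro p hp
    apply Finset.prod_nonneg
    intro i _
    exact (hPO3 P τ t0 a hτ hτ1 i p.1 p.2 (hmem p hp).1 (hmem p hp).2.1).le
  · intro p hp p' hp' hr
    apply Finset.prod_congr rfl
    intro i hi
    have hi' := Finset.mem_range.1 hi
    exact psi_eq_PRD P τ t0 a (past_mono_PRD P hr.1 (by omega))
      (past_mono_PRD P hr.2 (by omega))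
  · intro T hT hinj
    refine hPKK P τ t0 a hP hτ hτ1 P.t z T (fun p hp => hmem p (hT hp)) ?_
    intro p hp p' hp' h1 h2
    exact hinj p hp p' hp' ⟨h1, h2⟩
  · intro T hT hrel
    rcases T.eq_empty_or_nonempty with hT0 | ⟨p0, hp0⟩
    · rw [hT0]; simp
    · have hpos1 := grp_pos_PRD P (k := P.t) (hmem p0 (hT hp0)).1
      have hpos2 := grp_pos_PRD P (k := P.t) (hmem p0 (hT hp0)).2.1
      have h1 : ∀ p ∈ T, (1 / ((#(P.grp P.t p.1) : ℝ) * #(P.grp P.t p.2))) =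
          (1 / ((#(P.grp P.t p0.1) : ℝ) * #(P.grp P.t p0.2))) := by
        intro p hp
        rw [grp_eq_PRD P (hrel p hp p0 hp0).1, grp_eq_PRD P (hrel p hp p0 hp0).2]
      rw [Finset.sum_congr rfl h1, Finset.sum_const, nsmul_eq_mul, mul_one_div]
      apply div_le_one_of_le₀ _ (by positivity)
      have h2 : T ⊆ P.grp P.t p0.1 ×ˢ P.grp P.t p0.2 := by
        intro p hp
        rw [Finset.mem_product]
        unfold Par.grp
        rw [Finset.mem_filter, Finset.mem_filter]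
        exact ⟨⟨(hmem p (hT hp)).1, (hrel p hp p0 hp0).1⟩,
          ⟨(hmem p (hT hp)).2.1, (hrel p hp p0 hp0).2⟩⟩
      have h3 := Finset.card_le_card h2
      rw [Finset.card_product] at h3
      exact_mod_cast h3

private lemma step_PRD (hPCP : StPCP) (hPA1 : StPA1) (hPA2 : StPA2) (P : Par)
    (τ t0 δ : ℝ) (a : ℕ → ℕ) (hτ : 0 < τ) (hτ4 : τ ≤ 1 / 4) (ht0 : 0 < t0) (ht1 : t0 < 1)
    (k : ℕ) (hJ : ∀ x ∈ P.D, 0 ≤ P.jota k x)
    (hδ : (#(P.D.filter (fun x => P.v k x ≠ a k)) : ℝ) ≤ δ * P.n) :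
    ∑ x ∈ P.D, ∑ y ∈ P.D, Real.log (1 / P.psi τ t0 a k x y) ≤
      P.n * Par.Cp τ t0 δ * ∑ x ∈ P.D, P.jota k x := by
  set J := ∑ x ∈ P.D, P.jota k x with hJdef
  have hJ0 : 0 ≤ J := Finset.sum_nonneg hJ
  have hA := hPA1 P t0 δ a k ht0 hδ
  have hB := hPA2 P τ t0 a k hτ hτ4 ht0 ht1
  have h1 : ∑ x ∈ P.D, ∑ y ∈ P.D, Real.log (1 / P.psi τ t0 a k x y) ≤
      ∑ x ∈ P.D, ∑ y ∈ P.D, ((2 * τ + 1 / Real.log (1 / t0)) * (P.jota k x + P.jota k y) +
      (if P.v k x ≠ a k ∧ P.v k y ≠ a k ∧ 1 - P.pr k x (a k) ≤ t0 ∧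
        1 - P.pr k y (a k) ≤ t0 then Real.log (1 / τ) + P.jota k x else 0) +
      (if t0 < 1 - P.pr k x (a k) then P.jota k y else 0) +
      (if t0 < 1 - P.pr k y (a k) then P.jota k x else 0)) := by
    apply Finset.sum_le_sum
    intro x hx
    apply Finset.sum_le_sum
    intro y hy
    exact hPCP P τ t0 a hτ hτ4 ht0 ht1 k x y hx hy
  refine h1.trans ?_
  simp only [Finset.sum_add_distrib]
  have e1 : ∑ x ∈ P.D, ∑ y ∈ P.D, (2 * τ + 1 / Real.log (1 / t0)) * (P.jota k x + P.jota k y) =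
      (2 * τ + 1 / Real.log (1 / t0)) * (2 * P.n * J) := by
    simp_rw [← Finset.mul_sum, Finset.sum_add_distrib, Finset.sum_const, nsmul_eq_mul,
      ← Finset.mul_sum]
    unfold Par.n
    rw [← hJdef]
    ring
  have e2 : ∑ x ∈ P.D, ∑ y ∈ P.D, (if t0 < 1 - P.pr k x (a k) then P.jota k y else 0) =
      (#(P.D.filter (fun x => t0 < 1 - P.pr k x (a k))) : ℝ) * J := by
    have : ∀ x ∈ P.D, ∑ y ∈ P.D, (if t0 < 1 - P.pr k x (a k) then P.jota k y else 0) =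
        if t0 < 1 - P.pr k x (a k) then J else 0 := by
      intro x _
      split_ifs <;> simp [hJdef]
    rw [Finset.sum_congr rfl this, ← Finset.sum_filter, Finset.sum_const, nsmul_eq_mul]
  have e3 : ∑ x ∈ P.D, ∑ y ∈ P.D, (if t0 < 1 - P.pr k y (a k) then P.jota k x else 0) =
      (#(P.D.filter (fun x => t0 < 1 - P.pr k x (a k))) : ℝ) * J := by
    rw [Finset.sum_comm]
    exact e2
  have h2 : (#(P.D.filter (fun x => t0 < 1 - P.pr k x (a k))) : ℝ) * J ≤ δ / t0 * P.n * J :=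
    mul_le_mul_of_nonneg_right hA hJ0
  have h3 : P.n * Par.Cp τ t0 δ * J = (2 * τ + 1 / Real.log (1 / t0)) * (2 * P.n * J) +
      t0 * P.n * (Real.log (1 / τ) / Real.log (1 / t0) + 1) * J + 2 * (δ / t0 * P.n * J) := by
    unfold Par.Cp
    ring
  rw [h3]
  rw [e2, e3]
  linarith

theorem hPRD (hAG : StAG) (hKR : StKR) (hPKK : StPKK) (hPO3 : StPO3) (hPCP : StPCP)
    (hPA1 : StPA1) (hPA2 : StPA2) (hPTL : StPTL) : StPRD := by
  intro P τ t0 δ a hP hτ hτ4 ht0 ht1 hδ0 hδ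
  have hτ1 : τ < 1 := by linarith
  have hcard : 0 < #P.D := Finset.card_pos.2 hP.ne
  have hn : 0 < P.n := by unfold Par.n; exact_mod_cast hcard
  have hn1 : 1 ≤ P.n := by unfold Par.n; exact_mod_cast hcard
  set f : ℕ × ℕ → ℝ := fun p => (∏ i ∈ range P.t, P.psi τ t0 a i p.1 p.2) *
        (1 / ((#(P.grp P.t p.1) : ℝ) * #(P.grp P.t p.2))) with hf
  have hψ : ∀ x ∈ P.D, ∀ y ∈ P.D, ∀ i, 0 < P.psi τ t0 a i x y := fun x hx y hy i =>
    hPO3 P τ t0 a hτ hτ1 i x y hx hy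
  have hAG' := hAG (P.D ×ˢ P.D) (fun p => p.1 * p.2) f (hP.ne.product hP.ne) (by
    intro p hp
    rw [Finset.mem_product] at hp
    have h1 := grp_pos_PRD P (k := P.t) hp.1
    have h2 := grp_pos_PRD P (k := P.t) hp.2
    have h3 : 0 < ∏ i ∈ range P.t, P.psi τ t0 a i p.1 p.2 :=
      Finset.prod_pos (fun i _ => hψ p.1 hp.1 p.2 hp.2 i)
    simp only [hf]
    positivity) (fun z => fibre_PRD hKR hPKK hPO3 P τ t0 a hP hτ hτ1 z)
  have himg : (P.D ×ˢ P.D).image (fun p => p.1 * p.2) = P.D * P.D := rfl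
  have hcR : ((#(P.D ×ˢ P.D) : ℕ) : ℝ) = P.n ^ 2 := by
    rw [Finset.card_product]
    unfold Par.n
    push_cast
    ring
  rw [himg, hcR] at hAG'
  refine le_trans ?_ hAG'
  apply mul_le_mul_of_nonneg_left _ (by positivity)
  apply Real.exp_le_exp.2
  -- the total cost
  have hlogf : ∀ x ∈ P.D, ∀ y ∈ P.D, Real.log (1 / f (x, y)) =
      ∑ k ∈ range P.t, Real.log (1 / P.psi τ t0 a k x y) +
        (Real.log #(P.grp P.t x) + Real.log #(P.grp P.t y)) := by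
    intro x hx y hy
    have h1 := grp_pos_PRD P (k := P.t) hx
    have h2 := grp_pos_PRD P (k := P.t) hy
    have h3 : ∀ i ∈ range P.t, P.psi τ t0 a i x y ≠ 0 := fun i _ => (hψ x hx y hy i).ne'
    have h4 : 0 < ∏ i ∈ range P.t, P.psi τ t0 a i x y :=
      Finset.prod_pos (fun i _ => hψ x hx y hy i)
    simp only [hf]
    rw [one_div, Real.log_inv, Real.log_mul h4.ne' (by positivity), one_div, Real.log_inv,
      Real.log_mul h1.ne' h2.ne', Real.log_prod h3]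
    have h5 : ∀ k ∈ range P.t, Real.log (1 / P.psi τ t0 a k x y) =
        - Real.log (P.psi τ t0 a k x y) := by
      intro k _
      rw [one_div, Real.log_inv]
    rw [Finset.sum_congr rfl h5, Finset.sum_neg_distrib]
    ring
  have hCp : 0 ≤ Par.Cp τ t0 δ := by
    have hl : 0 < Real.log (1 / t0) := Real.log_pos (by rw [lt_div_iff₀ ht0]; linarith)
    have hl2 : 0 ≤ Real.log (1 / τ) := Real.log_nonneg (by rw [le_div_iff₀ hτ]; linarith)
    unfold Par.Cp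
    positivity
  have hJn : ∀ k, 0 ≤ ∑ x ∈ P.D, P.jota k x := fun k =>
    Finset.sum_nonneg (fun x hx => (hPTL P x hx).1 k)
  have htot : ∑ p ∈ P.D ×ˢ P.D, Real.log (1 / f p) ≤
      P.n ^ 2 * (Par.Cp τ t0 δ * Real.log P.n) +
        2 * P.n * ∑ x ∈ P.D, Real.log #(P.grp P.t x) := by
    rw [Finset.sum_product]
    have h1 : ∑ x ∈ P.D, ∑ y ∈ P.D, Real.log (1 / f (x, y)) =
        ∑ x ∈ P.D, ∑ y ∈ P.D, (∑ k ∈ range P.t, Real.log (1 / P.psi τ t0 a k x y) +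
        (Real.log #(P.grp P.t x) + Real.log #(P.grp P.t y))) :=
      Finset.sum_congr rfl (fun x hx => Finset.sum_congr rfl (fun y hy => hlogf x hx y hy))
    rw [h1]
    simp only [Finset.sum_add_distrib, Finset.sum_const, nsmul_eq_mul]
    have h2 : ∑ x ∈ P.D, ∑ y ∈ P.D, ∑ k ∈ range P.t, Real.log (1 / P.psi τ t0 a k x y) =
        ∑ k ∈ range P.t, ∑ x ∈ P.D, ∑ y ∈ P.D, Real.log (1 / P.psi τ t0 a k x y) := by
      have h20 : ∀ x ∈ P.D, ∑ y ∈ P.D, ∑ k ∈ range P.t, Real.log (1 / P.psi τ t0 a k x y) =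
          ∑ k ∈ range P.t, ∑ y ∈ P.D, Real.log (1 / P.psi τ t0 a k x y) :=
        fun x _ => Finset.sum_comm
      rw [Finset.sum_congr rfl h20, Finset.sum_comm]
    have h2' : ∑ x ∈ P.D, ∑ y ∈ P.D, ∑ k ∈ range P.t, Real.log (1 / P.psi τ t0 a k x y) ≤
        P.n ^ 2 * (Par.Cp τ t0 δ * Real.log P.n) := by
      rw [h2]
      have h21 : ∑ k ∈ range P.t, ∑ x ∈ P.D, ∑ y ∈ P.D, Real.log (1 / P.psi τ t0 a k x y) ≤
          ∑ k ∈ range P.t, P.n * Par.Cp τ t0 δ * ∑ x ∈ P.D, P.jota k x := by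
        apply Finset.sum_le_sum
        intro k hk
        exact step_PRD hPCP hPA1 hPA2 P τ t0 δ a hτ hτ4 ht0 ht1 k
          (fun x hx => (hPTL P x hx).1 k) (hδ k (Finset.mem_range.1 hk))
      refine h21.trans ?_
      rw [← Finset.mul_sum, Finset.sum_comm]
      have h22 : ∑ x ∈ P.D, ∑ k ∈ range P.t, P.jota k x ≤ P.n * Real.log P.n := by
        have h23 : ∀ x ∈ P.D, ∑ k ∈ range P.t, P.jota k x ≤ Real.log P.n := by
          intro x hx
          rw [(hPTL P x hx).2 P.t]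
          have := Real.log_nonneg (grp_one_PRD P (k := P.t) hx)
          linarith
        have h24 := Finset.sum_le_card_nsmul P.D _ _ h23
        rw [nsmul_eq_mul] at h24
        exact h24
      have h25 : 0 ≤ P.n * Par.Cp τ t0 δ := by positivity
      have h26 := mul_le_mul_of_nonneg_left h22 h25
      refine h26.trans (le_of_eq (by ring))
    rw [← Finset.mul_sum]
    have h3 : (#P.D : ℝ) = P.n := rfl
    rw [h3]
    linarith
  rw [neg_div, neg_le_neg_iff, div_le_iff₀ (by positivity)]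
  refine htot.trans (le_of_eq ?_)
  field_simp

end Pool.Agent.Helper97.MX
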