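import Mathlib
import Pool.Agent.Helper97.MX.St

set_option autoImplicit false

namespace Pool.Agent.Helper97.MX

open Finset Classical
open scoped Pointwise

private lemma grp_self_PTL (P : Par) {x : ℕ} (k : ℕ) (hx : x ∈ P.D) : x ∈ P.grp k x := by
  unfold Par.grp
  simp only [mem_filter]
  exact ⟨hx, fun i _ => rfl⟩

private lemma grp_succ_PTL (P : Par) (k x : ℕ) :
    (P.grp k x).filter (fun y => P.v k y = P.v k x) = P.grp (k + 1) x := by
  unfold Par.grp Par.past
  ext y
  simp only [mem_filter]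
  constructor
  · rintro ⟨⟨h1, h2⟩, h3⟩
    refine ⟨h1, fun i hi => ?_⟩
    rcases Nat.lt_succ_iff_lt_or_eq.mp hi with h | h
    · exact h2 i h
    · rw [h]; exact h3
  · rintro ⟨h1, h2⟩
    exact ⟨⟨h1, fun i hi => h2 i (by omega)⟩, h2 k (by omega)⟩

theorem hPTL : StPTL := by
  intro P x hx
  have hpos : ∀ k, 0 < (#(P.grp k x) : ℝ) := fun k => by
    exact_mod_cast card_pos.mpr ⟨x, grp_self_PTL P k hx⟩
  have hj : ∀ k, P.jota k x = Real.log #(P.grp k x) - Real.log #(P.grp (k + 1) x) := by
    intro k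
    unfold Par.jota Par.pr
    rw [grp_succ_PTL, one_div, inv_div, Real.log_div (hpos k).ne' (hpos (k + 1)).ne']
  refine ⟨fun k => ?_, fun m => ?_⟩
  · rw [hj k, sub_nonneg]
    apply Real.log_le_log (hpos (k + 1))
    have : #(P.grp (k + 1) x) ≤ #(P.grp k x) := by
      rw [← grp_succ_PTL]
      exact card_le_card (filter_subset _ _)
    exact_mod_cast this
  · have h0 : P.grp 0 x = P.D := by
      unfold Par.grp Par.past
      ext y
      simp
    rw [Finset.sum_congr rfl (fun k _ => hj k),
      Finset.sum_range_sub' (fun k => Real.log (#(P.grp k x) : ℝ)) m, h0]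
    rfl

end Pool.Agent.Helper97.MX
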