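import Mathlib
import Pool.Agent.Helper97.MX.St

set_option autoImplicit false

namespace Pool.Agent.Helper97.MX

open Finset Classical
open scoped Pointwise

/-- The list of steps. -/
def lj_SGL (k : ℕ) (ℓ : List ℕ) (j : ℕ) : List ℕ := List.replicate j k ++ ℓ

theorem lj_succ_SGL (k : ℕ) (ℓ : List ℕ) (j : ℕ) : lj_SGL k ℓ (j + 1) = k :: lj_SGL k ℓ j := by
  simp [lj_SGL, List.replicate_succ]

theorem count_lj_SGL {k : ℕ} {ℓ : List ℕ} (hℓ : ∀ i ∈ ℓ, i < k) (j i : ℕ) :
    (lj_SGL k ℓ j).count i = if i < k then ℓ.count i else if i = k then j else 0 := by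
  unfold lj_SGL
  rw [List.count_append, List.count_replicate]
  by_cases h1 : i < k
  · have : ¬ (k == i) = true := by
      simp only [beq_iff_eq]; omega
    simp [h1, this]
  · have h0 : ℓ.count i = 0 := by
      rw [List.count_eq_zero]
      intro hi
      exact h1 (hℓ i hi)
    by_cases h2 : i = k
    · subst h2; simp [h0]
    · have : ¬ (k == i) = true := by
        simp only [beq_iff_eq]; omega
      simp [h1, h2, this, h0]

/-- Modulus after the steps. -/
theorem Md_lj_SGL {P : Par} {k : ℕ} {ℓ : List ℕ} (hℓ : ∀ i ∈ ℓ, i < k) (hk : k < P.t)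
    (j x : ℕ) :
    P.Md (lj_SGL k ℓ j) x =
      (∏ i ∈ range k, P.q i ^ Par.lev (ℓ.count i) (P.v i x) (P.vc i x)) *
        P.q k ^ Par.lev j (P.v k x) (P.vc k x) := by
  unfold Par.Md
  have hsplit : P.t = (k + 1) + (P.t - (k + 1)) := by omega
  rw [hsplit, Finset.prod_range_add, Finset.prod_range_succ]
  have h1 : ∏ i ∈ range (P.t - (k + 1)),
      P.q (k + 1 + i) ^ Par.lev ((lj_SGL k ℓ j).count (k + 1 + i)) (P.v (k + 1 + i) x)
        (P.vc (k + 1 + i) x) = 1 := by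
    apply Finset.prod_eq_one
    intro i _
    rw [count_lj_SGL hℓ]
    have a1 : ¬ (k + 1 + i < k) := by omega
    have a2 : ¬ (k + 1 + i = k) := by omega
    simp [a1, a2, Par.lev]
  rw [h1, mul_one]
  congr 1
  · apply Finset.prod_congr rfl
    intro i hi
    rw [count_lj_SGL hℓ, if_pos (Finset.mem_range.mp hi)]
  · rw [count_lj_SGL hℓ]
    simp

theorem W_eq_SGL {P : Par} {ℓ ℓ' : List ℕ} {x y : ℕ} (hc : P.c x = P.c y)
    (hM : P.Md ℓ x = P.Md ℓ' y) : P.W ℓ x = P.W ℓ' y := by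
  unfold Par.W
  rw [hc, hM]

/-- Before the valuation of `x` nothing happens. -/
theorem no_ev_SGL (hW1 : StW1) {P : Par} {Θ : ℝ} (hΘ : 1 < Θ) {k : ℕ} {ℓ : List ℕ}
    (hℓ : ∀ i ∈ ℓ, i < k) (hk : k < P.t) {x : ℕ} (hx : x ∈ P.D) {j : ℕ} (hj : j < P.v k x) :
    ¬ P.ev Θ k (lj_SGL k ℓ j) x := by
  unfold Par.ev
  rw [← lj_succ_SGL]
  have hM : P.Md (lj_SGL k ℓ (j + 1)) x = P.Md (lj_SGL k ℓ j) x := by
    rw [Md_lj_SGL hℓ hk, Md_lj_SGL hℓ hk]
    have a1 : j + 1 ≤ P.v k x := hj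
    have a2 : j ≤ P.v k x := by omega
    simp [Par.lev, a1, a2]
  rw [W_eq_SGL rfl hM]
  have h1 := (hW1 P x hx (lj_SGL k ℓ j)).1
  have h2 : 0 < 1 / Θ := by positivity
  intro h
  nlinarith

/-- Events after the valuation. -/
def Ev_SGL (P : Par) (Θ : ℝ) (k : ℕ) (ℓ : List ℕ) (x : ℕ) (κ : ℕ) : Prop :=
  P.ev Θ k (lj_SGL k ℓ (P.v k x + κ)) x

theorem Md_shift_SGL {P : Par} {k : ℕ} {ℓ : List ℕ}
    (hℓ : ∀ i ∈ ℓ, i < k) (hk : k < P.t) {x y : ℕ} (hc : P.c x = P.c y) (hp : P.past k x y)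
    (κ : ℕ) :
    P.Md (lj_SGL k ℓ (P.v k x + κ)) x = P.Md (lj_SGL k ℓ (P.v k y + κ)) y := by
  rw [Md_lj_SGL hℓ hk, Md_lj_SGL hℓ hk]
  have hvc : ∀ i, P.vc i x = P.vc i y := by
    intro i; unfold Par.vc; rw [hc]
  congr 1
  · apply Finset.prod_congr rfl
    intro i hi
    rw [hp i (Finset.mem_range.mp hi), hvc]
  · rw [hvc]
    congr 1
    unfold Par.lev
    by_cases h0 : κ = 0
    · subst h0; simp
    · have a1 : ¬ (P.v k x + κ ≤ P.v k x) := by omega
      have a2 : ¬ (P.v k y + κ ≤ P.v k y) := by omega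
      rw [if_neg a1, if_neg a2]
      omega

theorem Ev_congr_SGL {P : Par} {Θ : ℝ} {k : ℕ} {ℓ : List ℕ}
    (hℓ : ∀ i ∈ ℓ, i < k) (hk : k < P.t) {x y : ℕ} (hc : P.c x = P.c y) (hp : P.past k x y) :
    Ev_SGL P Θ k ℓ x = Ev_SGL P Θ k ℓ y := by
  funext κ
  unfold Ev_SGL Par.ev
  rw [← lj_succ_SGL, ← lj_succ_SGL]
  have h1 := Md_shift_SGL (P := P) hℓ hk hc hp κ
  have h2 := Md_shift_SGL (P := P) hℓ hk hc hp (κ + 1)
  rw [W_eq_SGL hc h1, show P.v k x + κ + 1 = P.v k x + (κ + 1) by ring,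
    show P.v k y + κ + 1 = P.v k y + (κ + 1) by ring, W_eq_SGL hc h2]

theorem nev_lj_SGL (P : Par) (Θ : ℝ) (k : ℕ) (ℓ : List ℕ) (x J : ℕ) :
    P.nev Θ (lj_SGL k ℓ J) x =
      P.nev Θ ℓ x + (Nat.count (fun j => P.ev Θ k (lj_SGL k ℓ j) x) J : ℕ) := by
  induction J with
  | zero => simp [lj_SGL]
  | succ J ih =>
    rw [lj_succ_SGL, Par.nev, ih, Nat.count_succ]
    by_cases h : P.ev Θ k (lj_SGL k ℓ J) x
    · simp [h]; try ring
    · simp [h]

theorem hSGL (hW1 : StW1) : StSGL := by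
  intro P Θ p0 k K R J ℓ hOK hΘ hp0 hk hℓ hSp hRK hE
  have hfold : List.replicate J k ++ ℓ = lj_SGL k ℓ J := rfl
  rw [hfold] at hE ⊢
  -- the number of events
  set Y : ℕ → ℕ := fun x => Nat.count (fun j => P.ev Θ k (lj_SGL k ℓ j) x) J with hY
  have hsum : ∑ x ∈ P.D, ((P.nev Θ (lj_SGL k ℓ J) x : ℝ) - P.nev Θ ℓ x) =
      ∑ x ∈ P.D, (Y x : ℝ) := by
    apply Finset.sum_congr rfl
    intro x _
    rw [nev_lj_SGL]
    simp only [hY]
    push_cast
    ring
  rw [hsum]
  have hn0 : 0 ≤ P.n := Nat.cast_nonneg _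
  rcases Nat.eq_zero_or_pos R with hR | hR
  · subst hR
    simp only [Nat.cast_zero, zero_mul]
    exact Finset.sum_nonneg (fun x _ => Nat.cast_nonneg _)
  have hRr : (0 : ℝ) < R := by exact_mod_cast hR
  have hK : (0 : ℝ) < K := by
    by_contra h
    push Not at h
    have : (K : ℝ) = 0 := le_antisymm h (Nat.cast_nonneg _)
    rw [this] at hRK
    linarith
  set E := P.D.filter (fun x => P.ev Θ k (lj_SGL k ℓ J) x) with hEdef
  -- the functions
  set I : ℕ → ℕ → ℕ := fun r x => J - Nat.nth (Ev_SGL P Θ k ℓ x) r with hI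
  have hIcl : ∀ r, K * #(P.D.filter (fun x => P.v k x = I r x)) ≤ #P.D := by
    intro r
    apply hSp
    intro x _ y _ hc hp
    simp only [hI]
    rw [Ev_congr_SGL hℓ hk hc hp]
  have hkey : ∀ x ∈ E, P.v k x = I (Y x) x := by
    intro x hx
    have hxD := (Finset.mem_filter.mp hx).1
    have hxe := (Finset.mem_filter.mp hx).2
    have hvJ : P.v k x ≤ J := by
      by_contra h
      push Not at h
      exact no_ev_SGL hW1 hΘ hℓ hk hxD h hxe
    obtain ⟨κ, hκ⟩ := Nat.exists_eq_add_of_le hvJ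
    have hEκ : Ev_SGL P Θ k ℓ x κ := by
      unfold Ev_SGL
      rw [← hκ]; exact hxe
    have hcount : Y x = Nat.count (Ev_SGL P Θ k ℓ x) κ := by
      simp only [hY]
      rw [hκ, Nat.count_add]
      have h0 : Nat.count (fun j => P.ev Θ k (lj_SGL k ℓ j) x) (P.v k x) = 0 := by
        rw [Nat.count_eq_card_filter_range, Finset.card_eq_zero, Finset.filter_eq_empty_iff]
        intro j hj
        exact no_ev_SGL hW1 hΘ hℓ hk hxD (Finset.mem_range.mp hj)
      rw [h0, zero_add]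
      rfl
    simp only [hI]
    rw [hcount, Nat.nth_count hEκ]
    omega
  -- the elements with few events
  have hfew : (#(E.filter (fun x => Y x < R)) : ℝ) ≤ p0 / 2 * P.n := by
    have h1 : E.filter (fun x => Y x < R) ⊆
        (Finset.range R).biUnion (fun r => P.D.filter (fun x => P.v k x = I r x)) := by
      intro x hx
      have hxE := (Finset.mem_filter.mp hx).1
      have hxR := (Finset.mem_filter.mp hx).2
      rw [Finset.mem_biUnion]
      exact ⟨Y x, Finset.mem_range.mpr hxR, Finset.mem_filter.mpr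
        ⟨(Finset.mem_filter.mp hxE).1, hkey x hxE⟩⟩
    have h2 : #(E.filter (fun x => Y x < R)) ≤
        ∑ r ∈ Finset.range R, #(P.D.filter (fun x => P.v k x = I r x)) :=
      (Finset.card_le_card h1).trans Finset.card_biUnion_le
    have h3 : K * #(E.filter (fun x => Y x < R)) ≤ R * #P.D := by
      calc K * #(E.filter (fun x => Y x < R))
          ≤ K * ∑ r ∈ Finset.range R, #(P.D.filter (fun x => P.v k x = I r x)) :=
            Nat.mul_le_mul_left _ h2
        _ = ∑ r ∈ Finset.range R, K * #(P.D.filter (fun x => P.v k x = I r x)) := by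
            rw [Finset.mul_sum]
        _ ≤ ∑ r ∈ Finset.range R, #P.D := Finset.sum_le_sum (fun r _ => hIcl r)
        _ = R * #P.D := by simp
    have h4 : (K : ℝ) * #(E.filter (fun x => Y x < R)) ≤ R * P.n := by
      unfold Par.n
      exact_mod_cast h3
    have h5 : (R : ℝ) * P.n ≤ (p0 * K / 2) * P.n :=
      mul_le_mul_of_nonneg_right (by linarith) hn0
    have h6 : (K : ℝ) * #(E.filter (fun x => Y x < R)) ≤ K * (p0 / 2 * P.n) := by
      calc (K : ℝ) * #(E.filter (fun x => Y x < R)) ≤ (p0 * K / 2) * P.n := h4.trans h5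
        _ = K * (p0 / 2 * P.n) := by ring
    exact le_of_mul_le_mul_left h6 hK
  have hsplit : (#(E.filter (fun x => Y x < R)) : ℝ) + #(E.filter (fun x => ¬ Y x < R)) = #E := by
    exact_mod_cast Finset.card_filter_add_card_filter_not (s := E) (fun x => Y x < R)
  have hmany : p0 / 2 * P.n ≤ (#(E.filter (fun x => ¬ Y x < R)) : ℝ) := by
    linarith
  calc (R : ℝ) * (p0 / 2) * P.n = R * (p0 / 2 * P.n) := by ring
    _ ≤ R * (#(E.filter (fun x => ¬ Y x < R)) : ℝ) := mul_le_mul_of_nonneg_left hmany hRr.le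
    _ = ∑ x ∈ E.filter (fun x => ¬ Y x < R), (R : ℝ) := by
        rw [Finset.sum_const, nsmul_eq_mul, mul_comm]
    _ ≤ ∑ x ∈ E.filter (fun x => ¬ Y x < R), (Y x : ℝ) := by
        apply Finset.sum_le_sum
        intro x hx
        have := (Finset.mem_filter.mp hx).2
        exact_mod_cast Nat.le_of_not_lt this
    _ ≤ ∑ x ∈ P.D, (Y x : ℝ) := by
        apply Finset.sum_le_sum_of_subset_of_nonneg
        · intro x hx
          exact (Finset.mem_filter.mp (Finset.mem_filter.mp hx).1).1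
        · intro x _ _
          exact Nat.cast_nonneg _

end Pool.Agent.Helper97.MX
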