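import Mathlib
import Pool.Agent.Helper97.MX.St

set_option autoImplicit false

namespace Pool.Agent.Helper97.MX

open Finset Classical
open scoped Pointwise

private theorem core_SGN (A : Finset ℤ) (s : ℤ) (hs : s = 1 ∨ s = -1)
    (hc : #A ≤ 2 * #(A.filter (fun z => 0 < s * z))) :
    ∃ (D : Finset ℕ) (s : ℤ), (s = 1 ∨ s = -1) ∧ 0 ∉ D ∧
    #A ≤ 2 * #D ∧ #D ≤ #A ∧ #(D + D) ≤ #(A + A) ∧ #(D * D) ≤ #(A * A) ∧
    ∀ x ∈ D, s * (x : ℤ) ∈ A := by
  have hss : s * s = 1 := by rcases hs with h | h <;> rw [h] <;> norm_num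
  have habs : ∀ z : ℤ, 0 < s * z → (z.natAbs : ℤ) = s * z := by
    intro z hz
    rcases hs with h | h <;> rw [h] at hz ⊢ <;> omega
  have hinj : Set.InjOn Int.natAbs (A.filter (fun z => 0 < s * z) : Set ℤ) := by
    intro z hz w hw hzw
    rw [mem_coe, mem_filter] at hz hw
    have h1 := habs z hz.2
    have h2 := habs w hw.2
    rw [hzw, h2] at h1
    calc z = s * s * z := by rw [hss, one_mul]
      _ = s * (s * z) := by ring
      _ = s * (s * w) := by rw [h1]
      _ = s * s * w := by ring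
      _ = w := by rw [hss, one_mul]
  have hcard := card_image_of_injOn hinj
  have hmem : ∀ x ∈ (A.filter (fun z => 0 < s * z)).image Int.natAbs, s * (x : ℤ) ∈ A := by
    intro x hx
    rw [mem_image] at hx
    obtain ⟨z, hz, rfl⟩ := hx
    rw [mem_filter] at hz
    rw [habs z hz.2, ← mul_assoc, hss, one_mul]
    exact hz.1
  refine ⟨(A.filter (fun z => 0 < s * z)).image Int.natAbs, s, hs, ?_, ?_, ?_, ?_, ?_, hmem⟩
  · intro h
    rw [mem_image] at h
    obtain ⟨z, hz, hz0⟩ := h
    rw [mem_filter, Int.natAbs_eq_zero.1 hz0, mul_zero] at hz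
    exact lt_irrefl _ hz.2
  · rw [hcard]
    exact hc
  · rw [hcard]
    exact card_filter_le _ _
  · refine card_le_card_of_injOn (fun x : ℕ => s * (x : ℤ)) ?_ ?_
    · intro x hx
      rw [mem_coe, mem_add] at hx
      obtain ⟨a, ha, b, hb, rfl⟩ := hx
      rw [mem_coe, mem_add]
      refine ⟨_, hmem a ha, _, hmem b hb, ?_⟩
      push_cast
      ring
    · intro x _ y _ hxy
      simp only at hxy
      have h1 : s * s * (x : ℤ) = s * s * y := by rw [mul_assoc, hxy, mul_assoc]
      rw [hss, one_mul, one_mul] at h1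
      exact_mod_cast h1
  · refine card_le_card_of_injOn (fun x : ℕ => (x : ℤ)) ?_ ?_
    · intro x hx
      rw [mem_coe, mem_mul] at hx
      obtain ⟨a, ha, b, hb, rfl⟩ := hx
      rw [mem_coe, mem_mul]
      refine ⟨_, hmem a ha, _, hmem b hb, ?_⟩
      push_cast
      calc s * (a : ℤ) * (s * b) = s * s * (a * b) := by ring
        _ = a * b := by rw [hss, one_mul]
    · intro x _ y _ hxy
      simp only at hxy
      exact_mod_cast hxy

theorem hSGN : StSGN := by
  intro A hA
  have h1 : #A = #(A.filter (fun z => 0 < (1 : ℤ) * z)) + #(A.filter (fun z => 0 < (-1 : ℤ) * z)) := by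
    rw [← card_union_of_disjoint]
    · congr 1
      ext z
      simp only [mem_union, mem_filter]
      constructor
      · intro hz
        have : z ≠ 0 := fun h => hA (h ▸ hz)
        rcases lt_or_gt_of_ne this with h | h
        · exact Or.inr ⟨hz, by omega⟩
        · exact Or.inl ⟨hz, by omega⟩
      · rintro (h | h) <;> exact h.1
    · rw [disjoint_filter]
      intro z _ h2 h3
      omega
  by_cases h2 : #(A.filter (fun z => 0 < (-1 : ℤ) * z)) ≤ #(A.filter (fun z => 0 < (1 : ℤ) * z))
  · exact core_SGN A 1 (Or.inl rfl) (by omega)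
  · exact core_SGN A (-1) (Or.inr rfl) (by omega)

end Pool.Agent.Helper97.MX
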