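import Mathlib
import Pool.Agent.Helper97.MX.St

set_option autoImplicit false

namespace Pool.Agent.Helper97.MX

open Finset Classical
open scoped Pointwise

theorem core_STR (P : Par) (Kap : ℕ → ℕ) : ∀ (n : ℕ) (S D1 : Finset ℕ), #S = n →
    D1.Nonempty →
    (∀ k < P.t, k ∉ S → ∀ x ∈ D1, ∀ y ∈ D1, P.c x = P.c y → P.past k x y → P.v k x = P.v k y) →
    ∃ D' ⊆ D1, ∃ S' ⊆ S, D'.Nonempty ∧
      (∀ k < P.t, k ∉ S' → ∀ x ∈ D', ∀ y ∈ D', P.c x = P.c y → P.past k x y →
        P.v k x = P.v k y) ∧
      #D1 ≤ (∏ s ∈ Icc (#S' + 1) #S, Kap s) * #D' ∧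
      ∀ k ∈ S', ({P with D := D'} : Par).Spread k (Kap #S') := by
  intro n
  induction n with
  | zero =>
    intro S D1 hS hne hprop
    have hS0 : S = ∅ := Finset.card_eq_zero.mp hS
    subst hS0
    exact ⟨D1, Finset.Subset.refl _, ∅, Finset.Subset.refl _, hne, hprop, by simp, by simp⟩
  | succ n ih =>
    intro S D1 hS hne hprop
    by_cases hsp : ∀ k ∈ S, ({P with D := D1} : Par).Spread k (Kap #S)
    · exact ⟨D1, Finset.Subset.refl _, S, Finset.Subset.refl _, hne, hprop, by simp, hsp⟩
    · push Not at hsp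
      obtain ⟨k, hk, hns⟩ := hsp
      unfold Par.Spread at hns
      push Not at hns
      obtain ⟨I, hI, hlt⟩ := hns
      change ∀ x ∈ D1, ∀ y ∈ D1, P.c x = P.c y → P.past k x y → I x = I y at hI
      change #D1 < Kap #S * #(D1.filter (fun x => P.v k x = I x)) at hlt
      set D2 := D1.filter (fun x => P.v k x = I x) with hD2
      have hD2ne : D2.Nonempty := by
        rw [Finset.nonempty_iff_ne_empty]
        intro h0
        rw [h0] at hlt
        simp at hlt
      have hcard : #(S.erase k) = n := by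
        rw [Finset.card_erase_of_mem hk, hS]; rfl
      obtain ⟨D', hD'D2, S', hS', hne', hprop', hle, hspr⟩ := ih (S.erase k) D2 hcard hD2ne (by
        intro k' hk' hk'S x hx y hy hc hpast
        rw [hD2, Finset.mem_filter] at hx hy
        by_cases hkk : k' = k
        · subst hkk
          rw [hx.2, hy.2]
          exact hI x hx.1 y hy.1 hc hpast
        · refine hprop k' hk' (fun hmem => hk'S (Finset.mem_erase.mpr ⟨hkk, hmem⟩)) x hx.1 y hy.1
            hc hpast)
      refine ⟨D', hD'D2.trans (Finset.filter_subset _ _), S', hS'.trans (Finset.erase_subset _ _),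
        hne', hprop', ?_, hspr⟩
      have hS'n : #S' ≤ n := by
        rw [← hcard]; exact Finset.card_le_card hS'
      rw [hcard] at hle
      rw [hS, Finset.prod_Icc_succ_top (by omega)]
      rw [hS] at hlt
      calc #D1 ≤ Kap (n + 1) * #D2 := hlt.le
        _ ≤ Kap (n + 1) * ((∏ s ∈ Icc (#S' + 1) n, Kap s) * #D') := Nat.mul_le_mul_left _ hle
        _ = (∏ s ∈ Icc (#S' + 1) n, Kap s) * Kap (n + 1) * #D' := by ring

theorem hSTR : StSTR := by
  intro P hP Kap hKap hlt
  obtain ⟨D', hD', S', hS', hne', hprop', hle, hspr⟩ := core_STR P Kap P.t (range P.t) P.D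
    (Finset.card_range _) hP.base.ne (by
      intro k hk hkn
      exact absurd (Finset.mem_range.mpr hk) hkn)
  rw [Finset.card_range] at hle
  have hprodpos : 0 < ∏ s ∈ Icc 1 P.t, Kap s := Finset.prod_pos (fun s _ => hKap s)
  have hprodle : (∏ s ∈ Icc (#S' + 1) P.t, Kap s) ≤ ∏ s ∈ Icc 1 P.t, Kap s := by
    refine Nat.le_of_dvd hprodpos (Finset.prod_dvd_prod_of_subset _ _ _ ?_)
    exact Finset.Icc_subset_Icc_left (by omega)
  have hle' : #P.D ≤ (∏ s ∈ Icc 1 P.t, Kap s) * #D' :=
    hle.trans (Nat.mul_le_mul_right _ hprodle)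
  refine ⟨D', hD', S', hS', hne', ?_, hle', hspr⟩
  rw [Finset.nonempty_iff_ne_empty]
  intro hS0
  subst hS0
  have hinj : Set.InjOn P.c (D' : Set ℕ) := by
    intro x hx y hy hc
    have hx' : x ∈ D' := hx
    have hy' : y ∈ D' := hy
    have hpast : ∀ k, k ≤ P.t → P.past k x y := by
      intro k
      induction k with
      | zero => intro _ i hi; exact absurd hi (Nat.not_lt_zero _)
      | succ k ih =>
        intro hk i hi
        have h1 := ih (by omega)
        rcases Nat.lt_succ_iff_lt_or_eq.mp hi with h | h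
        · exact h1 i h
        · subst h
          exact hprop' i (by omega) (Finset.notMem_empty _) x hx' y hy' hc h1
    have hH := hP.H x (hD' hx') y (hD' hy') (hpast P.t le_rfl)
    rw [← hc] at hH
    have := mul_right_cancel₀ (hP.c0 x (hD' hx')) hH
    exact_mod_cast this
  have hcard : #D' ≤ #(P.D.image P.c) := by
    rw [← Finset.card_image_of_injOn hinj]
    exact Finset.card_le_card (Finset.image_subset_image hD')
  have := hle'.trans (Nat.mul_le_mul_left _ hcard)
  omega

end Pool.Agent.Helper97.MX
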