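import Mathlib
import Pool.Agent.Helper97.MX.St

/-!
# Project MX, module SUMA: the sum theorem for data `P`
-/

set_option autoImplicit false

namespace Pool.Agent.Helper97.MX

open Finset Classical
open scoped Pointwise

private theorem restrict_OK_SUMA (P : Par) (h : P.OK) (D' : Finset ℕ) (hD : D' ⊆ P.D)
    (hne : D'.Nonempty) : ({P with D := D'} : Par).OK where
  base :=
    { ne := hne
      pos := fun x hx => h.base.pos x (hD hx)
      prime := h.base.prime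
      inj := h.base.inj }
  c0 := fun x hx => h.c0 x (hD hx)
  H := fun x hx y hy hxy => h.H x (hD hx) y (hD hy) hxy

theorem hSUMA (hPAR : StPAR) (hKAP : StKAP) (hSTR : StSTR) (hCHN : StCHN) (hADD : StADD) :
    StSUMA := by
  intro ε η hε hη
  set ε1 : ℝ := min ε 1 with hε1
  set η1 : ℝ := min η 1 with hη1
  have hε10 : 0 < ε1 := lt_min hε one_pos
  have hη10 : 0 < η1 := lt_min hη one_pos
  have hε11 : ε1 ≤ 1 := min_le_right _ _
  have hη11 : η1 ≤ 1 := min_le_right _ _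
  obtain ⟨Θ, g, β, p0, hΘ, hg0, hg4, hβ, hΘβ, hp0, hp01, hX⟩ := hPAR ε1 hε10 hε11
  have hΘ0 : 0 < Θ := by linarith
  set C1 : ℝ := 4 * Θ / p0 ^ 2 + 2 / p0 + 1 with hC1
  have hC11 : 1 ≤ C1 := by
    have h1 : 0 ≤ 4 * Θ / p0 ^ 2 := by positivity
    have h2 : 0 ≤ 2 / p0 := by positivity
    linarith
  set κ : ℝ := min ε1 η1 / 8 with hκ
  have hκ0 : 0 < κ := by
    have : 0 < min ε1 η1 := lt_min hε10 hη10
    rw [hκ]; linarith
  have hκε : 8 * κ ≤ ε1 := by
    have : min ε1 η1 ≤ ε1 := min_le_left _ _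
    rw [hκ]; linarith
  have hκη : 8 * κ ≤ η1 := by
    have : min ε1 η1 ≤ η1 := min_le_right _ _
    rw [hκ]; linarith
  have hlg : 0 ≤ Real.log (1 / g) := by
    apply Real.log_nonneg
    rw [le_div_iff₀ hg0]; linarith
  have hl8 : 0 ≤ Real.log 8 := Real.log_nonneg (by norm_num)
  set A : ℝ := Real.log 8 + Real.log (1 / g) + 5 with hA
  have hA0 : 0 < A := by rw [hA]; linarith
  set c0 : ℝ := min 1 (min (κ ^ 2 / (32 * C1)) (ε1 / (10 * A))) with hc0
  have hc00 : 0 < c0 := by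
    apply lt_min one_pos
    apply lt_min
    · positivity
    · positivity
  have hc01 : c0 ≤ 1 := min_le_left _ _
  have hc0a : 32 * C1 * c0 ≤ κ ^ 2 := by
    have h1 : c0 ≤ κ ^ 2 / (32 * C1) := (min_le_right _ _).trans (min_le_left _ _)
    have h2 : 0 < 32 * C1 := by linarith
    rw [le_div_iff₀ h2] at h1
    linarith
  have hc0b : c0 * A ≤ ε1 / 10 := by
    have h1 : c0 ≤ ε1 / (10 * A) := (min_le_right _ _).trans (min_le_right _ _)
    have h2 : 0 < 10 * A := by linarith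
    rw [le_div_iff₀ h2] at h1
    linarith
  refine ⟨c0, hc00, fun P hP ht hc => ?_⟩
  have hn1 : 1 ≤ P.n := by
    have : 1 ≤ #P.D := Finset.card_pos.2 hP.base.ne
    unfold Par.n
    exact_mod_cast this
  have hn0 : 0 < P.n := by linarith
  rcases eq_or_lt_of_le hn1 with hn | hn
  · -- one element
    rw [← hn, Real.one_rpow, mul_one]
    have h1 : 1 ≤ #(P.D + P.D) := Finset.card_pos.2 (hP.base.ne.add hP.base.ne)
    have h2 : (1 : ℝ) ≤ (#(P.D + P.D) : ℝ) := by exact_mod_cast h1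
    linarith
  have hlog : 0 < Real.log P.n := Real.log_pos hn
  set R : ℕ → ℕ := fun s => ⌊2 * Θ * Real.log P.n / (p0 * s)⌋₊ + 1 with hR
  set Kap : ℕ → ℕ := fun s => ⌈2 * (R s : ℝ) / p0⌉₊ with hKap
  have hRpos : ∀ s, (0 : ℝ) < R s := by
    intro s
    simp only [hR]; positivity
  have hKap1 : ∀ s, 1 ≤ Kap s := by
    intro s
    simp only [hKap]
    apply Nat.one_le_iff_ne_zero.2
    intro h
    rw [Nat.ceil_eq_zero] at h
    have : 0 < 2 * (R s : ℝ) / p0 := by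
      have := hRpos s
      positivity
    linarith
  have hKapR : ∀ s, 2 * (R s : ℝ) ≤ p0 * Kap s := by
    intro s
    have h1 : 2 * (R s : ℝ) / p0 ≤ Kap s := Nat.le_ceil _
    rw [div_le_iff₀ hp0] at h1
    linarith
  have hKapC : ∀ s : ℕ, 1 ≤ s → (Kap s : ℝ) ≤ C1 * (1 + Real.log P.n / s) := by
    intro s hs
    have hs0 : (0 : ℝ) < s := by exact_mod_cast hs
    have h0 : 0 ≤ 2 * Θ * Real.log P.n / (p0 * s) := by positivity
    have h1 : (R s : ℝ) ≤ 2 * Θ * Real.log P.n / (p0 * s) + 1 := by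
      simp only [hR]
      push_cast
      have := Nat.floor_le h0
      linarith
    have h2 : (Kap s : ℝ) ≤ 2 * (R s : ℝ) / p0 + 1 := by
      have h3 : 0 ≤ 2 * (R s : ℝ) / p0 := by
        have := hRpos s
        positivity
      exact (Nat.ceil_lt_add_one h3).le
    have h4 : 2 * (R s : ℝ) / p0 ≤ 2 * (2 * Θ * Real.log P.n / (p0 * s) + 1) / p0 := by
      apply div_le_div_of_nonneg_right _ hp0.le
      linarith
    have h5 : 2 * (2 * Θ * Real.log P.n / (p0 * s) + 1) / p0 + 1 =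
        4 * Θ / p0 ^ 2 * (Real.log P.n / s) + 2 / p0 + 1 := by
      field_simp; ring
    have h6 : 0 ≤ Real.log P.n / s := by positivity
    have h7 : 4 * Θ / p0 ^ 2 * (Real.log P.n / s) + 2 / p0 + 1 ≤ C1 * (1 + Real.log P.n / s) := by
      have h8 : 0 ≤ 4 * Θ / p0 ^ 2 := by positivity
      have h9 : 0 ≤ 2 / p0 := by positivity
      rw [hC1]
      nlinarith [mul_nonneg h9 h6]
    linarith
  have hprod := hKAP C1 κ c0 P.n P.t Kap hC11 hκ0 hc00 hc01 hc0a hn ht hKap1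
    (fun s hs => hKapC s (Finset.mem_Icc.1 hs).1)
  have himg : (#(P.D.image P.c) : ℝ) ≤ P.n ^ (1 - η1) := by
    refine hc.trans (Real.rpow_le_rpow_of_exponent_le hn1 ?_)
    have : η1 ≤ η := min_le_left _ _
    linarith
  have hlt : (∏ s ∈ Icc 1 P.t, Kap s) * #(P.D.image P.c) < #P.D := by
    have h1 : (((∏ s ∈ Icc 1 P.t, Kap s) * #(P.D.image P.c) : ℕ) : ℝ) < (#P.D : ℝ) := by
      have h2 : (((∏ s ∈ Icc 1 P.t, Kap s) * #(P.D.image P.c) : ℕ) : ℝ) ≤
          P.n ^ κ * P.n ^ (1 - η1) := by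
        rw [Nat.cast_mul]
        exact mul_le_mul hprod himg (Nat.cast_nonneg _) (Real.rpow_nonneg hn0.le _)
      rw [← Real.rpow_add hn0] at h2
      have h3 : P.n ^ (κ + (1 - η1)) < P.n ^ (1 : ℝ) :=
        Real.rpow_lt_rpow_of_exponent_lt hn (by linarith)
      rw [Real.rpow_one] at h3
      exact h2.trans_lt h3
    exact_mod_cast h1
  obtain ⟨D', hD', S, hS, hD'ne, hSne, hcard, hspread⟩ := hSTR P hP Kap hKap1 hlt
  set P' : Par := {P with D := D'} with hP'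
  have hOK' : P'.OK := restrict_OK_SUMA P hP D' hD' hD'ne
  have hn'1 : 1 ≤ P'.n := by
    have : 1 ≤ #D' := Finset.card_pos.2 hD'ne
    show (1 : ℝ) ≤ (#D' : ℝ)
    exact_mod_cast this
  have hn'0 : 0 < P'.n := by linarith
  have hn'n : P'.n ≤ P.n := by
    show (#D' : ℝ) ≤ (#P.D : ℝ)
    exact_mod_cast Finset.card_le_card hD'
  have hlog' : Real.log P'.n ≤ Real.log P.n := Real.log_le_log hn'0 hn'n
  have hlog'0 : 0 ≤ Real.log P'.n := Real.log_nonneg hn'1
  have hSc : 1 ≤ #S := Finset.card_pos.2 hSne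
  have hSc0 : (0 : ℝ) < (#S : ℝ) := by exact_mod_cast hSc
  have hstep : Θ * Real.log P'.n < #S * ((R #S : ℝ) * (p0 / 2)) := by
    have h1 : 2 * Θ * Real.log P.n / (p0 * #S) < R #S := by
      simp only [hR]
      push_cast
      exact Nat.lt_floor_add_one _
    rw [div_lt_iff₀ (by positivity)] at h1
    have h2 : Θ * Real.log P'.n ≤ Θ * Real.log P.n := mul_le_mul_of_nonneg_left hlog' hΘ0.le
    nlinarith
  obtain ⟨ℓ, hgood, hNn⟩ := hCHN P' Θ p0 S (Kap #S) (R #S) hOK' (by linarith) hp0 hS hspread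
    (hKapR #S) hstep
  have hadd := hADD P' Θ g β p0 ℓ hOK' hΘ hg0 hg4 hβ hΘβ hp0 hgood hNn
  have hsub : #(P'.D + P'.D) ≤ #(P.D + P.D) := Finset.card_le_card (Finset.add_subset_add hD' hD')
  have hsubR : (#(P'.D + P'.D) : ℝ) ≤ (#(P.D + P.D) : ℝ) := by exact_mod_cast hsub
  -- lower bound for n'
  have hn'low : P.n ^ (1 - κ) ≤ P'.n := by
    have h1 : P.n ≤ P.n ^ κ * P'.n := by
      have h2 : (#P.D : ℝ) ≤ ((∏ s ∈ Icc 1 P.t, Kap s : ℕ) : ℝ) * (#D' : ℝ) := by
        exact_mod_cast hcard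
      have h3 : ((∏ s ∈ Icc 1 P.t, Kap s : ℕ) : ℝ) * (#D' : ℝ) ≤ P.n ^ κ * (#D' : ℝ) :=
        mul_le_mul_of_nonneg_right hprod (Nat.cast_nonneg _)
      exact h2.trans h3
    have h4 : 0 < P.n ^ κ := Real.rpow_pos_of_pos hn0 _
    rw [Real.rpow_sub hn0, Real.rpow_one, div_le_iff₀ h4]
    linarith
  have hsq : P.n ^ (2 - 2 * κ) ≤ P'.n ^ 2 := by
    have h1 : P.n ^ (2 - 2 * κ) = (P.n ^ (1 - κ)) ^ 2 := by
      rw [← Real.rpow_natCast, ← Real.rpow_mul hn0.le]
      congr 1; push_cast; ring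
    rw [h1]
    exact pow_le_pow_left₀ (Real.rpow_nonneg hn0.le _) hn'low 2
  -- the exponential
  set X : ℝ := 4 * g * Θ + 2 * β + (2 * (2 * g + 1 / Real.log Θ) +
        p0 * (Θ * Real.log (1 / g) + 2)) with hXdef
  have hcost : (P'.t : ℝ) * A + X * Real.log P'.n ≤ (ε1 / 10 + 3 / 10 * ε1) * Real.log P.n := by
    have h1 : (P'.t : ℝ) * A ≤ ε1 / 10 * Real.log P.n := by
      have h2 : (P'.t : ℝ) * A ≤ (c0 * Real.log P.n) * A := mul_le_mul_of_nonneg_right ht hA0.le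
      have h3 : (c0 * Real.log P.n) * A = (c0 * A) * Real.log P.n := by ring
      have h4 : (c0 * A) * Real.log P.n ≤ ε1 / 10 * Real.log P.n :=
        mul_le_mul_of_nonneg_right hc0b hlog.le
      linarith
    have h5 : X * Real.log P'.n ≤ 3 / 10 * ε1 * Real.log P.n := by
      have h6 : X * Real.log P'.n ≤ 3 / 10 * ε1 * Real.log P'.n :=
        mul_le_mul_of_nonneg_right hX hlog'0
      have h7 : 3 / 10 * ε1 * Real.log P'.n ≤ 3 / 10 * ε1 * Real.log P.n :=
        mul_le_mul_of_nonneg_left hlog' (by positivity)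
      linarith
    linarith
  have hexp : P.n ^ (-(ε1 / 10 + 3 / 10 * ε1)) ≤
      Real.exp (-((P'.t : ℝ) * A + X * Real.log P'.n)) := by
    rw [Real.rpow_def_of_pos hn0]
    apply Real.exp_le_exp.2
    linarith
  have hmain : P.n ^ (2 - ε1) ≤ (#(P.D + P.D) : ℝ) := by
    calc P.n ^ (2 - ε1) ≤ P.n ^ ((2 - 2 * κ) + -(ε1 / 10 + 3 / 10 * ε1)) :=
          Real.rpow_le_rpow_of_exponent_le hn1 (by linarith)
      _ = P.n ^ (2 - 2 * κ) * P.n ^ (-(ε1 / 10 + 3 / 10 * ε1)) := Real.rpow_add hn0 _ _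
      _ ≤ P'.n ^ 2 * Real.exp (-((P'.t : ℝ) * A + X * Real.log P'.n)) :=
          mul_le_mul hsq hexp (Real.rpow_nonneg hn0.le _) (by positivity)
      _ ≤ (#(P'.D + P'.D) : ℝ) := hadd
      _ ≤ _ := hsubR
  calc c0 * P.n ^ (2 - ε) ≤ 1 * P.n ^ (2 - ε) :=
        mul_le_mul_of_nonneg_right hc01 (Real.rpow_nonneg hn0.le _)
    _ ≤ P.n ^ (2 - ε1) := by
        rw [one_mul]
        apply Real.rpow_le_rpow_of_exponent_le hn1
        have : ε1 ≤ ε := min_le_left _ _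
        linarith
    _ ≤ _ := hmain

end Pool.Agent.Helper97.MX
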