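import Mathlib
import Pool.Agent.Helper97.MX.St

set_option autoImplicit false

namespace Pool.Agent.Helper97.MX

open Finset Classical
open scoped Pointwise

private theorem ulog_T2A (u : ℝ) (hu : 0 ≤ u) : u * Real.log (1 / u) ≤ 1 := by
  rcases hu.eq_or_lt with h | h
  · rw [← h]
    simp
  · have h1 : Real.log (1 / u) ≤ 1 / u - 1 := Real.log_le_sub_one_of_pos (by positivity)
    calc u * Real.log (1 / u) ≤ u * (1 / u - 1) := mul_le_mul_of_nonneg_left h1 hu
      _ = 1 - u := by field_simp
      _ ≤ 1 := by linarith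

private theorem grp_T2A (P : Par) (k x w : ℕ) (hw : w ∈ P.grp k x) : P.grp k w = P.grp k x := by
  unfold Par.grp at hw ⊢
  rw [Finset.mem_filter] at hw
  apply Finset.filter_congr
  intro y _
  constructor
  · intro h i hi
    rw [h i hi, hw.2 i hi]
  · intro h i hi
    rw [h i hi, hw.2 i hi]

theorem hT2A (hAVG : StAVG) : StT2A := by
  intro P _ k _
  rw [Finset.sum_comm]
  have key : ∀ y ∈ P.D, ∑ x ∈ P.D, P.tie k x y ≤ P.n := by
    intro y _
    set a := P.v k y with ha
    set F : ℕ → ℝ := fun x => if P.v k x = a then Real.log (1 / P.pr k x a) else 0 with hF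
    have h1 : ∑ x ∈ P.D, P.tie k x y = ∑ x ∈ P.D, F x := by
      apply Finset.sum_congr rfl
      intro x _
      simp only [Par.tie, hF, ← ha]
      by_cases h : P.v k x = a
      · rw [if_pos h, if_pos h, h]
      · rw [if_neg h, if_neg h]
    rw [h1, ← hAVG P k F]
    have h2 : ∀ x ∈ P.D, (∑ w ∈ P.grp k x, F w) / #(P.grp k x) ≤ 1 := by
      intro x hx
      have hxg : x ∈ P.grp k x := by
        unfold Par.grp
        rw [Finset.mem_filter]
        exact ⟨hx, fun i _ => rfl⟩
      have hcard : (0 : ℝ) < #(P.grp k x) := by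
        exact_mod_cast Finset.card_pos.mpr ⟨x, hxg⟩
      have h3 : ∑ w ∈ P.grp k x, F w =
          #((P.grp k x).filter (fun w => P.v k w = a)) * Real.log (1 / P.pr k x a) := by
        have h4 : ∀ w ∈ P.grp k x, F w =
            if P.v k w = a then Real.log (1 / P.pr k x a) else 0 := by
          intro w hw
          simp only [hF]
          have h5 : P.pr k w a = P.pr k x a := by
            unfold Par.pr
            rw [grp_T2A P k x w hw]
          rw [h5]
        rw [Finset.sum_congr rfl h4, ← Finset.sum_filter, Finset.sum_const, nsmul_eq_mul]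
      have h6 : (∑ w ∈ P.grp k x, F w) / #(P.grp k x) =
          P.pr k x a * Real.log (1 / P.pr k x a) := by
        rw [h3]
        unfold Par.pr
        ring
      rw [h6]
      apply ulog_T2A
      unfold Par.pr
      positivity
    calc _ ≤ ∑ x ∈ P.D, (1 : ℝ) := Finset.sum_le_sum h2
      _ = P.n := by simp [Par.n]
  calc ∑ y ∈ P.D, ∑ x ∈ P.D, P.tie k x y ≤ ∑ y ∈ P.D, P.n := Finset.sum_le_sum key
    _ = P.n ^ 2 := by
      rw [Finset.sum_const, nsmul_eq_mul]
      simp only [Par.n]
      ring

end Pool.Agent.Helper97.MX
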