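import Mathlib
import Pool.Agent.Helper97.MX.St

/-!
# MX, module T3A: average cost of the rare levels
-/

set_option autoImplicit false

namespace Pool.Agent.Helper97.MX

open Finset Classical
open scoped Pointwise

private theorem cnt_pos_T3A (P : Par) {x : ℕ} (hx : x ∈ P.D) (M : ℕ) : 1 ≤ P.cnt x M := by
  unfold Par.cnt
  have : x ∈ P.D.filter (fun y => y ≡ x [MOD M]) := mem_filter.2 ⟨hx, Nat.ModEq.refl _⟩
  exact_mod_cast Finset.card_pos.2 ⟨x, this⟩

private theorem cnt_anti_T3A (P : Par) (x M N : ℕ) (h : M ∣ N) : P.cnt x N ≤ P.cnt x M := by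
  unfold Par.cnt
  have : P.D.filter (fun y => y ≡ x [MOD N]) ⊆ P.D.filter (fun y => y ≡ x [MOD M]) := by
    intro y hy
    rw [mem_filter] at hy ⊢
    exact ⟨hy.1, hy.2.of_dvd h⟩
  exact_mod_cast card_le_card this

/-- number of levels below `j` at which `C` drops by the factor `Θ` -/
private noncomputable def rk_T3A (C : ℕ → ℝ) (Θ : ℝ) (j : ℕ) : ℕ :=
  #((range j).filter (fun i => C (i + 1) ≤ C i / Θ))

private theorem rk_log_T3A (C : ℕ → ℝ) (Θ : ℝ) (hΘ : 1 < Θ) (hpos : ∀ j, 1 ≤ C j)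
    (hanti : ∀ j, C (j + 1) ≤ C j) (j : ℕ) :
    (rk_T3A C Θ j : ℝ) * Real.log Θ ≤ Real.log (C 0) - Real.log (C j) := by
  induction j with
  | zero => simp [rk_T3A]
  | succ j ih =>
    have hlog : 0 ≤ Real.log Θ := Real.log_nonneg hΘ.le
    by_cases h : C (j + 1) ≤ C j / Θ
    · have e : rk_T3A C Θ (j + 1) = rk_T3A C Θ j + 1 := by
        unfold rk_T3A
        rw [range_add_one, filter_insert, if_pos h, card_insert_of_notMem (by simp)]
      rw [e]
      push_cast
      have : Real.log (C (j + 1)) ≤ Real.log (C j) - Real.log Θ := by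
        rw [← Real.log_div (by linarith [hpos j]) (by linarith)]
        exact Real.log_le_log (by linarith [hpos (j + 1)]) h
      linarith
    · have e : rk_T3A C Θ (j + 1) = rk_T3A C Θ j := by
        unfold rk_T3A
        rw [range_add_one, filter_insert, if_neg h]
      rw [e]
      have : Real.log (C (j + 1)) ≤ Real.log (C j) :=
        Real.log_le_log (by linarith [hpos (j + 1)]) (hanti j)
      linarith

private theorem rk_lt_T3A (C : ℕ → ℝ) (Θ : ℝ) {i j : ℕ} (hij : i < j)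
    (hi : C (i + 1) ≤ C i / Θ) : rk_T3A C Θ i < rk_T3A C Θ j := by
  unfold rk_T3A
  refine card_lt_card ((ssubset_iff_of_subset ?_).2
    ⟨i, mem_filter.2 ⟨mem_range.2 hij, hi⟩, by simp⟩)
  intro a ha
  rw [mem_filter, mem_range] at ha ⊢
  exact ⟨by omega, ha.2⟩

private theorem geo_T3A (C : ℕ → ℝ) (Θ : ℝ) (J : Finset ℕ)
    (hJ : ∀ j ∈ J, C (j + 1) ≤ C j / Θ) :
    ∑ j ∈ J, (1 / 2 : ℝ) ^ rk_T3A C Θ j ≤ 2 := by
  have hinj : Set.InjOn (rk_T3A C Θ) J := by
    intro i hi j hj h
    rcases lt_trichotomy i j with h1 | h1 | h1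
    · exact absurd h (rk_lt_T3A C Θ h1 (hJ i hi)).ne
    · exact h1
    · exact absurd h.symm (rk_lt_T3A C Θ h1 (hJ j hj)).ne
  rw [← sum_image (f := fun m => (1 / 2 : ℝ) ^ m) hinj]
  calc ∑ m ∈ J.image (rk_T3A C Θ), (1 / 2 : ℝ) ^ m ≤ ∑' m : ℕ, (1 / 2 : ℝ) ^ m :=
        summable_geometric_two.sum_le_tsum _ (fun _ _ => by positivity)
    _ = 2 := tsum_geometric_two

private theorem core_T3A (hMD : StMD) (hPG : StPG) (P : Par) (Θ β : ℝ) (hP : P.Pos)
    (hΘ : 1 < Θ) (hβ : 0 < β) (h2 : 2 ≤ Θ ^ β) (k : ℕ) (hk : k < P.t) (x : ℕ) (hx : x ∈ P.D)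
    (y0 : ℕ) (hy0 : y0 ∈ P.D) :
    ∑ y ∈ P.grp k y0, P.rare Θ k x y ≤
      β * ∑ y ∈ P.grp k y0, P.prog k x y + 2 * (#(P.grp k y0) : ℝ) := by
  set G := P.grp k y0 with hG
  set M := P.mL k x y0 with hM
  set C : ℕ → ℝ := fun j => P.cnt x (M * P.q k ^ j) with hC
  have hCpos : ∀ j, 1 ≤ C j := fun j => cnt_pos_T3A P hx _
  have hCanti : ∀ j, C (j + 1) ≤ C j := fun j =>
    cnt_anti_T3A P x _ _ (by rw [pow_succ, ← mul_assoc]; exact Dvd.intro _ rfl)
  have hmem : ∀ y ∈ G, y ∈ P.D ∧ P.past k y y0 := by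
    intro y hy
    rw [hG] at hy
    unfold Par.grp at hy
    exact mem_filter.1 hy
  have hmL : ∀ y ∈ G, P.mL k x y = M := by
    intro y hy
    rw [hM]
    unfold Par.mL
    refine prod_congr rfl fun i hi => ?_
    rw [(hmem y hy).2 i (mem_range.1 hi)]
  have hgrp : ∀ y ∈ G, P.grp k y = G := by
    intro y hy
    rw [hG]
    unfold Par.grp
    refine filter_congr fun w _ => ?_
    constructor
    · intro h i hi
      rw [h i hi, (hmem y hy).2 i hi]
    · intro h i hi
      rw [h i hi, (hmem y hy).2 i hi]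
  set N : ℕ → ℝ := fun j => (#(G.filter (fun w => P.v k w = j)) : ℝ) with hN
  have hNpos : ∀ y ∈ G, 0 < N (P.v k y) := by
    intro y hy
    have : y ∈ G.filter (fun w => P.v k w = P.v k y) := mem_filter.2 ⟨hy, rfl⟩
    simp only [hN]
    exact_mod_cast card_pos.2 ⟨y, this⟩
  have hRL : ∀ y ∈ G, (P.v k x < P.v k y ∧ ¬ P.zev Θ k (x + y) (P.mL k x y) (P.v k y)) →
      C (P.v k y + 1) ≤ C (P.v k y) / Θ := by
    intro y hy hc
    obtain ⟨h1, h3⟩ := hc
    rw [hmL y hy] at h3
    have hy1 : 0 < y := hP.pos y (hmem y hy).1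
    have hdvd := (hMD P hP).1 k hk x y (P.v k y) hy1 le_rfl
    rw [hmL y hy] at hdvd
    have hmod : x + y ≡ x [MOD M * P.q k ^ P.v k y] := by
      have h4 := Nat.modEq_zero_iff_dvd.2 hdvd
      simpa using (Nat.ModEq.refl x).add h4
    unfold Par.zev at h3
    rw [not_lt] at h3
    have e1 : P.cnt (x + y) (M * P.q k ^ P.v k y) = C (P.v k y) := by
      simp only [hC]
      unfold Par.cnt
      have : P.D.filter (fun w => w ≡ x + y [MOD M * P.q k ^ P.v k y]) =
          P.D.filter (fun w => w ≡ x [MOD M * P.q k ^ P.v k y]) :=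
        filter_congr fun w _ => ⟨fun h => h.trans hmod, fun h => h.trans hmod.symm⟩
      rw [this]
    have e2 : P.cnt (x + y) (M * P.q k ^ (P.v k y + 1)) + C (P.v k y + 1) ≤ C (P.v k y) := by
      simp only [hC]
      unfold Par.cnt
      have hd1 : M * P.q k ^ P.v k y ∣ M * P.q k ^ (P.v k y + 1) := by
        rw [pow_succ, ← mul_assoc]
        exact Dvd.intro _ rfl
      have hdis : Disjoint (P.D.filter (fun w => w ≡ x + y [MOD M * P.q k ^ (P.v k y + 1)]))
          (P.D.filter (fun w => w ≡ x [MOD M * P.q k ^ (P.v k y + 1)])) := by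
        rw [disjoint_left]
        intro w h4 h5
        rw [mem_filter] at h4 h5
        have h6 : x + y ≡ x [MOD M * P.q k ^ (P.v k y + 1)] := h4.2.symm.trans h5.2
        have h7 : x + y ≡ x + 0 [MOD P.q k ^ (P.v k y + 1)] := h6.of_dvd (Dvd.intro_left _ rfl)
        have h8 : P.q k ^ (P.v k y + 1) ∣ y :=
          Nat.modEq_zero_iff_dvd.1 (Nat.ModEq.add_left_cancel' x h7)
        have h9 := ((hP.prime k hk).pow_dvd_iff_le_factorization hy1.ne').1 h8
        have h10 : P.v k y = y.factorization (P.q k) := rfl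
        omega
      have hsub : (P.D.filter (fun w => w ≡ x + y [MOD M * P.q k ^ (P.v k y + 1)])) ∪
          (P.D.filter (fun w => w ≡ x [MOD M * P.q k ^ (P.v k y + 1)])) ⊆
          P.D.filter (fun w => w ≡ x [MOD M * P.q k ^ P.v k y]) := by
        intro w hw
        rw [mem_union, mem_filter, mem_filter] at hw
        rw [mem_filter]
        rcases hw with hw | hw
        · exact ⟨hw.1, (hw.2.of_dvd hd1).trans hmod⟩
        · exact ⟨hw.1, hw.2.of_dvd hd1⟩
      have := card_le_card hsub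
      rw [card_union_of_disjoint hdis] at this
      exact_mod_cast this
    rw [e1] at h3
    have h5 : C (P.v k y + 1) ≤ C (P.v k y) - (1 - 1 / Θ) * C (P.v k y) := by linarith
    refine h5.trans (le_of_eq ?_)
    ring
  have hGpos : (0 : ℝ) < #G := by
    have : y0 ∈ G := by
      rw [hG]
      unfold Par.grp
      exact mem_filter.2 ⟨hy0, fun i _ => rfl⟩
    exact_mod_cast card_pos.2 ⟨y0, this⟩
  have hpt : ∀ y ∈ G, P.rare Θ k x y ≤ β * P.prog k x y +
      (if P.v k x < P.v k y ∧ ¬ P.zev Θ k (x + y) (P.mL k x y) (P.v k y) then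
        #G / N (P.v k y) * (1 / 2 : ℝ) ^ rk_T3A C Θ (P.v k y) else 0) := by
    intro y hy
    have hyD := (hmem y hy).1
    have hpr := (hPG P hP x hx y hyD).1 k
    by_cases hc : P.v k x < P.v k y ∧ ¬ P.zev Θ k (x + y) (P.mL k x y) (P.v k y)
    · rw [if_pos hc]
      unfold Par.rare
      rw [if_pos hc]
      have hNp := hNpos y hy
      have epr : P.pr k y (P.v k y) = N (P.v k y) / #G := by
        unfold Par.pr
        rw [hgrp y hy]
      rw [epr, one_div_div]
      have hu : 0 < (#G : ℝ) / N (P.v k y) := by positivity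
      have hlog : Real.log (#G / N (P.v k y)) ≤
          β * rk_T3A C Θ (P.v k y) * Real.log Θ + #G / N (P.v k y) *
            Real.exp (-(β * rk_T3A C Θ (P.v k y) * Real.log Θ)) := by
        have := Real.log_le_sub_one_of_pos (mul_pos hu
          (Real.exp_pos (-(β * rk_T3A C Θ (P.v k y) * Real.log Θ))))
        rw [Real.log_mul hu.ne' (Real.exp_ne_zero _), Real.log_exp] at this
        linarith
      have hY : β * rk_T3A C Θ (P.v k y) * Real.log Θ ≤ β * P.prog k x y := by
        have h5 := rk_log_T3A C Θ hΘ hCpos hCanti (P.v k y)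
        have h6 : P.prog k x y = Real.log (C 0) - Real.log (C (P.v k y)) := by
          unfold Par.prog
          have h7 : P.mL (k + 1) x y = M * P.q k ^ P.v k y := by
            have : P.mL (k + 1) x y = P.mL k x y *
                (if P.v k x < P.v k y then P.q k ^ P.v k y else 1) := by
              unfold Par.mL
              rw [prod_range_succ]
            rw [this, if_pos hc.1, hmL y hy]
          rw [h7, hmL y hy]
          simp [hC]
        rw [h6, mul_assoc]
        exact mul_le_mul_of_nonneg_left h5 hβ.le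
      have hexp : Real.exp (-(β * rk_T3A C Θ (P.v k y) * Real.log Θ)) ≤
          (1 / 2 : ℝ) ^ rk_T3A C Θ (P.v k y) := by
        have h7 : Real.exp (-(β * rk_T3A C Θ (P.v k y) * Real.log Θ)) =
            ((Θ ^ β)⁻¹) ^ rk_T3A C Θ (P.v k y) := by
          rw [Real.rpow_def_of_pos (by linarith), ← Real.exp_neg, ← Real.exp_nat_mul]
          congr 1
          ring
        rw [h7]
        refine pow_le_pow_left₀ (by positivity) ?_ _
        rw [one_div]
        exact inv_anti₀ (by norm_num) h2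
      have := mul_le_mul_of_nonneg_left hexp hu.le
      linarith
    · rw [if_neg hc]
      unfold Par.rare
      rw [if_neg hc]
      have := mul_nonneg hβ.le hpr
      linarith
  have hsum : ∑ y ∈ G, (if P.v k x < P.v k y ∧
      ¬ P.zev Θ k (x + y) (P.mL k x y) (P.v k y) then
        #G / N (P.v k y) * (1 / 2 : ℝ) ^ rk_T3A C Θ (P.v k y) else 0) ≤ 2 * (#G : ℝ) := by
    rw [← sum_filter]
    set G' := G.filter (fun y => P.v k x < P.v k y ∧
      ¬ P.zev Θ k (x + y) (P.mL k x y) (P.v k y)) with hG'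
    rw [sum_comp (fun j => (#G : ℝ) / N j * (1 / 2 : ℝ) ^ rk_T3A C Θ j) (P.v k)]
    have hJ : ∀ j ∈ G'.image (P.v k), C (j + 1) ≤ C j / Θ := by
      intro j hj
      obtain ⟨y, hy, rfl⟩ := mem_image.1 hj
      rw [hG', mem_filter] at hy
      exact hRL y hy.1 hy.2
    calc ∑ j ∈ G'.image (P.v k), #(G'.filter (fun y => P.v k y = j)) •
          ((#G : ℝ) / N j * (1 / 2 : ℝ) ^ rk_T3A C Θ j)
        ≤ ∑ j ∈ G'.image (P.v k), (#G : ℝ) * (1 / 2 : ℝ) ^ rk_T3A C Θ j := by
          refine sum_le_sum fun j hj => ?_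
          obtain ⟨y, hy, rfl⟩ := mem_image.1 hj
          rw [hG', mem_filter] at hy
          have hNp := hNpos y hy.1
          rw [nsmul_eq_mul]
          have h4 : (#(G'.filter (fun w => P.v k w = P.v k y)) : ℝ) ≤ N (P.v k y) := by
            simp only [hN]
            exact_mod_cast card_le_card (filter_subset_filter _ (filter_subset _ _))
          calc (#(G'.filter (fun w => P.v k w = P.v k y)) : ℝ) *
                ((#G : ℝ) / N (P.v k y) * (1 / 2 : ℝ) ^ rk_T3A C Θ (P.v k y))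
              ≤ N (P.v k y) * ((#G : ℝ) / N (P.v k y) *
                (1 / 2 : ℝ) ^ rk_T3A C Θ (P.v k y)) :=
                mul_le_mul_of_nonneg_right h4 (by positivity)
            _ = (#G : ℝ) * (1 / 2 : ℝ) ^ rk_T3A C Θ (P.v k y) := by
                field_simp
      _ = (#G : ℝ) * ∑ j ∈ G'.image (P.v k), (1 / 2 : ℝ) ^ rk_T3A C Θ j := by
          rw [mul_sum]
      _ ≤ (#G : ℝ) * 2 := mul_le_mul_of_nonneg_left (geo_T3A C Θ _ hJ) hGpos.le
      _ = 2 * (#G : ℝ) := by ring
  calc ∑ y ∈ G, P.rare Θ k x y ≤ ∑ y ∈ G, (β * P.prog k x y +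
        (if P.v k x < P.v k y ∧ ¬ P.zev Θ k (x + y) (P.mL k x y) (P.v k y) then
          #G / N (P.v k y) * (1 / 2 : ℝ) ^ rk_T3A C Θ (P.v k y) else 0)) := sum_le_sum hpt
    _ = β * ∑ y ∈ G, P.prog k x y + ∑ y ∈ G, (if P.v k x < P.v k y ∧
        ¬ P.zev Θ k (x + y) (P.mL k x y) (P.v k y) then
          #G / N (P.v k y) * (1 / 2 : ℝ) ^ rk_T3A C Θ (P.v k y) else 0) := by
        rw [sum_add_distrib, mul_sum]
    _ ≤ _ := by linarith

theorem hT3A (hAVG : StAVG) (hMD : StMD) (hPG : StPG) : StT3A := by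
  intro P Θ β hP hΘ hβ h2 k hk
  have key : ∀ x ∈ P.D, ∑ y ∈ P.D, P.rare Θ k x y ≤
      β * ∑ y ∈ P.D, P.prog k x y + 2 * P.n := by
    intro x hx
    rw [← hAVG P k (fun y => P.rare Θ k x y), ← hAVG P k (fun y => P.prog k x y)]
    calc ∑ y0 ∈ P.D, (∑ y ∈ P.grp k y0, P.rare Θ k x y) / (#(P.grp k y0) : ℝ)
        ≤ ∑ y0 ∈ P.D, (β * ((∑ y ∈ P.grp k y0, P.prog k x y) / (#(P.grp k y0) : ℝ)) + 2) := by
          refine sum_le_sum fun y0 hy0 => ?_
          have h1 := core_T3A hMD hPG P Θ β hP hΘ hβ h2 k hk x hx y0 hy0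
          have hpos : (0 : ℝ) < #(P.grp k y0) := by
            have : y0 ∈ P.grp k y0 := by
              unfold Par.grp
              exact mem_filter.2 ⟨hy0, fun i _ => rfl⟩
            exact_mod_cast card_pos.2 ⟨y0, this⟩
          rw [div_le_iff₀ hpos]
          have e : (β * ((∑ y ∈ P.grp k y0, P.prog k x y) / (#(P.grp k y0) : ℝ)) + 2) *
              (#(P.grp k y0) : ℝ) =
              β * ∑ y ∈ P.grp k y0, P.prog k x y + 2 * (#(P.grp k y0) : ℝ) := by
            field_simp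
          rw [e]
          exact h1
      _ = _ := by
          rw [sum_add_distrib, mul_sum, sum_const, nsmul_eq_mul]
          unfold Par.n
          ring
  calc ∑ x ∈ P.D, ∑ y ∈ P.D, P.rare Θ k x y
      ≤ ∑ x ∈ P.D, (β * ∑ y ∈ P.D, P.prog k x y + 2 * P.n) := sum_le_sum key
    _ = β * (∑ x ∈ P.D, ∑ y ∈ P.D, P.prog k x y) + 2 * P.n ^ 2 := by
        rw [sum_add_distrib, ← mul_sum, sum_const, nsmul_eq_mul]
        unfold Par.n
        ring

end Pool.Agent.Helper97.MX
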