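import Mathlib
import Pool.Agent.Helper97.MX.St
import Pool.Agent.Helper18.Rank

/-!
# Project MX, module THA: few cosets of a group of rank at most `c log |A|`
-/

set_option autoImplicit false

namespace Pool.Agent.Helper97.MX

open Finset Classical
open scoped Pointwise
open Pool.Agent.Helper18.Coset Pool.Agent.Helper18.Rank

private theorem card_image_THA (D : Finset ℕ) (lab : ℕ → ℚ) (c : ℕ → ℤ)
    (h : ∀ x ∈ D, ∀ y ∈ D, lab x = lab y → c x = c y) :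
    #(D.image c) ≤ #(D.image lab) := by
  set F : ℚ → ℤ := fun b => if hb : ∃ x ∈ D, lab x = b then c hb.choose else 0 with hF
  have hc : ∀ x ∈ D, c x = F (lab x) := by
    intro x hx
    have hb : ∃ y ∈ D, lab y = lab x := ⟨x, hx, rfl⟩
    have h1 : F (lab x) = c hb.choose := by
      simp only [hF]
      rw [dif_pos hb]
    rw [h1]
    exact h x hx _ hb.choose_spec.1 hb.choose_spec.2.symm
  have h2 : D.image c = (D.image lab).image F := by
    rw [Finset.image_image]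
    exact Finset.image_congr (fun x hx => hc x hx)
  rw [h2]
  exact Finset.card_image_le

theorem hTHA (hSUMA : StSUMA) (hENU : StENU) (hSGN : StSGN) : StTHA := by
  intro ε η hε hη
  set ε1 : ℝ := min ε 1 with hε1
  set η1 : ℝ := min η 1 with hη1
  have hε10 : 0 < ε1 := lt_min hε one_pos
  have hη10 : 0 < η1 := lt_min hη one_pos
  have hε11 : ε1 ≤ 1 := min_le_right _ _
  have hη11 : η1 ≤ 1 := min_le_right _ _
  obtain ⟨c1, hc1, hsum⟩ := hSUMA ε1 (η1 / 2) hε10 (by linarith)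
  set K0 : ℝ := (2 : ℝ) ^ (2 / η1) with hK0
  have hK04 : 4 ≤ K0 := by
    have h1 : (2 : ℝ) ^ (2 : ℝ) ≤ K0 := by
      apply Real.rpow_le_rpow_of_exponent_le (by norm_num)
      rw [le_div_iff₀ hη10]; linarith
    have h2 : (2 : ℝ) ^ (2 : ℝ) = 4 := by norm_num
    linarith
  set c : ℝ := min (c1 / 4) (1 / (2 * K0) ^ 2) with hc
  have hc0 : 0 < c := lt_min (by linarith) (by positivity)
  have hcc1 : c ≤ c1 / 4 := min_le_left _ _
  have hcK : c ≤ 1 / (2 * K0) ^ 2 := min_le_right _ _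
  refine ⟨c, hc0, fun A hA h0 S hS B hcov hB => ?_⟩
  have hA1 : 1 ≤ #A := hA.card_pos
  have hA1R : (1 : ℝ) ≤ (#A : ℝ) := by exact_mod_cast hA1
  have hA0R : (0 : ℝ) < (#A : ℝ) := by linarith
  obtain ⟨D, s, hs, hD0, hAD, hDA, hsumle, -, hmem⟩ := hSGN A h0
  have hADR : (#A : ℝ) ≤ 2 * (#D : ℝ) := by exact_mod_cast hAD
  have hDAR : (#D : ℝ) ≤ (#A : ℝ) := by exact_mod_cast hDA
  have hsumR : (#(D + D) : ℝ) ≤ (#(A + A) : ℝ) := by exact_mod_cast hsumle
  have hD1 : 1 ≤ #D := by omega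
  have hD1R : (1 : ℝ) ≤ (#D : ℝ) := by exact_mod_cast hD1
  have hD0R : (0 : ℝ) < (#D : ℝ) := by linarith
  have hDne : D.Nonempty := Finset.card_pos.1 hD1
  have hexp : (#A : ℝ) ^ (2 - ε) ≤ (#A : ℝ) ^ (2 - ε1) := by
    apply Real.rpow_le_rpow_of_exponent_le hA1R
    have : ε1 ≤ ε := min_le_left _ _
    linarith
  rcases lt_or_ge (#D : ℝ) K0 with hsmall | hlarge
  · -- small sets
    have h1 : (1 : ℝ) ≤ (#(A + A) : ℝ) := by
      have : 1 ≤ #(A + A) := (hA.add hA).card_pos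
      exact_mod_cast this
    have h2 : (#A : ℝ) ^ (2 - ε1) ≤ (2 * K0) ^ 2 := by
      have h3 : (#A : ℝ) ^ (2 - ε1) ≤ (#A : ℝ) ^ (2 : ℝ) :=
        Real.rpow_le_rpow_of_exponent_le hA1R (by linarith)
      rw [Real.rpow_two] at h3
      have h4 : (#A : ℝ) ^ 2 ≤ (2 * K0) ^ 2 := pow_le_pow_left₀ hA0R.le (by linarith) 2
      linarith
    have h5 : 0 < (2 * K0) ^ 2 := by positivity
    calc c * (#A : ℝ) ^ (2 - ε) ≤ c * (2 * K0) ^ 2 :=
          mul_le_mul_of_nonneg_left (hexp.trans h2) hc0.le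
      _ ≤ 1 / (2 * K0) ^ 2 * (2 * K0) ^ 2 := mul_le_mul_of_nonneg_right hcK h5.le
      _ = 1 := by field_simp
      _ ≤ _ := h1
  -- large sets
  have hD4 : (4 : ℝ) ≤ (#D : ℝ) := hK04.trans hlarge
  have hlogD : 0 < Real.log (#D : ℝ) := Real.log_pos (by linarith)
  have hlogA : Real.log (#A : ℝ) ≤ 2 * Real.log (#D : ℝ) := by
    have h1 : Real.log (#A : ℝ) ≤ Real.log ((#D : ℝ) ^ 2) := by
      apply Real.log_le_log hA0R
      nlinarith
    rw [Real.log_pow] at h1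
    push_cast at h1
    exact h1
  obtain ⟨Q, hQS, hQ, hdet⟩ := exists_det S (le_refl #S)
  -- labels
  have hcov' : ∀ x ∈ D, ∃ b ∈ B, ∃ γ ∈ Subgroup.closure (S : Set ℚˣ),
      (((s * (x : ℤ) : ℤ)) : ℚ) = b * ((γ : ℚˣ) : ℚ) := fun x hx => hcov _ (hmem x hx)
  choose! lab hlabB hlabR using hcov'
  have hx0 : ∀ x ∈ D, (x : ℤ) ≠ 0 := by
    intro x hx h
    have : x = 0 := by exact_mod_cast h
    exact hD0 (this ▸ hx)
  have hs0 : (s : ℚ) ≠ 0 := by
    rcases hs with h | h <;> rw [h] <;> norm_num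
  have hDrel : ∀ x ∈ D, ∀ y ∈ D, lab x = lab y →
      Rel (pos (Subgroup.closure (S : Set ℚˣ))) (x : ℤ) (y : ℤ) := by
    intro x hx y hy hxy
    obtain ⟨γ, hγ, hγx⟩ := hlabR x hx
    obtain ⟨γ', hγ', hγy⟩ := hlabR y hy
    have hx0' : (x : ℚ) ≠ 0 := by exact_mod_cast hx0 x hx
    have hy0' : (y : ℚ) ≠ 0 := by exact_mod_cast hx0 y hy
    push_cast at hγx hγy
    have hb0 : lab y ≠ 0 := by
      intro h
      rw [h, zero_mul] at hγy
      exact (mul_ne_zero hs0 hy0') hγy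
    have hval : ((γ * γ'⁻¹ : ℚˣ) : ℚ) = (x : ℚ) / y := by
      rw [Units.val_mul, Units.val_inv_eq_inv_val]
      have hγ0 : ((γ' : ℚˣ) : ℚ) ≠ 0 := γ'.ne_zero
      rw [← div_eq_mul_inv, div_eq_div_iff hγ0 hy0']
      have h1 : (s : ℚ) * x * (lab y * ((γ' : ℚˣ) : ℚ)) = (s : ℚ) * y * (lab x * ((γ : ℚˣ) : ℚ)) := by
        rw [← hγx, ← hγy]; ring
      rw [hxy] at h1
      have h2 : ((s : ℚ) * lab y) * (((γ : ℚˣ) : ℚ) * y) = ((s : ℚ) * lab y) * (x * ((γ' : ℚˣ) : ℚ)) := by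
        linarith
      exact mul_left_cancel₀ (mul_ne_zero hs0 hb0) h2
    have hxp : (0 : ℚ) < x := lt_of_le_of_ne (Nat.cast_nonneg x) (Ne.symm hx0')
    have hyp : (0 : ℚ) < y := lt_of_le_of_ne (Nat.cast_nonneg y) (Ne.symm hy0')
    refine ⟨γ * γ'⁻¹, mem_pos.2 ⟨Subgroup.mul_mem _ hγ (Subgroup.inv_mem _ hγ'), ?_⟩, ?_⟩
    · rw [hval]; positivity
    · rw [hval]
      push_cast
      field_simp
  set DZ : Finset ℤ := D.image (fun x : ℕ => (x : ℤ)) with hDZ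
  have hDZ0 : ∀ x ∈ DZ, x ≠ 0 := by
    intro x hx
    obtain ⟨y, hy, rfl⟩ := Finset.mem_image.1 hx
    exact hx0 y hy
  have hinDZ : ∀ x ∈ D, (x : ℤ) ∈ DZ := fun x hx => Finset.mem_image_of_mem _ hx
  obtain ⟨cc, hcc0, hccrel, hccH⟩ := exists_rep (pos (Subgroup.closure (S : Set ℚˣ))) Q hQ hdet
    DZ hDZ0
  obtain ⟨q, hqQ, hqinj, hqsurj⟩ := hENU Q
  set P : Par := { D := D, t := #Q, q := q, c := fun x => cc (x : ℤ) } with hP
  have hOK : P.OK :=
    { base :=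
        { ne := hDne
          pos := fun x hx => Nat.pos_of_ne_zero (fun h => hD0 (h ▸ hx))
          prime := fun i hi => hQ _ (hqQ i hi)
          inj := hqinj }
      c0 := fun x hx => hcc0 _ (hinDZ x hx)
      H := by
        intro x hx y hy hxy
        refine hccH _ (hinDZ x hx) _ (hinDZ y hy) (fun p hp => ?_)
        obtain ⟨i, hi, rfl⟩ := hqsurj p hp
        have h1 := hxy i hi
        unfold Par.v at h1
        rw [Nat.factorization_def _ (hQ _ hp), Nat.factorization_def _ (hQ _ hp)] at h1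
        unfold padicValInt
        rw [Int.natAbs_natCast, Int.natAbs_natCast]
        exact h1 }
  have hPn : P.n = (#D : ℝ) := rfl
  have ht : (P.t : ℝ) ≤ c1 * Real.log P.n := by
    have h1 : (P.t : ℝ) ≤ (#S : ℝ) := by
      show ((#Q : ℕ) : ℝ) ≤ (#S : ℝ)
      exact_mod_cast hQS
    rw [hPn]
    have h2 : c * Real.log (#A : ℝ) ≤ c * (2 * Real.log (#D : ℝ)) :=
      mul_le_mul_of_nonneg_left hlogA hc0.le
    have h3 : c * (2 * Real.log (#D : ℝ)) ≤ c1 / 4 * (2 * Real.log (#D : ℝ)) :=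
      mul_le_mul_of_nonneg_right hcc1 (by linarith)
    have h4 : c1 / 4 * (2 * Real.log (#D : ℝ)) ≤ c1 * Real.log (#D : ℝ) := by nlinarith
    linarith
  have himg : (#(P.D.image P.c) : ℝ) ≤ P.n ^ (1 - η1 / 2) := by
    have h1 : #(P.D.image P.c) ≤ #(D.image lab) := by
      apply card_image_THA D lab (fun x => cc (x : ℤ))
      intro x hx y hy hxy
      exact hccrel _ (hinDZ x hx) _ (hinDZ y hy) (hDrel x hx y hy hxy)
    have h2 : #(D.image lab) ≤ #B := by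
      apply Finset.card_le_card
      intro b hb
      obtain ⟨x, hx, rfl⟩ := Finset.mem_image.1 hb
      exact hlabB x hx
    have h3 : (#(P.D.image P.c) : ℝ) ≤ (#B : ℝ) := by exact_mod_cast h1.trans h2
    have h4 : (#A : ℝ) ^ (1 - η) ≤ (#A : ℝ) ^ (1 - η1) := by
      apply Real.rpow_le_rpow_of_exponent_le hA1R
      have : η1 ≤ η := min_le_left _ _
      linarith
    have h5 : (#A : ℝ) ^ (1 - η1) ≤ (2 * (#D : ℝ)) ^ (1 - η1) :=
      Real.rpow_le_rpow hA0R.le hADR (by linarith)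
    have h6 : (2 * (#D : ℝ)) ^ (1 - η1) ≤ (#D : ℝ) ^ (1 - η1 / 2) := by
      rw [Real.mul_rpow (by norm_num) hD0R.le]
      have h7 : (2 : ℝ) ^ (1 - η1) ≤ (#D : ℝ) ^ (η1 / 2) := by
        have h8 : (2 : ℝ) ^ (1 - η1) ≤ (2 : ℝ) ^ (1 : ℝ) :=
          Real.rpow_le_rpow_of_exponent_le (by norm_num) (by linarith)
        have h9 : K0 ^ (η1 / 2) = 2 := by
          rw [hK0, ← Real.rpow_mul (by norm_num)]
          have : 2 / η1 * (η1 / 2) = 1 := by field_simp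
          rw [this, Real.rpow_one]
        have h10 : K0 ^ (η1 / 2) ≤ (#D : ℝ) ^ (η1 / 2) :=
          Real.rpow_le_rpow (by linarith) hlarge (by linarith)
        rw [Real.rpow_one] at h8
        linarith
      calc (2 : ℝ) ^ (1 - η1) * (#D : ℝ) ^ (1 - η1) ≤ (#D : ℝ) ^ (η1 / 2) * (#D : ℝ) ^ (1 - η1) :=
            mul_le_mul_of_nonneg_right h7 (Real.rpow_nonneg hD0R.le _)
        _ = (#D : ℝ) ^ (1 - η1 / 2) := by
            rw [← Real.rpow_add hD0R]; congr 1; ring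
    rw [hPn]
    exact h3.trans (hB.trans (h4.trans (h5.trans h6)))
  have hfin := hsum P hOK ht himg
  rw [hPn] at hfin
  have h11 : (#A : ℝ) ^ (2 - ε1) ≤ 4 * (#D : ℝ) ^ (2 - ε1) := by
    have h12 : (#A : ℝ) ^ (2 - ε1) ≤ (2 * (#D : ℝ)) ^ (2 - ε1) :=
      Real.rpow_le_rpow hA0R.le hADR (by linarith)
    rw [Real.mul_rpow (by norm_num) hD0R.le] at h12
    have h13 : (2 : ℝ) ^ (2 - ε1) ≤ 4 := by
      have h14 : (2 : ℝ) ^ (2 - ε1) ≤ (2 : ℝ) ^ (2 : ℝ) :=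
        Real.rpow_le_rpow_of_exponent_le (by norm_num) (by linarith)
      have h15 : (2 : ℝ) ^ (2 : ℝ) = 4 := by norm_num
      linarith
    exact h12.trans (mul_le_mul_of_nonneg_right h13 (Real.rpow_nonneg hD0R.le _))
  have hDpos : 0 ≤ (#D : ℝ) ^ (2 - ε1) := Real.rpow_nonneg hD0R.le _
  calc c * (#A : ℝ) ^ (2 - ε) ≤ c * (4 * (#D : ℝ) ^ (2 - ε1)) :=
        mul_le_mul_of_nonneg_left (hexp.trans h11) hc0.le
    _ ≤ c1 / 4 * (4 * (#D : ℝ) ^ (2 - ε1)) := mul_le_mul_of_nonneg_right hcc1 (by linarith)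
    _ = c1 * (#D : ℝ) ^ (2 - ε1) := by ring
    _ ≤ (#(D + D) : ℝ) := hfin
    _ ≤ _ := hsumR

end Pool.Agent.Helper97.MX
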