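import Mathlib
import Pool.Agent.Helper97.MX.St

set_option autoImplicit false

namespace Pool.Agent.Helper97.MX

open Finset Classical
open scoped Pointwise

private lemma negone_THC (φ : ℚˣ →* Multiplicative ℤ) : φ (-1) = 1 := by
  have h : φ (-1) * φ (-1) = 1 := by
    rw [← map_mul]; simp
  have h2 : Multiplicative.toAdd (φ (-1)) + Multiplicative.toAdd (φ (-1)) = 0 := by
    rw [← toAdd_mul, h]; rfl
  have h3 : Multiplicative.toAdd (φ (-1)) = 0 := by omega
  exact Multiplicative.toAdd.injective h3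

private lemma unneg_THC (φ : ℚˣ →* Multiplicative ℤ) (x : ℤ) : φ (un (-x)) = φ (un x) := by
  by_cases hx : x = 0
  · subst hx; simp
  · have h1 : un (-x) = -un x := by
      unfold un
      have e1 : ((-x : ℤ) : ℚ) ≠ 0 := by push_cast; simpa using hx
      have e2 : ((x : ℤ) : ℚ) ≠ 0 := by exact_mod_cast hx
      rw [dif_pos e1, dif_pos e2]
      ext; simp
    rw [h1, show -un x = (-1) * un x by simp, map_mul, negone_THC, one_mul]

private lemma uns_THC (φ : ℚˣ →* Multiplicative ℤ) (s : ℤ) (hs : s = 1 ∨ s = -1) (x : ℤ) :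
    φ (un (s * x)) = φ (un x) := by
  rcases hs with rfl | rfl
  · rw [one_mul]
  · rw [neg_one_mul, unneg_THC]

private lemma unval_THC (x : ℕ) (hx : x ≠ 0) : ((un (x : ℤ) : ℚˣ) : ℚ) = x := by
  unfold un
  have e2 : (((x : ℤ)) : ℚ) ≠ 0 := by exact_mod_cast hx
  rw [dif_pos e2]
  simp

/-- Enumeration of the homomorphisms that separate the pairs. -/
private lemma enum_THC (δ : ℝ) (A : Finset ℤ) (S : Finset ℚˣ) (D : Finset ℕ)
    (hS : ∀ u : ℚˣ, (∀ φ : ℚˣ →* Multiplicative ℤ, Frozen δ A φ → φ u = 1) →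
      u ∈ Subgroup.closure (S : Set ℚˣ) ∨ -u ∈ Subgroup.closure (S : Set ℚˣ)) :
    ∃ (m : ℕ) (φ : ℕ → (ℚˣ →* Multiplicative ℤ)), (∀ i < m, Frozen δ A (φ i)) ∧
      ∀ x ∈ D, ∀ y ∈ D, (∀ i < m, φ i (un (x : ℤ)) = φ i (un (y : ℤ))) →
        un (x : ℤ) / un (y : ℤ) ∈ Subgroup.closure (S : Set ℚˣ) ∨
        -(un (x : ℤ) / un (y : ℤ)) ∈ Subgroup.closure (S : Set ℚˣ) := by
  set Bad : Finset (ℕ × ℕ) := (D ×ˢ D).filter (fun p =>
    ¬ (un (p.1 : ℤ) / un (p.2 : ℤ) ∈ Subgroup.closure (S : Set ℚˣ) ∨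
        -(un (p.1 : ℤ) / un (p.2 : ℤ)) ∈ Subgroup.closure (S : Set ℚˣ))) with hBad
  have h1 : ∀ p : ℕ × ℕ, ∃ ψ : ℚˣ →* Multiplicative ℤ, p ∈ Bad →
      Frozen δ A ψ ∧ ψ (un (p.1 : ℤ) / un (p.2 : ℤ)) ≠ 1 := by
    intro p
    by_cases hp : p ∈ Bad
    · have h2 := (Finset.mem_filter.mp hp).2
      have h3 : ¬ (∀ φ : ℚˣ →* Multiplicative ℤ, Frozen δ A φ →
          φ (un (p.1 : ℤ) / un (p.2 : ℤ)) = 1) := fun h => h2 (hS _ h)
      push Not at h3
      obtain ⟨ψ, hψ⟩ := h3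
      exact ⟨ψ, fun _ => hψ⟩
    · exact ⟨1, fun h => absurd h hp⟩
  choose f hf using h1
  refine ⟨Bad.toList.length, fun i => f (Bad.toList.getD i (0, 0)), ?_, ?_⟩
  · intro i hi
    have h2 : Bad.toList.getD i (0, 0) ∈ Bad := by
      rw [List.getD_eq_getElem _ _ hi]
      exact Finset.mem_toList.mp (List.getElem_mem hi)
    exact (hf _ h2).1
  · intro x hx y hy hxy
    by_contra hcon
    have hp : (x, y) ∈ Bad := by
      rw [hBad, Finset.mem_filter]
      exact ⟨Finset.mem_product.mpr ⟨hx, hy⟩, hcon⟩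
    obtain ⟨i, hi, hi2⟩ := List.mem_iff_getElem.mp (Finset.mem_toList.mpr hp)
    have h3 := hxy i hi
    have h4 : Bad.toList.getD i (0, 0) = (x, y) := by
      rw [List.getD_eq_getElem _ _ hi, hi2]
    simp only [h4] at h3
    apply (hf _ hp).2
    simp only [map_div, h3, div_self']

/-- The frequent valuations. -/
private lemma freq_THC (δ : ℝ) (A : Finset ℤ) (D : Finset ℕ) (s : ℤ) (hs : s = 1 ∨ s = -1)
    (hD : ∀ x ∈ D, s * (x : ℤ) ∈ A) (hN : #A ≤ 2 * #D) (hδ : 0 < δ)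
    (φ : ℚˣ →* Multiplicative ℤ) (hφ : Frozen δ A φ) :
    ∃ i : Multiplicative ℤ, (#(D.filter (fun x => φ (un ((x : ℕ) : ℤ)) ≠ i)) : ℝ) ≤
      2 * δ * #D := by
  obtain ⟨i, hi⟩ := hφ
  refine ⟨i, ?_⟩
  have h1 : #(D.filter (fun x => φ (un ((x : ℕ) : ℤ)) ≠ i)) ≤
      #(A.filter (fun a => ¬ φ (un a) = i)) := by
    refine Finset.card_le_card_of_injOn (fun x : ℕ => s * (x : ℤ)) ?_ ?_
    · intro x hx
      have hx' := Finset.mem_filter.mp hx
      refine Finset.mem_coe.mpr (Finset.mem_filter.mpr ⟨hD x hx'.1, ?_⟩)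
      rw [uns_THC φ s hs]
      exact hx'.2
    · intro x _ y _ h
      have hs0 : s ≠ 0 := by rcases hs with rfl | rfl <;> norm_num
      have : (x : ℤ) = y := mul_left_cancel₀ hs0 h
      exact_mod_cast this
  have h2 := Finset.card_filter_add_card_filter_not (s := A) (fun a => φ (un a) = i)
  have h3 : (#(A.filter (fun a => φ (un a) = i)) : ℝ) + #(A.filter (fun a => ¬ φ (un a) = i)) =
      #A := by exact_mod_cast h2
  have h1' : (#(D.filter (fun x => φ (un ((x : ℕ) : ℤ)) ≠ i)) : ℝ) ≤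
      #(A.filter (fun a => ¬ φ (un a) = i)) := by exact_mod_cast h1
  have hN' : (#A : ℝ) ≤ 2 * #D := by exact_mod_cast hN
  nlinarith

private lemma num_THC (η : ℝ) (h0 : 0 < η) (h1 : η ≤ 1) (N n d b : ℝ) (hN1 : (4 / η) ^ 2 ≤ N)
    (hN2 : 2 * (4 / η) ^ (4 / η) ≤ N) (hNn : N ≤ 2 * n) (hd : η / 2 * n ≤ d)
    (hb : b * n ^ (η / 2) ≤ n) :
    Real.log N ≤ 2 * Real.log d ∧ 2 * b ≤ d ^ (1 - η / 4) ∧ η / 4 * N ≤ d := by
  have hK : 4 ≤ 4 / η := by rw [le_div_iff₀ h0]; linarith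
  have hK0 : 0 < 4 / η := by positivity
  have hNpos : 0 < N := lt_of_lt_of_le (by positivity) hN1
  have hnpos : 0 < n := by linarith
  have hd2 : η / 4 * N ≤ d := by
    have : η / 4 * N ≤ η / 2 * n := by nlinarith
    linarith
  have hdpos : 0 < d := lt_of_lt_of_le (by positivity) hd2
  refine ⟨?_, ?_, hd2⟩
  · have h2 : N ≤ d ^ 2 := by
      have h3 : (η / 4 * N) ^ 2 ≤ d ^ 2 := pow_le_pow_left₀ (by positivity) hd2 2
      have h4 : N ≤ (η / 4 * N) ^ 2 := by
        have h5 : (η / 4) ^ 2 * (4 / η) ^ 2 = 1 := by field_simp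
        calc N = (η / 4) ^ 2 * (4 / η) ^ 2 * N := by rw [h5, one_mul]
          _ ≤ (η / 4) ^ 2 * N * N := by
              rw [mul_assoc, mul_assoc]
              exact mul_le_mul_of_nonneg_left (mul_le_mul_of_nonneg_right hN1 hNpos.le)
                (by positivity)
          _ = (η / 4 * N) ^ 2 := by ring
      linarith
    calc Real.log N ≤ Real.log (d ^ 2) := Real.log_le_log hNpos h2
      _ = 2 * Real.log d := by rw [Real.log_pow]; norm_num
  · have hn4 : (4 / η) ^ (4 / η) ≤ n := by linarith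
    have h2 : 4 / η ≤ n ^ (η / 4) := by
      have h3 : ((4 / η) ^ (4 / η)) ^ (η / 4) ≤ n ^ (η / 4) :=
        Real.rpow_le_rpow (by positivity) hn4 (by positivity)
      rw [← Real.rpow_mul hK0.le, show 4 / η * (η / 4) = 1 by field_simp, Real.rpow_one] at h3
      exact h3
    have hb2 : b ≤ n ^ (1 - η / 2) := by
      rw [Real.rpow_sub hnpos, Real.rpow_one, le_div_iff₀ (Real.rpow_pos_of_pos hnpos _)]
      exact hb
    have h4 : (η / 2) * n ^ (1 - η / 4) ≤ d ^ (1 - η / 4) := by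
      have h5 : (η / 2 * n) ^ (1 - η / 4) ≤ d ^ (1 - η / 4) :=
        Real.rpow_le_rpow (by positivity) hd (by linarith)
      rw [Real.mul_rpow (by positivity) hnpos.le] at h5
      have h6 : η / 2 ≤ (η / 2) ^ (1 - η / 4) := by
        calc η / 2 = (η / 2) ^ (1 : ℝ) := (Real.rpow_one _).symm
          _ ≤ (η / 2) ^ (1 - η / 4) :=
            Real.rpow_le_rpow_of_exponent_ge (by positivity) (by linarith) (by linarith)
      calc η / 2 * n ^ (1 - η / 4) ≤ (η / 2) ^ (1 - η / 4) * n ^ (1 - η / 4) :=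
            mul_le_mul_of_nonneg_right h6 (by positivity)
        _ ≤ _ := h5
    have h7 : n ^ (1 - η / 4) = n ^ (1 - η / 2) * n ^ (η / 4) := by
      rw [← Real.rpow_add hnpos]; congr 1; ring
    have h8 : 2 * n ^ (1 - η / 2) ≤ η / 2 * n ^ (1 - η / 4) := by
      rw [h7]
      have h9 : 2 ≤ η / 2 * n ^ (η / 4) := by
        calc (2 : ℝ) = η / 2 * (4 / η) := by field_simp; norm_num
          _ ≤ _ := mul_le_mul_of_nonneg_left h2 (by positivity)
      have h10 : 0 ≤ n ^ (1 - η / 2) := by positivity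
      nlinarith
    linarith

private lemma core_THC (hTHA : StTHA) (hPRD : StPRD) (hCPE : StCPE) (hLRG : StLRG)
    (hSGN : StSGN) (hEMB : StEMB) (ε : ℝ) (hε : 0 < ε) (hε1 : ε ≤ 1) :
    ∃ δ c : ℝ, 0 < δ ∧ δ < 1 ∧ 0 < c ∧ ∀ (A : Finset ℤ), A.Nonempty →
    (0 : ℤ) ∉ A → ∀ (S : Finset ℚˣ), (#S : ℝ) ≤ c * Real.log #A →
    (∀ u : ℚˣ, (∀ φ : ℚˣ →* Multiplicative ℤ, Frozen δ A φ → φ u = 1) →
      u ∈ Subgroup.closure (S : Set ℚˣ) ∨ -u ∈ Subgroup.closure (S : Set ℚˣ)) →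
    c * (#A : ℝ) ^ (2 - ε / 2) ≤ max (#(A + A) : ℝ) (#(A * A) : ℝ) := by
  set η : ℝ := ε / 8 with hη
  have hη0 : 0 < η := by positivity
  have hη1 : η ≤ 1 := by rw [hη]; linarith
  obtain ⟨τ, t0, δ1, hτ0, hτ1, ht0, ht1, hδ0, hδ1, hCp⟩ := hCPE (ε / 4) (by positivity)
  obtain ⟨c1, hc1, hA1⟩ := hTHA (ε / 2) (η / 4) (by positivity) (by positivity)
  set K : ℝ := (4 / η) ^ 2 + 2 * (4 / η) ^ (4 / η) with hK
  have hKpos : 0 < K := by positivity
  have hK2 : 2 < (4 / η) ^ 2 := by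
    have : 4 ≤ 4 / η := by rw [le_div_iff₀ hη0]; linarith
    nlinarith
  set c : ℝ := min (1 / 4) (min (c1 / 2) (min (c1 * (η / 4) ^ 2) (1 / K ^ 2))) with hc
  have hcpos : 0 < c := by positivity
  have hc_a : c ≤ 1 / 4 := min_le_left _ _
  have hc_b : c ≤ c1 / 2 := (min_le_right _ _).trans (min_le_left _ _)
  have hc_c : c ≤ c1 * (η / 4) ^ 2 :=
    (min_le_right _ _).trans ((min_le_right _ _).trans (min_le_left _ _))
  have hc_d : c ≤ 1 / K ^ 2 :=
    (min_le_right _ _).trans ((min_le_right _ _).trans (min_le_right _ _))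
  refine ⟨δ1 / 2, c, by positivity, by linarith, hcpos, ?_⟩
  intro A hA hA0 S hS hcl
  have hN1 : (1 : ℝ) ≤ #A := by exact_mod_cast hA.card_pos
  have hNpos : (0 : ℝ) < #A := by linarith
  by_cases hsmall : (#A : ℝ) < K
  · have h1 : (#A : ℝ) ^ (2 - ε / 2) ≤ (#A : ℝ) ^ (2 : ℝ) :=
      Real.rpow_le_rpow_of_exponent_le hN1 (by linarith)
    have h2 : (#A : ℝ) ^ (2 : ℝ) ≤ K ^ 2 := by
      rw [Real.rpow_two]; exact pow_le_pow_left₀ hNpos.le hsmall.le 2
    have h3 : c * (#A : ℝ) ^ (2 - ε / 2) ≤ 1 := by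
      calc c * (#A : ℝ) ^ (2 - ε / 2) ≤ 1 / K ^ 2 * K ^ 2 :=
            mul_le_mul hc_d (h1.trans h2) (by positivity) (by positivity)
        _ = 1 := by field_simp
    have h4 : (1 : ℝ) ≤ #(A + A) := by
      have : (A + A).Nonempty := hA.add hA
      exact_mod_cast this.card_pos
    exact h3.trans (h4.trans (le_max_left _ _))
  push Not at hsmall
  obtain ⟨D, s, hs, hD0, hND, hDN, hadd, hmul, hDA⟩ := hSGN A hA0
  obtain ⟨m, φ, hφ, hsep⟩ := enum_THC (δ1 / 2) A S D hcl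
  obtain ⟨q, N', g, hq, hqi, hginj, hgpos, hgval, hgmul⟩ := hEMB D m φ hD0
  have hnR : (#A : ℝ) ≤ 2 * #D := by exact_mod_cast hND
  have hDNR : (#D : ℝ) ≤ #A := by exact_mod_cast hDN
  have hKn : (4 / η) ^ 2 ≤ (#A : ℝ) := by
    have : 0 ≤ 2 * (4 / η) ^ (4 / η) := by positivity
    linarith
  have hKn2 : 2 * (4 / η) ^ (4 / η) ≤ (#A : ℝ) := by
    have : 0 ≤ (4 / η) ^ 2 := by positivity
    linarith
  have hn1 : (1 : ℝ) < #D := by linarith
  have hnpos : (0 : ℝ) < #D := by linarith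
  set P : Par := { D := D.image g, t := m, q := q, c := fun _ => 0 } with hP
  have hPn : P.n = #D := by
    unfold Par.n
    rw [hP]
    simp only
    rw [Finset.card_image_of_injOn]
    intro x hx y hy h
    exact hginj x hx y hy h
  have hPpos : P.Pos := by
    refine ⟨?_, ?_, hq, hqi⟩
    · have : D.Nonempty := by
        rw [← Finset.card_pos]
        exact_mod_cast hnpos
      exact this.image g
    · intro y hy
      obtain ⟨x, hx, rfl⟩ := Finset.mem_image.mp hy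
      exact hgpos x hx
  have hpast : ∀ x ∈ D, ∀ y ∈ D, P.past m (g x) (g y) →
      ∀ i < m, φ i (un ((x : ℕ) : ℤ)) = φ i (un ((y : ℕ) : ℤ)) := by
    intro x hx y hy h i hi
    have h1 : (g x).factorization (q i) = (g y).factorization (q i) := h i hi
    have h2 := hgval x hx i hi
    have h3 := hgval y hy i hi
    rw [h1, h3] at h2
    have h4 : Multiplicative.toAdd (φ i (un ((y : ℕ) : ℤ))) =
        Multiplicative.toAdd (φ i (un ((x : ℕ) : ℤ))) := by linarith
    exact (Multiplicative.toAdd.injective h4).symm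
  have hfreq : ∀ k : ℕ, ∃ a : ℕ, k < m →
      (#(P.D.filter (fun x => P.v k x ≠ a)) : ℝ) ≤ δ1 * P.n := by
    intro k
    by_cases hk : k < m
    · obtain ⟨i, hi⟩ := freq_THC (δ1 / 2) A D s hs hDA hND (by positivity) (φ k) (hφ k hk)
      refine ⟨(Multiplicative.toAdd i + N').toNat, fun _ => ?_⟩
      have h1 : P.D.filter (fun x => P.v k x ≠ (Multiplicative.toAdd i + N').toNat) ⊆
          (D.filter (fun x => φ k (un ((x : ℕ) : ℤ)) ≠ i)).image g := by
        intro y hy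
        have hy' := Finset.mem_filter.mp hy
        obtain ⟨x, hx, rfl⟩ := Finset.mem_image.mp hy'.1
        refine Finset.mem_image.mpr ⟨x, Finset.mem_filter.mpr ⟨hx, ?_⟩, rfl⟩
        intro hcon
        apply hy'.2
        have h2 := hgval x hx k hk
        rw [hcon] at h2
        have h3 : (P.v k (g x) : ℤ) = Multiplicative.toAdd i + N' := h2
        rw [← h3]
        simp
      have h2 : #(P.D.filter (fun x => P.v k x ≠ (Multiplicative.toAdd i + N').toNat)) ≤
          #(D.filter (fun x => φ k (un ((x : ℕ) : ℤ)) ≠ i)) :=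
        (Finset.card_le_card h1).trans Finset.card_image_le
      have h3 : (#(P.D.filter (fun x => P.v k x ≠ (Multiplicative.toAdd i + N').toNat)) : ℝ) ≤
          #(D.filter (fun x => φ k (un ((x : ℕ) : ℤ)) ≠ i)) := by exact_mod_cast h2
      rw [hPn]
      linarith
    · exact ⟨0, fun h => absurd h hk⟩
  choose a ha using hfreq
  have hprd := hPRD P τ t0 δ1 a hPpos hτ0 hτ1 ht0 ht1 hδ0.le (fun k hk => ha k hk)
  have hlog : 0 < Real.log P.n := Real.log_pos (by rw [hPn]; exact hn1)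
  have hPnpos : 0 < P.n := by rw [hPn]; exact hnpos
  by_cases hcase : ∑ x ∈ P.D, Real.log #(P.grp P.t x) ≤ η * P.n * Real.log P.n
  · -- product case
    have h1 : 2 / P.n * ∑ x ∈ P.D, Real.log #(P.grp P.t x) ≤ 2 * η * Real.log P.n := by
      calc 2 / P.n * ∑ x ∈ P.D, Real.log #(P.grp P.t x)
          ≤ 2 / P.n * (η * P.n * Real.log P.n) :=
            mul_le_mul_of_nonneg_left hcase (by positivity)
        _ = 2 * η * Real.log P.n := by field_simp
    have h2 : Par.Cp τ t0 δ1 * Real.log P.n ≤ ε / 4 * Real.log P.n :=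
      mul_le_mul_of_nonneg_right hCp hlog.le
    have h3 : P.n ^ (2 - ε / 2) ≤ P.n ^ 2 * Real.exp (-(Par.Cp τ t0 δ1 * Real.log P.n +
        2 / P.n * ∑ x ∈ P.D, Real.log #(P.grp P.t x))) := by
      have h4 : P.n ^ (2 - ε / 2) = P.n ^ 2 * Real.exp (-(ε / 2 * Real.log P.n)) := by
        rw [Real.rpow_sub hPnpos, Real.rpow_two, Real.exp_neg, div_eq_mul_inv,
          Real.rpow_def_of_pos hPnpos, mul_comm (Real.log P.n)]
      rw [h4]
      refine mul_le_mul_of_nonneg_left (Real.exp_le_exp.mpr ?_) (by positivity)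
      have : 2 * η = ε / 4 := by rw [hη]; ring
      nlinarith
    have h5 : (#(P.D * P.D) : ℝ) ≤ #(A * A) := by
      have : #(P.D * P.D) ≤ #(A * A) := hgmul.trans hmul
      exact_mod_cast this
    have h6 : P.n ^ (2 - ε / 2) ≤ (#(A * A) : ℝ) := h3.trans (hprd.trans h5)
    have h7 : (1 / 4) * (#A : ℝ) ^ (2 - ε / 2) ≤ P.n ^ (2 - ε / 2) := by
      have h8 : ((#A : ℝ) / 2) ^ (2 - ε / 2) ≤ P.n ^ (2 - ε / 2) := by
        rw [hPn]
        exact Real.rpow_le_rpow (by positivity) (by linarith) (by linarith)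
      rw [Real.div_rpow (by positivity) (by norm_num)] at h8
      have h9 : (2 : ℝ) ^ (2 - ε / 2) ≤ 4 := by
        calc (2 : ℝ) ^ (2 - ε / 2) ≤ (2 : ℝ) ^ (2 : ℝ) :=
              Real.rpow_le_rpow_of_exponent_le (by norm_num) (by linarith)
          _ = 4 := by norm_num
      have h10 : (1 / 4) * (#A : ℝ) ^ (2 - ε / 2) ≤
          (#A : ℝ) ^ (2 - ε / 2) / (2 : ℝ) ^ (2 - ε / 2) := by
        rw [le_div_iff₀ (by positivity)]
        have h11 : 0 ≤ (#A : ℝ) ^ (2 - ε / 2) := by positivity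
        nlinarith
      exact h10.trans h8
    calc c * (#A : ℝ) ^ (2 - ε / 2) ≤ (1 / 4) * (#A : ℝ) ^ (2 - ε / 2) :=
          mul_le_mul_of_nonneg_right hc_a (by positivity)
      _ ≤ (#(A * A) : ℝ) := h7.trans h6
      _ ≤ _ := le_max_right _ _
  · -- sum case
    push Not at hcase
    set h : ℕ → ℕ := fun y => sInf {x : ℕ | x ∈ D ∧ P.past m (g x) y} with hh
    have hhpast : ∀ x ∈ P.D, ∀ y ∈ P.D, P.past P.t x y → h x = h y := by
      intro x _ y _ hxy
      rw [hh]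
      simp only
      congr 1
      ext w
      constructor
      · rintro ⟨h1, h2⟩; exact ⟨h1, fun i hi => (h2 i hi).trans (hxy i hi)⟩
      · rintro ⟨h1, h2⟩; exact ⟨h1, fun i hi => (h2 i hi).trans (hxy i hi).symm⟩
    have hhmem : ∀ x ∈ D, h (g x) ∈ D ∧ P.past m (g (h (g x))) (g x) := by
      intro x hx
      have h1 : (({w : ℕ | w ∈ D ∧ P.past m (g w) (g x)}) : Set ℕ).Nonempty :=
        ⟨x, hx, fun i _ => rfl⟩
      exact Nat.sInf_mem h1
    obtain ⟨hL1, hL2⟩ := hLRG P η h (by rw [hPn]; exact hn1) hη0 hη1 hhpast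
    have hL1' := hL1 hcase
    set E : Finset ℕ := P.D.filter (fun x => P.n ^ (η / 2) ≤ (#(P.grp P.t x) : ℝ)) with hE
    set D2 : Finset ℕ := D.filter (fun x => g x ∈ E) with hD2
    have hcardE : #E = #D2 := by
      have h1 : E = D2.image g := by
        ext y
        constructor
        · intro hy
          obtain ⟨x, hx, rfl⟩ := Finset.mem_image.mp (Finset.mem_filter.mp hy).1
          exact Finset.mem_image.mpr ⟨x, Finset.mem_filter.mpr ⟨hx, hy⟩, rfl⟩
        · intro hy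
          obtain ⟨x, hx, rfl⟩ := Finset.mem_image.mp hy
          exact (Finset.mem_filter.mp hx).2
      rw [h1, Finset.card_image_of_injOn]
      intro x hx y hy hxy
      exact hginj x (Finset.mem_filter.mp hx).1 y (Finset.mem_filter.mp hy).1 hxy
    set A2 : Finset ℤ := D2.image (fun x : ℕ => (x : ℤ)) with hA2
    have hcardA2 : #A2 = #D2 := by
      rw [hA2, Finset.card_image_of_injective _ Nat.cast_injective]
    have hd : η / 2 * (#D : ℝ) ≤ (#D2 : ℝ) := by
      rw [← hPn]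
      have : (#E : ℝ) = #D2 := by exact_mod_cast hcardE
      rw [← this]
      exact hL1'
    have hb : (#(E.image h) : ℝ) * (#D : ℝ) ^ (η / 2) ≤ #D := by
      have := hL2
      rw [hPn] at this
      exact this
    obtain ⟨hn_a, hn_b, hn_c⟩ := num_THC η hη0 hη1 (#A : ℝ) (#D : ℝ) (#D2 : ℝ)
      (#(E.image h) : ℝ) hKn hKn2 hnR hd hb
    have hD2pos : (0 : ℝ) < #D2 := lt_of_lt_of_le (by positivity) hd
    have hA2ne : A2.Nonempty := by
      rw [← Finset.card_pos, hcardA2]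
      exact_mod_cast hD2pos
    have hA20 : (0 : ℤ) ∉ A2 := by
      intro h0
      obtain ⟨x, hx, hx0⟩ := Finset.mem_image.mp h0
      have : x = 0 := by exact_mod_cast hx0
      subst this
      exact hD0 (Finset.mem_filter.mp hx).1
    have hSc : (#S : ℝ) ≤ c1 * Real.log #A2 := by
      rw [hcardA2]
      have h1 : 0 ≤ Real.log (#A : ℝ) := Real.log_nonneg hN1
      calc (#S : ℝ) ≤ c * Real.log #A := hS
        _ ≤ c1 / 2 * Real.log #A := mul_le_mul_of_nonneg_right hc_b h1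
        _ ≤ c1 / 2 * (2 * Real.log #D2) := mul_le_mul_of_nonneg_left hn_a (by positivity)
        _ = c1 * Real.log #D2 := by ring
    set B : Finset ℚ := (E.image h).image (fun b : ℕ => (b : ℚ)) ∪
      (E.image h).image (fun b : ℕ => -(b : ℚ)) with hB
    have hcardB : (#B : ℝ) ≤ (#A2 : ℝ) ^ (1 - η / 4) := by
      have h1 : #B ≤ #(E.image h) + #(E.image h) :=
        (Finset.card_union_le _ _).trans (Nat.add_le_add Finset.card_image_le
          Finset.card_image_le)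
      have h2 : (#B : ℝ) ≤ #(E.image h) + #(E.image h) := by exact_mod_cast h1
      rw [hcardA2]
      linarith
    have hcover : ∀ a ∈ A2, ∃ b ∈ B, ∃ γ ∈ Subgroup.closure (S : Set ℚˣ),
        (a : ℚ) = b * ((γ : ℚˣ) : ℚ) := by
      intro a ha
      obtain ⟨x, hx, rfl⟩ := Finset.mem_image.mp ha
      have hxD := (Finset.mem_filter.mp hx).1
      have hxE := (Finset.mem_filter.mp hx).2
      obtain ⟨hb1, hb2⟩ := hhmem x hxD
      have hb0 : h (g x) ≠ 0 := fun h0 => hD0 (h0 ▸ hb1)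
      have hx0 : x ≠ 0 := fun h0 => hD0 (h0 ▸ hxD)
      have hmemE : h (g x) ∈ E.image h := Finset.mem_image.mpr ⟨g x, hxE, rfl⟩
      have hφeq : ∀ i < m, φ i (un ((x : ℕ) : ℤ)) = φ i (un ((h (g x) : ℕ) : ℤ)) :=
        fun i hi => (hpast _ hb1 x hxD hb2 i hi).symm
      have hbq : ((h (g x) : ℕ) : ℚ) ≠ 0 := by exact_mod_cast hb0
      rcases hsep x hxD _ hb1 hφeq with h1 | h1
      · refine ⟨(h (g x) : ℚ), ?_, _, h1, ?_⟩
        · rw [hB]
          exact Finset.mem_union_left _ (Finset.mem_image.mpr ⟨_, hmemE, rfl⟩)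
        · rw [Units.val_div_eq_div_val, unval_THC x hx0, unval_THC _ hb0]
          push_cast
          field_simp
      · refine ⟨-(h (g x) : ℚ), ?_, _, h1, ?_⟩
        · rw [hB]
          exact Finset.mem_union_right _ (Finset.mem_image.mpr ⟨_, hmemE, rfl⟩)
        · rw [Units.val_neg, Units.val_div_eq_div_val, unval_THC x hx0, unval_THC _ hb0]
          push_cast
          field_simp
    have hfin := hA1 A2 hA2ne hA20 S hSc B hcover hcardB
    have hsum : #(A2 + A2) ≤ #(A + A) := by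
      have h1 : A2 + A2 ⊆ (D + D).image (fun x : ℕ => (x : ℤ)) := by
        intro w hw
        obtain ⟨u, hu, v, hv, rfl⟩ := Finset.mem_add.mp hw
        obtain ⟨x, hx, rfl⟩ := Finset.mem_image.mp hu
        obtain ⟨y, hy, rfl⟩ := Finset.mem_image.mp hv
        refine Finset.mem_image.mpr ⟨x + y, Finset.add_mem_add (Finset.mem_filter.mp hx).1
          (Finset.mem_filter.mp hy).1, ?_⟩
        push_cast; rfl
      exact ((Finset.card_le_card h1).trans Finset.card_image_le).trans hadd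
    have hsumR : (#(A2 + A2) : ℝ) ≤ #(A + A) := by exact_mod_cast hsum
    have h8 : (η / 4) ^ 2 * (#A : ℝ) ^ (2 - ε / 2) ≤ (#A2 : ℝ) ^ (2 - ε / 2) := by
      rw [hcardA2]
      have h9 : (η / 4 * (#A : ℝ)) ^ (2 - ε / 2) ≤ (#D2 : ℝ) ^ (2 - ε / 2) :=
        Real.rpow_le_rpow (by positivity) hn_c (by linarith)
      rw [Real.mul_rpow (by positivity) hNpos.le] at h9
      have h10 : (η / 4) ^ 2 ≤ (η / 4) ^ (2 - ε / 2) := by
        rw [← Real.rpow_two]
        exact Real.rpow_le_rpow_of_exponent_ge (by positivity) (by linarith) (by linarith)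
      calc (η / 4) ^ 2 * (#A : ℝ) ^ (2 - ε / 2) ≤
            (η / 4) ^ (2 - ε / 2) * (#A : ℝ) ^ (2 - ε / 2) :=
            mul_le_mul_of_nonneg_right h10 (by positivity)
        _ ≤ _ := h9
    calc c * (#A : ℝ) ^ (2 - ε / 2) ≤ c1 * (η / 4) ^ 2 * (#A : ℝ) ^ (2 - ε / 2) :=
          mul_le_mul_of_nonneg_right hc_c (by positivity)
      _ = c1 * ((η / 4) ^ 2 * (#A : ℝ) ^ (2 - ε / 2)) := by ring
      _ ≤ c1 * (#A2 : ℝ) ^ (2 - ε / 2) := mul_le_mul_of_nonneg_left h8 hc1.le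
      _ ≤ #(A2 + A2) := hfin
      _ ≤ #(A + A) := hsumR
      _ ≤ _ := le_max_left _ _

theorem hTHC (hTHA : StTHA) (hPRD : StPRD) (hCPE : StCPE) (hLRG : StLRG)
    (hSGN : StSGN) (hEMB : StEMB) : StTHC := by
  intro ε hε
  obtain ⟨δ, c, hδ0, hδ1, hc, hH⟩ := core_THC hTHA hPRD hCPE hLRG hSGN hEMB (min ε 1)
    (by positivity) (min_le_right _ _)
  refine ⟨δ, c, hδ0, hδ1, hc, ?_⟩
  intro A hA hA0 S hS hcl
  have h1 := hH A hA hA0 S hS hcl
  have hN1 : (1 : ℝ) ≤ #A := by exact_mod_cast hA.card_pos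
  refine le_trans (mul_le_mul_of_nonneg_left ?_ hc.le) h1
  refine Real.rpow_le_rpow_of_exponent_le hN1 ?_
  have : min ε 1 ≤ ε := min_le_left _ _
  linarith

end Pool.Agent.Helper97.MX
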