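import Mathlib
import Pool.Agent.Helper97.MX.St

/-! Project MX (MP_cc0731_co), module VZ: valuations of a sum. -/

set_option autoImplicit false

namespace Pool.Agent.Helper97.MX

open Finset Classical
open scoped Pointwise

theorem hVZ : StVZ := by
  intro P hP k hk x y hx hy hlt
  have hq : (P.q k).Prime := hP.prime k hk
  unfold Par.v at *
  set a := x.factorization (P.q k) with ha
  have hxy : x + y ≠ 0 := by omega
  have h1 : P.q k ^ a ∣ x := Nat.ordProj_dvd x (P.q k)
  have h2 : P.q k ^ (a + 1) ∣ y :=
    (pow_dvd_pow _ hlt).trans (Nat.ordProj_dvd y (P.q k))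
  have h3 : ¬ P.q k ^ (a + 1) ∣ x := by
    intro h
    have := (hq.pow_dvd_iff_le_factorization hx.ne').1 h
    omega
  apply le_antisymm
  · by_contra hcon
    push Not at hcon
    have h4 : P.q k ^ (a + 1) ∣ x + y :=
      (hq.pow_dvd_iff_le_factorization hxy).2 hcon
    exact h3 ((Nat.dvd_add_left h2).1 h4)
  · apply (hq.pow_dvd_iff_le_factorization hxy).1
    exact dvd_add h1 ((pow_dvd_pow _ (Nat.le_succ a)).trans h2)

end Pool.Agent.Helper97.MX
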