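import Mathlib
import Pool.Agent.Helper97.MX.St

set_option autoImplicit false

namespace Pool.Agent.Helper97.MX

open Finset Classical
open scoped Pointwise

private theorem lev_mono_W1 {a a' : ℕ} (e w : ℕ) (h : a ≤ a') : Par.lev a e w ≤ Par.lev a' e w := by
  unfold Par.lev
  split_ifs <;> omega

private theorem Md_dvd_W1 (P : Par) (k : ℕ) (ℓ : List ℕ) (x : ℕ) :
    P.Md ℓ x ∣ P.Md (k :: ℓ) x := by
  unfold Par.Md
  refine Finset.prod_dvd_prod_of_dvd _ _ (fun i _ => ?_)
  refine pow_dvd_pow _ (lev_mono_W1 _ _ ?_)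
  exact List.count_le_count_cons

private theorem Md_nil_W1 (P : Par) (x : ℕ) : P.Md [] x = 1 := by
  unfold Par.Md
  refine Finset.prod_eq_one (fun i _ => ?_)
  simp [Par.lev]

theorem hW1 : StW1 := by
  intro P x hx ℓ
  refine ⟨?_, ?_, ?_, ?_⟩
  · unfold Par.W
    have h1 : 0 < #(P.D.filter (fun y => P.c y ≡ P.c x [ZMOD (P.Md ℓ x : ℤ)])) := by
      refine Finset.card_pos.2 ⟨x, ?_⟩
      rw [Finset.mem_filter]
      exact ⟨hx, Int.ModEq.refl _⟩
    exact_mod_cast h1
  · unfold Par.W Par.n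
    exact_mod_cast Finset.card_filter_le _ _
  · unfold Par.W Par.n
    rw [Md_nil_W1]
    have h : P.D.filter (fun y => P.c y ≡ P.c x [ZMOD ((1 : ℕ) : ℤ)]) = P.D := by
      refine Finset.filter_true_of_mem (fun y _ => ?_)
      have := Int.modEq_one (a := P.c y) (b := P.c x)
      simpa using this
    rw [h]
  · intro k
    unfold Par.W
    have h : P.D.filter (fun y => P.c y ≡ P.c x [ZMOD (P.Md (k :: ℓ) x : ℤ)]) ⊆
        P.D.filter (fun y => P.c y ≡ P.c x [ZMOD (P.Md ℓ x : ℤ)]) := by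
      intro y hy
      rw [Finset.mem_filter] at hy ⊢
      refine ⟨hy.1, hy.2.of_dvd ?_⟩
      exact_mod_cast Md_dvd_W1 P k ℓ x
    exact_mod_cast Finset.card_le_card h

end Pool.Agent.Helper97.MX
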