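import Mathlib
import Pool.Agent.Helper97.MX.St

set_option autoImplicit false

namespace Pool.Agent.Helper97.MX

open Finset Classical
open scoped Pointwise

theorem vc_eq_W2 (P : Par) (hP : P.OK) (x y : ℕ) (hx : x ∈ P.D) (hy : y ∈ P.D)
    (hpast : P.past P.t x y) (i : ℕ) (hi : i < P.t) : P.vc i x = P.vc i y := by
  have hx0 : x ≠ 0 := (hP.base.pos x hx).ne'
  have hy0 : y ≠ 0 := (hP.base.pos y hy).ne'
  have hcx : (P.c x).natAbs ≠ 0 := Int.natAbs_ne_zero.mpr (hP.c0 x hx)
  have hcy : (P.c y).natAbs ≠ 0 := Int.natAbs_ne_zero.mpr (hP.c0 y hy)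
  have h := hP.H x hx y hy (fun i hi => hpast i hi)
  have h1 : x * (P.c y).natAbs = y * (P.c x).natAbs := by
    have := congrArg Int.natAbs h
    rwa [Int.natAbs_mul, Int.natAbs_mul, Int.natAbs_natCast, Int.natAbs_natCast] at this
  have h2 := congrArg (fun m => m.factorization (P.q i)) h1
  simp only [Nat.factorization_mul hx0 hcy, Nat.factorization_mul hy0 hcx,
    Finsupp.add_apply] at h2
  have h3 : x.factorization (P.q i) = y.factorization (P.q i) := hpast i hi
  unfold Par.vc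
  omega

theorem Md_eq_W2 (P : Par) (hP : P.OK) (ℓ : List ℕ) (x y : ℕ) (hx : x ∈ P.D) (hy : y ∈ P.D)
    (hpast : P.past P.t x y) : P.Md ℓ x = P.Md ℓ y := by
  unfold Par.Md
  refine Finset.prod_congr rfl (fun i hi => ?_)
  have hi' : i < P.t := Finset.mem_range.mp hi
  rw [vc_eq_W2 P hP x y hx hy hpast i hi', show P.v i x = P.v i y from hpast i hi']

theorem hW2 (hCNG : StCNG) : StW2 := by
  intro P hP ℓ x hx y hy hpast hxy
  have hM := Md_eq_W2 P hP ℓ x y hx hy hpast
  have hc := (hCNG P hP ℓ x hx y hy hpast).mp hxy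
  unfold Par.W
  rw [← hM]
  congr 2
  refine Finset.filter_congr (fun w _ => ?_)
  exact ⟨fun h => h.trans hc, fun h => h.trans hc.symm⟩

end Pool.Agent.Helper97.MX
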