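import Mathlib
import Pool.Agent.Helper97.MX.St

/-!
# Project MX: module W3 (children of a node)
-/

set_option autoImplicit false

namespace Pool.Agent.Helper97.MX

open Finset Classical
open scoped Pointwise

private theorem vc_eq_W3 (P : Par) (hP : P.OK) {x y : ℕ} (hx : x ∈ P.D) (hy : y ∈ P.D)
    (h : P.past P.t x y) {i : ℕ} (hi : i < P.t) : P.vc i x = P.vc i y := by
  have hH := hP.H x hx y hy h
  have hx0 : x ≠ 0 := (hP.base.pos x hx).ne'
  have hy0 : y ≠ 0 := (hP.base.pos y hy).ne'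
  have hcx : (P.c x).natAbs ≠ 0 := Int.natAbs_ne_zero.mpr (hP.c0 x hx)
  have hcy : (P.c y).natAbs ≠ 0 := Int.natAbs_ne_zero.mpr (hP.c0 y hy)
  have h1 : x * (P.c y).natAbs = y * (P.c x).natAbs := by
    have := congrArg Int.natAbs hH
    rwa [Int.natAbs_mul, Int.natAbs_mul, Int.natAbs_natCast, Int.natAbs_natCast] at this
  have h2 := congrArg (fun n => n.factorization (P.q i)) h1
  simp only [Nat.factorization_mul hx0 hcy, Nat.factorization_mul hy0 hcx, Finsupp.add_apply] at h2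
  have h3 : P.v i x = P.v i y := h i hi
  unfold Par.v at h3
  unfold Par.vc
  omega

private theorem Md_eq_W3 (P : Par) (hP : P.OK) (ℓ : List ℕ) {x y : ℕ} (hx : x ∈ P.D)
    (hy : y ∈ P.D) (h : P.past P.t x y) : P.Md ℓ x = P.Md ℓ y := by
  unfold Par.Md
  refine prod_congr rfl ?_
  intro i hi
  rw [mem_range] at hi
  rw [h i hi, vc_eq_W3 P hP hx hy h hi]

private theorem lev_mono_W3 {a a' : ℕ} (h : a ≤ a') (e w : ℕ) : Par.lev a e w ≤ Par.lev a' e w := by
  unfold Par.lev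
  split_ifs <;> omega

private theorem Md_dvd_W3 (P : Par) (k : ℕ) (ℓ : List ℕ) (x : ℕ) :
    P.Md ℓ x ∣ P.Md (k :: ℓ) x := by
  unfold Par.Md
  refine prod_dvd_prod_of_dvd _ _ ?_
  intro i _
  refine pow_dvd_pow _ (lev_mono_W3 ?_ _ _)
  exact List.count_le_count_cons

theorem hW3 (hCNG : StCNG) : StW3 := by
  intro P hP k ℓ x0 hx0 T hT h1 h2
  unfold Par.W
  rw [← Nat.cast_sum]
  refine Nat.cast_le.mpr ?_
  rw [← card_biUnion]
  · refine card_le_card ?_
    intro w hw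
    rw [mem_biUnion] at hw
    obtain ⟨x, hx, hw⟩ := hw
    rw [mem_filter] at hw ⊢
    obtain ⟨hp, hm⟩ := h1 x hx
    have hxD := hT hx
    refine ⟨hw.1, ?_⟩
    have e1 : P.Md ℓ x = P.Md ℓ x0 := Md_eq_W3 P hP ℓ hxD hx0 hp
    have e2 := (hCNG P hP ℓ x hxD x0 hx0 hp).mp hm
    have e3 : P.c w ≡ P.c x [ZMOD (P.Md ℓ x : ℤ)] :=
      hw.2.of_dvd (Int.natCast_dvd_natCast.mpr (Md_dvd_W3 P k ℓ x))
    rw [← e1]
    exact e3.trans e2
  · intro x hx y hy hne
    rw [Function.onFun, disjoint_left]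
    intro w hw1 hw2
    rw [mem_filter] at hw1 hw2
    have hxy : P.past P.t x y := fun i hi =>
      ((h1 x hx).1 i hi).trans ((h1 y hy).1 i hi).symm
    have e1 : P.Md (k :: ℓ) x = P.Md (k :: ℓ) y := Md_eq_W3 P hP _ (hT hx) (hT hy) hxy
    have h3 := hw2.2
    rw [← e1] at h3
    exact hne (h2 x hx y hy ((hCNG P hP (k :: ℓ) x (hT hx) y (hT hy) hxy).mpr
      (hw1.2.symm.trans h3)))

end Pool.Agent.Helper97.MX
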