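import Mathlib
import Pool.Agent.Helper97.MX.St
import Pool.Agent.Helper97.MX.M_KR
import Pool.Agent.Helper97.MX.M_AG
import Pool.Agent.Helper97.MX.M_MD
import Pool.Agent.Helper97.MX.M_VZ
import Pool.Agent.Helper97.MX.M_AVG
import Pool.Agent.Helper97.MX.M_P1H
import Pool.Agent.Helper97.MX.M_P1S
import Pool.Agent.Helper97.MX.M_PO1
import Pool.Agent.Helper97.MX.M_P1K
import Pool.Agent.Helper97.MX.M_T2A
import Pool.Agent.Helper97.MX.M_PG
import Pool.Agent.Helper97.MX.M_ZP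
import Pool.Agent.Helper97.MX.M_P1C
import Pool.Agent.Helper97.MX.M_T3A
import Pool.Agent.Helper97.MX.M_P1T
import Pool.Agent.Helper97.MX.M_CNG
import Pool.Agent.Helper97.MX.M_W1
import Pool.Agent.Helper97.MX.M_W2
import Pool.Agent.Helper97.MX.M_W3
import Pool.Agent.Helper97.MX.M_P2S
import Pool.Agent.Helper97.MX.M_PO2
import Pool.Agent.Helper97.MX.M_P2K
import Pool.Agent.Helper97.MX.M_P2P
import Pool.Agent.Helper97.MX.M_P2B
import Pool.Agent.Helper97.MX.M_P2T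
import Pool.Agent.Helper97.MX.M_ADD
import Pool.Agent.Helper97.MX.M_EVC
import Pool.Agent.Helper97.MX.M_SGL
import Pool.Agent.Helper97.MX.M_CHN
import Pool.Agent.Helper97.MX.M_STR
import Pool.Agent.Helper97.MX.M_KAP
import Pool.Agent.Helper97.MX.M_PAR
import Pool.Agent.Helper97.MX.M_SUMA
import Pool.Agent.Helper97.MX.M_ENU
import Pool.Agent.Helper97.MX.M_SGN
import Pool.Agent.Helper97.MX.M_LRG
import Pool.Agent.Helper97.MX.M_THA
import Pool.Agent.Helper97.MX.M_PKS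
import Pool.Agent.Helper97.MX.M_PO3
import Pool.Agent.Helper97.MX.M_PKK
import Pool.Agent.Helper97.MX.M_PCP
import Pool.Agent.Helper97.MX.M_PA1
import Pool.Agent.Helper97.MX.M_PA2
import Pool.Agent.Helper97.MX.M_PTL
import Pool.Agent.Helper97.MX.M_PRD
import Pool.Agent.Helper97.MX.M_CPE
import Pool.Agent.Helper97.MX.M_EMB
import Pool.Agent.Helper97.MX.M_THC

set_option autoImplicit false

namespace Pool.Agent.Helper97.MX

theorem fKR : StKR := hKR 
theorem fAG : StAG := hAG 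
theorem fMD : StMD := hMD 
theorem fVZ : StVZ := hVZ 
theorem fAVG : StAVG := hAVG 
theorem fP1H : StP1H := hP1H fVZ
theorem fP1S : StP1S := hP1S fP1H
theorem fPO1 : StPO1 := hPO1 
theorem fP1K : StP1K := hP1K fKR fP1S fPO1
theorem fT2A : StT2A := hT2A fAVG
theorem fPG : StPG := hPG 
theorem fZP : StZP := hZP fMD
theorem fP1C : StP1C := hP1C fPG fZP
theorem fT3A : StT3A := hT3A fAVG fMD fPG
theorem fP1T : StP1T := hP1T fP1C fT2A fT3A fPG
theorem fCNG : StCNG := hCNG 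
theorem fW1 : StW1 := hW1 
theorem fW2 : StW2 := hW2 fCNG
theorem fW3 : StW3 := hW3 fCNG
theorem fP2S : StP2S := hP2S fW1 fW2 fW3
theorem fPO2 : StPO2 := hPO2 fW1
theorem fP2K : StP2K := hP2K fKR fW2 fP2S fPO2
theorem fP2P : StP2P := hP2P fW1 fW2 fW3
theorem fP2B : StP2B := hP2B fW1
theorem fP2T : StP2T := hP2T fP2P fP2B fPO2 fW1
theorem fADD : StADD := hADD fAG fKR fP1K fPO1 fP1T fP2K fPO2 fP2T
theorem fEVC : StEVC := hEVC fW1
theorem fSGL : StSGL := hSGL fW1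
theorem fCHN : StCHN := hCHN fSGL fEVC
theorem fSTR : StSTR := hSTR 
theorem fKAP : StKAP := hKAP 
theorem fPAR : StPAR := hPAR 
theorem fSUMA : StSUMA := hSUMA fPAR fKAP fSTR fCHN fADD
theorem fENU : StENU := hENU 
theorem fSGN : StSGN := hSGN 
theorem fLRG : StLRG := hLRG 
theorem fTHA : StTHA := hTHA fSUMA fENU fSGN
theorem fPKS : StPKS := hPKS 
theorem fPO3 : StPO3 := hPO3 
theorem fPKK : StPKK := hPKK fKR fPKS fPO3
theorem fPCP : StPCP := hPCP 
theorem fPA1 : StPA1 := hPA1 fAVG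
theorem fPA2 : StPA2 := hPA2 fAVG
theorem fPTL : StPTL := hPTL 
theorem fPRD : StPRD := hPRD fAG fKR fPKK fPO3 fPCP fPA1 fPA2 fPTL
theorem fCPE : StCPE := hCPE 
theorem fEMB : StEMB := hEMB 
theorem fTHC : StTHC := hTHC fTHA fPRD fCPE fLRG fSGN fEMB

end Pool.Agent.Helper97.MX
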