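import Mathlib
import Pool.Agent.Helper97.MX.St

set_option autoImplicit false

namespace Pool.Agent.Helper97.MX

open Finset Classical
open scoped Pointwise

private theorem ind_P2T (hP2P : StP2P) (hP2B : StP2B) (hPO2 : StPO2) (hW1 : StW1)
    (P : Par) (Θ g p0 : ℝ) (hOK : P.OK) (hΘ : 2 < Θ) (hg : 0 < g) (hg4 : g ≤ 1 / 4) (hp : 0 < p0)
    (C : ℝ) (hC : C = 2 * (2 * g + 1 / Real.log Θ) + p0 * (Θ * Real.log (1 / g) + 2)) :
    ∀ (ℓ : List ℕ), P.Good Θ p0 ℓ →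
      ∑ x ∈ P.D, ∑ y ∈ P.D, Real.log (1 / P.Phi2 Θ g ℓ x y) ≤
        P.n * C * ∑ x ∈ P.D, (Real.log P.n - Real.log (P.W ℓ x)) := by
  intro ℓ
  induction ℓ with
  | nil =>
    intro _
    have h1 : ∑ x ∈ P.D, ∑ y ∈ P.D, Real.log (1 / P.Phi2 Θ g [] x y) = 0 := by
      refine sum_eq_zero fun x _ => sum_eq_zero fun y _ => ?_
      simp [Par.Phi2]
    have h2 : ∑ x ∈ P.D, (Real.log P.n - Real.log (P.W [] x)) = 0 := by
      refine sum_eq_zero fun x hx => ?_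
      rw [(hW1 P x hx []).2.2.1, sub_self]
    rw [h1, h2, mul_zero]
  | cons k ℓ ih =>
    intro hG
    obtain ⟨hk, hG', hev⟩ := hG
    have h1 := ih hG'
    have h2 : ∀ x ∈ P.D, ∀ y ∈ P.D, Real.log (1 / P.Phi2 Θ g (k :: ℓ) x y) =
        Real.log (1 / P.Phi2 Θ g ℓ x y) + Real.log (1 / P.phi2 Θ g k ℓ x y) := by
      intro x hx y hy
      obtain ⟨h3, h4⟩ := hPO2 P Θ g hg (by linarith) ℓ x y hx hy
      have h5 := h3 k
      simp only [Par.Phi2]
      rw [← Real.log_mul (by positivity) (by positivity)]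
      congr 1
      field_simp
    have h3 : ∑ x ∈ P.D, ∑ y ∈ P.D, Real.log (1 / P.Phi2 Θ g (k :: ℓ) x y) =
        ∑ x ∈ P.D, ∑ y ∈ P.D, Real.log (1 / P.Phi2 Θ g ℓ x y) +
        ∑ x ∈ P.D, ∑ y ∈ P.D, Real.log (1 / P.phi2 Θ g k ℓ x y) := by
      rw [← sum_add_distrib]
      refine sum_congr rfl fun x hx => ?_
      rw [← sum_add_distrib]
      exact sum_congr rfl fun y hy => h2 x hx y hy
    have h4 : ∑ x ∈ P.D, ∑ y ∈ P.D, Real.log (1 / P.phi2 Θ g k ℓ x y) ≤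
        ∑ x ∈ P.D, ∑ y ∈ P.D, ((if P.ev Θ k ℓ x ∧ P.ev Θ k ℓ y then
        Real.log (1 / g) + P.iota k ℓ x + P.iota k ℓ y else 0) +
        (2 * g + 1 / Real.log Θ) * (P.iota k ℓ x + P.iota k ℓ y)) :=
      sum_le_sum fun x hx => sum_le_sum fun y hy => hP2P P Θ g hOK hΘ hg hg4 k hk ℓ x hx y hy
    have h5 := hP2B P Θ g p0 hOK.base.ne (by linarith) hg (by linarith) hp k ℓ hev
    have h6 : ∑ x ∈ P.D, ∑ y ∈ P.D, (2 * g + 1 / Real.log Θ) * (P.iota k ℓ x + P.iota k ℓ y) =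
        (2 * g + 1 / Real.log Θ) * (2 * P.n * ∑ x ∈ P.D, P.iota k ℓ x) := by
      simp_rw [← mul_sum, sum_add_distrib, sum_const, nsmul_eq_mul]
      rw [← mul_sum]
      unfold Par.n
      ring
    have h7 : ∑ x ∈ P.D, (Real.log P.n - Real.log (P.W (k :: ℓ) x)) =
        ∑ x ∈ P.D, (Real.log P.n - Real.log (P.W ℓ x)) + ∑ x ∈ P.D, P.iota k ℓ x := by
      rw [← sum_add_distrib]
      refine sum_congr rfl fun x _ => ?_
      unfold Par.iota
      ring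
    rw [h3, h7]
    simp_rw [sum_add_distrib] at h4
    have h8 : P.n * C * ∑ x ∈ P.D, P.iota k ℓ x =
        p0 * P.n * (Θ * Real.log (1 / g) + 2) * ∑ x ∈ P.D, P.iota k ℓ x +
        (2 * g + 1 / Real.log Θ) * (2 * P.n * ∑ x ∈ P.D, P.iota k ℓ x) := by
      rw [hC]
      ring
    rw [mul_add, h8]
    linarith

theorem hP2T (hP2P : StP2P) (hP2B : StP2B) (hPO2 : StPO2) (hW1 : StW1) : StP2T := by
  intro P Θ g p0 hOK hΘ hg hg4 hp ℓ hG
  obtain ⟨C, hC⟩ : ∃ C : ℝ, C = 2 * (2 * g + 1 / Real.log Θ) +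
    p0 * (Θ * Real.log (1 / g) + 2) := ⟨_, rfl⟩
  have hC0 : 0 ≤ C := by
    have h1 : 0 < Real.log Θ := Real.log_pos (by linarith)
    have h2 : 0 ≤ Real.log (1 / g) := by
      apply Real.log_nonneg
      rw [le_div_iff₀ hg]
      linarith
    rw [hC]
    have h3 : 0 < Θ := by linarith
    positivity
  have hn : 0 ≤ P.n := Nat.cast_nonneg _
  refine (ind_P2T hP2P hP2B hPO2 hW1 P Θ g p0 hOK hΘ hg hg4 hp C hC ℓ hG).trans ?_
  rw [← hC]
  have h1 : ∑ x ∈ P.D, (Real.log P.n - Real.log (P.W ℓ x)) ≤ P.n * Real.log P.n := by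
    calc ∑ x ∈ P.D, (Real.log P.n - Real.log (P.W ℓ x)) ≤ ∑ x ∈ P.D, Real.log P.n := by
          refine sum_le_sum fun x hx => ?_
          have := Real.log_nonneg (hW1 P x hx ℓ).1
          linarith
      _ = P.n * Real.log P.n := by
          rw [sum_const, nsmul_eq_mul]
          rfl
  calc P.n * C * ∑ x ∈ P.D, (Real.log P.n - Real.log (P.W ℓ x))
      ≤ P.n * C * (P.n * Real.log P.n) := mul_le_mul_of_nonneg_left h1 (by positivity)
    _ = P.n ^ 2 * (C * Real.log P.n) := by ring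

end Pool.Agent.Helper97.MX
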