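import Mathlib
import Pool.Agent.Helper97.MX.St

set_option autoImplicit false

namespace Pool.Agent.Helper97.MX

open Finset Classical
open scoped Pointwise

private theorem pr_nonneg_PKS (P : Par) (k x b : ℕ) : 0 ≤ P.pr k x b := by
  unfold Par.pr
  positivity

private theorem pr_sum_PKS (P : Par) (k x : ℕ) (S : Finset ℕ) : ∑ b ∈ S, P.pr k x b ≤ 1 := by
  unfold Par.pr
  rw [← Finset.sum_div]
  have h1 : ∑ b ∈ S, (#((P.grp k x).filter (fun y => P.v k y = b)) : ℝ) ≤ #(P.grp k x) := by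
    rw [← Nat.cast_sum]
    have h2 : ∑ b ∈ S, #((P.grp k x).filter (fun y => P.v k y = b)) ≤ #(P.grp k x) := by
      rw [← Finset.card_biUnion]
      · refine Finset.card_le_card ?_
        intro y hy
        rw [Finset.mem_biUnion] at hy
        obtain ⟨b, _, hb⟩ := hy
        exact (Finset.mem_filter.1 hb).1
      · intro b _ b' _ hbb'
        rw [Function.onFun, Finset.disjoint_left]
        intro y hy hy'
        exact hbb' ((Finset.mem_filter.1 hy).2.symm.trans (Finset.mem_filter.1 hy').2)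
    exact_mod_cast h2
  exact div_le_one_of_le₀ h1 (by positivity)

private theorem pr_sum2_PKS (P : Par) (k x a : ℕ) (S : Finset ℕ) (ha : a ∉ S) :
    ∑ b ∈ S, P.pr k x b ≤ 1 - P.pr k x a := by
  have := pr_sum_PKS P k x (insert a S)
  rw [Finset.sum_insert ha] at this
  linarith

private theorem one_PKS (T : Finset (ℕ × ℕ)) (φ : ℕ × ℕ → ℕ)
    (hφ : ∀ p ∈ T, ∀ p' ∈ T, φ p = φ p' → p = p') (a : ℕ) (C : ℝ) (hC : 0 ≤ C) :
    ∑ p ∈ T, (if φ p = a then C else 0) ≤ C := by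
  rw [← Finset.sum_filter, Finset.sum_const, nsmul_eq_mul]
  have h1 : #(T.filter (fun p => φ p = a)) ≤ 1 := by
    rw [Finset.card_le_one]
    intro p hp p' hp'
    rw [Finset.mem_filter] at hp hp'
    exact hφ p hp.1 p' hp'.1 (hp.2.trans hp'.2.symm)
  have h2 : (#(T.filter (fun p => φ p = a)) : ℝ) ≤ 1 := by exact_mod_cast h1
  nlinarith

private theorem img_PKS (P : Par) (k x : ℕ) (T : Finset (ℕ × ℕ)) (φ : ℕ × ℕ → ℕ)
    (hφ : ∀ p ∈ T, ∀ p' ∈ T, φ p = φ p' → p = p') :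
    ∑ p ∈ T, P.pr k x (φ p) = ∑ b ∈ T.image φ, P.pr k x b := by
  rw [Finset.sum_image]
  intro p hp p' hp' h
  exact hφ p hp p' hp' h

private theorem rest_PKS (P : Par) (k x a : ℕ) (T : Finset (ℕ × ℕ)) (φ : ℕ × ℕ → ℕ)
    (hφ : ∀ p ∈ T, ∀ p' ∈ T, φ p = φ p' → p = p') (τ : ℝ) (hτ : 0 < τ) :
    ∑ p ∈ T, (if φ p ≠ a then τ * P.pr k x (φ p) else 0) ≤ τ * (1 - P.pr k x a) := by
  rw [← Finset.sum_filter, ← Finset.mul_sum]
  refine mul_le_mul_of_nonneg_left ?_ hτ.le
  rw [img_PKS P k x _ φ fun p hp p' hp' h =>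
    hφ p (Finset.mem_filter.1 hp).1 p' (Finset.mem_filter.1 hp').1 h]
  refine pr_sum2_PKS P k x a _ ?_
  intro h
  obtain ⟨p, hp, hpa⟩ := Finset.mem_image.1 h
  exact (Finset.mem_filter.1 hp).2 hpa

theorem hPKS : StPKS := by
  intro P τ t0 a hτ hτ1 k s T hT hpast hinj
  rcases T.eq_empty_or_nonempty with hemp | ⟨p0, hp0⟩
  · subst hemp
    simp
  have hgrp : ∀ x y : ℕ, P.past k x y → P.grp k x = P.grp k y := by
    intro x y hxy
    unfold Par.grp
    refine Finset.filter_congr fun z _ => ?_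
    constructor
    · intro h i hi
      exact (h i hi).trans (hxy i hi)
    · intro h i hi
      exact (h i hi).trans (hxy i hi).symm
  have hpr1 : ∀ p ∈ T, ∀ b, P.pr k p.1 b = P.pr k p0.1 b := by
    intro p hp b
    unfold Par.pr
    rw [hgrp _ _ (hpast p hp p0 hp0).1]
  have hpr2 : ∀ p ∈ T, ∀ b, P.pr k p.2 b = P.pr k p0.2 b := by
    intro p hp b
    unfold Par.pr
    rw [hgrp _ _ (hpast p hp p0 hp0).2]
  have hi2 : ∀ p ∈ T, ∀ p' ∈ T, P.v k p.2 = P.v k p'.2 → p = p' := by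
    intro p hp p' hp' h
    refine hinj p hp p' hp' ?_
    have h1 := (hT p hp).2.2
    have h2 := (hT p' hp').2.2
    omega
  have hu0 : 0 ≤ 1 - P.pr k p0.1 (a k) := by
    have := pr_sum_PKS P k p0.1 {a k}
    rw [Finset.sum_singleton] at this
    linarith
  have hu1 : 1 - P.pr k p0.1 (a k) ≤ 1 := by
    have := pr_nonneg_PKS P k p0.1 (a k)
    linarith
  by_cases c1 : t0 < 1 - P.pr k p0.1 (a k)
  · have e : ∑ p ∈ T, P.psi τ t0 a k p.1 p.2 = ∑ p ∈ T, P.pr k p0.2 (P.v k p.2) := by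
      refine Finset.sum_congr rfl fun p hp => ?_
      rw [Par.psi, hpr1 p hp, if_pos c1, hpr2 p hp]
    rw [e, img_PKS P k p0.2 T (fun p => P.v k p.2) hi2]
    exact pr_sum_PKS P k p0.2 _
  by_cases c2 : t0 < 1 - P.pr k p0.2 (a k)
  · have e : ∑ p ∈ T, P.psi τ t0 a k p.1 p.2 = ∑ p ∈ T, P.pr k p0.1 (P.v k p.1) := by
      refine Finset.sum_congr rfl fun p hp => ?_
      rw [Par.psi, hpr1 p hp, if_neg c1, hpr2 p hp, if_pos c2, hpr1 p hp]
    rw [e, img_PKS P k p0.1 T (fun p => P.v k p.1) hinj]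
    exact pr_sum_PKS P k p0.1 _
  have e : ∀ p ∈ T, P.psi τ t0 a k p.1 p.2 =
      if P.v k p.1 = a k ∧ P.v k p.2 = a k then 1 - τ * (1 - P.pr k p0.1 (a k))
      else if P.v k p.1 = a k ∨ P.v k p.2 = a k then (1 - τ) / 2
      else τ * P.pr k p0.1 (P.v k p.1) := by
    intro p hp
    rw [Par.psi, hpr1 p hp, if_neg c1, hpr2 p hp, if_neg c2, hpr1 p hp]
  have hR := rest_PKS P k p0.1 (a k) T (fun p => P.v k p.1) hinj τ hτ
  have hτu : 0 ≤ 1 - τ * (1 - P.pr k p0.1 (a k)) := by nlinarith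
  by_cases hs : s = 2 * a k
  · have h1 := one_PKS T (fun p => P.v k p.1) hinj (a k) (1 - τ * (1 - P.pr k p0.1 (a k))) hτu
    have h2 : ∑ p ∈ T, P.psi τ t0 a k p.1 p.2 ≤
        ∑ p ∈ T, ((if P.v k p.1 = a k then (1 - τ * (1 - P.pr k p0.1 (a k))) else 0) +
          (if P.v k p.1 ≠ a k then τ * P.pr k p0.1 (P.v k p.1) else 0)) := by
      refine Finset.sum_le_sum fun p hp => ?_
      rw [e p hp]
      have h3 := (hT p hp).2.2
      by_cases h4 : P.v k p.1 = a k
      · have h5 : P.v k p.2 = a k := by omega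
        rw [if_pos ⟨h4, h5⟩, if_pos h4, if_neg (not_not.2 h4), add_zero]
      · have h5 : P.v k p.2 ≠ a k := by omega
        rw [if_neg (fun h => h4 h.1), if_neg (not_or.2 ⟨h4, h5⟩), if_neg h4, if_pos h4, zero_add]
    rw [Finset.sum_add_distrib] at h2
    linarith
  · have h1 := one_PKS T (fun p => P.v k p.1) hinj (a k) ((1 - τ) / 2) (by linarith)
    have h1' := one_PKS T (fun p => P.v k p.2) hi2 (a k) ((1 - τ) / 2) (by linarith)
    have h2 : ∑ p ∈ T, P.psi τ t0 a k p.1 p.2 ≤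
        ∑ p ∈ T, ((if P.v k p.1 = a k then (1 - τ) / 2 else 0) +
          (if P.v k p.2 = a k then (1 - τ) / 2 else 0) +
          (if P.v k p.1 ≠ a k then τ * P.pr k p0.1 (P.v k p.1) else 0)) := by
      refine Finset.sum_le_sum fun p hp => ?_
      rw [e p hp]
      have h3 := (hT p hp).2.2
      have h6 : 0 ≤ τ * P.pr k p0.1 (P.v k p.1) := mul_nonneg hτ.le (pr_nonneg_PKS _ _ _ _)
      by_cases h4 : P.v k p.1 = a k
      · have h5 : P.v k p.2 ≠ a k := by omega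
        rw [if_neg (fun h => h5 h.2), if_pos (Or.inl h4), if_pos h4, if_neg h5,
          if_neg (not_not.2 h4), add_zero, add_zero]
      · by_cases h5 : P.v k p.2 = a k
        · rw [if_neg (fun h => h4 h.1), if_pos (Or.inr h5), if_neg h4, if_pos h5, if_pos h4]
          linarith
        · rw [if_neg (fun h => h4 h.1), if_neg (not_or.2 ⟨h4, h5⟩), if_neg h4, if_neg h5,
            if_pos h4, zero_add, zero_add]
    rw [Finset.sum_add_distrib, Finset.sum_add_distrib] at h2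
    nlinarith

end Pool.Agent.Helper97.MX
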