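import Mathlib
import Pool.Agent.Helper97.MX.St

set_option autoImplicit false

namespace Pool.Agent.Helper97.MX

open Finset Classical
open scoped Pointwise

theorem hZP (hMD : StMD) : StZP := by
  intro P Θ hP hΘ k hk x hx y hy hxy
  have hy0 : 0 < y := hP.pos y hy
  set M := P.mL k x y with hM
  set q := P.q k with hq
  set b := P.v k y with hb
  set a := P.v k x with ha
  have hdvd : ∀ j ≤ b, M * q ^ j ∣ y := fun j hj => (hMD P hP).1 k hk x y j hy0 hj
  have hC : ∀ j ≤ b, P.cnt (x + y) (M * q ^ j) = P.cnt x (M * q ^ j) := by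
    intro j hj
    unfold Par.cnt
    congr 2
    apply Finset.filter_congr
    intro w _
    have h1 : x + y ≡ x [MOD M * q ^ j] := by
      have := (Nat.modEq_zero_iff_dvd.2 (hdvd j hj))
      simpa using Nat.ModEq.add_left x this
    exact ⟨fun h => h.trans h1, fun h => h.trans h1.symm⟩
  have hpos : ∀ N, 1 ≤ P.cnt x N := by
    intro N
    unfold Par.cnt
    have : 0 < #(P.D.filter (fun y => y ≡ x [MOD N])) :=
      Finset.card_pos.2 ⟨x, Finset.mem_filter.2 ⟨hx, Nat.ModEq.refl _⟩⟩
    exact_mod_cast this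
  have hmono : ∀ j, P.cnt x (M * q ^ (j + 1)) ≤ P.cnt x (M * q ^ j) := by
    intro j
    unfold Par.cnt
    have : P.D.filter (fun y => y ≡ x [MOD M * q ^ (j + 1)]) ⊆
        P.D.filter (fun y => y ≡ x [MOD M * q ^ j]) := by
      intro w hw
      rw [Finset.mem_filter] at hw ⊢
      refine ⟨hw.1, hw.2.of_dvd ?_⟩
      exact Nat.mul_dvd_mul_left _ (pow_dvd_pow _ (Nat.le_succ _))
    exact_mod_cast Finset.card_le_card this
  have h1Θ : 0 < 1 - 1 / Θ := by
    have : 1 / Θ < 1 := by rw [div_lt_one (by linarith)]; exact hΘ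
    linarith
  have key : ∀ j ≤ b, P.cnt x (M * q ^ j) ≤
      (1 - 1 / Θ) ^ (#((Ioo a j).filter (fun i => P.zev Θ k (x + y) M i))) *
        P.cnt x (M * q ^ 0) := by
    intro j
    induction j with
    | zero => intro _; simp
    | succ j ih =>
      intro hj
      have ih' := ih (by omega)
      by_cases hev : a < j ∧ P.zev Θ k (x + y) M j
      · have hins : (Ioo a (j + 1)).filter (fun i => P.zev Θ k (x + y) M i) =
            insert j ((Ioo a j).filter (fun i => P.zev Θ k (x + y) M i)) := by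
          ext i
          simp only [Finset.mem_filter, Finset.mem_Ioo, Finset.mem_insert]
          constructor
          · rintro ⟨⟨h1, h2⟩, h3⟩
            rcases Nat.lt_succ_iff_lt_or_eq.1 h2 with h | h
            · right; exact ⟨⟨h1, h⟩, h3⟩
            · left; exact h
          · rintro (h | ⟨⟨h1, h2⟩, h3⟩)
            · subst h; exact ⟨⟨hev.1, Nat.lt_succ_self _⟩, hev.2⟩
            · exact ⟨⟨h1, by omega⟩, h3⟩
        rw [hins, Finset.card_insert_of_notMem (by simp), pow_succ]
        have h2 : P.cnt x (M * q ^ (j + 1)) < (1 - 1 / Θ) * P.cnt x (M * q ^ j) := by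
          have := hev.2
          unfold Par.zev at this
          rw [← hq, hC (j + 1) hj, hC j (by omega)] at this
          exact this
        calc P.cnt x (M * q ^ (j + 1)) ≤ (1 - 1 / Θ) * P.cnt x (M * q ^ j) := h2.le
          _ ≤ (1 - 1 / Θ) * ((1 - 1 / Θ) ^
              (#((Ioo a j).filter (fun i => P.zev Θ k (x + y) M i))) *
              P.cnt x (M * q ^ 0)) := mul_le_mul_of_nonneg_left ih' h1Θ.le
          _ = _ := by ring
      · have hins : (Ioo a (j + 1)).filter (fun i => P.zev Θ k (x + y) M i) =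
            (Ioo a j).filter (fun i => P.zev Θ k (x + y) M i) := by
          ext i
          simp only [Finset.mem_filter, Finset.mem_Ioo]
          constructor
          · rintro ⟨⟨h1, h2⟩, h3⟩
            rcases Nat.lt_succ_iff_lt_or_eq.1 h2 with h | h
            · exact ⟨⟨h1, h⟩, h3⟩
            · subst h; exact absurd ⟨h1, h3⟩ hev
          · rintro ⟨⟨h1, h2⟩, h3⟩
            exact ⟨⟨h1, by omega⟩, h3⟩
        rw [hins]
        exact (hmono j).trans ih'
  have hkey := key b le_rfl
  have hL : P.mL (k + 1) x y = M * q ^ b := by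
    unfold Par.mL
    rw [Finset.prod_range_succ, if_pos hxy]
    rfl
  have hprog : P.prog k x y = Real.log (P.cnt x (M * q ^ 0)) - Real.log (P.cnt x (M * q ^ b)) := by
    unfold Par.prog
    rw [hL, ← hM]
    simp
  rw [hprog]
  change ((#((Ioo a b).filter (fun i => P.zev Θ k (x + y) M i)) : ℕ) : ℝ) ≤ _
  set N := #((Ioo a b).filter (fun i => P.zev Θ k (x + y) M i)) with hN
  have hc0 : 0 < P.cnt x (M * q ^ 0) := lt_of_lt_of_le one_pos (hpos _)
  have hcb : 0 < P.cnt x (M * q ^ b) := lt_of_lt_of_le one_pos (hpos _)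
  have hlog : Real.log (P.cnt x (M * q ^ b)) ≤
      N * Real.log (1 - 1 / Θ) + Real.log (P.cnt x (M * q ^ 0)) := by
    have := Real.log_le_log hcb hkey
    rwa [Real.log_mul (pow_pos h1Θ _).ne' hc0.ne', Real.log_pow] at this
  have hl : Real.log (1 - 1 / Θ) ≤ -(1 / Θ) := by
    have := Real.log_le_sub_one_of_pos h1Θ
    linarith
  have hN0 : (0 : ℝ) ≤ N := Nat.cast_nonneg _
  have h3 : (N : ℝ) * Real.log (1 - 1 / Θ) ≤ -(N / Θ) := by
    have := mul_le_mul_of_nonneg_left hl hN0
    calc (N : ℝ) * Real.log (1 - 1 / Θ) ≤ N * (-(1 / Θ)) := this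
      _ = -(N / Θ) := by ring
  have h4 : (N : ℝ) / Θ ≤ Real.log (P.cnt x (M * q ^ 0)) - Real.log (P.cnt x (M * q ^ b)) := by
    linarith
  have hΘ0 : 0 < Θ := by linarith
  calc (N : ℝ) = Θ * (N / Θ) := by field_simp
    _ ≤ _ := mul_le_mul_of_nonneg_left h4 hΘ0.le

end Pool.Agent.Helper97.MX
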